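import Pool.Agent.GQ.Cor
import Pool.Agent.GG.Fin

/-!
# GQ Fin: the theorem for singular varieties of general type

`exists_R_sing`: for every projective variety of general type, singular allowed, with symmetric differentials in polar position, one hypersurface section contains all
arcs with constants `c ≠ 0`.
-/

set_option autoImplicit false

open MvPolynomial Topology Filter Metric
open Pool.Agent.H13.SM (conTan cone)
open Pool.Agent.H17 (PN VanishesAt)
open Pool.Agent.H17BP (vanishesAt_mk)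
open Pool.Agent.H17LG.Variety (FunField ratio PoleAtMost IsLogGeneralType)
open Pool.Agent.H62.FC (Homog)
open Pool.Agent.H68.KR (hmz hmz_isHomogeneous)
open Pool.Agent.GG

noncomputable section

namespace Pool.Agent.GQ

variable {N : ℕ} {P : Ideal (MvPolynomial (Fin (N + 1)) ℂ)} {J : ℕ} {m : Fin J → ℕ} {θ : ∀ k, SymSec P (m k)}

/-- The arcs with constants `c ≠ 0` lie in one hypersurface section. -/
theorem exists_R_sing [P.IsPrime] (hP : Homog P) (θ : ∀ k, SymSec P (m k)) (hθ : Polar θ) (hm : ∀ k, 1 ≤ m k) {n : ℕ}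
    (hdim : ∃ z : Fin (n + 1) → FunField P, IsTranscendenceBasis ℂ z) (hgt : IsLogGeneralType (K := FunField P) (k := n + 1) fun _ => False) :
    ∃ (R : MvPolynomial (Fin (N + 1)) ℂ) (e : ℕ), R.IsHomogeneous e ∧ R ∉ P ∧
      (∀ (c : Fin J → ℂ) (g : ℂ → PN N) (z : ℂ), c ≠ 0 → ArcAt θ c g z → VanishesAt R (g z)) ∧
      ∀ (f : Frame θ) (a : Fin (N + 1)) (I : Fin (N + 1) → (Unit ⊕ Unit) ⊕ (Fin f.q ⊕ Fin f.q) ⊕ Fin J) (c : Fin J → ℂ) (x v : Fin (N + 1) → ℂ),
        IsTan θ a c x v → v ≠ 0 → Crit (gfam f a) I (pt x v) → eval x R = 0 := by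
  classical
  obtain ⟨a, ha⟩ := exists_X_notMem (Nat.succ_le_succ (Nat.zero_le n)) hdim
  obtain ⟨f⟩ := exists_frame θ
  have h1 : ∀ p : (Fin (N + 1) → (Unit ⊕ Unit) ⊕ (Fin f.q ⊕ Fin f.q) ⊕ Fin J) × Fin (N + 1), ∃ (D : ℕ) (R : MvPolynomial (Fin (N + 1)) ℂ),
      R.IsHomogeneous D ∧ R ∉ P ∧ ∀ y : Fin (N + 1) → ℂ, y a ≠ 0 → ∀ v c, IsTan θ a c ((y a)⁻¹ • y) v → Crit (gfam f a) p.1 (pt ((y a)⁻¹ • y) v) →
        v p.2 ≠ 0 → eval y R = 0 := by
    rintro ⟨I, b⟩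
    obtain ⟨q, hq, h⟩ := core_sing hP hθ hm f hdim hgt ha I b
    refine ⟨q.totalDegree, hmz a q.totalDegree q, hmz_isHomogeneous a _ q, fun hR => hq ((Kd.hmz_mem hdim ha le_rfl).2 hR), fun y hy v c h1 h2 h3 => ?_⟩
    have h4 := Kd.aeval_hmz (G := q) (le_refl q.totalDegree) (y := y) (l := a) (mul_inv_cancel₀ hy)
    rw [MvPolynomial.aeval_eq_eval, MvPolynomial.aeval_eq_eval] at h4
    have h5 : eval (fun i => (y a)⁻¹ * y i) q = 0 := h _ v c h1 h2 h3
    rw [h4, h5, mul_zero]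
  choose D Rp hD hRP hRz using h1
  have hRh : (X a * ∏ p, Rp p).IsHomogeneous (1 + ∑ p, D p) :=
    (isHomogeneous_X ℂ a).mul (IsHomogeneous.prod _ _ _ fun p _ => hD p)
  have hRn : X a * ∏ p, Rp p ∉ P := by
    intro h
    rcases Ideal.IsPrime.mem_or_mem ‹P.IsPrime› h with h | h
    · exact ha h
    · obtain ⟨p, -, hp⟩ := (Ideal.IsPrime.prod_mem_iff (p := P)).1 h
      exact hRP p hp
  have harc : ∀ (c : Fin J → ℂ) (g : ℂ → PN N) (z : ℂ), c ≠ 0 → ArcAt θ c g z → VanishesAt (X a * ∏ p, Rp p) (g z) := by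
    intro c g z hc hg
    obtain ⟨F, hF, hr, -⟩ := id hg
    obtain ⟨hF0, hgz⟩ := hr.self_of_nhds
    rw [hgz, vanishesAt_mk hRh hF0, map_mul, eval_X]
    by_cases h1 : F z a = 0
    · rw [h1, zero_mul]
    obtain ⟨h3, h4⟩ := nArc_of_lift hP hg hF hr h1
    obtain ⟨h5, h6⟩ := arcV_of_nArc f h3
    set v := deriv (fun w => (F w a)⁻¹ • F w) z with hv
    have hv0 : v ≠ 0 := ne_zero_of_isTan hm h6 hc
    obtain ⟨b, hb⟩ : ∃ b, v b ≠ 0 := by
      by_contra hcon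
      push Not at hcon
      exact hv0 (funext hcon)
    obtain ⟨I, hI⟩ := exists_row hθ f h6 hv0
    have hcr : Crit (gfam f a) I (pt ((F z a)⁻¹ • F z) v) :=
      crit_of_arc (x := fun w => (F w a)⁻¹ • F w) (t := z) h5 hI
    have h7 : eval (F z) (Rp (I, b)) = 0 := hRz (I, b) (F z) h1 v c h6 hcr hb
    rw [map_prod, Finset.prod_eq_zero (Finset.mem_univ (I, b)) h7, mul_zero]
  refine ⟨_, _, hRh, hRn, harc, fun f' a' I c x v hT hv hcr => ?_⟩
  obtain ⟨y, hy, hy0⟩ := isInit_of_crit hcr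
  have hyx : y 0 = x := by
    funext i
    exact congrFun hy0 (Sum.inl i)
  have hN : NArc θ a' c y 0 := nArc_of_const f' hT hy.1 fun l => by
    filter_upwards [hy.2 l] with w hw
    rw [hw, hy0]
  have hx0 : x ≠ 0 := hT.1.1
  have hc : c ≠ 0 := by
    rintro rfl
    obtain ⟨r, hr⟩ := Submodule.mem_span_singleton.1 (no_common_zero hθ hm hT.1 hT.2.2.1 hT.2.2.2.2)
    have h5 : r * x a' = v a' := congrFun hr a'
    rw [hT.2.1, hT.2.2.2.1, mul_one] at h5
    rw [h5, zero_smul] at hr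
    exact hv hr.symm
  set g : ℂ → PN N := fun w => if h : y w ≠ 0 then Projectivization.mk ℂ (y w) h else Projectivization.mk ℂ x hx0 with hg
  have hr : Rep g y 0 := by
    filter_upwards [hN.2] with w hw
    exact ⟨hw.1.1, dif_pos hw.1.1⟩
  have hvan := harc c g 0 hc (arcAt_of_nArc hN hr)
  obtain ⟨h0, hg0⟩ := hr.self_of_nhds
  rw [hg0, vanishesAt_mk hRh h0, hyx] at hvan
  exact hvan

end Pool.Agent.GQ
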