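import Pool.Agent.GQ.Nmt

/-!
# GQ Chg: the equations and the equations of the singular points in another chart

Both are homogenisations (`exists_hom`): `Q (w) = w_a^M g (nm a w)` if `w_a ≠ 0`, and `Q (w) = 0` if `w_a = 0`.
-/

set_option autoImplicit false

open MvPolynomial Topology Filter Metric
open Pool.Agent.H13.SM (conTan cone)
open Pool.Agent.H17 (PN VanishesAt)
open Pool.Agent.H17LG.Variety (FunField ratio PoleAtMost IsLogGeneralType)
open Pool.Agent.H23.Fano (Form PrimeDivisorOver)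
open Pool.Agent.H62.FC (Homog)
open Pool.Agent.GG

noncomputable section

namespace Pool.Agent.GQ

variable {N : ℕ} {P : Ideal (MvPolynomial (Fin (N + 1)) ℂ)} [P.IsPrime] {L : Type} [Field L] [Algebra ℂ L] [Algebra (FunField P) L]

theorem rel_chg [IsScalarTower ℂ (FunField P) L] {n : ℕ} (hdim : ∃ z : Fin (n + 1) → FunField P, IsTranscendenceBasis ℂ z) (u : Derivation ℂ L L) {a b : Fin (N + 1)} (ha : X a ∉ P)
    (hb : X b ∉ P) : ∀ g ∈ rel (ph P u a), ∃ (M : ℕ), ∃ Q ∈ rel (ph P u b), ∀ w : Ph N → ℂ, w (Sum.inl b) = 1 → w (Sum.inr b) = 0 →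
      w (Sum.inl a) ≠ 0 → eval w Q = w (Sum.inl a) ^ M * eval (nm a w) g := by
  intro g hg
  obtain ⟨M, Q, h1, h2⟩ := exists_hom a g
  refine ⟨M, Q, ?_, fun w _ _ hw => ?_⟩
  · rw [mem_rel]
    by_cases h0 : ph P u b (Sum.inl a) = 0
    · exact h2 L _ h0
    · rw [h1 L _ h0, nm_ph hdim u hb ha, mem_rel.1 hg, mul_zero]
  · rw [← aeval_eq_eval, ← aeval_eq_eval]
    exact h1 ℂ w hw

theorem sgl_chg [IsScalarTower ℂ (FunField P) L] {n : ℕ} (hdim : ∃ z : Fin (n + 1) → FunField P, IsTranscendenceBasis ℂ z) (u : Derivation ℂ L L) {a b : Fin (N + 1)} (ha : X a ∉ P)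
    (hb : X b ∉ P) (k : ℕ) : ∀ g ∈ sgl (rel (ph P u a)) k, ∃ (M : ℕ), ∃ Q ∈ sgl (rel (ph P u b)) k, ∀ w : Ph N → ℂ, w (Sum.inl b) = 1 →
      w (Sum.inr b) = 0 → w (Sum.inl a) ≠ 0 → eval w Q = w (Sum.inl a) ^ M * eval (nm a w) g := by
  intro g hg
  obtain ⟨M, Q, h1, h2⟩ := exists_hom a g
  have h1' : ∀ w : Ph N → ℂ, w (Sum.inl a) ≠ 0 → eval w Q = w (Sum.inl a) ^ M * eval (nm a w) g := fun w hw => by
    rw [← aeval_eq_eval, ← aeval_eq_eval]
    exact h1 ℂ w hw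
  refine ⟨M, Q, fun w hw hk => ?_, fun w _ _ hw => h1' w hw⟩
  by_cases h0 : w (Sum.inl a) = 0
  · rw [← aeval_eq_eval]
    exact h2 ℂ w h0
  · rw [h1' w h0, hg (nm a w) (pt_nm hdim u hb ha hw h0) (by rwa [finrank_nm hdim u hb ha hw h0]), mul_zero]

end Pool.Agent.GQ
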