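import Pool.Agent.GQ.Defs

/-!
# GQ Jac: the singular points are invariant under a derivation which preserves the ideal

`sgl 𝔮 k` is the radical of the ideal `jid` generated by `𝔮` and the minors `det (∂_(j β) g_i)` of size `c = card τ - k`, `g_i ∈ 𝔮` (`k < card τ`), and
`D jid ⊆ jid` (`jac_comm`, `jac_det`, `jac_swap`); the radical of a stable ideal is stable (`jac_radical`: if `a^n ∈ I` then `(D a)^(2n-1) ∈ I`).
-/

set_option autoImplicit false

open MvPolynomial

noncomputable section

namespace Pool.Agent.GQ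

/-- the radical of a stable ideal is stable -/
theorem jac_radical {R : Type} [CommRing R] [Algebra ℂ R] (D : Derivation ℂ R R) (I : Ideal R) (hD : ∀ x ∈ I, D x ∈ I) :
    ∀ x ∈ I.radical, D x ∈ I.radical := by
  rintro a ⟨n, hn⟩
  have hdiv : ∀ (m : ℕ) (x : R), ((m + 1 : ℕ) : R) * x ∈ I → x ∈ I := by
    intro m x hx
    have h1 := I.mul_mem_left (algebraMap ℂ R (((m + 1 : ℕ) : ℂ)⁻¹)) hx
    have e : algebraMap ℂ R (((m + 1 : ℕ) : ℂ)⁻¹) * (((m + 1 : ℕ) : R) * x) = x := by
      rw [← mul_assoc, ← map_natCast (algebraMap ℂ R), ← map_mul, inv_mul_cancel₀ (by exact_mod_cast Nat.succ_ne_zero m), map_one, one_mul]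
    rwa [e] at h1
  rcases n with _ | n
  · exact ⟨0, by simpa using hn⟩
  have key : ∀ k m : ℕ, m + k = n → a ^ m * D a ^ (2 * k + 1) ∈ I := by
    intro k
    induction k with
    | zero =>
      intro m hm
      rw [add_zero] at hm
      subst hm
      refine hdiv m _ ?_
      have h1 := hD _ hn
      rw [Derivation.leibniz_pow] at h1
      convert h1 using 1
      rw [nsmul_eq_mul, smul_eq_mul, Nat.add_sub_cancel, mul_zero, zero_add, pow_one]
    | succ k ih =>
      intro m hm
      have h1 := ih (m + 1) (by omega)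
      have h2 := I.mul_mem_left (D a) (hD _ h1)
      have h3 := I.mul_mem_left (((2 * k + 1 : ℕ) : R) * D (D a)) h1
      refine hdiv m _ ?_
      have h4 := sub_mem h2 h3
      convert h4 using 1
      rw [Derivation.leibniz, Derivation.leibniz_pow, Derivation.leibniz_pow]
      simp only [nsmul_eq_mul, smul_eq_mul, Nat.add_sub_cancel]
      push_cast
      ring
  exact ⟨2 * n + 1, by simpa using key n 0 (zero_add n)⟩

section Det

variable {S : Type} [CommRing S] {I : Type}

private theorem jac_prod [Algebra ℂ S] [DecidableEq I] (θ : Derivation ℂ S S) (s : Finset I) (f : I → S) :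
    θ (∏ i ∈ s, f i) = ∑ i ∈ s, ∏ j ∈ s, Function.update f i (θ (f i)) j := by
  induction s using Finset.induction_on with
  | empty => simp
  | insert a s ha ih =>
    rw [Finset.prod_insert ha, Derivation.leibniz, ih, Finset.sum_insert ha, Finset.prod_insert ha, Function.update_self]
    have h1 : ∏ j ∈ s, Function.update f a (θ (f a)) j = ∏ j ∈ s, f j := by
      refine Finset.prod_congr rfl fun j hj => ?_
      rw [Function.update_of_ne]
      rintro rfl
      exact ha hj
    have h2 : ∑ i ∈ s, ∏ j ∈ insert a s, Function.update f i (θ (f i)) j = f a * ∑ i ∈ s, ∏ j ∈ s, Function.update f i (θ (f i)) j := by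
      rw [Finset.mul_sum]
      refine Finset.sum_congr rfl fun i hi => ?_
      rw [Finset.prod_insert ha, Function.update_of_ne]
      rintro rfl
      exact ha hi
    rw [h1, h2, smul_eq_mul, smul_eq_mul]
    ring

variable [Fintype I] [DecidableEq I]

/-- the derivative of a determinant -/
theorem jac_det [Algebra ℂ S] (θ : Derivation ℂ S S) (M : Matrix I I S) : θ M.det = ∑ i, (M.updateRow i (fun l => θ (M i l))).det := by
  have hrow : ∀ N : Matrix I I S, N.det = ∑ σ : Equiv.Perm I, ((Equiv.Perm.sign σ : ℤ) : S) * ∏ i, N i (σ i) := by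
    intro N
    rw [← Matrix.det_transpose, Matrix.det_apply']
    rfl
  rw [hrow M, map_sum]
  simp_rw [hrow]
  rw [Finset.sum_comm]
  refine Finset.sum_congr rfl fun σ _ => ?_
  rw [Derivation.leibniz]
  have h0 : θ ((Equiv.Perm.sign σ : ℤ) : S) = 0 := by
    rcases Int.units_eq_one_or (Equiv.Perm.sign σ) with h | h
    · rw [h]
      simp
    · rw [h]
      simp
  rw [h0, smul_zero, add_zero, jac_prod, smul_eq_mul, Finset.mul_sum]
  refine Finset.sum_congr rfl fun i _ => ?_
  congr 1
  refine Finset.prod_congr rfl fun j _ => ?_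
  by_cases hj : j = i
  · subst hj
    rw [Function.update_self, Matrix.updateRow_self]
  · rw [Function.update_of_ne hj, Matrix.updateRow_ne hj]

private theorem jac_col (M : Matrix I I S) (i : I) (v : I → S) : (M.updateCol i v).det = ∑ k, M.adjugate i k * v k := by
  rw [← Matrix.cramer_apply, Matrix.cramer_eq_adjugate_mulVec]
  rfl

private theorem jac_row (M : Matrix I I S) (k : I) (v : I → S) : (M.updateRow k v).det = ∑ i, M.adjugate i k * v i := by
  rw [← Matrix.det_transpose, ← Matrix.updateCol_transpose, jac_col, ← Matrix.adjugate_transpose]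
  rfl

theorem jac_swap (M A : Matrix I I S) : ∑ k, (M.updateRow k (A k)).det = ∑ i, (M.updateCol i fun k => A k i).det := by
  simp only [jac_col, jac_row]
  exact Finset.sum_comm

end Det

section Minors

variable {τ : Type}

/-- the minors of the Jacobian matrix -/
def jmin {c : ℕ} (g : Fin c → MvPolynomial τ ℂ) (j : Fin c → τ) : MvPolynomial τ ℂ := (Matrix.of fun i β => pderiv (j β) (g i)).det

/-- the generators of `jid` -/
def jset (𝔮 : Ideal (MvPolynomial τ ℂ)) (c : ℕ) : Set (MvPolynomial τ ℂ) :=
  (𝔮 : Set (MvPolynomial τ ℂ)) ∪ {M | ∃ (g : Fin c → MvPolynomial τ ℂ) (j : Fin c → τ), (∀ i, g i ∈ 𝔮) ∧ M = jmin g j}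

/-- the ideal generated by `𝔮` and the minors -/
def jid (𝔮 : Ideal (MvPolynomial τ ℂ)) (c : ℕ) : Ideal (MvPolynomial τ ℂ) := Ideal.span (jset 𝔮 c)

theorem jmin_mem {𝔮 : Ideal (MvPolynomial τ ℂ)} {c : ℕ} {g : Fin c → MvPolynomial τ ℂ} (hg : ∀ i, g i ∈ 𝔮) (j : Fin c → τ) : jmin g j ∈ jid 𝔮 c :=
  Ideal.subset_span (Or.inr ⟨g, j, hg, rfl⟩)

variable [Fintype τ]

omit [Fintype τ] in
private theorem der_sum {ι : Type} (F : ι → Derivation ℂ (MvPolynomial τ ℂ) (MvPolynomial τ ℂ)) (s : Finset ι) (g : MvPolynomial τ ℂ) :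
    (∑ l ∈ s, F l) g = ∑ l ∈ s, F l g := by
  classical
  induction s using Finset.induction_on with
  | empty => simp
  | insert a s ha ih => rw [Finset.sum_insert ha, Finset.sum_insert ha, Derivation.add_apply, ih]

theorem jac_comm (D : Derivation ℂ (MvPolynomial τ ℂ) (MvPolynomial τ ℂ)) (j : τ) (g : MvPolynomial τ ℂ) :
    D (pderiv j g) = pderiv j (D g) - ∑ l, pderiv j (D (X l)) * pderiv l g := by
  classical
  have h : (⁅D, pderiv j⁆ : Derivation ℂ (MvPolynomial τ ℂ) (MvPolynomial τ ℂ)) = ∑ l, (-pderiv j (D (X l))) • pderiv l := by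
    refine MvPolynomial.derivation_ext fun i => ?_
    rw [Derivation.commutator_apply, der_sum, pderiv_X]
    rw [Finset.sum_eq_single i]
    · rw [Derivation.smul_apply, pderiv_X_self, smul_eq_mul, mul_one]
      have h1 : D ((Pi.single j (1 : MvPolynomial τ ℂ) : τ → MvPolynomial τ ℂ) i) = 0 := by
        by_cases hij : i = j
        · subst hij
          rw [Pi.single_eq_same]
          exact D.map_one_eq_zero
        · rw [Pi.single_eq_of_ne hij, map_zero]
      rw [h1, zero_sub]
    · intro l _ hl
      rw [Derivation.smul_apply, pderiv_X_of_ne (fun h => hl h.symm), smul_zero]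
    · intro h
      exact absurd (Finset.mem_univ i) h
  have h2 := congrArg (fun E : Derivation ℂ (MvPolynomial τ ℂ) (MvPolynomial τ ℂ) => E g) h
  change (⁅D, pderiv j⁆ : Derivation ℂ (MvPolynomial τ ℂ) (MvPolynomial τ ℂ)) g = (∑ l, (-pderiv j (D (X l))) • pderiv l : Derivation ℂ _ _) g at h2
  rw [Derivation.commutator_apply, der_sum] at h2
  have h3 : ∑ l, ((-pderiv j (D (X l))) • pderiv l : Derivation ℂ (MvPolynomial τ ℂ) (MvPolynomial τ ℂ)) g = -∑ l, pderiv j (D (X l)) * pderiv l g := by
    rw [← Finset.sum_neg_distrib]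
    refine Finset.sum_congr rfl fun l _ => ?_
    rw [Derivation.smul_apply, smul_eq_mul, neg_mul]
  rw [h3] at h2
  linear_combination h2

theorem jid_stable {𝔮 : Ideal (MvPolynomial τ ℂ)} {D : Derivation ℂ (MvPolynomial τ ℂ) (MvPolynomial τ ℂ)} (hD : ∀ g ∈ 𝔮, D g ∈ 𝔮) (c : ℕ) :
    ∀ g ∈ jid 𝔮 c, D g ∈ jid 𝔮 c := by
  classical
  have hgen : ∀ s ∈ jset 𝔮 c, D s ∈ jid 𝔮 c := by
    rintro s (hs | ⟨g, j, hg, rfl⟩)
    · exact Ideal.subset_span (Or.inl (hD s hs))
    · rw [jmin, jac_det]
      have e1 : ∀ i, ((Matrix.of fun i β => pderiv (j β) (g i)).updateRow i fun β => D (pderiv (j β) (g i))).det =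
          jmin (Function.update g i (D (g i))) j -
            ((Matrix.of fun i β => pderiv (j β) (g i)).updateRow i fun β => ∑ l, pderiv (j β) (D (X l)) * pderiv l (g i)).det := by
        intro i
        have e2 : jmin (Function.update g i (D (g i))) j =
            ((Matrix.of fun i β => pderiv (j β) (g i)).updateRow i fun β => pderiv (j β) (D (g i))).det := by
          rw [jmin]
          congr 1
          ext a b : 2
          by_cases ha : a = i
          · subst ha
            rw [Matrix.updateRow_self, Matrix.of_apply, Function.update_self]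
          · rw [Matrix.updateRow_ne ha, Matrix.of_apply, Matrix.of_apply, Function.update_of_ne ha]
        rw [e2, jac_row, jac_row, jac_row, ← Finset.sum_sub_distrib]
        refine Finset.sum_congr rfl fun β _ => ?_
        rw [jac_comm, mul_sub]
      simp only [Matrix.of_apply]
      rw [Finset.sum_congr rfl fun i _ => e1 i, Finset.sum_sub_distrib]
      refine sub_mem (sum_mem fun i _ => jmin_mem (fun i' => ?_) j) ?_
      · by_cases hi : i' = i
        · subst hi
          rw [Function.update_self]
          exact hD _ (hg _)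
        · rw [Function.update_of_ne hi]
          exact hg i'
      · have hsw := jac_swap (Matrix.of fun i β => pderiv (j β) (g i)) (Matrix.of fun i β => ∑ l, pderiv (j β) (D (X l)) * pderiv l (g i))
        refine (congrArg (fun z => z ∈ jid 𝔮 c) hsw).mpr ?_
        refine sum_mem fun β _ => ?_
        have e3 : ((Matrix.of fun i β => pderiv (j β) (g i)).updateCol β fun k =>
            (Matrix.of fun i β => ∑ l, pderiv (j β) (D (X l)) * pderiv l (g i)) k β).det = ∑ l, pderiv (j β) (D (X l)) * jmin g (Function.update j β l) := by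
          have e4 : ∀ l, jmin g (Function.update j β l) = ((Matrix.of fun i β => pderiv (j β) (g i)).updateCol β fun k => pderiv l (g k)).det := by
            intro l
            rw [jmin]
            congr 1
            ext a b : 2
            by_cases hb : b = β
            · subst hb
              rw [Matrix.updateCol_self, Matrix.of_apply, Function.update_self]
            · rw [Matrix.updateCol_ne hb, Matrix.of_apply, Matrix.of_apply, Function.update_of_ne hb]
          simp only [e4, jac_col, Finset.mul_sum, Matrix.of_apply]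
          rw [Finset.sum_comm]
          exact Finset.sum_congr rfl fun l _ => Finset.sum_congr rfl fun k _ => by ring
        rw [e3]
        exact sum_mem fun l _ => Ideal.mul_mem_left _ _ (jmin_mem hg _)
  intro g hg
  refine Submodule.span_induction (p := fun x _ => D x ∈ jid 𝔮 c) (fun s hs => hgen s hs) ?_ ?_ ?_ hg
  · rw [map_zero]
    exact zero_mem _
  · intro x y _ _ hx hy
    rw [map_add]
    exact add_mem hx hy
  · intro a x hx' hx
    rw [smul_eq_mul, Derivation.leibniz, smul_eq_mul, smul_eq_mul]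
    exact add_mem (Ideal.mul_mem_left _ _ hx) (Ideal.mul_mem_right _ _ hx')

/-- a matrix of rank `c` has a minor of size `c` which is not `0` -/
theorem exists_minor {c : ℕ} (v : Fin c → τ → ℂ) (hv : LinearIndependent ℂ v) : ∃ j : Fin c → τ, (Matrix.of fun a b => v a (j b)).det ≠ 0 := by
  classical
  set M : Matrix (Fin c) τ ℂ := Matrix.of v with hM
  have h1 : M.rank = c := by
    have : LinearIndependent ℂ M.row := hv
    rw [this.rank_matrix, Fintype.card_fin]
  rw [Matrix.rank_eq_finrank_span_cols] at h1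
  obtain ⟨κ, a, _, hspan, hli⟩ := exists_linearIndependent' ℂ M.col
  have hfin : Finite κ := hli.finite
  have : Fintype κ := Fintype.ofFinite κ
  have hcard : Fintype.card κ = c := by
    have := finrank_span_eq_card hli
    rw [hspan, h1] at this
    exact this.symm
  let e : Fin c ≃ κ := (Fintype.equivFinOfCardEq hcard).symm
  refine ⟨fun b => a (e b), ?_⟩
  have hli2 : LinearIndependent ℂ ((M.col ∘ a) ∘ e) := hli.comp e e.injective
  have hli3 : LinearIndependent ℂ (Matrix.of fun (a' : Fin c) (b : Fin c) => v a' (a (e b)) : Matrix (Fin c) (Fin c) ℂ).col := hli2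
  rw [Matrix.linearIndependent_cols_iff_isUnit, Matrix.isUnit_iff_isUnit_det] at hli3
  exact hli3.ne_zero

omit [Fintype τ] in
theorem eval_jmin {c : ℕ} (g : Fin c → MvPolynomial τ ℂ) (j : Fin c → τ) (w : τ → ℂ) :
    eval w (jmin g j) = (Matrix.of fun i β => eval w (pderiv (j β) (g i))).det := by
  rw [jmin, RingHom.map_det]
  rfl

private theorem finrank_ker {r : ℕ} (G : Matrix (Fin r) τ ℂ) : Module.finrank ℂ (LinearMap.ker G.mulVecLin) + G.rank = Fintype.card τ := by
  classical
  have h := LinearMap.finrank_range_add_finrank_ker G.mulVecLin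
  rw [Module.finrank_fintype_fun_eq_card] at h
  rw [Matrix.rank]
  omega

/-- the zeros of the minors -/
theorem zero_jid (𝔮 : Ideal (MvPolynomial τ ℂ)) {k c : ℕ} (hc : k + c = Fintype.card τ) (w : τ → ℂ) :
    Pt (jid 𝔮 c) w ↔ Pt 𝔮 w ∧ k < Module.finrank ℂ (Tn 𝔮 w) := by
  classical
  constructor
  · intro h
    refine ⟨fun g hg => h g (Ideal.subset_span (Or.inl hg)), ?_⟩
    by_contra hk
    rw [not_lt] at hk
    set Sg : Set (τ → ℂ) := {u | ∃ g ∈ 𝔮, u = fun s => eval w (pderiv s g)} with hSg
    obtain ⟨r, f, hf, hspan, hli⟩ : ∃ (r : ℕ) (f : Fin r → τ → ℂ), (∀ i, f i ∈ Sg) ∧ Submodule.span ℂ (Set.range f) = Submodule.span ℂ Sg ∧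
        LinearIndependent ℂ f := ⟨_, Submodule.exists_fun_fin_finrank_span_eq ℂ Sg⟩
    have hrk : (Matrix.of f : Matrix (Fin r) τ ℂ).rank = r := by
      have : LinearIndependent ℂ (Matrix.of f : Matrix (Fin r) τ ℂ).row := hli
      rw [this.rank_matrix, Fintype.card_fin]
    have hker : LinearMap.ker (Matrix.of f : Matrix (Fin r) τ ℂ).mulVecLin ≤ Tn 𝔮 w := by
      intro t ht g hg
      have h1 : ∀ u ∈ Submodule.span ℂ (Set.range f), ∑ s, u s * t s = 0 := by
        intro u hu
        refine Submodule.span_induction (p := fun u _ => ∑ s, u s * t s = 0) ?_ ?_ ?_ ?_ hu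
        · rintro _ ⟨i, rfl⟩
          have h2 := congrFun (LinearMap.mem_ker.1 ht) i
          exact h2
        · simp
        · intro x y _ _ hx hy
          simp only [Pi.add_apply, add_mul, Finset.sum_add_distrib, hx, hy, add_zero]
        · intro a x _ hx
          simp only [Pi.smul_apply, smul_eq_mul, mul_assoc, ← Finset.mul_sum, hx, mul_zero]
      exact h1 _ (by rw [hspan]; exact Submodule.subset_span ⟨g, hg, rfl⟩)
    have h3 := finrank_ker (Matrix.of f : Matrix (Fin r) τ ℂ)
    have h4 := Submodule.finrank_mono hker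
    have hcr : c ≤ r := by omega
    obtain ⟨j, hj⟩ := exists_minor (fun i : Fin c => f (Fin.castLE hcr i)) (hli.comp _ (Fin.castLE_injective hcr))
    choose g hg hfg using hf
    refine hj ?_
    have h5 := h _ (jmin_mem (fun i : Fin c => hg (Fin.castLE hcr i)) j)
    rw [eval_jmin] at h5
    rw [← h5]
    congr 1
    ext a b : 2
    rw [Matrix.of_apply, Matrix.of_apply, hfg]
  · rintro ⟨hw, hk⟩ g hg
    have hgen : ∀ s ∈ jset 𝔮 c, eval w s = 0 := by
      rintro s (hs | ⟨g, j, hg, rfl⟩)
      · exact hw s hs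
      · by_contra hne
        rw [eval_jmin] at hne
        set G : Matrix (Fin c) τ ℂ := Matrix.of fun i s => eval w (pderiv s (g i)) with hG
        have h1 : (Matrix.of fun i β => eval w (pderiv (j β) (g i)) : Matrix (Fin c) (Fin c) ℂ) =
            G * (Matrix.of fun s β => if s = j β then (1 : ℂ) else 0 : Matrix τ (Fin c) ℂ) := by
          ext i β
          rw [Matrix.mul_apply, Finset.sum_eq_single (j β)]
          · simp [G]
          · intro s _ hs
            rw [Matrix.of_apply, if_neg hs, mul_zero]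
          · intro h
            exact absurd (Finset.mem_univ _) h
        have h2 : c ≤ G.rank := by
          have h3 := Matrix.rank_of_isUnit _ ((Matrix.isUnit_iff_isUnit_det _).2 (isUnit_iff_ne_zero.2 hne))
          rw [Fintype.card_fin, h1] at h3
          exact h3.symm.le.trans (Matrix.rank_mul_le_left _ _)
        have h4 := finrank_ker G
        have h5 : Tn 𝔮 w ≤ LinearMap.ker G.mulVecLin := by
          intro t ht
          rw [LinearMap.mem_ker]
          funext i
          exact ht (g i) (hg i)
        have h6 := Submodule.finrank_mono h5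
        omega
    refine Submodule.span_induction (p := fun x _ => eval w x = 0) (fun s hs => hgen s hs) ?_ ?_ ?_ hg
    · exact map_zero _
    · intro x y _ _ hx hy
      rw [map_add, hx, hy, add_zero]
    · intro a x _ hx
      rw [smul_eq_mul, map_mul, hx, mul_zero]

end Minors

theorem sgl_eq_radical {τ : Type} [Fintype τ] (𝔮 : Ideal (MvPolynomial τ ℂ)) {k c : ℕ} (hc : k + c = Fintype.card τ) : sgl 𝔮 k = (jid 𝔮 c).radical := by
  rw [← MvPolynomial.vanishingIdeal_zeroLocus_eq_radical (K := ℂ)]
  ext g
  rw [MvPolynomial.mem_vanishingIdeal_iff]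
  constructor
  · intro hg w hw
    have h1 : Pt (jid 𝔮 c) w := fun g hg => by
      have h2 := hw g hg
      rwa [MvPolynomial.aeval_eq_eval] at h2
    obtain ⟨h3, h4⟩ := (zero_jid 𝔮 hc w).1 h1
    rw [MvPolynomial.aeval_eq_eval]
    exact hg w h3 h4
  · intro hg w h3 h4
    have h1 := (zero_jid 𝔮 hc w).2 ⟨h3, h4⟩
    have h2 := hg w fun g hg => by
      rw [MvPolynomial.aeval_eq_eval]
      exact h1 g hg
    rwa [MvPolynomial.aeval_eq_eval] at h2

theorem sgl_stable {τ : Type} [Fintype τ] (𝔮 : Ideal (MvPolynomial τ ℂ)) (D : Derivation ℂ (MvPolynomial τ ℂ) (MvPolynomial τ ℂ))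
    (hD : ∀ g ∈ 𝔮, D g ∈ 𝔮) (k : ℕ) : ∀ g ∈ sgl 𝔮 k, D g ∈ sgl 𝔮 k := by
  intro g hg
  by_cases hk : k ≤ Fintype.card τ
  · obtain ⟨c, hc⟩ := Nat.exists_eq_add_of_le hk
    rw [sgl_eq_radical 𝔮 hc.symm] at hg ⊢
    exact jac_radical D _ (jid_stable hD c) g hg
  · intro w _ h
    have h1 := Submodule.finrank_le (Tn 𝔮 w)
    rw [Module.finrank_fintype_fun_eq_card] at h1
    omega

end Pool.Agent.GQ
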