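import Pool.Agent.GQ.Defs
import Pool.Agent.GG.Fam2

/-!
# GQ Psi: position and velocity of curves and families of curves in the charts (helper44)

`p.rep i / p.rep a = G i / G a` for all representatives `G` of `p`.
-/

set_option autoImplicit false

open MvPolynomial Topology Filter Metric
open Pool.Agent.H13.SM (conTan cone)
open Pool.Agent.H17 (PN)
open Pool.Agent.H62.FC (Homog)
open Pool.Agent.GG

noncomputable section

namespace Pool.Agent.GQ

variable {N : ℕ} {P : Ideal (MvPolynomial (Fin (N + 1)) ℂ)} {J : ℕ} {m : Fin J → ℕ} {θ : ∀ k, SymSec P (m k)}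

private theorem rep_mk {G : Fin (N + 1) → ℂ} (h : G ≠ 0) : ∃ u : ℂ, u ≠ 0 ∧ (Projectivization.mk ℂ G h).rep = u • G := by
  obtain ⟨u, hu⟩ := Projectivization.exists_smul_eq_mk_rep ℂ G h
  exact ⟨(u : ℂ), u.ne_zero, hu.symm⟩

/-- the quotients of the coordinates -/
private theorem rep_div {p : PN N} {G : Fin (N + 1) → ℂ} (h : ∃ h : G ≠ 0, p = Projectivization.mk ℂ G h) (i a : Fin (N + 1)) :
    p.rep i / p.rep a = G i / G a := by
  obtain ⟨h0, hp⟩ := h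
  obtain ⟨u, hu0, hu⟩ := rep_mk h0
  rw [hp, hu, Pi.smul_apply, Pi.smul_apply, smul_eq_mul, smul_eq_mul, mul_div_mul_left _ _ hu0]

private theorem rep_ne {p : PN N} {G : Fin (N + 1) → ℂ} (h : ∃ h : G ≠ 0, p = Projectivization.mk ℂ G h) (a : Fin (N + 1)) :
    p.rep a ≠ 0 ↔ G a ≠ 0 := by
  obtain ⟨h0, hp⟩ := h
  obtain ⟨u, hu0, hu⟩ := rep_mk h0
  rw [hp, hu, Pi.smul_apply, smul_eq_mul]
  exact ⟨fun h1 h2 => h1 (by rw [h2, mul_zero]), fun h1 => mul_ne_zero hu0 h1⟩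

private theorem quot_an {V : Type*} [NormedAddCommGroup V] [NormedSpace ℂ V] {F : V → Fin (N + 1) → ℂ} {q : V} (hF : AnalyticAt ℂ F q) {a : Fin (N + 1)}
    (ha : F q a ≠ 0) : AnalyticAt ℂ (fun p i => F p i / F p a) q := by
  rw [analyticAt_pi_iff]
  intro i
  exact ((analyticAt_pi_iff.1 hF) i).div ((analyticAt_pi_iff.1 hF) a) ha

private theorem rep_quot {g : ℂ → PN N} {F : ℂ → Fin (N + 1) → ℂ} {z : ℂ} (hr : Rep g F z) (a : Fin (N + 1)) :
    (fun w i => (g w).rep i / (g w).rep a) =ᶠ[𝓝 z] fun w i => F w i / F w a := by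
  filter_upwards [hr] with w hw
  funext i
  exact rep_div hw i a

private theorem ps_eq {g : ℂ → PN N} {F : ℂ → Fin (N + 1) → ℂ} {z : ℂ} (hr : Rep g F z) (a : Fin (N + 1)) :
    ps g a z = pt (fun i => F z i / F z a) (deriv (fun w i => F w i / F w a) z) := by
  unfold ps
  rw [(rep_quot hr a).deriv_eq]
  have h1 : (fun i => (g z).rep i / (g z).rep a) = fun i => F z i / F z a := (rep_quot hr a).self_of_nhds
  rw [h1]

/-- the change of the charts, for a curve with a holomorphic representative -/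
private theorem ps_chg' {g : ℂ → PN N} {F : ℂ → Fin (N + 1) → ℂ} {z : ℂ} (hF : AnalyticAt ℂ F z) (hr : Rep g F z) {a b : Fin (N + 1)}
    (ha : (g z).rep a ≠ 0) (hb : (g z).rep b ≠ 0) : ps g b z = nm b (ps g a z) := by
  have ha' : F z a ≠ 0 := (rep_ne hr.self_of_nhds a).1 ha
  have hb' : F z b ≠ 0 := (rep_ne hr.self_of_nhds b).1 hb
  have hd : ∀ c : Fin (N + 1), F z c ≠ 0 → ∀ i, deriv (fun w i => F w i / F w c) z i = (deriv F z i * F z c - F z i * deriv F z c) / F z c ^ 2 := by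
    intro c hc i
    have h1 : HasDerivAt F (deriv F z) z := hF.differentiableAt.hasDerivAt
    have h2 : HasDerivAt (fun w i => F w i / F w c) (fun i => (deriv F z i * F z c - F z i * deriv F z c) / F z c ^ 2) z := by
      rw [hasDerivAt_pi]
      intro i
      exact (hasDerivAt_pi.1 h1 i).fun_div (hasDerivAt_pi.1 h1 c) hc
    rw [h2.deriv]
  rw [ps_eq hr b, ps_eq hr a]
  funext s
  rcases s with i | i
  · simp only [nm, Sum.elim_inl]
    field_simp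
  · simp only [nm, Sum.elim_inl, Sum.elim_inr, hd a ha', hd b hb']
    field_simp
    ring

private theorem nArc_congr {a : Fin (N + 1)} {c : Fin J → ℂ} {x y : ℂ → Fin (N + 1) → ℂ} {z : ℂ} (h : NArc θ a c x z) (he : y =ᶠ[𝓝 z] x) :
    NArc θ a c y z := by
  refine ⟨h.1.congr he.symm, ?_⟩
  filter_upwards [h.2, he.eventuallyEq_nhds] with w hw hw'
  rw [hw'.deriv_eq, hw'.self_of_nhds]
  exact hw

/-- one curve in the chart `x_a = 1` (`nArc_of_lift`, or `ArcAt` directly; `rep = c • F`) -/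
theorem ps_arc (hP : Homog P) {c : Fin J → ℂ} {g : ℂ → PN N} {z : ℂ} (hg : ArcAt θ c g z) {a : Fin (N + 1)} (ha : (g z).rep a ≠ 0) :
    NArc θ a c (fun w i => (g w).rep i / (g w).rep a) z ∧ Rep g (fun w i => (g w).rep i / (g w).rep a) z ∧ X a ∉ P ∧
      IsTan θ a c (fun i => (g z).rep i / (g z).rep a) (deriv (fun w i => (g w).rep i / (g w).rep a) z) ∧ ∀ᶠ w in 𝓝 z, (g w).rep a ≠ 0 := by
  obtain ⟨F, hF, hr, hc⟩ := id hg
  have ha' : F z a ≠ 0 := (rep_ne hr.self_of_nhds a).1 ha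
  obtain ⟨h1, h2⟩ := nArc_of_lift (a := a) hP hg hF hr ha'
  have he : (fun w i => (g w).rep i / (g w).rep a) =ᶠ[𝓝 z] fun w => (F w a)⁻¹ • F w := by
    filter_upwards [rep_quot hr a] with w hw
    rw [hw]
    funext i
    rw [Pi.smul_apply, smul_eq_mul, div_eq_inv_mul]
  have h3 := nArc_congr h1 he
  refine ⟨h3, ?_, ?_, (Chart_isTan h3).self_of_nhds, ?_⟩
  · filter_upwards [h2, he] with w hw hw'
    rw [hw']
    exact hw
  · intro h4
    have h5 := (hc.self_of_nhds).1.2 _ h4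
    rw [eval_X] at h5
    exact ha' h5
  · have h4 : ContinuousAt (fun w => F w a) z := (continuous_apply a).continuousAt.comp hF.continuousAt
    filter_upwards [hr, h4.eventually_ne ha'] with w hw hw'
    exact (rep_ne hw a).2 hw'

theorem ps_chg (hP : Homog P) {c : Fin J → ℂ} {g : ℂ → PN N} {z : ℂ} (hg : ArcAt θ c g z) {a b : Fin (N + 1)} (ha : (g z).rep a ≠ 0)
    (hb : (g z).rep b ≠ 0) : ps g b z = nm b (ps g a z) := by
  obtain ⟨F, hF, hr, -⟩ := hg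
  exact ps_chg' hF hr ha hb

private theorem slice_rep {d : ℕ} {Φ : ℂ × (Fin d → ℂ) → PN N} {F : ℂ × (Fin d → ℂ) → Fin (N + 1) → ℂ} {q : ℂ × (Fin d → ℂ)} (hR : RepN P Φ F q) :
    ∀ᶠ p in 𝓝 q, AnalyticAt ℂ F p ∧ AnalyticAt ℂ (fun w => F (w, p.2)) p.1 ∧ Rep (fun w => Φ (w, p.2)) (fun w => F (w, p.2)) p.1 ∧
      ∃ h : F p ≠ 0, Φ p = Projectivization.mk ℂ (F p) h := by
  filter_upwards [hR.1.eventually_analyticAt, hR.2.eventually_nhds] with p hp hp'
  have h1 : AnalyticAt ℂ (fun w : ℂ => (w, p.2)) p.1 := analyticAt_id.prod analyticAt_const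
  refine ⟨hp, AnalyticAt.comp_of_eq (f := fun w : ℂ => (w, p.2)) hp h1 rfl, ?_, hp'.self_of_nhds.2⟩
  have h2 : Tendsto (fun w : ℂ => (w, p.2)) (𝓝 p.1) (𝓝 p) := (continuous_id.prodMk continuous_const).tendsto' _ _ rfl
  filter_upwards [h2.eventually hp'] with w hw
  exact hw.2

theorem psi_an {d : ℕ} {Φ : ℂ × (Fin d → ℂ) → PN N} {z : ℂ} (hR : ∃ F, RepN P Φ F (z, 0)) {a : Fin (N + 1)} (ha : (Φ (z, 0)).rep a ≠ 0) :
    AnalyticAt ℂ (psi Φ a) (z, 0) := by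
  obtain ⟨F, hR⟩ := hR
  have ha' : F (z, 0) a ≠ 0 := (rep_ne hR.2.self_of_nhds.2 a).1 ha
  have hG : AnalyticAt ℂ (fun p i => F p i / F p a) (z, (0 : Fin d → ℂ)) := quot_an hR.1 ha'
  have hGd : AnalyticAt ℂ (fun p => fderiv ℂ (fun p i => F p i / F p a) p (1, 0)) (z, (0 : Fin d → ℂ)) :=
    ((ContinuousLinearMap.apply ℂ (Fin (N + 1) → ℂ) ((1 : ℂ), (0 : Fin d → ℂ))).analyticAt _).comp hG.fderiv
  have hpt : AnalyticAt ℂ (fun p => pt (fun i => F p i / F p a) (fderiv ℂ (fun p i => F p i / F p a) p (1, 0))) (z, (0 : Fin d → ℂ)) := by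
    rw [analyticAt_pi_iff]
    rintro (i | i)
    · exact (analyticAt_pi_iff.1 hG) i
    · exact (analyticAt_pi_iff.1 hGd) i
  refine hpt.congr ?_
  filter_upwards [slice_rep hR, hG.eventually_analyticAt] with p hp hGp
  unfold psi
  rw [ps_eq hp.2.2.1 a]
  have h1 : HasDerivAt (fun w : ℂ => (w, p.2)) ((1 : ℂ), (0 : Fin d → ℂ)) p.1 := (hasDerivAt_id p.1).prodMk (hasDerivAt_const p.1 p.2)
  have h2 : HasFDerivAt (fun p i => F p i / F p a) (fderiv ℂ (fun p i => F p i / F p a) p) (p.1, p.2) := hGp.differentiableAt.hasFDerivAt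
  have h3 := HasFDerivAt.comp_hasDerivAt p.1 h2 h1
  have h4 : HasDerivAt (fun w i => F (w, p.2) i / F (w, p.2) a) (fderiv ℂ (fun p i => F p i / F p a) p (1, 0)) p.1 := h3
  rw [h4.deriv]

/-- if the coordinate `x_a` does not vanish at `Φ (z, 0)` it does not vanish near it, and the charts are related by `nm` -/
theorem psi_chg {d : ℕ} {Φ : ℂ × (Fin d → ℂ) → PN N} {z : ℂ} (hR : ∃ F, RepN P Φ F (z, 0)) {a b : Fin (N + 1)} (ha : (Φ (z, 0)).rep a ≠ 0)
    (hb : (Φ (z, 0)).rep b ≠ 0) : ∀ᶠ p in 𝓝 (z, (0 : Fin d → ℂ)), (Φ p).rep a ≠ 0 ∧ (Φ p).rep b ≠ 0 ∧ psi Φ b p = nm b (psi Φ a p) := by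
  obtain ⟨F, hR⟩ := hR
  have hc : ∀ c : Fin (N + 1), (Φ (z, 0)).rep c ≠ 0 → ∀ᶠ p in 𝓝 (z, (0 : Fin d → ℂ)), F p c ≠ 0 := by
    intro c hc
    have h1 : ContinuousAt (fun p => F p c) (z, (0 : Fin d → ℂ)) := (continuous_apply c).continuousAt.comp hR.1.continuousAt
    exact h1.eventually_ne ((rep_ne hR.2.self_of_nhds.2 c).1 hc)
  filter_upwards [slice_rep hR, hc a ha, hc b hb] with p hp hpa hpb
  have h1 := (rep_ne hp.2.2.2 a).2 hpa
  have h2 := (rep_ne hp.2.2.2 b).2 hpb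
  exact ⟨h1, h2, ps_chg' hp.2.1 hp.2.2.1 h1 h2⟩

theorem psi_fam {d : ℕ} {Φ : ℂ × (Fin d → ℂ) → PN N} {a : Fin (N + 1)} {Y : (Fin d → ℂ) → Ph N → ℂ} {z : ℂ} (h : FamAt θ Φ a Y z) :
    ∀ᶠ s in 𝓝 (0 : Fin d → ℂ), (Φ (z, s)).rep a ≠ 0 ∧ psi Φ a (z, s) = Y s := by
  filter_upwards [h.2] with s hs
  obtain ⟨c, x, hN, hr, hY⟩ := hs
  have ha : x z a = 1 := hN.2.self_of_nhds.2.1
  refine ⟨(rep_ne (G := x z) hr.self_of_nhds a).2 (by rw [ha]; exact one_ne_zero), ?_⟩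
  have he : (fun w i => x w i / x w a) =ᶠ[𝓝 z] x := by
    filter_upwards [hN.2] with w hw
    rw [hw.2.1]
    funext i
    rw [div_one]
  unfold psi
  rw [ps_eq (F := x) hr a, hY, he.deriv_eq]
  have h1 : (fun i => x z i / x z a) = x z := he.self_of_nhds
  rw [h1]

end Pool.Agent.GQ
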