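import Pool.Agent.GQ.Prp
import Pool.Agent.GQ.Psi

/-!
# GQ Low: propagation of zeros and the lower bound

`prop_zero` and `prop_low`, from `prop_step`.
-/

set_option autoImplicit false

open MvPolynomial Topology Filter Metric
open Pool.Agent.H13.SM (conTan cone)
open Pool.Agent.H17 (PN VanishesAt)
open Pool.Agent.H17LG.Variety (FunField ratio PoleAtMost IsLogGeneralType)
open Pool.Agent.H23.Fano (Form PrimeDivisorOver)
open Pool.Agent.H62.FC (Homog)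
open Pool.Agent.GG

noncomputable section

namespace Pool.Agent.GQ

variable {N : ℕ} {P : Ideal (MvPolynomial (Fin (N + 1)) ℂ)} {J : ℕ} {m : Fin J → ℕ} {θ : ∀ k, SymSec P (m k)}

namespace LowAux

/-- there is a good chart -/
theorem exists_Gd (g : ℂ → PN N) (z : ℂ) : ∃ a, Gd g a z :=
  Finite.exists_max fun b : Fin (N + 1) => ‖(g z).rep b‖

theorem Gd_ne {g : ℂ → PN N} {a : Fin (N + 1)} {z : ℂ} (h : Gd g a z) : (g z).rep a ≠ 0 := by
  intro h0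
  apply (g z).rep_nonzero
  funext b
  have h1 := h b
  rw [h0, norm_zero] at h1
  exact norm_le_zero_iff.mp h1

/-- zeros of the ideals in two charts -/
theorem pt_chg (hP : Homog P) {𝔞 : Fin (N + 1) → Ideal (MvPolynomial (Ph N) ℂ)}
    (hch : ∀ a b, X a ∉ P → X b ∉ P → ∀ g ∈ 𝔞 a, ∃ (M : ℕ), ∃ Q ∈ 𝔞 b, ∀ w : Ph N → ℂ, w (Sum.inl b) = 1 → w (Sum.inr b) = 0 →
      w (Sum.inl a) ≠ 0 → eval w Q = w (Sum.inl a) ^ M * eval (nm a w) g)
    {c : Fin J → ℂ} {g : ℂ → PN N} {z : ℂ} (hg : ArcAt θ c g z) {a b : Fin (N + 1)} (ha : (g z).rep a ≠ 0) (hb : (g z).rep b ≠ 0)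
    (h : Pt (𝔞 a) (ps g a z)) : Pt (𝔞 b) (ps g b z) := by
  intro q hq
  obtain ⟨-, -, hXa, htan, -⟩ := ps_arc hP hg ha
  obtain ⟨-, -, hXb, -, -⟩ := ps_arc hP hg hb
  obtain ⟨M, Q, hQ, hw⟩ := hch b a hXb hXa q hq
  have h1 : ps g a z (Sum.inl a) = 1 := div_self ha
  have h2 : ps g a z (Sum.inr a) = 0 := htan.2.2.2.1
  have h3 : ps g a z (Sum.inl b) ≠ 0 := div_ne_zero hb ha
  have h4 := hw (ps g a z) h1 h2 h3
  rw [h Q hQ, ← ps_chg hP hg ha hb] at h4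
  exact (mul_eq_zero.mp h4.symm).resolve_left (pow_ne_zero M h3)

/-- the size of the generators vanishes exactly at the zeros of the ideal -/
theorem norm_zero_iff {s : ℕ} {q : Fin s → MvPolynomial (Ph N) ℂ} {I : Ideal (MvPolynomial (Ph N) ℂ)} (hq : Ideal.span (Set.range q) = I) {w : Ph N → ℂ} :
    ‖fun j => eval w (q j)‖ = 0 ↔ Pt I w := by
  rw [norm_eq_zero]
  constructor
  · intro h
    have h1 : I ≤ RingHom.ker (eval w) := by
      rw [← hq, Ideal.span_le]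
      rintro _ ⟨j, rfl⟩
      exact RingHom.mem_ker.mpr (congrFun h j)
    intro g hg
    exact RingHom.mem_ker.mp (h1 hg)
  · intro h
    funext j
    refine h (q j) ?_
    rw [← hq]
    exact Ideal.subset_span ⟨j, rfl⟩

/-- finitely many steps -/
theorem chain {g : ℂ → PN N} {F : Fin (N + 1) → ℂ → ℝ} {r K : ℝ} (hr : 0 < r) (hK : 0 ≤ K)
    (hs : ∀ (z z' : ℂ) (a a' : Fin (N + 1)), Gd g a z → Gd g a' z' → ‖z' - z‖ < r → F a z ≤ K * F a' z') (n : ℕ) :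
    ∀ (z z' : ℂ) (a a' : Fin (N + 1)), Gd g a z → Gd g a' z' → ‖z' - z‖ < ((n : ℝ) + 1) * r → F a z ≤ K ^ (n + 1) * F a' z' := by
  induction n with
  | zero =>
    intro z z' a a' ha ha' h
    have h1 : ‖z' - z‖ < r := by simpa using h
    simpa using hs z z' a a' ha ha' h1
  | succ n ih =>
    intro z z' a a' ha ha' h
    have hn : (0 : ℝ) < (n : ℝ) + 1 := by positivity
    have hn2 : (0 : ℝ) < (n : ℝ) + 1 + 1 := by positivity
    push_cast at h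
    set t : ℝ := ((n : ℝ) + 1) / ((n : ℝ) + 1 + 1) with ht
    have ht0 : 0 < t := div_pos hn hn2
    have ht1 : 1 - t = 1 / ((n : ℝ) + 1 + 1) := by
      rw [ht]
      field_simp
      ring
    obtain ⟨b, hb⟩ := exists_Gd g (z + (t : ℂ) * (z' - z))
    have h1 : ‖z + (t : ℂ) * (z' - z) - z‖ < ((n : ℝ) + 1) * r := by
      rw [add_sub_cancel_left, norm_mul, Complex.norm_real, Real.norm_of_nonneg ht0.le]
      calc t * ‖z' - z‖ < t * (((n : ℝ) + 1 + 1) * r) := mul_lt_mul_of_pos_left h ht0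
        _ = ((n : ℝ) + 1) * r := by
          rw [ht]
          field_simp
    have h2 : ‖z' - (z + (t : ℂ) * (z' - z))‖ < r := by
      have h3 : z' - (z + (t : ℂ) * (z' - z)) = ((1 - t : ℝ) : ℂ) * (z' - z) := by
        push_cast
        ring
      have h4 : 0 < 1 - t := by
        rw [ht1]
        positivity
      rw [h3, norm_mul, Complex.norm_real, Real.norm_of_nonneg h4.le]
      calc (1 - t) * ‖z' - z‖ < (1 - t) * (((n : ℝ) + 1 + 1) * r) := mul_lt_mul_of_pos_left h h4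
        _ = r := by
          rw [ht1]
          field_simp
    have h5 := ih z _ a b ha hb h1
    have h6 := hs _ z' b a' hb ha' h2
    calc F a z ≤ K ^ (n + 1) * F b (z + (t : ℂ) * (z' - z)) := h5
      _ ≤ K ^ (n + 1) * (K * F a' z') := mul_le_mul_of_nonneg_left h6 (pow_nonneg hK _)
      _ = K ^ (n + 1 + 1) * F a' z' := by ring

/-- generators of the ideals -/
theorem exists_gen (𝔞 : Fin (N + 1) → Ideal (MvPolynomial (Ph N) ℂ)) :
    ∃ (s : Fin (N + 1) → ℕ) (q : ∀ a, Fin (s a) → MvPolynomial (Ph N) ℂ), ∀ a, Ideal.span (Set.range (q a)) = 𝔞 a := by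
  have h1 : ∀ a, ∃ (s : ℕ) (q : Fin s → MvPolynomial (Ph N) ℂ), Ideal.span (Set.range q) = 𝔞 a := fun a => by
    obtain ⟨n, q, hq⟩ := Submodule.fg_iff_exists_fin_generating_family.mp ((isNoetherianRing_iff_ideal_fg _).mp inferInstance (𝔞 a))
    exact ⟨n, q, hq⟩
  choose s q hq using h1
  exact ⟨s, q, hq⟩

end LowAux

open LowAux

/-- Zeros of the ideals propagate (`prop_step`, induction over the steps; to and from the charts which are not good with `hch`). -/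
theorem prop_zero (hP : Homog P) (hθ : Polar θ) (hm : ∀ k, 1 ≤ m k) (f : Frame θ) (𝔞 : Fin (N + 1) → Ideal (MvPolynomial (Ph N) ℂ))
    (hst : ∀ a, X a ∉ P → ∀ I, ∀ g ∈ 𝔞 a, Dt (gfam f a) I g ∈ 𝔞 a)
    (hch : ∀ a b, X a ∉ P → X b ∉ P → ∀ g ∈ 𝔞 a, ∃ (M : ℕ), ∃ Q ∈ 𝔞 b, ∀ w : Ph N → ℂ, w (Sum.inl b) = 1 → w (Sum.inr b) = 0 →
      w (Sum.inl a) ≠ 0 → eval w Q = w (Sum.inl a) ^ M * eval (nm a w) g)
    {c : Fin J → ℂ} (hc : c ≠ 0) {g : ℂ → PN N} (hg : ∀ z, ArcAt θ c g z) {z₀ : ℂ} {a₀ : Fin (N + 1)} (ha₀ : (g z₀).rep a₀ ≠ 0)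
    (h : Pt (𝔞 a₀) (ps g a₀ z₀)) (z : ℂ) (a : Fin (N + 1)) (ha : (g z).rep a ≠ 0) : Pt (𝔞 a) (ps g a z) := by
  obtain ⟨s, q, hq⟩ := exists_gen 𝔞
  obtain ⟨r, hr, K, hK, hstep⟩ := prop_step hP hθ hm f (isCompact_singleton (x := c)) (fun h0 => hc (Set.mem_singleton_iff.mp h0).symm) 𝔞 hst hch q hq
  obtain ⟨b, hb⟩ := exists_Gd g z
  obtain ⟨b₀, hb₀⟩ := exists_Gd g z₀
  have h1 : ‖fun j => eval (ps g b₀ z₀) (q b₀ j)‖ = 0 := (norm_zero_iff (hq b₀)).mpr (pt_chg hP hch (hg z₀) ha₀ (Gd_ne hb₀) h)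
  obtain ⟨n, hn⟩ := exists_nat_gt (‖z₀ - z‖ / r)
  have h2 : ‖z₀ - z‖ < ((n : ℝ) + 1) * r := by
    have h3 := (div_lt_iff₀ hr).mp hn
    nlinarith
  have h4 := chain (F := fun a z => ‖fun j => eval (ps g a z) (q a j)‖) hr (le_trans zero_le_one hK)
    (fun z z' a a' => hstep c rfl g hg z z' a a') n z z₀ b b₀ hb hb₀ h2
  simp only [h1, mul_zero] at h4
  exact pt_chg hP hch (hg z) (Gd_ne hb) ha ((norm_zero_iff (hq b)).mp (le_antisymm h4 (norm_nonneg _)))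

/-- The lower bound. -/
theorem prop_low (hP : Homog P) (hθ : Polar θ) (hm : ∀ k, 1 ≤ m k) (f : Frame θ) (𝔞 : Fin (N + 1) → Ideal (MvPolynomial (Ph N) ℂ))
    (hst : ∀ a, X a ∉ P → ∀ I, ∀ g ∈ 𝔞 a, Dt (gfam f a) I g ∈ 𝔞 a)
    (hch : ∀ a b, X a ∉ P → X b ∉ P → ∀ g ∈ 𝔞 a, ∃ (M : ℕ), ∃ Q ∈ 𝔞 b, ∀ w : Ph N → ℂ, w (Sum.inl b) = 1 → w (Sum.inr b) = 0 →
      w (Sum.inl a) ≠ 0 → eval w Q = w (Sum.inl a) ^ M * eval (nm a w) g)
    {s : Fin (N + 1) → ℕ} (q : ∀ a, Fin (s a) → MvPolynomial (Ph N) ℂ) (hq : ∀ a, Ideal.span (Set.range (q a)) = 𝔞 a)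
    {c : Fin J → ℂ} (hc : c ≠ 0) {g : ℂ → PN N} (hg : ∀ z, ArcAt θ c g z) {a₀ : Fin (N + 1)} (ha₀ : (g 0).rep a₀ ≠ 0)
    (h : ∃ j, eval (ps g a₀ 0) (q a₀ j) ≠ 0) :
    ∃ C > 0, ∀ (z : ℂ) (a : Fin (N + 1)), Gd g a z → ∃ j, Real.exp (-(C * (‖z‖ + 1))) ≤ ‖eval (ps g a z) (q a j)‖ := by
  obtain ⟨r, hr, K, hK, hstep⟩ := prop_step hP hθ hm f (isCompact_singleton (x := c)) (fun h0 => hc (Set.mem_singleton_iff.mp h0).symm) 𝔞 hst hch q hq
  obtain ⟨b, hb⟩ := exists_Gd g 0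
  have hK0 : 0 < K := lt_of_lt_of_le one_pos hK
  have hδ : 0 < ‖fun j => eval (ps g b 0) (q b j)‖ := by
    refine lt_of_le_of_ne (norm_nonneg _) fun h0 => ?_
    obtain ⟨j, hj⟩ := h
    refine hj (pt_chg hP hch (hg 0) (Gd_ne hb) ha₀ ((norm_zero_iff (hq b)).mp h0.symm) (q a₀ j) ?_)
    rw [← hq a₀]
    exact Ideal.subset_span ⟨j, rfl⟩
  set δ : ℝ := ‖fun j => eval (ps g b 0) (q b j)‖ with hδ'
  have hlK : 0 ≤ Real.log K := Real.log_nonneg hK
  have hC0 : 0 ≤ |Real.log δ| + Real.log K * (1 / r + 1) := by positivity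
  refine ⟨|Real.log δ| + Real.log K * (1 / r + 1) + 1, by positivity, fun z a ha => ?_⟩
  set n : ℕ := ⌊‖z‖ / r⌋₊ with hn
  have h1 : ‖z - 0‖ < ((n : ℝ) + 1) * r := by
    rw [sub_zero]
    exact (div_lt_iff₀ hr).mp (Nat.lt_floor_add_one _)
  have h2 : (n : ℝ) ≤ ‖z‖ / r := Nat.floor_le (by positivity)
  have h4 := chain (F := fun a z => ‖fun j => eval (ps g a z) (q a j)‖) hr hK0.le
    (fun z z' a a' => hstep c rfl g hg z z' a a') n 0 z b a hb ha h1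
  simp only [← hδ'] at h4
  have h5 : Real.exp (-((|Real.log δ| + Real.log K * (1 / r + 1) + 1) * (‖z‖ + 1))) ≤ ‖fun j => eval (ps g a z) (q a j)‖ := by
    have h6 : δ / K ^ (n + 1) ≤ ‖fun j => eval (ps g a z) (q a j)‖ := by
      rw [div_le_iff₀ (pow_pos hK0 _), mul_comm]
      exact h4
    refine le_trans ?_ h6
    have h7 : Real.exp (Real.log δ - ((n : ℝ) + 1) * Real.log K) = δ / K ^ (n + 1) := by
      rw [Real.exp_sub, Real.exp_log hδ]
      congr 1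
      rw [← Real.exp_log (pow_pos hK0 (n + 1)), Real.log_pow]
      push_cast
      rfl
    rw [← h7]
    apply Real.exp_le_exp.mpr
    have h8 : -|Real.log δ| ≤ Real.log δ := neg_abs_le _
    have h9 : ((n : ℝ) + 1) * Real.log K ≤ (‖z‖ / r + 1) * Real.log K := mul_le_mul_of_nonneg_right (by linarith) hlK
    have h10 : 0 ≤ ‖z‖ := norm_nonneg z
    have h11 : 0 ≤ 1 / r := by positivity
    have h12 : (‖z‖ / r + 1) * Real.log K ≤ Real.log K * (1 / r + 1) * (‖z‖ + 1) := by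
      have h13 : ‖z‖ / r = ‖z‖ * (1 / r) := by ring
      rw [h13]
      have h14 : ‖z‖ * (1 / r) + 1 ≤ (1 / r + 1) * (‖z‖ + 1) := by nlinarith
      calc (‖z‖ * (1 / r) + 1) * Real.log K ≤ ((1 / r + 1) * (‖z‖ + 1)) * Real.log K := mul_le_mul_of_nonneg_right h14 hlK
        _ = Real.log K * (1 / r + 1) * (‖z‖ + 1) := by ring
    have h15 : |Real.log δ| ≤ |Real.log δ| * (‖z‖ + 1) := by
      have := abs_nonneg (Real.log δ)
      nlinarith
    nlinarith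
  -- the norm is attained
  have h16 : 0 < ‖fun j => eval (ps g a z) (q a j)‖ := lt_of_lt_of_le (Real.exp_pos _) h5
  by_contra hcon
  push Not at hcon
  have h17 : ‖fun j => eval (ps g a z) (q a j)‖ < Real.exp (-((|Real.log δ| + Real.log K * (1 / r + 1) + 1) * (‖z‖ + 1))) := by
    rw [pi_norm_lt_iff (Real.exp_pos _)]
    exact hcon
  exact absurd h5 (not_le.mpr h17)

end Pool.Agent.GQ
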