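import Pool.Agent.GQ.Val

/-!
# GQ Den: the values of the section are bounded, up to a power of an equation of the singular points
-/

set_option autoImplicit false

open MvPolynomial Topology Filter Metric
open Pool.Agent.H13.SM (conTan cone)
open Pool.Agent.H17 (PN)
open Pool.Agent.H17LG.Variety (FunField ratio PoleAtMost IsLogGeneralType)
open Pool.Agent.H23.Fano (Form PrimeDivisorOver)
open Pool.Agent.H62.FC (Homog)
open Pool.Agent.GG

noncomputable section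

namespace Pool.Agent.GQ

/-- the determinant of linear forms of vectors -/
private theorem den_det {σ : Type} [Fintype σ] {k : ℕ} (l : Fin k → σ → ℂ) :
    ∃ C : ℝ, 0 ≤ C ∧ ∀ T : Fin k → σ → ℂ, ‖(Matrix.of fun i j => ∑ s, l j s * T i s).det‖ ≤ C * ∏ i, ‖T i‖ := by
  obtain ⟨Λ, hΛ⟩ : ∃ Λ : ℝ, Λ = ∑ j, ∑ s, ‖l j s‖ := ⟨_, rfl⟩
  have hΛ0 : 0 ≤ Λ := by rw [hΛ]; positivity
  have hent : ∀ (T : Fin k → σ → ℂ) (i j : Fin k), ‖∑ s, l j s * T i s‖ ≤ Λ * ‖T i‖ := by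
    intro T i j
    calc ‖∑ s, l j s * T i s‖ ≤ ∑ s, ‖l j s * T i s‖ := norm_sum_le _ _
      _ ≤ ∑ s, ‖l j s‖ * ‖T i‖ := Finset.sum_le_sum fun s _ => by
          rw [norm_mul]
          exact mul_le_mul_of_nonneg_left (norm_le_pi_norm (T i) s) (norm_nonneg _)
      _ = (∑ s, ‖l j s‖) * ‖T i‖ := by rw [Finset.sum_mul]
      _ ≤ Λ * ‖T i‖ := by
          refine mul_le_mul_of_nonneg_right ?_ (norm_nonneg _)
          rw [hΛ]
          exact Finset.single_le_sum (f := fun j => ∑ s, ‖l j s‖) (fun j _ => Finset.sum_nonneg fun s _ => norm_nonneg _) (Finset.mem_univ j)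
  refine ⟨(Fintype.card (Equiv.Perm (Fin k)) : ℝ) * Λ ^ k, by positivity, fun T => ?_⟩
  rw [Matrix.det_apply']
  refine (norm_sum_le _ _).trans ?_
  have h1 : ∀ σ' ∈ (Finset.univ : Finset (Equiv.Perm (Fin k))), ‖((Equiv.Perm.sign σ' : ℤ) : ℂ) * ∏ i, (Matrix.of fun i j => ∑ s, l j s * T i s) (σ' i) i‖ ≤
      Λ ^ k * ∏ i, ‖T i‖ := by
    intro σ' _
    rw [norm_mul]
    have h2 : ‖((Equiv.Perm.sign σ' : ℤ) : ℂ)‖ = 1 := by
      rcases Int.units_eq_one_or (Equiv.Perm.sign σ') with h | h <;> rw [h] <;> simp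
    rw [h2, one_mul, norm_prod]
    calc ∏ i, ‖(Matrix.of fun i j => ∑ s, l j s * T i s) (σ' i) i‖ ≤ ∏ i, (Λ * ‖T (σ' i)‖) :=
          Finset.prod_le_prod (fun i _ => norm_nonneg _) fun i _ => hent T (σ' i) i
      _ = Λ ^ k * ∏ i, ‖T i‖ := by
          rw [Finset.prod_mul_distrib, Finset.prod_const, Finset.card_univ, Fintype.card_fin, Equiv.prod_comp σ' fun i => ‖T i‖]
  refine (Finset.sum_le_sum h1).trans (le_of_eq ?_)
  rw [Finset.sum_const, Finset.card_univ, nsmul_eq_mul, mul_assoc]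

/-- polynomials are bounded on compact sets -/
private theorem den_bdd {σ : Type} [Fintype σ] {K : Set (σ → ℂ)} (hK : IsCompact K) (A : MvPolynomial σ ℂ) :
    ∃ C : ℝ, 0 ≤ C ∧ ∀ w ∈ K, ‖eval w A‖ ≤ C := by
  obtain ⟨C, hC⟩ := hK.exists_bound_of_continuousOn (f := fun w => eval w A) (MvPolynomial.continuous_eval A).continuousOn
  exact ⟨max C 0, le_max_right _ _, fun w hw => (hC w hw).trans (le_max_left _ _)⟩

variable {N : ℕ} {P : Ideal (MvPolynomial (Fin (N + 1)) ℂ)} {J : ℕ} {m : Fin J → ℕ} {θ : ∀ k, SymSec P (m k)}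
variable [P.IsPrime] {L : Type} [Field L] [Algebra ℂ L] [Algebra (FunField P) L]

/-- the ideal of the functions `h` with `h s` bounded on `K` -/
private def den {n M : ℕ} (S : Sec P L (n + 1) M) (u : Derivation ℂ L L) (b : Fin (N + 1)) {K : Set (Ph N → ℂ)} (hK : IsCompact K) :
    Ideal (MvPolynomial (Ph N) ℂ) where
  carrier := {h | ∃ C : ℝ, 0 ≤ C ∧ ∀ w ∈ K, Pt (rel (ph P u b)) w → ∀ T : Fin (n + 1) → Ph N → ℂ, (∀ l, T l ∈ Tn (rel (ph P u b)) w) →
    ∀ s, S.VL u b w T s → ‖eval w h‖ * ‖s‖ ≤ C * (∏ l, ‖T l‖) ^ M}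
  add_mem' := by
    rintro h h' ⟨C, hC, h1⟩ ⟨C', hC', h2⟩
    refine ⟨C + C', add_nonneg hC hC', fun w hw hp T hT s hs => ?_⟩
    rw [map_add, add_mul]
    exact (mul_le_mul_of_nonneg_right (norm_add_le _ _) (norm_nonneg _)).trans
      (by rw [add_mul]; exact add_le_add (h1 w hw hp T hT s hs) (h2 w hw hp T hT s hs))
  zero_mem' := by
    refine ⟨0, le_rfl, fun w _ _ T _ s _ => ?_⟩
    rw [map_zero, norm_zero, zero_mul, zero_mul]
  smul_mem' := by
    rintro c h ⟨C, hC, h1⟩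
    obtain ⟨C', hC', h2⟩ := den_bdd hK c
    refine ⟨C' * C, mul_nonneg hC' hC, fun w hw hp T hT s hs => ?_⟩
    rw [smul_eq_mul, map_mul, norm_mul, mul_assoc, mul_assoc]
    exact mul_le_mul (h2 w hw) (h1 w hw hp T hT s hs) (by positivity) hC'

variable [IsScalarTower ℂ (FunField P) L] {n M : ℕ} (hdim : ∃ z : Fin (n + 1) → FunField P, IsTranscendenceBasis ℂ z) {f : Frame θ}
  {u : Derivation ℂ L L} (hs : IsSol f u) (S : Sec P L (n + 1) M)

include hdim hs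

/-- On a compact set, with the factor `g^e`, `g` in the ideal of the singular points. -/
theorem VL.bound (hM : 1 ≤ M) {b : Fin (N + 1)} (hb : X b ∉ P) {K : Set (Ph N → ℂ)} (hK : IsCompact K) {g : MvPolynomial (Ph N) ℂ}
    (hg : g ∈ sgl (rel (ph P u b)) (n + 1)) : ∃ (e : ℕ) (C : ℝ), ∀ w ∈ K, Pt (rel (ph P u b)) w → Module.finrank ℂ (Tn (rel (ph P u b)) w) ≤ n + 1 →
      ∀ T : Fin (n + 1) → Ph N → ℂ, (∀ l, T l ∈ Tn (rel (ph P u b)) w) → ∀ s, S.VL u b w T s → ‖eval w g‖ ^ e * ‖s‖ ≤ C * (∏ l, ‖T l‖) ^ M := by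
  have hrad : g ∈ (den S u b hK).radical := by
    rw [← MvPolynomial.vanishingIdeal_zeroLocus_eq_radical (K := ℂ) (den S u b hK), MvPolynomial.mem_vanishingIdeal_iff]
    intro w₀ hw₀
    rw [MvPolynomial.aeval_eq_eval]
    have hval : ∀ h ∈ den S u b hK, eval w₀ h = 0 := by
      intro h hh
      have h1 := hw₀ h hh
      rwa [MvPolynomial.aeval_eq_eval] at h1
    -- a point of the variety
    have hpt : Pt (rel (ph P u b)) w₀ := by
      intro h hh
      refine hval h ⟨0, le_rfl, fun w _ hp T _ s _ => ?_⟩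
      rw [hp h hh, norm_zero, zero_mul, zero_mul]
    refine hg w₀ hpt ?_
    by_contra hcon
    push Not at hcon
    obtain ⟨g', A, l, hg', hA⟩ := VL.formula hdim hs S hb hpt hcon
    obtain ⟨C₁, hC₁, h1⟩ := den_det l
    obtain ⟨C₂, hC₂, h2⟩ := den_bdd hK A
    refine hg' (hval g' ⟨C₂ * C₁ ^ M, by positivity, fun w hw hp T hT s hs' => ?_⟩)
    by_cases h0 : eval w g' = 0
    · rw [h0, norm_zero, zero_mul]
      positivity
    · have h3 := VL.unique hdim hs S hb hp hT hs' (hA w hp h0 T)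
      rw [h3, ← norm_mul, ← mul_assoc, mul_div_cancel₀ _ h0, norm_mul, norm_pow]
      calc ‖eval w A‖ * ‖(Matrix.of fun i j => ∑ s, l j s * T i s).det‖ ^ M ≤ C₂ * (C₁ * ∏ i, ‖T i‖) ^ M :=
            mul_le_mul (h2 w hw) (pow_le_pow_left₀ (norm_nonneg _) (h1 T) M) (by positivity) hC₂
        _ = C₂ * C₁ ^ M * (∏ i, ‖T i‖) ^ M := by rw [mul_pow]; ring
  obtain ⟨e, C, hC, h⟩ := hrad
  refine ⟨e, C, fun w hw hp _ T hT s hs' => ?_⟩
  have h1 := h w hw hp T hT s hs'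
  rwa [map_pow, norm_pow] at h1

end Pool.Agent.GQ
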