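import Pool.Agent.GQ.Val
import Pool.Agent.GQ.Psi

/-!
# GQ Ent: the value of the section along the curve, divided by `x_a`, is an entire function

It exists by `VL.formula`, does not depend on the chart by `VL.change` (`psi Φ b = nm b ∘ psi Φ a`, chain rule), and near `z₀` it is given by `VL.formula` in one chart (`VL.unique`), so it is differentiable.
-/

set_option autoImplicit false

open MvPolynomial Topology Filter Metric
open Pool.Agent.H13.SM (conTan cone)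
open Pool.Agent.H17 (PN VanishesAt)
open Pool.Agent.H17LG.Variety (FunField ratio PoleAtMost IsLogGeneralType)
open Pool.Agent.H62.FC (Homog)
open Pool.Agent.GG

noncomputable section

namespace Pool.Agent.GQ

variable {N : ℕ} {P : Ideal (MvPolynomial (Fin (N + 1)) ℂ)} {J : ℕ} {m : Fin J → ℕ} {θ : ∀ k, SymSec P (m k)}

private theorem ent_rep {p : PN N} {x : Fin (N + 1) → ℂ} (h : ∃ h : x ≠ 0, p = Projectivization.mk ℂ x h) : ∃ c : ℂ, c ≠ 0 ∧ ∀ b, p.rep b = c * x b := by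
  obtain ⟨h0, he⟩ := h
  obtain ⟨c, hc⟩ := Projectivization.exists_smul_eq_mk_rep ℂ x h0
  rw [← he] at hc
  refine ⟨c, c.ne_zero, fun b => ?_⟩
  rw [← hc]
  rfl

private theorem ent_mem {n : ℕ} {Φ : ℂ × (Fin n → ℂ) → PN N} {z : ℂ} (hR : ∃ F, RepN P Φ F (z, 0)) {a : Fin (N + 1)} (ha : (Φ (z, 0)).rep a ≠ 0) :
    X a ∉ P := by
  intro h
  obtain ⟨F, hF⟩ := hR
  obtain ⟨hc, h0, he⟩ := hF.2.self_of_nhds
  obtain ⟨c, -, hb⟩ := ent_rep ⟨h0, he⟩
  apply ha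
  have h1 := hc.2 (X a) h
  rw [eval_X] at h1
  rw [hb, h1, mul_zero]

private theorem ent_diff {b : Fin (N + 1)} {w : Ph N → ℂ} (h : w (Sum.inl b) ≠ 0) : DifferentiableAt ℂ (nm b : (Ph N → ℂ) → Ph N → ℂ) w := by
  have h1 : ∀ s : Ph N, DifferentiableAt ℂ (fun p : Ph N → ℂ => p s) w := fun s => differentiableAt_apply s w
  rw [differentiableAt_pi]
  intro s
  rcases s with i | i
  · show DifferentiableAt ℂ (fun p : Ph N → ℂ => p (Sum.inl i) / p (Sum.inl b)) w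
    simp only [div_eq_mul_inv]
    exact (h1 (Sum.inl i)).mul ((h1 (Sum.inl b)).inv h)
  · show DifferentiableAt ℂ (fun p : Ph N → ℂ => p (Sum.inr i) / p (Sum.inl b) - p (Sum.inl i) * p (Sum.inr b) / p (Sum.inl b) ^ 2) w
    simp only [div_eq_mul_inv]
    exact ((h1 (Sum.inr i)).mul ((h1 (Sum.inl b)).inv h)).sub
      (((h1 (Sum.inl i)).mul (h1 (Sum.inr b))).mul (((h1 (Sum.inl b)).pow 2).inv (pow_ne_zero 2 h)))

/-- the derivatives of a map to the variety of `I` are tangent vectors -/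
private theorem ent_tan {n : ℕ} {Ψ : ℂ × (Fin n → ℂ) → Ph N → ℂ} {p : ℂ × (Fin n → ℂ)} (hd : DifferentiableAt ℂ Ψ p) {I : Ideal (MvPolynomial (Ph N) ℂ)}
    (h : ∀ᶠ q in 𝓝 p, Pt I (Ψ q)) (v : ℂ × (Fin n → ℂ)) : fderiv ℂ Ψ p v ∈ Tn I (Ψ p) := by
  intro g hg
  have h0 : p + (0 : ℂ) • v = p := by rw [zero_smul, add_zero]
  have h1 : HasDerivAt (fun t : ℂ => p + t • v) v 0 := by
    have h1 := ((hasDerivAt_id (0 : ℂ)).smul_const v).const_add p
    rwa [one_smul] at h1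
  have h2 : HasDerivAt (fun t : ℂ => Ψ (p + t • v)) (fderiv ℂ Ψ p v) 0 :=
    HasFDerivAt.comp_hasDerivAt_of_eq (0 : ℂ) (f := fun t : ℂ => p + t • v) hd.hasFDerivAt h1 h0.symm
  have h3 := Chart_hasDerivAt g h2
  have h4 : (fun t : ℂ => eval (Ψ (p + t • v)) g) =ᶠ[𝓝 0] fun _ => 0 := by
    have h5 : Tendsto (fun t : ℂ => p + t • v) (𝓝 0) (𝓝 p) := by
      have h6 := h1.continuousAt.tendsto
      rwa [h0] at h6
    filter_upwards [h5.eventually h] with t ht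
    exact ht g hg
  have h5 := h3.unique ((hasDerivAt_const (0 : ℂ) (0 : ℂ)).congr_of_eventuallyEq h4)
  rw [h0] at h5
  rw [← h5]
  exact Finset.sum_congr rfl fun s _ => mul_comm _ _

/-- The value of the section along the curve, divided by `x_a`, is an entire function (it does not depend on the chart by `VL.change`; near `z₀` it is given by
`VL.formula`). -/
theorem exists_W [P.IsPrime] {L : Type} [Field L] [Algebra ℂ L] [Algebra (FunField P) L] [IsScalarTower ℂ (FunField P) L] {n M : ℕ} (hP : Homog P)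
    (hdim : ∃ z : Fin (n + 1) → FunField P, IsTranscendenceBasis ℂ z) {f : Frame θ} {u : Derivation ℂ L L} (hs : IsSol f u) (S : Sec P L (n + 1) M)
    {Φ : ℂ × (Fin n → ℂ) → PN N} (hR : ∀ z, ∃ F, RepN P Φ F (z, 0)) {G₀ : ℂ → Fin (N + 1) → ℂ} (hG₀ : Differentiable ℂ G₀)
    (hG₀' : ∀ z, ∃ h : G₀ z ≠ 0, Φ (z, 0) = Projectivization.mk ℂ (G₀ z) h)
    (hpt : ∀ z a, (Φ (z, 0)).rep a ≠ 0 → ∀ᶠ p in 𝓝 (z, (0 : Fin n → ℂ)), Pt (rel (ph P u a)) (psi Φ a p))
    (hsm : ∀ z a, (Φ (z, 0)).rep a ≠ 0 → Module.finrank ℂ (Tn (rel (ph P u a)) (psi Φ a (z, 0))) ≤ n + 1) :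
    ∃ W : ℂ → ℂ, Differentiable ℂ W ∧ ∀ z a, (Φ (z, 0)).rep a ≠ 0 → (∀ j, tvs Φ a z j ∈ Tn (rel (ph P u a)) (psi Φ a (z, 0))) ∧
      S.VL u a (psi Φ a (z, 0)) (tvs Φ a z) (W z * G₀ z a) := by
  classical
  have hmem : ∀ z a, (Φ (z, 0)).rep a ≠ 0 → X a ∉ P := fun z a ha => ent_mem (hR z) ha
  have hrep : ∀ z, ∃ c : ℂ, c ≠ 0 ∧ ∀ b, (Φ (z, 0)).rep b = c * G₀ z b := fun z => ent_rep (hG₀' z)
  have hG0 : ∀ z a, (Φ (z, 0)).rep a ≠ 0 → G₀ z a ≠ 0 := by
    intro z a ha h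
    obtain ⟨c, -, hc⟩ := hrep z
    exact ha (by rw [hc, h, mul_zero])
  have htan : ∀ z a, (Φ (z, 0)).rep a ≠ 0 → ∀ j, tvs Φ a z j ∈ Tn (rel (ph P u a)) (psi Φ a (z, 0)) := fun z a ha j =>
    ent_tan (psi_an (hR z) ha).differentiableAt (hpt z a ha) (dir n j)
  have hval : ∀ z a, (Φ (z, 0)).rep a ≠ 0 → ∃ s, S.VL u a (psi Φ a (z, 0)) (tvs Φ a z) s := by
    intro z a ha
    obtain ⟨g, A, l, hg, h1⟩ := VL.formula hdim hs S (hmem z a ha) (hpt z a ha).self_of_nhds (hsm z a ha)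
    exact ⟨_, h1 _ (hpt z a ha).self_of_nhds hg _⟩
  have hch : ∀ z, ∃ a, (Φ (z, 0)).rep a ≠ 0 := by
    intro z
    by_contra h
    push Not at h
    exact (Φ (z, 0)).rep_nonzero (funext h)
  choose a₀ ha₀ using hch
  choose s hs' using hval
  -- the comparison of two charts
  have hcomp : ∀ z a (ha : (Φ (z, 0)).rep a ≠ 0) b (hb : (Φ (z, 0)).rep b ≠ 0), s z b hb * G₀ z a = s z a ha * G₀ z b := by
    intro z a ha b hb
    have h1 := psi_chg (P := P) (hR z) ha hb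
    have h2 : psi Φ b =ᶠ[𝓝 (z, (0 : Fin n → ℂ))] fun p => nm b (psi Φ a p) := h1.mono fun p hp => hp.2.2
    have h3 : psi Φ b (z, 0) = nm b (psi Φ a (z, 0)) := h2.self_of_nhds
    have h4 : psi Φ a (z, 0) (Sum.inl b) = (Φ (z, 0)).rep b / (Φ (z, 0)).rep a := rfl
    have h5 : psi Φ a (z, 0) (Sum.inl b) ≠ 0 := by
      rw [h4]
      exact div_ne_zero hb ha
    have h6 : ∀ l, tvs Φ b z l = fderiv ℂ (nm b) (psi Φ a (z, 0)) (tvs Φ a z l) := by
      intro l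
      show fderiv ℂ (psi Φ b) (z, 0) (dir n l) = fderiv ℂ (nm b) (psi Φ a (z, 0)) (fderiv ℂ (psi Φ a) (z, 0) (dir n l))
      rw [h2.fderiv_eq, fderiv_fun_comp (z, (0 : Fin n → ℂ)) (ent_diff h5) (psi_an (hR z) ha).differentiableAt]
      rfl
    have h7 := hs' z b hb
    have h8 : tvs Φ b z = fun l => fderiv ℂ (nm b) (psi Φ a (z, 0)) (tvs Φ a z l) := funext h6
    rw [h3, h8] at h7
    have h9 := VL.change hdim hs S (hmem z a ha) (hmem z b hb) (hpt z a ha).self_of_nhds h5 (htan z a ha) (hs' z a ha) h7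
    obtain ⟨c, hc, hcb⟩ := hrep z
    have h10 : (Φ (z, 0)).rep b / (Φ (z, 0)).rep a = G₀ z b / G₀ z a := by
      rw [hcb, hcb]
      exact mul_div_mul_left _ _ hc
    rw [h9, h4, h10]
    have h11 := hG0 z a ha
    field_simp
  refine ⟨fun z => s z (a₀ z) (ha₀ z) / G₀ z (a₀ z), ?_, ?_⟩
  · intro z₀
    obtain ⟨a, haa⟩ : ∃ a, a = a₀ z₀ := ⟨_, rfl⟩
    have ha : (Φ (z₀, 0)).rep a ≠ 0 := by
      rw [haa]
      exact ha₀ z₀
    obtain ⟨g, A, l, hg, hform⟩ := VL.formula hdim hs S (hmem z₀ a ha) (hpt z₀ a ha).self_of_nhds (hsm z₀ a ha)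
    have hpa := psi_an (hR z₀) ha
    have hι : AnalyticAt ℂ (fun z : ℂ => (z, (0 : Fin n → ℂ))) z₀ := analyticAt_id.prod analyticAt_const
    have hw : AnalyticAt ℂ (fun z : ℂ => psi Φ a (z, 0)) z₀ := AnalyticAt.comp_of_eq (f := fun z : ℂ => (z, (0 : Fin n → ℂ))) hpa hι rfl
    have hT : ∀ j, DifferentiableAt ℂ (fun z : ℂ => tvs Φ a z j) z₀ := by
      intro j
      have h1 : AnalyticAt ℂ (fun z : ℂ => fderiv ℂ (psi Φ a) (z, 0)) z₀ :=
        AnalyticAt.comp_of_eq (f := fun z : ℂ => (z, (0 : Fin n → ℂ))) hpa.fderiv hι rfl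
      exact h1.differentiableAt.clm_apply (differentiableAt_const _)
    have hpoly : ∀ p : MvPolynomial (Ph N) ℂ, DifferentiableAt ℂ (fun z : ℂ => eval (psi Φ a (z, 0)) p) z₀ := fun p =>
      (Chart_hasDerivAt p hw.differentiableAt.hasDerivAt).differentiableAt
    have hG : DifferentiableAt ℂ (fun z => G₀ z a) z₀ := differentiableAt_pi.1 (hG₀ z₀) a
    have hdet : DifferentiableAt ℂ (fun z => (Matrix.of fun i j => ∑ s, l j s * tvs Φ a z i s).det) z₀ := by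
      simp only [Matrix.det_apply']
      refine DifferentiableAt.fun_sum fun σ _ => ?_
      refine (differentiableAt_const _).mul ?_
      refine DifferentiableAt.fun_finsetProd fun i _ => ?_
      show DifferentiableAt ℂ (fun z => ∑ s, l i s * tvs Φ a z (σ i) s) z₀
      refine DifferentiableAt.fun_sum fun s _ => ?_
      exact (differentiableAt_const _).mul (differentiableAt_pi.1 (hT _) s)
    have hmain : DifferentiableAt ℂ (fun z => eval (psi Φ a (z, 0)) A / eval (psi Φ a (z, 0)) g *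
        (Matrix.of fun i j => ∑ s, l j s * tvs Φ a z i s).det ^ M / G₀ z a) z₀ :=
      (((hpoly A).div (hpoly g) hg).mul (hdet.pow M)).div hG (hG0 z₀ a ha)
    refine hmain.congr_of_eventuallyEq ?_
    have e1 : ∀ᶠ z in 𝓝 z₀, (Φ (z, 0)).rep a ≠ 0 := by
      have h1 := psi_chg (P := P) (hR z₀) ha ha
      have h2 : Tendsto (fun z : ℂ => (z, (0 : Fin n → ℂ))) (𝓝 z₀) (𝓝 (z₀, 0)) := hι.continuousAt.tendsto
      exact (h2.eventually h1).mono fun z hz => hz.1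
    have e2 : ∀ᶠ z in 𝓝 z₀, eval (psi Φ a (z, 0)) g ≠ 0 := (hpoly g).continuousAt.eventually_ne hg
    filter_upwards [e1, e2] with z hz1 hz2
    have h1 := VL.unique hdim hs S (hmem z a hz1) (hpt z a hz1).self_of_nhds (htan z a hz1) (hs' z a hz1)
      (hform _ (hpt z a hz1).self_of_nhds hz2 (tvs Φ a z))
    rw [← h1, div_eq_div_iff (hG0 z _ (ha₀ z)) (hG0 z a hz1)]
    exact hcomp z a hz1 (a₀ z) (ha₀ z)
  · intro z a ha
    refine ⟨htan z a ha, ?_⟩
    have h1 : s z (a₀ z) (ha₀ z) / G₀ z (a₀ z) * G₀ z a = s z a ha := by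
      rw [div_mul_eq_mul_div, div_eq_iff (hG0 z _ (ha₀ z))]
      exact hcomp z a ha (a₀ z) (ha₀ z)
    show S.VL u a (psi Φ a (z, 0)) (tvs Φ a z) (s z (a₀ z) (ha₀ z) / G₀ z (a₀ z) * G₀ z a)
    rw [h1]
    exact hs' z a ha

end Pool.Agent.GQ
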