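import Pool.Agent.GQ.Nmt
import Pool.Agent.GQ.Psi
import Pool.Agent.GQ.Ent
import Pool.Agent.GQ.Den
import Pool.Agent.GG.Kcpt
import Pool.Agent.GG.OneVar
import Pool.Agent.AD.G.Spec
import Pool.Agent.H36.BP.WdA
import Pool.Agent.H17.GlobalLift

/-!
# GQ One: the one-variable end of the proof, singular case (helper92)

`f = Φ (·, 0)` has an entire lift `G₀` without zeros; `W z` = the value of the section divided by `G₀ z a` is entire (`exists_W`);
`|W z| ‖G₀ z‖ ≤ C exp (C |z|)` (`VL.bound`, the lower bound of the generators of the singular ideal); the speed of `G₀` is bounded below.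
-/

set_option autoImplicit false

open MvPolynomial Topology Filter Metric
open Pool.Agent.H13.SM (conTan cone Inv_hasFDerivAt_eval)
open Pool.Agent.H17 (PN VanishesAt)
open Pool.Agent.H17LG.Variety (FunField ratio PoleAtMost IsLogGeneralType)
open Pool.Agent.H23.Fano (Form PrimeDivisorOver)
open Pool.Agent.H62.FC (Homog)
open Pool.Agent.GG

noncomputable section

namespace Pool.Agent.GQ

variable {N : ℕ} {P : Ideal (MvPolynomial (Fin (N + 1)) ℂ)} {J : ℕ} {m : Fin J → ℕ} {θ : ∀ k, SymSec P (m k)}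

/-- two lifts of a map to projective space differ by a holomorphic factor -/
private theorem oneS_ratio {E : Type*} [NormedAddCommGroup E] [NormedSpace ℂ E] {Φ : E → PN N} {F G : E → Fin (N + 1) → ℂ} {q : E} (hF : AnalyticAt ℂ F q)
    (hF' : ∀ᶠ p in 𝓝 q, ∃ h : F p ≠ 0, Φ p = Projectivization.mk ℂ (F p) h) (hG : AnalyticAt ℂ G q)
    (hG' : ∀ᶠ p in 𝓝 q, ∃ h : G p ≠ 0, Φ p = Projectivization.mk ℂ (G p) h) :
    ∃ h : E → ℂ, AnalyticAt ℂ h q ∧ h q ≠ 0 ∧ ∀ᶠ p in 𝓝 q, F p = h p • G p := by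
  obtain ⟨hF0, hF1⟩ := hF'.self_of_nhds
  obtain ⟨hG0, hG1⟩ := hG'.self_of_nhds
  obtain ⟨b, hb⟩ : ∃ b, G q b ≠ 0 := by
    by_contra h
    push Not at h
    exact hG0 (funext h)
  have hFb : AnalyticAt ℂ (fun p => F p b) q := (analyticAt_pi_iff.1 hF) b
  have hGb : AnalyticAt ℂ (fun p => G p b) q := (analyticAt_pi_iff.1 hG) b
  refine ⟨fun p => F p b / G p b, hFb.div hGb hb, ?_, ?_⟩
  · obtain ⟨c, hc, h⟩ := Pool.Agent.H17.mk_eq_mk_cross (hF1.symm.trans hG1)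
    show F q b / G q b ≠ 0
    rw [h b]
    exact div_ne_zero (mul_ne_zero hc hb) hb
  · filter_upwards [hF', hG', hGb.continuousAt.eventually_ne hb] with p h1 h2 h3
    obtain ⟨h4, h5⟩ := h1
    obtain ⟨h6, h7⟩ := h2
    obtain ⟨c, hc, h⟩ := Pool.Agent.H17.mk_eq_mk_cross (h5.symm.trans h7)
    have h8 : F p b / G p b = c := by
      rw [h b]
      field_simp
    funext j
    show F p j = (F p b / G p b) * G p j
    rw [h8, h j]

private theorem oneS_tan {F : ℂ → Fin (N + 1) → ℂ} {q : ℂ} (hF : DifferentiableAt ℂ F q) (hc : ∀ᶠ p in 𝓝 q, F p ∈ cone P) :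
    deriv F q ∈ conTan P (F q) := by
  intro Q hQ
  have h1 := (Inv_hasFDerivAt_eval Q (F q)).comp q hF.hasFDerivAt
  have h2 : HasFDerivAt ((fun y : Fin (N + 1) → ℂ => eval y Q) ∘ F) (0 : ℂ →L[ℂ] ℂ) q := by
    refine (hasFDerivAt_const (0 : ℂ) q).congr_of_eventuallyEq ?_
    filter_upwards [hc] with z hz
    exact hz.2 Q hQ
  have h3 := h1.unique h2
  have h4 := congrArg (fun L : ℂ →L[ℂ] ℂ => L 1) h3
  simp only [ContinuousLinearMap.comp_apply, sum_apply, FunLike.coe_smul, Pi.smul_apply, ContinuousLinearMap.proj_apply, smul_eq_mul, zero_apply] at h4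
  rw [← h4]
  exact Finset.sum_congr rfl fun i _ => mul_comm _ _

private theorem oneS_theta (hP : Homog P) {k : ℕ} (σ : SymSec P k) {F G : ℂ → Fin (N + 1) → ℂ} {h : ℂ → ℂ} {z : ℂ} (hh : DifferentiableAt ℂ h z)
    (h0 : h z ≠ 0) (hG : DifferentiableAt ℂ G z) (hc : ∀ᶠ p in 𝓝 z, G p ∈ cone P) (he : ∀ᶠ p in 𝓝 z, F p = h p • G p) :
    σ.toFun (F z) (deriv F z) = σ.toFun (G z) (deriv G z) := by
  have hx : G z ∈ cone P := hc.self_of_nhds
  have hx' : h z • G z ∈ cone P := Pool.Agent.AD.G.cone_smulC hP hx h0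
  have hv : deriv G z ∈ conTan P (G z) := oneS_tan hG hc
  have h1 : deriv F z = h z • deriv G z + ((h z)⁻¹ * deriv h z) • (h z • G z) := by
    have h2 : deriv F z = h z • deriv G z + (deriv h z) • G z := by
      have h3 : F =ᶠ[𝓝 z] fun p => h p • G p := he
      rw [h3.deriv_eq]
      exact (hh.hasDerivAt.smul hG.hasDerivAt).deriv
    rw [h2, smul_smul ((h z)⁻¹ * deriv h z)]
    congr 2
    field_simp
  rw [he.self_of_nhds, h1, σ.add_smul _ hx' _ (Pool.Agent.AD.G.conTan_smulC hP hv _), σ.scale _ hx _ hv _ h0]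

private theorem oneS_norm_le (x : Fin (N + 1) → ℂ) : ‖(WithLp.toLp 2 x : Pool.Agent.H36.BP.EN N)‖ ^ 2 ≤ (N + 1) * ‖x‖ ^ 2 := by
  rw [EuclideanSpace.norm_sq_eq]
  calc ∑ i, ‖(WithLp.toLp 2 x : Pool.Agent.H36.BP.EN N) i‖ ^ 2 ≤ ∑ _i : Fin (N + 1), ‖x‖ ^ 2 :=
        Finset.sum_le_sum fun i _ => pow_le_pow_left₀ (norm_nonneg _) (norm_le_pi_norm x i) 2
    _ = (N + 1) * ‖x‖ ^ 2 := by simp

/-- comparison of the lengths -/
private theorem oneS_fs (x v : Fin (N + 1) → ℂ) (hx : x ≠ 0) :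
    wl x v / (N + 1) ≤ Pool.Agent.H36.BP.fs (N := N) (WithLp.toLp 2 x) (WithLp.toLp 2 v) := by
  have hxn : 0 < ‖x‖ := norm_pos_iff.2 hx
  have hN : (0 : ℝ) < N + 1 := by positivity
  have hx2 : 0 < ‖(WithLp.toLp 2 x : Pool.Agent.H36.BP.EN N)‖ := by
    rw [norm_pos_iff]
    intro h
    apply hx
    funext i
    have := congrArg (fun y : Pool.Agent.H36.BP.EN N => y i) h
    simpa using this
  have h1 : ‖fun p : Fin (N + 1) × Fin (N + 1) => x p.1 * v p.2 - x p.2 * v p.1‖ ≤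
      Pool.Agent.H36.BP.wd (WithLp.toLp 2 x : Pool.Agent.H36.BP.EN N) (WithLp.toLp 2 v) := by
    rw [pi_norm_le_iff_of_nonneg (Pool.Agent.H36.BP.wd_nonneg _ _)]
    intro p
    by_cases hp : p.1 = p.2
    · rw [hp, sub_self, norm_zero]
      exact Pool.Agent.H36.BP.wd_nonneg _ _
    · have h2 := Pool.Agent.H36.BP.gram_proj (a := (EuclideanSpace.single p.1 (1 : ℂ) : Pool.Agent.H36.BP.EN N))
        (b := (EuclideanSpace.single p.2 (1 : ℂ) : Pool.Agent.H36.BP.EN N)) (by simp) (by simp)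
        (by rw [EuclideanSpace.inner_single_left]; simp [hp]) (WithLp.toLp 2 x) (WithLp.toLp 2 v)
      simpa [EuclideanSpace.inner_single_left] using h2
  have h3 := oneS_norm_le x
  unfold wl Pool.Agent.H36.BP.fs
  rw [div_div, mul_comm (‖x‖ ^ 2)]
  exact (div_le_div_of_nonneg_left (norm_nonneg _) (by positivity) h3).trans (div_le_div_of_nonneg_right h1 (by positivity))

/-- `|t| ^ e * σ ≤ B`, `t` not small -/
private theorem oneS_div {t σ B x : ℝ} {e E : ℕ} (hσ : 0 ≤ σ) (hx : 0 ≤ x) (he : e ≤ E) (ht : Real.exp (-x) ≤ t) (h : t ^ e * σ ≤ B) : σ ≤ B * Real.exp (E * x) := by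
  have h1 : Real.exp (-(e * x)) ≤ t ^ e := by
    calc Real.exp (-(e * x)) = Real.exp (-x) ^ e := by rw [← Real.exp_nat_mul]; congr 1; ring
      _ ≤ t ^ e := pow_le_pow_left₀ (Real.exp_pos _).le ht e
  have h2 : Real.exp (-(e * x)) * σ ≤ B := (mul_le_mul_of_nonneg_right h1 hσ).trans h
  have hB : 0 ≤ B := le_trans (by positivity) h2
  calc σ = Real.exp (e * x) * (Real.exp (-(e * x)) * σ) := by rw [← mul_assoc, ← Real.exp_add]; simp
    _ ≤ Real.exp (e * x) * B := mul_le_mul_of_nonneg_left h2 (Real.exp_pos _).le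
    _ ≤ Real.exp (E * x) * B := mul_le_mul_of_nonneg_right (Real.exp_le_exp.2 (mul_le_mul_of_nonneg_right (Nat.cast_le.2 he) hx)) hB
    _ = B * Real.exp (E * x) := mul_comm _ _

/-- **The value of the section is zero along the curve.** -/
theorem one_sing [P.IsPrime] {L : Type} [Field L] [Algebra ℂ L] [Algebra (FunField P) L] [IsScalarTower ℂ (FunField P) L] {n M : ℕ} (hP : Homog P)
    (hθ : Polar θ) (hm : ∀ k, 1 ≤ m k) (hdim : ∃ z : Fin (n + 1) → FunField P, IsTranscendenceBasis ℂ z) {f : Frame θ} {u : Derivation ℂ L L}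
    (hs : IsSol f u) (hM : 1 ≤ M) (S : Sec P L (n + 1) M) {Φ : ℂ × (Fin n → ℂ) → PN N} {c : Fin J → ℂ} (hc : c ≠ 0)
    (hΦ : ∀ z, ArcAt θ c (fun w => Φ (w, 0)) z) (hR : ∀ z, ∃ F, RepN P Φ F (z, 0))
    (hpt : ∀ z a, (Φ (z, 0)).rep a ≠ 0 → ∀ᶠ p in 𝓝 (z, (0 : Fin n → ℂ)), Pt (rel (ph P u a)) (psi Φ a p))
    {s : Fin (N + 1) → ℕ} (q : ∀ a, Fin (s a) → MvPolynomial (Ph N) ℂ) (hq : ∀ a, Ideal.span (Set.range (q a)) = sgl (rel (ph P u a)) (n + 1))
    (hlow : ∃ C > 0, ∀ (z : ℂ) (a : Fin (N + 1)), Gd (fun w => Φ (w, 0)) a z → ∃ j, Real.exp (-(C * (‖z‖ + 1))) ≤ ‖eval (psi Φ a (z, 0)) (q a j)‖)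
    (htan : ∃ C : ℝ, ∀ z, ∃ a, Gd (fun w => Φ (w, 0)) a z ∧ ∀ j, ‖tvs Φ a z j‖ ≤ C * Real.exp (C * ‖z‖))
    {a : Fin (N + 1)} (ha : (Φ (0, 0)).rep a ≠ 0) {v : ℂ} (hv : S.VL u a (psi Φ a (0, 0)) (tvs Φ a 0) v) : v = 0 := by
  obtain ⟨C₁, hC₁, hlow⟩ := hlow
  obtain ⟨C₂, htan⟩ := htan
  -- the entire lift
  have hf : Pool.Agent.H17.HolomorphicInto (fun w => Φ (w, 0)) Set.univ := by
    intro z _
    obtain ⟨F, hF, hR, -⟩ := hΦ z
    exact ⟨F, hF, hR⟩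
  obtain ⟨x, hx⟩ := Pool.Agent.H17.exists_global_lift hf
  obtain ⟨G₀, hG₀⟩ : ∃ G₀ : ℂ → Fin (N + 1) → ℂ, G₀ = fun z j => (x j : ℂ → ℂ) z := ⟨_, rfl⟩
  have hG₀d : Differentiable ℂ G₀ := by
    rw [hG₀]
    exact differentiable_pi.2 fun j => (x j).diff
  have hG₀l : ∀ z, ∃ h : G₀ z ≠ 0, Φ (z, 0) = Projectivization.mk ℂ (G₀ z) h := by
    rw [hG₀]
    exact hx
  have hcone : ∀ z, G₀ z ∈ cone P := fun z => by
    obtain ⟨F, hF⟩ := hR z
    obtain ⟨h1, h2, h3⟩ := hF.2.self_of_nhds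
    obtain ⟨h4, h5⟩ := hG₀l z
    obtain ⟨c', hc', h6⟩ := Pool.Agent.H17.mk_eq_mk_cross (h5.symm.trans h3)
    have h7 : G₀ z = c' • F (z, 0) := funext h6
    rw [h7]
    exact Pool.Agent.AD.G.cone_smulC hP h1 hc'
  have hth : ∀ z k, (θ k).toFun (G₀ z) (deriv G₀ z) = c k := fun z k => by
    obtain ⟨F, hF, hR, hc⟩ := hΦ z
    obtain ⟨g, hg, hg0, hge⟩ := oneS_ratio (Φ := fun w => Φ (w, 0)) (hG₀d.analyticAt z) (Eventually.of_forall hG₀l) hF hR
    rw [oneS_theta hP (θ k) hg.differentiableAt hg0 hF.differentiableAt (hc.mono fun w hw => hw.1) hge]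
    exact hc.self_of_nhds.2 k
  -- the point is smooth
  have hex : ∀ z, ∃ a', Gd (fun w => Φ (w, 0)) a' z := fun z => ⟨_, (htan z).choose_spec.1⟩
  have hrep0 : ∀ z a', Gd (fun w => Φ (w, 0)) a' z → (Φ (z, 0)).rep a' ≠ 0 := by
    intro z a' h h0
    apply (Φ (z, 0)).rep_nonzero
    funext b
    have h1 := h b
    simp only [h0, norm_zero] at h1
    exact norm_le_zero_iff.1 h1
  have hsmG : ∀ z a', Gd (fun w => Φ (w, 0)) a' z → Module.finrank ℂ (Tn (rel (ph P u a')) (psi Φ a' (z, 0))) ≤ n + 1 := by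
    intro z a' h
    by_contra hcon
    rw [not_le] at hcon
    obtain ⟨j, hj⟩ := hlow z a' h
    have h1 : q a' j ∈ sgl (rel (ph P u a')) (n + 1) := by
      rw [← hq a']
      exact Ideal.subset_span ⟨j, rfl⟩
    have h2 := h1 (psi Φ a' (z, 0)) (hpt z a' (hrep0 z a' h)).self_of_nhds hcon
    rw [h2, norm_zero] at hj
    exact absurd hj (not_le.2 (Real.exp_pos _))
  have hXa : ∀ z a', (Φ (z, 0)).rep a' ≠ 0 → X a' ∉ P := fun z a' h => (ps_arc hP (hΦ z) h).2.2.1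
  have hsm : ∀ z a', (Φ (z, 0)).rep a' ≠ 0 → Module.finrank ℂ (Tn (rel (ph P u a')) (psi Φ a' (z, 0))) ≤ n + 1 := by
    intro z a' h
    obtain ⟨b, hb⟩ := hex z
    have hb0 := hrep0 z b hb
    have h1 := (psi_chg (hR z) hb0 h).self_of_nhds
    have h2 : psi Φ b (z, 0) (Sum.inl a') ≠ 0 := by
      show (Φ (z, 0)).rep a' / (Φ (z, 0)).rep b ≠ 0
      exact div_ne_zero h hb0
    rw [h1.2.2, finrank_nm hdim u (hXa z b hb0) (hXa z a' h) (hpt z b hb0).self_of_nhds h2]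
    exact hsmG z b hb
  obtain ⟨W, hWd, hW⟩ := exists_W hP hdim hs S hR hG₀d hG₀l hpt hsm
  -- the bound
  have hbd : ∀ a' : Fin (N + 1), ∃ (e : Fin (s a') → ℕ) (Cb : Fin (s a') → ℝ), X a' ∉ P → ∀ j, ∀ w ∈ Kset θ a' {c}, Pt (rel (ph P u a')) w →
      Module.finrank ℂ (Tn (rel (ph P u a')) w) ≤ n + 1 → ∀ T : Fin (n + 1) → Ph N → ℂ, (∀ l, T l ∈ Tn (rel (ph P u a')) w) → ∀ s', S.VL u a' w T s' →
        ‖eval w (q a' j)‖ ^ e j * ‖s'‖ ≤ Cb j * (∏ l, ‖T l‖) ^ M := by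
    intro a'
    by_cases hX : X a' ∈ P
    · exact ⟨fun _ => 0, fun _ => 0, fun h => absurd hX h⟩
    · have h1 : ∀ j, ∃ (e : ℕ) (C : ℝ), ∀ w ∈ Kset θ a' {c}, Pt (rel (ph P u a')) w → Module.finrank ℂ (Tn (rel (ph P u a')) w) ≤ n + 1 →
          ∀ T : Fin (n + 1) → Ph N → ℂ, (∀ l, T l ∈ Tn (rel (ph P u a')) w) → ∀ s', S.VL u a' w T s' → ‖eval w (q a' j)‖ ^ e * ‖s'‖ ≤ C * (∏ l, ‖T l‖) ^ M := by
        intro j
        refine VL.bound hdim hs S hM hX (isCompact_Kset hθ hm a' isCompact_singleton) ?_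
        rw [← hq a']
        exact Ideal.subset_span ⟨j, rfl⟩
      choose e Cb h2 using h1
      exact ⟨e, Cb, fun _ => h2⟩
  choose e Cb hbd using hbd
  obtain ⟨c₁, hc₁, C₃, hw⟩ := wl_bounds hP hθ hm hc
  obtain ⟨E, hE⟩ : ∃ E : ℕ, E = ∑ a', ∑ j, e a' j := ⟨_, rfl⟩
  obtain ⟨D, hD⟩ : ∃ D : ℝ, D = ∑ a', ∑ j, |Cb a' j| := ⟨_, rfl⟩
  have heE : ∀ a' j, e a' j ≤ E := by
    intro a' j
    rw [hE]
    exact (Finset.single_le_sum (f := fun j => e a' j) (fun _ _ => Nat.zero_le _) (Finset.mem_univ j)).trans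
      (Finset.single_le_sum (f := fun a' => ∑ j, e a' j) (fun _ _ => Nat.zero_le _) (Finset.mem_univ a'))
  have hDD : ∀ a' j, Cb a' j ≤ D := by
    intro a' j
    rw [hD]
    exact (le_abs_self _).trans ((Finset.single_le_sum (f := fun j => |Cb a' j|) (fun _ _ => abs_nonneg _) (Finset.mem_univ j)).trans
      (Finset.single_le_sum (f := fun a' => ∑ j, |Cb a' j|) (fun _ _ => Finset.sum_nonneg fun _ _ => abs_nonneg _) (Finset.mem_univ a')))
  have hD0 : 0 ≤ D := by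
    rw [hD]
    exact Finset.sum_nonneg fun _ _ => Finset.sum_nonneg fun _ _ => abs_nonneg _
  obtain ⟨B, hB⟩ : ∃ B, B = max C₂ 1 := ⟨_, rfl⟩
  have hB1 : 1 ≤ B := by rw [hB]; exact le_max_right _ _
  have hB2 : C₂ ≤ B := by rw [hB]; exact le_max_left _ _
  have key : ∀ z, ‖W z‖ * ‖G₀ z‖ ≤ D * (B ^ (n + 1)) ^ M * Real.exp (E * C₁) * Real.exp ((M * ((n + 1) * B) + E * C₁) * ‖z‖) := by
    intro z
    obtain ⟨a', ha', ht⟩ := htan z
    have ha0 := hrep0 z a' ha'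
    obtain ⟨j, hj⟩ := hlow z a' ha'
    obtain ⟨hT, hVL⟩ := hW z a' ha0
    obtain ⟨-, -, hX, hIT, -⟩ := ps_arc hP (hΦ z) ha0
    have hK : psi Φ a' (z, 0) ∈ Kset θ a' {c} := by
      refine ⟨_, _, c, rfl, hIT, fun b => ?_, rfl⟩
      show ‖(Φ (z, 0)).rep b / (Φ (z, 0)).rep a'‖ ≤ 1
      rw [norm_div]
      exact div_le_one_of_le₀ (ha' b) (norm_nonneg _)
    have h1 := hbd a' hX j _ hK (hpt z a' ha0).self_of_nhds (hsm z a' ha0) _ hT _ hVL
    have h2 : ‖G₀ z‖ = ‖G₀ z a'‖ := by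
      refine le_antisymm ?_ (norm_le_pi_norm _ _)
      rw [pi_norm_le_iff_of_nonneg (norm_nonneg _)]
      intro b
      obtain ⟨h3, h4⟩ := hG₀l z
      obtain ⟨c', hc', h5⟩ := Pool.Agent.H17.mk_eq_mk_cross (v := G₀ z) (w := (Φ (z, 0)).rep) (hv := h3) (hw := (Φ (z, 0)).rep_nonzero)
        (h4.symm.trans (Φ (z, 0)).mk_rep.symm)
      rw [h5 b, h5 a', norm_mul, norm_mul]
      exact mul_le_mul_of_nonneg_left (ha' b) (norm_nonneg _)
    have h3 : (∏ l, ‖tvs Φ a' z l‖) ^ M ≤ (B ^ (n + 1)) ^ M * Real.exp (M * ((n + 1) * B) * ‖z‖) := by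
      have hexp : C₂ * Real.exp (C₂ * ‖z‖) ≤ B * Real.exp (B * ‖z‖) := by
        have h6 : Real.exp (C₂ * ‖z‖) ≤ Real.exp (B * ‖z‖) := Real.exp_le_exp.2 (mul_le_mul_of_nonneg_right hB2 (norm_nonneg z))
        calc C₂ * Real.exp (C₂ * ‖z‖) ≤ B * Real.exp (C₂ * ‖z‖) := mul_le_mul_of_nonneg_right hB2 (Real.exp_pos _).le
          _ ≤ B * Real.exp (B * ‖z‖) := mul_le_mul_of_nonneg_left h6 (by linarith)
      calc (∏ l, ‖tvs Φ a' z l‖) ^ M ≤ ((B * Real.exp (B * ‖z‖)) ^ (n + 1)) ^ M := by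
            refine pow_le_pow_left₀ (Finset.prod_nonneg fun _ _ => norm_nonneg _) ?_ M
            calc ∏ l, ‖tvs Φ a' z l‖ ≤ ∏ _l : Fin (n + 1), (B * Real.exp (B * ‖z‖)) :=
                  Finset.prod_le_prod (fun _ _ => norm_nonneg _) fun l _ => (ht l).trans hexp
              _ = (B * Real.exp (B * ‖z‖)) ^ (n + 1) := by simp
        _ = (B ^ (n + 1)) ^ M * Real.exp (M * ((n + 1) * B) * ‖z‖) := by
            rw [mul_pow, mul_pow, ← Real.exp_nat_mul, ← Real.exp_nat_mul]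
            congr 2
            push_cast
            ring
    have h4 : ‖eval (psi Φ a' (z, 0)) (q a' j)‖ ^ e a' j * ‖W z * G₀ z a'‖ ≤ D * ((B ^ (n + 1)) ^ M * Real.exp (M * ((n + 1) * B) * ‖z‖)) := by
      refine h1.trans ((mul_le_mul_of_nonneg_right (hDD a' j) (pow_nonneg (Finset.prod_nonneg fun _ _ => norm_nonneg _) M)).trans ?_)
      exact mul_le_mul_of_nonneg_left h3 hD0
    have h5 := oneS_div (norm_nonneg _) (mul_nonneg hC₁.le (by positivity)) (heE a' j) hj h4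
    rw [norm_mul, ← h2] at h5
    refine h5.trans (le_of_eq ?_)
    rw [show (M * ((n + 1) * B) + E * C₁) * ‖z‖ = M * ((n + 1) * B) * ‖z‖ + E * C₁ * ‖z‖ by ring,
      show (E : ℝ) * (C₁ * (‖z‖ + 1)) = E * C₁ * ‖z‖ + E * C₁ by ring, Real.exp_add, Real.exp_add]
    ring
  have hW0 : W 0 = 0 := by
    by_contra hne
    have hN : (0 : ℝ) < N + 1 := by positivity
    obtain ⟨A, hA⟩ : ∃ A : ℝ, A = (D * (B ^ (n + 1)) ^ M * Real.exp (E * C₁)) * (N + 1) := ⟨_, rfl⟩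
    obtain ⟨A', hA'⟩ : ∃ A' : ℝ, A' = M * ((n + 1) * B) + E * C₁ := ⟨_, rfl⟩
    have hA0 : 0 ≤ A := by
      rw [hA]
      have := pow_nonneg (pow_nonneg (zero_le_one.trans hB1) (n + 1)) M
      positivity
    refine growth_contra (F := fun z => (WithLp.toLp 2 (G₀ z) : Pool.Agent.H36.BP.EN N)) (w := W) (j := 1) (c := c₁ / (N + 1)) (C := max A A')
      ?_ ?_ hWd hne le_rfl (div_pos hc₁ hN) ?_ ?_
    · exact (PiLp.continuousLinearEquiv 2 ℂ (fun _ : Fin (N + 1) => ℂ)).symm.differentiable.comp hG₀d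
    · intro z h
      apply (hG₀l z).1
      funext i
      have := congrArg (fun y : Pool.Agent.H36.BP.EN N => y i) h
      simpa using this
    · intro z
      have h4 : deriv (fun z => (WithLp.toLp 2 (G₀ z) : Pool.Agent.H36.BP.EN N)) z = WithLp.toLp 2 (deriv G₀ z) := by
        have h5 : HasDerivAt G₀ (deriv G₀ z) z := (hG₀d z).hasDerivAt
        exact (((PiLp.continuousLinearEquiv 2 ℂ (fun _ : Fin (N + 1) => ℂ)).symm :
          (Fin (N + 1) → ℂ) →L[ℂ] Pool.Agent.H36.BP.EN N).hasFDerivAt.comp_hasDerivAt z h5).deriv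
      rw [h4]
      refine le_trans ?_ (oneS_fs (G₀ z) (deriv G₀ z) (hG₀l z).1)
      exact div_le_div_of_nonneg_right (hw (G₀ z) (hcone z) (deriv G₀ z) (oneS_tan (hG₀d z) (Eventually.of_forall hcone)) (hth z)).1 hN.le
    · intro z
      have h8 : ‖(WithLp.toLp 2 (G₀ z) : Pool.Agent.H36.BP.EN N)‖ ≤ (N + 1) * ‖G₀ z‖ := by
        have h9 := oneS_norm_le (G₀ z)
        have h10 : (N + 1 : ℝ) * ‖G₀ z‖ ^ 2 ≤ ((N + 1) * ‖G₀ z‖) ^ 2 := by
          rw [mul_pow]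
          refine mul_le_mul_of_nonneg_right ?_ (by positivity)
          have h11 : (1 : ℝ) ≤ N + 1 := by
            have := Nat.cast_nonneg (α := ℝ) N
            linarith
          nlinarith
        exact le_of_sq_le_sq (h9.trans h10) (by positivity)
      calc ‖W z‖ * ‖(WithLp.toLp 2 (G₀ z) : Pool.Agent.H36.BP.EN N)‖ ^ 1 ≤ ‖W z‖ * ((N + 1) * ‖G₀ z‖) := by
            rw [pow_one]
            exact mul_le_mul_of_nonneg_left h8 (norm_nonneg _)
        _ = (‖W z‖ * ‖G₀ z‖) * (N + 1) := by ring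
        _ ≤ (D * (B ^ (n + 1)) ^ M * Real.exp (E * C₁) * Real.exp (A' * ‖z‖)) * (N + 1) := by
            rw [hA']
            exact mul_le_mul_of_nonneg_right (key z) hN.le
        _ = A * Real.exp (A' * ‖z‖) := by rw [hA]; ring
        _ ≤ max A A' * Real.exp (max A A' * ‖z‖) := by
            refine mul_le_mul (le_max_left _ _) (Real.exp_le_exp.2 (mul_le_mul_of_nonneg_right (le_max_right _ _) (norm_nonneg z))) (Real.exp_pos _).le
              (hA0.trans (le_max_left _ _))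
  obtain ⟨hT, hVL⟩ := hW 0 a ha
  rw [hW0, zero_mul] at hVL
  exact VL.unique hdim hs S (hXa 0 a ha) (hpt 0 a ha).self_of_nhds hT hv hVL

end Pool.Agent.GQ
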