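import Pool.Agent.GQ.Fdc

/-!
# GQ Rel: the vector field of the arcs is the derivation of the solution

PROOF of `aeval_Dt`.  `y = ph P u b`.  All functions of the family are constants for `u` (`Rel_gfam`): `x_b = 1`, `v_b = 0`, `Q_j (x) = 0`,
`dQ_j (x) v = u (Q_j (x)) = 0`, and the symmetric differentials.  So `∑_c ∂G_l/∂v_c u (v_c) = - ∑_c ∂G_l/∂x_c v_c`, and Cramer's rule for the rows `I` gives
`fld_s (y) = vdet (y) u (y_s)` (`Rel_fld`).  Both sides of `aeval_Dt` are derivations in `g`.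
-/

set_option autoImplicit false

open MvPolynomial Topology Filter Metric
open Pool.Agent.H13.SM (conTan cone)
open Pool.Agent.H17 (PN VanishesAt)
open Pool.Agent.H17LG.Variety (FunField ratio PoleAtMost IsLogGeneralType)
open Pool.Agent.H23.Fano (Form PrimeDivisorOver)
open Pool.Agent.H62.FC (Homog)
open Pool.Agent.GG

noncomputable section

namespace Pool.Agent.GQ

variable {N : ℕ} {P : Ideal (MvPolynomial (Fin (N + 1)) ℂ)} {J : ℕ} {m : Fin J → ℕ} {θ : ∀ k, SymSec P (m k)}

/-- the chain rule for a derivation -/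
private theorem Rel_chain {K τ : Type} [Fintype τ] [Field K] [Algebra ℂ K] (D : Derivation ℂ K K) (y : τ → K) (G : MvPolynomial τ ℂ) :
    D (aeval y G) = ∑ s, aeval y (pderiv s G) * D (y s) := by
  classical
  induction G using MvPolynomial.induction_on with
  | C c => simp
  | add p q hp hq =>
    rw [map_add, map_add, hp, hq, ← Finset.sum_add_distrib]
    refine Finset.sum_congr rfl fun l _ => ?_
    rw [map_add, map_add, add_mul]
  | mul_X p i hp =>
    rw [map_mul, aeval_X, Derivation.leibniz, hp]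
    have h1 : ∀ l, aeval y (pderiv l (p * X i)) * D (y l) =
        y i * (aeval y (pderiv l p) * D (y l)) + aeval y p * (aeval y (pderiv l (X i : MvPolynomial τ ℂ)) * D (y l)) := by
      intro l
      rw [Derivation.leibniz, map_add, smul_eq_mul, smul_eq_mul, map_mul, map_mul, aeval_X]
      ring
    simp only [h1, Finset.sum_add_distrib, ← Finset.mul_sum]
    rw [Finset.sum_eq_single (s := Finset.univ) (f := fun l => aeval y (pderiv l (X i : MvPolynomial τ ℂ)) * D (y l)) i]
    · rw [pderiv_X_self, map_one, one_mul, smul_eq_mul, smul_eq_mul]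
      exact add_comm _ _
    · intro j _ hj
      rw [pderiv_X_of_ne (Ne.symm hj), map_zero, zero_mul]
    · intro h
      exact absurd (Finset.mem_univ i) h

section Sol

variable [P.IsPrime] {L : Type} [Field L] [Algebra ℂ L] [Algebra (FunField P) L]

private theorem Rel_self {n : ℕ} (hdim : ∃ z : Fin (n + 1) → FunField P, IsTranscendenceBasis ℂ z) {a : Fin (N + 1)} (ha : X a ∉ P) :
    ratio P a a = 1 := by
  obtain ⟨x, hxa, -, -, h3⟩ := Kd.exists_gen hdim ha
  rw [h3, div_self hxa]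

/-- the functions of the family are constants -/
theorem Rel_gfam [IsScalarTower ℂ (FunField P) L] (hP : Homog P) {n : ℕ} (hdim : ∃ z : Fin (n + 1) → FunField P, IsTranscendenceBasis ℂ z) {f : Frame θ} {u : Derivation ℂ L L}
    (hs : IsSol f u) {b : Fin (N + 1)} (hb : X b ∉ P) (l : (Unit ⊕ Unit) ⊕ (Fin f.q ⊕ Fin f.q) ⊕ Fin J) :
    u (aeval (ph P u b) (gfam f b l)) = 0 := by
  obtain ⟨y, hy⟩ : ∃ y : Fin (N + 1) → L, y = fun i => algebraMap (FunField P) L (ratio P i b) := ⟨_, rfl⟩
  have hq : ∀ q ∈ P, aeval y q = 0 := fun q hq => by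
    have h1 : aeval (algebraMap (FunField P) L ∘ Kd.ya P b) q = algebraMap (FunField P) L (aeval (Kd.ya P b) q) := aeval_algebraMap_apply _ _ _
    rw [Kd.aeval_ya_mem hP hdim hb hq, map_zero] at h1
    rw [hy]
    exact h1
  have hinl : ∀ q : MvPolynomial (Fin (N + 1)) ℂ, aeval (ph P u b) (rename Sum.inl q) = aeval y q := fun q => by
    rw [aeval_rename, hy]
    rfl
  have hQ : ∀ j, f.Q j ∈ P := fun j => by
    have h1 : f.Q j ∈ Ideal.span (Set.range f.Q) := Ideal.subset_span ⟨j, rfl⟩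
    rwa [f.span] at h1
  have hone : algebraMap (FunField P) L (ratio P b b) = 1 := by rw [Rel_self hdim hb, map_one]
  rcases l with (_ | _) | ((j | j) | k)
  · show u (aeval (ph P u b) (X (Sum.inl b))) = 0
    rw [aeval_X]
    show u (algebraMap (FunField P) L (ratio P b b)) = 0
    rw [hone, Derivation.map_one_eq_zero]
  · show u (aeval (ph P u b) (X (Sum.inr b))) = 0
    rw [aeval_X]
    show u (u (algebraMap (FunField P) L (ratio P b b))) = 0
    rw [hone, Derivation.map_one_eq_zero, map_zero]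
  · show u (aeval (ph P u b) (rename Sum.inl (f.Q j))) = 0
    rw [hinl, hq _ (hQ j), map_zero]
  · show u (aeval (ph P u b) (∑ c, rename Sum.inl (pderiv c (f.Q j)) * X (Sum.inr c))) = 0
    have h2 := Kd.der_aeval u y (f.Q j)
    rw [hq _ (hQ j), map_zero] at h2
    have h3 : aeval (ph P u b) (∑ c, rename Sum.inl (pderiv c (f.Q j)) * X (Sum.inr c)) = 0 := by
      rw [map_sum, h2]
      refine Finset.sum_congr rfl fun c _ => ?_
      rw [map_mul, hinl, aeval_X, hy]
      rfl
    rw [h3, map_zero]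
  · exact hs.const b hb k

/-- the vector field at the generic point -/
theorem Rel_fld [IsScalarTower ℂ (FunField P) L] (hP : Homog P) {n : ℕ} (hdim : ∃ z : Fin (n + 1) → FunField P, IsTranscendenceBasis ℂ z) {f : Frame θ} {u : Derivation ℂ L L}
    (hs : IsSol f u) {b : Fin (N + 1)} (hb : X b ∉ P) (I : Fin (N + 1) → (Unit ⊕ Unit) ⊕ (Fin f.q ⊕ Fin f.q) ⊕ Fin J) (s : Ph N) :
    aeval (ph P u b) (fld (gfam f b) I s) = aeval (ph P u b) (vdet (gfam f b) I) * u (ph P u b s) := by
  obtain ⟨A, hA⟩ : ∃ A : Matrix (Fin (N + 1)) (Fin (N + 1)) L, A = (vmat (gfam f b) I).map (aeval (ph P u b)) := ⟨_, rfl⟩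
  have hdet : A.det = aeval (ph P u b) (vdet (gfam f b) I) := by
    rw [hA, vdet]
    exact ((aeval (ph P u b) : MvPolynomial (Ph N) ℂ →ₐ[ℂ] L).toRingHom.map_det _).symm
  have hrow : A.mulVec (fun c => u (ph P u b (Sum.inr c))) = fun l => aeval (ph P u b) (rhs (gfam f b) I l) := by
    funext l
    have h1 := Rel_chain u (ph P u b) (gfam f b (I l))
    rw [Rel_gfam hP hdim hs hb, Fintype.sum_sum_type] at h1
    have h5 : A.mulVec (fun c => u (ph P u b (Sum.inr c))) l =
        ∑ c, aeval (ph P u b) (pderiv (Sum.inr c) (gfam f b (I l))) * u (ph P u b (Sum.inr c)) := by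
      rw [hA]
      rfl
    have h6 : (∑ c, aeval (ph P u b) (pderiv (Sum.inl c) (gfam f b (I l)) * X (Sum.inr c))) =
        ∑ c, aeval (ph P u b) (pderiv (Sum.inl c) (gfam f b (I l))) * u (ph P u b (Sum.inl c)) := by
      refine Finset.sum_congr rfl fun c _ => ?_
      rw [map_mul, aeval_X]
      rfl
    rw [h5, rhs, map_neg, map_sum, h6]
    exact eq_neg_of_add_eq_zero_right h1.symm
  rcases s with c | c
  · rw [fld, Sum.elim_inl, map_mul, aeval_X]
    rfl
  · rw [fld, Sum.elim_inr]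
    have h3 : A.adjugate.mulVec (fun l => aeval (ph P u b) (rhs (gfam f b) I l)) = A.det • fun c => u (ph P u b (Sum.inr c)) := by
      rw [← hrow, Matrix.mulVec_mulVec, Matrix.adjugate_mul, Matrix.smul_mulVec, Matrix.one_mulVec]
    have h4 : (vmat (gfam f b) I).adjugate.map (aeval (ph P u b)) = A.adjugate := by
      rw [hA]
      exact (aeval (ph P u b) : MvPolynomial (Ph N) ℂ →ₐ[ℂ] L).toRingHom.map_adjugate (vmat (gfam f b) I)
    have h5 : aeval (ph P u b) (((vmat (gfam f b) I).adjugate.mulVec (rhs (gfam f b) I)) c) =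
        A.adjugate.mulVec (fun l => aeval (ph P u b) (rhs (gfam f b) I l)) c := by
      rw [← h4]
      exact (aeval (ph P u b) : MvPolynomial (Ph N) ℂ →ₐ[ℂ] L).toRingHom.map_mulVec _ _ c
    rw [h5, h3, Pi.smul_apply, hdet, smul_eq_mul]

/-- All functions `G_l` of the family are constants for `u` (`x_b = 1`, `v_b = 0`, `Q_j (x) = 0`, `dQ_j (x) v = u (Q_j (x)) = 0`, `θ`), so
`∑_c ∂G_l/∂v_c u (v_c) = - ∑_c ∂G_l/∂x_c v_c`; Cramer's rule for the rows `I`. -/
theorem aeval_Dt [IsScalarTower ℂ (FunField P) L] (hP : Homog P) {n : ℕ} (hdim : ∃ z : Fin (n + 1) → FunField P, IsTranscendenceBasis ℂ z) {f : Frame θ} {u : Derivation ℂ L L}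
    (hs : IsSol f u) {b : Fin (N + 1)} (hb : X b ∉ P) (I : Fin (N + 1) → (Unit ⊕ Unit) ⊕ (Fin f.q ⊕ Fin f.q) ⊕ Fin J) (g : MvPolynomial (Ph N) ℂ) :
    aeval (ph P u b) (Dt (gfam f b) I g) = aeval (ph P u b) (vdet (gfam f b) I) * u (aeval (ph P u b) g) := by
  induction g using MvPolynomial.induction_on with
  | C a =>
    have h1 : Dt (gfam f b) I (C a) = 0 := by
      rw [← algebraMap_eq]
      exact Derivation.map_algebraMap _ _
    rw [h1, map_zero, aeval_C, Derivation.map_algebraMap, mul_zero]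
  | add p q hp hq =>
    rw [map_add, map_add, map_add, map_add, hp, hq, mul_add]
  | mul_X p i hp =>
    have h3 : Dt (gfam f b) I (X i) = fld (gfam f b) I i := mkDerivation_X _ _ _
    rw [Derivation.leibniz, h3, map_add, smul_eq_mul, smul_eq_mul, map_mul, map_mul, map_mul, hp, Rel_fld hP hdim hs hb, aeval_X, Derivation.leibniz,
      smul_eq_mul, smul_eq_mul]
    ring

/-- The points of the variety of `ph P u b` are initial vectors of arcs (where a determinant is not `0`). -/
theorem crit_of_pt [IsScalarTower ℂ (FunField P) L] (hP : Homog P) {n : ℕ} (hdim : ∃ z : Fin (n + 1) → FunField P, IsTranscendenceBasis ℂ z) {f : Frame θ} {u : Derivation ℂ L L}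
    (hs : IsSol f u) {b : Fin (N + 1)} (hb : X b ∉ P) {I : Fin (N + 1) → (Unit ⊕ Unit) ⊕ (Fin f.q ⊕ Fin f.q) ⊕ Fin J} {w : Ph N → ℂ}
    (hw : Pt (rel (ph P u b)) w) (hI : eval w (vdet (gfam f b) I) ≠ 0) :
    Crit (gfam f b) I w ∧ ∃ (x v : Fin (N + 1) → ℂ) (c : Fin J → ℂ), w = pt x v ∧ IsTan θ b c x v := by
  have h1 : ∀ (l : (Unit ⊕ Unit) ⊕ (Fin f.q ⊕ Fin f.q) ⊕ Fin J) (k : ℕ), aeval (ph P u b) ((⇑(Dt (gfam f b) I))^[k + 1] (gfam f b l)) = 0 := by
    intro l k
    induction k with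
    | zero =>
      rw [zero_add, Function.iterate_one, aeval_Dt hP hdim hs hb, Rel_gfam hP hdim hs hb, mul_zero]
    | succ k ih =>
      rw [Function.iterate_succ_apply', aeval_Dt hP hdim hs hb, ih, map_zero, mul_zero]
  refine ⟨⟨hI, fun l k => hw _ (mem_rel.2 (h1 l k))⟩, ?_⟩
  obtain ⟨hx, hv⟩ := pt_tan hP hdim u hb hw
  have hone := pt_one hdim u hb hw
  refine ⟨fun i => w (Sum.inl i), fun i => w (Sum.inr i), fun k => (θ k).toFun (fun i => w (Sum.inl i)) fun i => w (Sum.inr i), ?_,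
    hx, hone.1, hv, hone.2, fun _ => rfl⟩
  funext s
  rcases s with c | c <;> rfl

end Sol

end Pool.Agent.GQ
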