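import Pool.Agent.GQ.Defs

/-!
# GQ Fda: the field generated by the solution is algebraic over the function field

Let `D` be the universal derivation of `L` over `FunField P`.  It is `0` on the coordinates `x_i` and on the algebraic elements `θ_k (x, v)`, so on all functions `G_l (x, v)` of the family.  For the rows `I` with
`vdet ≠ 0` the equations `∑_c ∂G_l/∂v_c D (v_c) = 0` give `D (v_c) = 0`.  So `D = 0` on `L = ℂ(x, v)`, the differentials vanish, and `L` is algebraic (`Algebra.FormallyUnramified.isSeparable`).
-/

set_option autoImplicit false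

open MvPolynomial
open Pool.Agent.H17LG.Variety (FunField ratio)
open Pool.Agent.GG

noncomputable section

namespace Pool.Agent.GQ

/-- the chain rule for a derivation with values in a module -/
private theorem fda_chain {L M τ : Type} [Fintype τ] [Field L] [Algebra ℂ L] [AddCommGroup M] [Module L M] [Module ℂ M] [IsScalarTower ℂ L M]
    (D : Derivation ℂ L M) (y : τ → L) (G : MvPolynomial τ ℂ) : D (aeval y G) = ∑ s, aeval y (pderiv s G) • D (y s) := by
  classical
  induction G using MvPolynomial.induction_on with
  | C c => simp
  | add p q hp hq =>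
    rw [map_add, map_add, hp, hq, ← Finset.sum_add_distrib]
    refine Finset.sum_congr rfl fun l _ => ?_
    rw [map_add, map_add, add_smul]
  | mul_X p i hp =>
    rw [map_mul, aeval_X, Derivation.leibniz, hp]
    have h1 : ∀ l, aeval y (pderiv l (p * X i)) • D (y l) =
        y i • (aeval y (pderiv l p) • D (y l)) + aeval y p • (aeval y (pderiv l (X i : MvPolynomial τ ℂ)) • D (y l)) := by
      intro l
      rw [Derivation.leibniz, map_add, smul_eq_mul, smul_eq_mul, map_mul, map_mul, aeval_X, add_smul, mul_smul, mul_smul, add_comm]
    simp only [h1, Finset.sum_add_distrib, ← Finset.smul_sum]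
    rw [Finset.sum_eq_single (s := Finset.univ) (f := fun l => aeval y (pderiv l (X i : MvPolynomial τ ℂ)) • D (y l)) i]
    · rw [pderiv_X_self, map_one, one_smul]
      exact add_comm _ _
    · intro j _ hj
      rw [pderiv_X_of_ne (Ne.symm hj), map_zero, zero_smul]
    · intro h
      exact absurd (Finset.mem_univ i) h

/-- a derivation over `K` is `0` on the elements which are algebraic over `K` -/
private theorem fda_alg {K L M : Type} [Field K] [Field L] [CharZero K] [Algebra K L] [AddCommGroup M] [Module L M] [Module K M] [IsScalarTower K L M]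
    (D : Derivation K L M) {x : L} (hx : IsAlgebraic K x) : D x = 0 := by
  have hi := hx.isIntegral
  have h1 : (minpoly K x).Separable := (minpoly.irreducible hi).separable
  have h2 := D.map_aeval (minpoly K x) x
  rw [minpoly.aeval, map_zero] at h2
  have h3 : Polynomial.aeval x (Polynomial.derivative (minpoly K x)) ≠ 0 := h1.aeval_derivative_ne_zero (minpoly.aeval K x)
  exact (smul_eq_zero.1 h2.symm).resolve_left h3

/-- a field generated by elements on which the differential over `K` is `0` is algebraic over `K` -/
private theorem fda_field {K L τ : Type} [Finite τ] [Field K] [Field L] [Algebra ℂ K] [Algebra ℂ L] [Algebra K L] [IsScalarTower ℂ K L] (y : τ → L)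
    (hgen : IntermediateField.adjoin ℂ (Set.range y) = ⊤) (hD : ∀ s, KaehlerDifferential.D K L (y s) = 0) : Algebra.IsAlgebraic K L := by
  have hc : CharZero K := charZero_of_injective_algebraMap (algebraMap ℂ K).injective
  -- finitely generated
  have hfg : (⊤ : IntermediateField ℂ L).FG := by
    rw [← hgen]
    exact ⟨(Set.finite_range y).toFinset, by rw [Set.Finite.coe_toFinset]⟩
  have h1 : Algebra.EssFiniteType ℂ L := IntermediateField.fg_top_iff.1 hfg
  have h2 : Algebra.EssFiniteType K L := Algebra.EssFiniteType.of_comp ℂ K L
  -- the differential is `0`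
  have h3 : ∀ x : L, KaehlerDifferential.D K L x = 0 := by
    intro x
    have hx : x ∈ IntermediateField.adjoin ℂ (Set.range y) := by
      rw [hgen]
      trivial
    induction hx using IntermediateField.adjoin_induction with
    | mem x hx =>
      obtain ⟨s, rfl⟩ := hx
      exact hD s
    | algebraMap c =>
      rw [IsScalarTower.algebraMap_apply ℂ K L]
      exact Derivation.map_algebraMap _ _
    | add a b _ _ ha hb => rw [map_add, ha, hb, add_zero]
    | inv a _ ha => rw [Derivation.leibniz_inv, ha, smul_zero]
    | mul a b _ _ ha hb => rw [Derivation.leibniz, ha, hb, smul_zero, smul_zero, add_zero]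
  have h4 : Subsingleton Ω[L⁄K] := by
    have h5 := KaehlerDifferential.span_range_derivation K L
    have h6 : Set.range (KaehlerDifferential.D K L) ⊆ {0} := by
      rintro _ ⟨x, rfl⟩
      exact h3 x
    have h7 : (⊤ : Submodule L Ω[L⁄K]) ≤ ⊥ := by
      rw [← h5, Submodule.span_le]
      exact h6
    exact (Submodule.subsingleton_iff L).1 (subsingleton_iff_bot_eq_top.1 (le_antisymm bot_le h7) |> fun h => h)
  have h5 : Algebra.FormallyUnramified K L := ⟨h4⟩
  have h6 : Algebra.IsSeparable K L := Algebra.FormallyUnramified.isSeparable K L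
  infer_instance

variable {N : ℕ} {P : Ideal (MvPolynomial (Fin (N + 1)) ℂ)} {J : ℕ} {m : Fin J → ℕ} {θ : ∀ k, SymSec P (m k)}
variable [P.IsPrime] {L : Type} [Field L] [Algebra ℂ L] [Algebra (FunField P) L]

theorem alg_of (f : Frame θ) {a : Fin (N + 1)} (ha : X a ∉ P) [IsScalarTower ℂ (FunField P) L]
    (I : Fin (N + 1) → (Unit ⊕ Unit) ⊕ (Fin f.q ⊕ Fin f.q) ⊕ Fin J) (u : Derivation ℂ L L) (y : Ph N → L)
    (hgen : IntermediateField.adjoin ℂ (Set.range y) = ⊤) (hy : ∀ i, y (Sum.inl i) = algebraMap (FunField P) L (ratio P i a))
    (hδ : aeval y (vdet (gfam f a) I) ≠ 0) (hu : ∀ g, aeval y (vdet (gfam f a) I) * u (aeval y g) = aeval y (Dt (gfam f a) I g))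
    (hva : y (Sum.inr a) = 0) (hdQ : ∀ j, aeval y (gfam f a (Sum.inr (Sum.inl (Sum.inr j)))) = 0)
    (halg : ∀ k, IsAlgebraic (FunField P) (aeval y (f.A a k))) :
    y = ph P u a ∧ Algebra.IsAlgebraic (FunField P) L := by
  classical
  constructor
  · funext s
    rcases s with i | i
    · exact hy i
    · have h1 := hu (X (Sum.inl i))
      have h2 : Dt (gfam f a) I (X (Sum.inl i)) = vdet (gfam f a) I * X (Sum.inr i) := mkDerivation_X ℂ _ _
      rw [h2, map_mul, aeval_X, aeval_X] at h1
      have h3 := mul_left_cancel₀ hδ h1
      show y (Sum.inr i) = u (algebraMap (FunField P) L (ratio P i a))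
      rw [← h3, hy]
  · have hc : CharZero (FunField P) := charZero_of_injective_algebraMap (algebraMap ℂ (FunField P)).injective
    refine fda_field y hgen ?_
    -- the differential over the function field
    set D₁ := KaehlerDifferential.D (FunField P) L with hD₁
    let D : Derivation ℂ L Ω[L⁄FunField P] := D₁.restrictScalars ℂ
    have hx : ∀ i, D₁ (y (Sum.inl i)) = 0 := fun i => by
      rw [hy]
      exact Derivation.map_algebraMap _ _
    -- the family
    have hG : ∀ l, D₁ (aeval y (gfam f a l)) = 0 := by
      rintro ((_ | _) | ((j | j) | k))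
      · show D₁ (aeval y (X (Sum.inl a))) = 0
        rw [aeval_X, hx]
      · show D₁ (aeval y (X (Sum.inr a))) = 0
        rw [aeval_X, hva, map_zero]
      · show D₁ (aeval y (rename Sum.inl (f.Q j))) = 0
        rw [aeval_rename]
        have h1 : (y ∘ Sum.inl) = fun i => algebraMap (FunField P) L (ratio P i a) := funext fun i => hy i
        have h2 : aeval (fun i => algebraMap (FunField P) L (ratio P i a)) (f.Q j) = algebraMap (FunField P) L (aeval (fun i => ratio P i a) (f.Q j)) :=
          MvPolynomial.aeval_algebraMap_apply L (fun i => ratio P i a) (f.Q j)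
        rw [h1, h2]
        exact Derivation.map_algebraMap _ _
      · rw [hdQ j, map_zero]
      · exact fda_alg D₁ (halg k)
    -- Cramer's rule
    set A : Matrix (Fin (N + 1)) (Fin (N + 1)) L := (vmat (gfam f a) I).map (aeval y) with hA
    have hAdet : A.det = aeval y (vdet (gfam f a) I) := by
      rw [hA, vdet]
      exact ((aeval y : MvPolynomial (Ph N) ℂ →ₐ[ℂ] L).toRingHom.map_det _).symm
    have hrow : ∀ l, ∑ c, A l c • D₁ (y (Sum.inr c)) = 0 := by
      intro l
      have h1 := fda_chain D y (gfam f a (I l))
      have h2 : D (aeval y (gfam f a (I l))) = 0 := hG (I l)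
      rw [h2, Fintype.sum_sum_type] at h1
      have h3 : ∑ i : Fin (N + 1), aeval y (pderiv (Sum.inl i) (gfam f a (I l))) • D (y (Sum.inl i)) = 0 :=
        Finset.sum_eq_zero fun i _ => by
          have h4 : D (y (Sum.inl i)) = 0 := hx i
          rw [h4, smul_zero]
      rw [h3, zero_add] at h1
      exact h1.symm
    rintro (i | i)
    · exact hx i
    · have h1 : A.det • D₁ (y (Sum.inr i)) = 0 := by
        have h2 : ∀ c, ∑ l, A.adjugate i l * A l c = if i = c then A.det else 0 := by
          intro c
          have h3 := congrFun (congrFun (Matrix.adjugate_mul A) i) c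
          rw [Matrix.mul_apply, Matrix.smul_apply, Matrix.one_apply] at h3
          rw [h3]
          split_ifs <;> simp
        calc A.det • D₁ (y (Sum.inr i)) = ∑ c, (if i = c then A.det else 0) • D₁ (y (Sum.inr c)) := by
              rw [Finset.sum_eq_single i]
              · rw [if_pos rfl]
              · intro c _ hc
                rw [if_neg (Ne.symm hc), zero_smul]
              · intro h
                exact absurd (Finset.mem_univ i) h
          _ = ∑ c, ∑ l, (A.adjugate i l * A l c) • D₁ (y (Sum.inr c)) := Finset.sum_congr rfl fun c _ => by rw [← h2, Finset.sum_smul]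
          _ = ∑ l, A.adjugate i l • ∑ c, A l c • D₁ (y (Sum.inr c)) := by
              rw [Finset.sum_comm]
              refine Finset.sum_congr rfl fun l _ => ?_
              rw [Finset.smul_sum]
              exact Finset.sum_congr rfl fun c _ => mul_smul _ _ _
          _ = 0 := Finset.sum_eq_zero fun l _ => by rw [hrow, smul_zero]
      rw [hAdet] at h1
      exact (smul_eq_zero.1 h1).resolve_left hδ

end Pool.Agent.GQ
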