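import Pool.Agent.GQ.Nmh
import Pool.Agent.GG.Cst

/-!
# GQ Fdc: a solution in one chart is a solution in all charts
-/

set_option autoImplicit false

open MvPolynomial Topology Filter Metric
open Pool.Agent.H13.SM (conTan cone)
open Pool.Agent.H17 (PN VanishesAt)
open Pool.Agent.H17LG.Variety (FunField ratio PoleAtMost IsLogGeneralType)
open Pool.Agent.H23.Fano (Form PrimeDivisorOver)
open Pool.Agent.H62.FC (Homog)
open Pool.Agent.GG

noncomputable section

namespace Pool.Agent.GQ

variable {N : ℕ} {P : Ideal (MvPolynomial (Fin (N + 1)) ℂ)} {J : ℕ} {m : Fin J → ℕ} {θ : ∀ k, SymSec P (m k)}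

/-- Nullstellensatz for the variety of `y` -/
theorem aeval_eq_zero_of_pt {τ : Type} [Finite τ] {L : Type} [Field L] [Algebra ℂ L] {y : τ → L} {g : MvPolynomial τ ℂ}
    (h : ∀ w, Pt (rel y) w → eval w g = 0) : aeval y g = 0 := by
  have h1 : g ∈ rel y := by
    rw [← (rel_prime y).radical, ← vanishingIdeal_zeroLocus_eq_radical (K := ℂ) (rel y), mem_vanishingIdeal_iff]
    intro w hw
    rw [aeval_eq_eval]
    refine h w fun q hq => ?_
    have := hw q hq
    rwa [aeval_eq_eval] at this
  exact mem_rel.1 h1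

section Sol

variable [P.IsPrime] {L : Type} [Field L] [Algebra ℂ L] [Algebra (FunField P) L]

private theorem Fdc_ratio {n : ℕ} (hdim : ∃ z : Fin (n + 1) → FunField P, IsTranscendenceBasis ℂ z) {a b : Fin (N + 1)} (ha : X a ∉ P)
    (hb : X b ∉ P) : ratio P b a ≠ 0 := by
  obtain ⟨x, hxa, -, h2, h3⟩ := Kd.exists_gen hdim ha
  have hxb : x b ≠ 0 := by
    intro h
    refine hb ((h2 1 (X b) (isHomogeneous_X _ _)).1 ?_)
    rw [aeval_X]
    exact h
  rw [h3]
  exact div_ne_zero hxb hxa

/-- the points of the variety of `ph P u a` are tangent vectors -/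
theorem pt_tan [IsScalarTower ℂ (FunField P) L] (hP : Homog P) {n : ℕ} (hdim : ∃ z : Fin (n + 1) → FunField P, IsTranscendenceBasis ℂ z)
    (u : Derivation ℂ L L) {a : Fin (N + 1)} (ha : X a ∉ P) {w : Ph N → ℂ} (hw : Pt (rel (ph P u a)) w) :
    (fun i => w (Sum.inl i)) ∈ cone P ∧ (fun i => w (Sum.inr i)) ∈ conTan P fun i => w (Sum.inl i) := by
  obtain ⟨y, hy⟩ : ∃ y : Fin (N + 1) → L, y = fun i => algebraMap (FunField P) L (ratio P i a) := ⟨_, rfl⟩
  have hq : ∀ q ∈ P, aeval y q = 0 := fun q hq => by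
    have h1 : aeval (algebraMap (FunField P) L ∘ Kd.ya P a) q = algebraMap (FunField P) L (aeval (Kd.ya P a) q) := aeval_algebraMap_apply _ _ _
    rw [Kd.aeval_ya_mem hP hdim ha hq, map_zero] at h1
    rw [hy]
    exact h1
  have hinl : ∀ q : MvPolynomial (Fin (N + 1)) ℂ, aeval (ph P u a) (rename Sum.inl q) = aeval y q := fun q => by
    rw [aeval_rename, hy]
    rfl
  have hinl' : ∀ q : MvPolynomial (Fin (N + 1)) ℂ, eval w (rename Sum.inl q) = eval (fun i => w (Sum.inl i)) q := fun q => by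
    rw [eval_rename]
    rfl
  have hone := pt_one hdim u ha hw
  refine ⟨⟨fun h => ?_, fun q hqP => ?_⟩, fun q hqP => ?_⟩
  · have h1 : w (Sum.inl a) = 0 := congrFun h a
    rw [hone.1] at h1
    exact one_ne_zero h1
  · rw [← hinl']
    exact hw _ (mem_rel.2 (by rw [hinl, hq q hqP]))
  · have h1 : ∑ j, rename Sum.inl (pderiv j q) * X (Sum.inr j) ∈ rel (ph P u a) := by
      rw [mem_rel, map_sum]
      have h2 := Kd.der_aeval u y q
      rw [hq q hqP, map_zero] at h2
      rw [h2]
      refine Finset.sum_congr rfl fun j _ => ?_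
      rw [map_mul, hinl, aeval_X, hy]
      rfl
    have h2 := hw _ h1
    rw [map_sum] at h2
    rw [← h2]
    refine Finset.sum_congr rfl fun j _ => ?_
    rw [map_mul, hinl', eval_X]
    ring

/-- the differentials have the same values in all charts -/
theorem aeval_A_eq [IsScalarTower ℂ (FunField P) L] (hP : Homog P) {n : ℕ} (hdim : ∃ z : Fin (n + 1) → FunField P, IsTranscendenceBasis ℂ z)
    (f : Frame θ) {a b : Fin (N + 1)} (ha : X a ∉ P) (hb : X b ∉ P) (u : Derivation ℂ L L) (k : Fin J) :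
    aeval (ph P u b) (f.A b k) = aeval (ph P u a) (f.A a k) := by
  obtain ⟨M, Q, hQ, -⟩ := exists_hom b (f.A b k)
  have hyb : ph P u a (Sum.inl b) ≠ 0 := by
    intro h
    have h1 : algebraMap (FunField P) L (ratio P b a) = 0 := h
    exact Fdc_ratio hdim ha hb ((map_eq_zero _).1 h1)
  have h1 : aeval (ph P u a) (X (Sum.inl b) * Q - X (Sum.inl b) ^ (M + 1) * f.A a k) = 0 := by
    refine aeval_eq_zero_of_pt fun w hw => ?_
    obtain ⟨hx, hv⟩ := pt_tan hP hdim u ha hw
    have hone := pt_one hdim u ha hw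
    rw [map_sub, map_mul, map_mul, map_pow, eval_X]
    by_cases h0 : w (Sum.inl b) = 0
    · rw [h0]
      simp
    · have h2 := hQ ℂ w h0
      rw [aeval_eq_eval, aeval_eq_eval] at h2
      have h3 : nm b w = pt ((w (Sum.inl b))⁻¹ • fun i => w (Sum.inl i)) (cst_nv (fun i => w (Sum.inl i)) (fun i => w (Sum.inr i)) b) := by
        funext s
        rcases s with c | c
        · simp only [nm, pt, Sum.elim_inl, Pi.smul_apply, smul_eq_mul]
          rw [div_eq_inv_mul]
        · simp only [nm, pt, cst_nv, Sum.elim_inr, Pi.smul_apply, Pi.add_apply, smul_eq_mul]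
          field_simp
          ring
      have h4 := f.hA b k _ (Pool.Agent.AD.G.cone_smulC hP hx (inv_ne_zero h0)) (by
        simp only [Pi.smul_apply, smul_eq_mul]
        exact inv_mul_cancel₀ h0) _ (SymSec.cst_nv_mem hP hx hv h0)
      have h5 := (θ k).cst_val hP hx hv h0
      have h6 := f.hA a k _ hx hone.1 _ hv
      have h7 : pt (fun i => w (Sum.inl i)) (fun i => w (Sum.inr i)) = w := by
        funext s
        rcases s with c | c <;> rfl
      rw [h7] at h6
      rw [h2, h3, ← h4, ← h5, h6]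
      ring
  rw [map_sub, map_mul, map_mul, map_pow, aeval_X, hQ L _ hyb, nm_ph hdim u ha hb] at h1
  have h2 : ph P u a (Sum.inl b) ^ (M + 1) * (aeval (ph P u b) (f.A b k) - aeval (ph P u a) (f.A a k)) = 0 := by
    rw [← h1]
    ring
  exact sub_eq_zero.1 ((mul_eq_zero.1 h2).resolve_left (pow_ne_zero _ hyb))

/-- The other charts. -/
theorem isSol_of_chart [IsScalarTower ℂ (FunField P) L] (hP : Homog P) {n : ℕ} (hdim : ∃ z : Fin (n + 1) → FunField P, IsTranscendenceBasis ℂ z)
    (f : Frame θ) {a : Fin (N + 1)} (ha : X a ∉ P) (u : Derivation ℂ L L) (halg : Algebra.IsAlgebraic (FunField P) L)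
    (hgen : IntermediateField.adjoin ℂ (Set.range (ph P u a)) = ⊤) (hA : ∀ k, u (aeval (ph P u a) (f.A a k)) = 0) : IsSol f u := by
  refine ⟨halg, fun b hb => ?_, fun b hb k => ?_⟩
  · rw [← top_le_iff, ← hgen, IntermediateField.adjoin_le_iff]
    have hmem : ∀ s, ph P u b s ∈ IntermediateField.adjoin ℂ (Set.range (ph P u b)) := fun s => IntermediateField.subset_adjoin _ _ ⟨s, rfl⟩
    rintro _ ⟨s, rfl⟩
    rw [SetLike.mem_coe, ← nm_ph hdim u hb ha]
    rcases s with c | c
    · exact div_mem (hmem _) (hmem _)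
    · exact sub_mem (div_mem (hmem _) (hmem _)) (div_mem (mul_mem (hmem _) (hmem _)) (pow_mem (hmem _) 2))
  · rw [aeval_A_eq hP hdim f ha hb u k, hA]

end Sol

end Pool.Agent.GQ
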