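import Pool.Agent.GG.Fin
import Pool.Agent.GG.Kod
import Pool.Agent.GG.Fam1

/-!
# GQ Defs: singular varieties with symmetric differentials in polar position (GG-SING)

`X` the variety of a homogeneous prime ideal `P`, singular allowed, `θ` symmetric differentials with `Polar θ`.  `L` is a finite extension of the function field
`FunField P` with a derivation `u`; `ph P u b` is the point `(x, x')`, `x = (x_i / x_b)`, `x' = u x`, of the phase space with coordinates in `L`.  `IsSol f u`:
all `θ_k (x, x')` are constants for `u`.  The variety with the generic point `ph P u b` is invariant under the vector field of the arcs.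
-/

set_option autoImplicit false

open MvPolynomial Topology Filter Metric
open Pool.Agent.H13.SM (conTan cone)
open Pool.Agent.H17 (PN)
open Pool.Agent.H17LG.Variety (FunField ratio PoleAtMost IsLogGeneralType)
open Pool.Agent.H23.Fano (Form PrimeDivisorOver)
open Pool.Agent.H62.FC (Homog)
open Pool.Agent.GG

noncomputable section

namespace Pool.Agent.GQ

/-! ## affine varieties -/

section Affine

variable {τ : Type} {L : Type} [Field L] [Algebra ℂ L]

/-- the ideal of the affine variety with the generic point `y` -/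
def rel (y : τ → L) : Ideal (MvPolynomial τ ℂ) := RingHom.ker (aeval y : MvPolynomial τ ℂ →ₐ[ℂ] L)

theorem mem_rel {y : τ → L} {g : MvPolynomial τ ℂ} : g ∈ rel y ↔ aeval y g = 0 := RingHom.mem_ker

instance rel_prime (y : τ → L) : (rel y).IsPrime := RingHom.ker_isPrime _

/-- `w` is a zero of the ideal `I` -/
def Pt (I : Ideal (MvPolynomial τ ℂ)) (w : τ → ℂ) : Prop := ∀ g ∈ I, eval w g = 0

/-- the tangent space at `w` -/
def Tn [Fintype τ] (I : Ideal (MvPolynomial τ ℂ)) (w : τ → ℂ) : Submodule ℂ (τ → ℂ) where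
  carrier := {t | ∀ g ∈ I, ∑ s, eval w (pderiv s g) * t s = 0}
  add_mem' := by
    intro a b ha hb G hG
    simp only [Pi.add_apply, mul_add, Finset.sum_add_distrib]
    rw [ha G hG, hb G hG, add_zero]
  zero_mem' := by
    intro G _
    simp
  smul_mem' := by
    intro c a ha G hG
    have h1 : ∀ j, eval w (pderiv j G) * (c • a) j = c * (eval w (pderiv j G) * a j) := fun j => by
      simp only [Pi.smul_apply, smul_eq_mul]
      ring
    simp only [h1, ← Finset.mul_sum]
    rw [ha G hG, mul_zero]

/-- the ideal of the points of `V (I)` where the tangent space has dimension `> k` -/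
def sgl [Fintype τ] (I : Ideal (MvPolynomial τ ℂ)) (k : ℕ) : Ideal (MvPolynomial τ ℂ) where
  carrier := {g | ∀ w, Pt I w → k < Module.finrank ℂ (Tn I w) → eval w g = 0}
  add_mem' := by
    intro a b ha hb w hw hk
    rw [map_add, ha w hw hk, hb w hw hk, add_zero]
  zero_mem' := by
    intro w _ _
    exact map_zero _
  smul_mem' := by
    intro c a ha w hw hk
    rw [smul_eq_mul, map_mul, ha w hw hk, mul_zero]

end Affine

/-! ## the phase space -/

variable {N : ℕ}

/-- position and velocity of `x / x_a` -/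
def nm {A : Type} [Field A] (a : Fin (N + 1)) (p : Ph N → A) : Ph N → A :=
  Sum.elim (fun b => p (Sum.inl b) / p (Sum.inl a))
    fun b => p (Sum.inr b) / p (Sum.inl a) - p (Sum.inl b) * p (Sum.inr a) / p (Sum.inl a) ^ 2

/-- the phase space with the index set `Fin (2 N + 2)` -/
def fr {A : Type} (p : Ph N → A) (i : Fin ((N + 1) + (N + 1))) : A := p (finSumFinEquiv.symm i)

section Sol

variable (P : Ideal (MvPolynomial (Fin (N + 1)) ℂ)) [P.IsPrime] {L : Type} [Field L] [Algebra ℂ L] [Algebra (FunField P) L]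

/-- the coordinates of the generic point in the chart `x_b = 1` -/
def ph (u : Derivation ℂ L L) (b : Fin (N + 1)) : Ph N → L :=
  Sum.elim (fun i => algebraMap (FunField P) L (ratio P i b)) fun i => u (algebraMap (FunField P) L (ratio P i b))

variable {P} {J : ℕ} {m : Fin J → ℕ} {θ : ∀ k, SymSec P (m k)}

/-- `L` is algebraic over the function field, `L = ℂ (x, x')`, and the symmetric differentials are constants. -/
structure IsSol (f : Frame θ) (u : Derivation ℂ L L) : Prop where
  alg : Algebra.IsAlgebraic (FunField P) L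
  gen : ∀ b, X b ∉ P → IntermediateField.adjoin ℂ (Set.range (ph P u b)) = ⊤
  const : ∀ b, X b ∉ P → ∀ k, u (aeval (ph P u b) (f.A b k)) = 0

variable (P L)

/-- a section of `K^M (-1)` on `L`: a form `ω` and functions `h b`, with `h b ω^M` regular along all prime divisors -/
structure Sec (k M : ℕ) where
  /-- the form -/
  ω : Form L k
  ne : ω ≠ 0
  /-- the factors -/
  h : Fin (N + 1) → L
  h_ne : ∀ b, X b ∉ P → h b ≠ 0
  h_ch : ∀ a b, X a ∉ P → X b ∉ P → h b = algebraMap (FunField P) L (ratio P b a) * h a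
  pole : ∀ b, X b ∉ P → ∀ E : PrimeDivisorOver L k, PoleAtMost 0 E M (h b) ω

variable {P L}

/-- `s` is the value of the section in the chart `x_b = 1` at the point `w` of the phase space, with the tangent vectors `T`. -/
def Sec.VL {k M : ℕ} (S : Sec P L k M) (u : Derivation ℂ L L) (b : Fin (N + 1)) (w : Ph N → ℂ) (T : Fin k → Ph N → ℂ) (s : ℂ) : Prop :=
  ∃ (d : Kd.Dat (fr (ph P u b)) k) (W : L) (c : ℂ), eval (fr w) d.J ≠ 0 ∧ S.ω = Form.mk W d.t ∧
    Kd.Ev (fr (ph P u b)) (fr w) (S.h b * W ^ M) c ∧ s = c * (Matrix.of fun l j => d.tau (fr (T l)) j).det ^ M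

end Sol

/-! ## curves -/

/-- position and velocity of the curve `g` in the chart `x_a = 1` -/
def ps (g : ℂ → PN N) (a : Fin (N + 1)) (z : ℂ) : Ph N → ℂ :=
  pt (fun i => (g z).rep i / (g z).rep a) (deriv (fun w i => (g w).rep i / (g w).rep a) z)

/-- `x_a` is the largest coordinate of `g z` -/
def Gd (g : ℂ → PN N) (a : Fin (N + 1)) (z : ℂ) : Prop := ∀ b, ‖(g z).rep b‖ ≤ ‖(g z).rep a‖

/-- position and velocity of a family of curves -/
def psi {n : ℕ} (Φ : ℂ × (Fin n → ℂ) → PN N) (a : Fin (N + 1)) (p : ℂ × (Fin n → ℂ)) : Ph N → ℂ := ps (fun w => Φ (w, p.2)) a p.1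

/-- the coordinate directions -/
def dir (n : ℕ) : Fin (n + 1) → ℂ × (Fin n → ℂ) := Fin.cons (1, 0) fun i => (0, Pi.single i 1)

/-- the tangent vectors of a family of curves in the phase space, at `s = 0` -/
def tvs {n : ℕ} (Φ : ℂ × (Fin n → ℂ) → PN N) (a : Fin (N + 1)) (z : ℂ) (j : Fin (n + 1)) : Ph N → ℂ := fderiv ℂ (psi Φ a) (z, 0) (dir n j)

end Pool.Agent.GQ
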