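import Mathlib
import Pool.Agent.GQ.Defs
import Pool.Agent.GA.DerExt
import Pool.Agent.GG.Kd.Prj

/-!
# GQ Fld: the field of a stable prime ideal of the phase space

PROOF.  `L` is the field of fractions of `A = ℂ[x, v] / 𝔮`; `D` induces a derivation of `A`, which extends to `L` (`GA.exists_ext`), and `u` is the extension
divided by `δ`.  The functions `ratio P i a` generate `FunField P` and satisfy the same polynomial equations as the `y (inl i)`, so `FunField P` is the field
of fractions of `ℂ[x]` modulo these equations and is embedded into `L`.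
-/

set_option autoImplicit false

open MvPolynomial
open Pool.Agent.H17LG.Variety (FunField ratio)
open Pool.Agent.GG

noncomputable section

namespace Pool.Agent.GQ

/-- a homomorphism of fields from equal polynomial relations -/
private theorem exists_hom_of_rel {σ K L : Type} [Field K] [Field L] [Algebra ℂ K] [Algebra ℂ L] (x : σ → K)
    (hx : IntermediateField.adjoin ℂ (Set.range x) = ⊤) (y : σ → L) (h : ∀ g : MvPolynomial σ ℂ, aeval x g = 0 ↔ aeval y g = 0) :
    ∃ φ : K →ₐ[ℂ] L, ∀ i, φ (x i) = y i := by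
  let A := MvPolynomial σ ℂ ⧸ rel x
  let f : A →ₐ[ℂ] K := Ideal.Quotient.liftₐ (rel x) (aeval x) fun g hg => hg
  let f' : A →ₐ[ℂ] L := Ideal.Quotient.liftₐ (rel x) (aeval y) fun g hg => (h g).1 hg
  have hi : Function.Injective f := by
    rw [injective_iff_map_eq_zero]
    intro g hg
    obtain ⟨g, rfl⟩ := Ideal.Quotient.mk_surjective g
    exact Ideal.Quotient.eq_zero_iff_mem.2 hg
  have hi' : Function.Injective f' := by
    rw [injective_iff_map_eq_zero]
    intro g hg
    obtain ⟨g, rfl⟩ := Ideal.Quotient.mk_surjective g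
    exact Ideal.Quotient.eq_zero_iff_mem.2 ((h g).2 hg)
  let _ : Algebra A K := f.toRingHom.toAlgebra
  have : IsScalarTower ℂ A K := IsScalarTower.of_algebraMap_eq fun c => (f.commutes c).symm
  have : FaithfulSMul A K := (faithfulSMul_iff_algebraMap_injective A K).2 hi
  have : IsFractionRing A K := IsFractionRing.of_field A K fun z => by
    have hz : z ∈ IntermediateField.adjoin ℂ (Set.range x) := by
      rw [hx]
      trivial
    obtain ⟨r, s, e⟩ := (IntermediateField.mem_adjoin_range_iff ℂ x z).1 hz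
    exact ⟨Ideal.Quotient.mk _ r, Ideal.Quotient.mk _ s, e⟩
  refine ⟨IsFractionRing.liftAlgHom (K := K) (g := f') hi', fun i => ?_⟩
  have e : x i = algebraMap A K (Ideal.Quotient.mk _ (X i)) := (aeval_X x i).symm
  rw [e, IsFractionRing.liftAlgHom_apply]
  refine (IsFractionRing.lift_algebraMap hi' _).trans ?_
  exact aeval_X y i

variable {N : ℕ} {P : Ideal (MvPolynomial (Fin (N + 1)) ℂ)}

/-- `L = Frac (ℂ[x, v] / 𝔮)`, `u = D / δ`, extended to the field of fractions; the embedding of `FunField P`: it is generated by the `ratio P i a`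
(`Kd.adjoin_ya`), which satisfy the same polynomial equations as the `y (inl i)`. -/
theorem exists_field [P.IsPrime] {n : ℕ} (hdim : ∃ z : Fin (n + 1) → FunField P, IsTranscendenceBasis ℂ z) {a : Fin (N + 1)} (ha : X a ∉ P)
    (𝔮 : Ideal (MvPolynomial (Ph N) ℂ)) [𝔮.IsPrime] (D : Derivation ℂ (MvPolynomial (Ph N) ℂ) (MvPolynomial (Ph N) ℂ)) (hD : ∀ g ∈ 𝔮, D g ∈ 𝔮)
    {δ : MvPolynomial (Ph N) ℂ} (hδ : δ ∉ 𝔮) (h𝔓 : ∀ q, rename Sum.inl q ∈ 𝔮 ↔ aeval (fun i => ratio P i a) q = 0) :
    ∃ (L : Type) (_ : Field L) (_ : Algebra ℂ L) (_ : Algebra (FunField P) L) (_ : IsScalarTower ℂ (FunField P) L) (u : Derivation ℂ L L) (y : Ph N → L),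
      (∀ g, aeval y g = 0 ↔ g ∈ 𝔮) ∧ IntermediateField.adjoin ℂ (Set.range y) = ⊤ ∧
      (∀ i, y (Sum.inl i) = algebraMap (FunField P) L (ratio P i a)) ∧ ∀ g, aeval y δ * u (aeval y g) = aeval y (D g) := by
  let A := MvPolynomial (Ph N) ℂ ⧸ 𝔮
  let L := FractionRing A
  let y : Ph N → L := fun s => algebraMap A L (Ideal.Quotient.mk 𝔮 (X s))
  have hy : ∀ g, aeval y g = algebraMap A L (Ideal.Quotient.mk 𝔮 g) := by
    intro g
    have e : (aeval y : MvPolynomial (Ph N) ℂ →ₐ[ℂ] L) = (IsScalarTower.toAlgHom ℂ A L).comp (Ideal.Quotient.mkₐ ℂ 𝔮) := by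
      apply MvPolynomial.algHom_ext
      intro s
      rw [aeval_X]
      rfl
    rw [e]
    rfl
  have h0 : ∀ g, aeval y g = 0 ↔ g ∈ 𝔮 := by
    intro g
    rw [hy, FaithfulSMul.algebraMap_eq_zero_iff, Ideal.Quotient.eq_zero_iff_mem]
  have h1 : IntermediateField.adjoin ℂ (Set.range y) = ⊤ := by
    rw [eq_top_iff]
    intro z _
    rw [IntermediateField.mem_adjoin_range_iff]
    obtain ⟨r, s, -, e⟩ := IsFractionRing.div_surjective (A := A) z
    obtain ⟨r, rfl⟩ := Ideal.Quotient.mk_surjective r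
    obtain ⟨s, rfl⟩ := Ideal.Quotient.mk_surjective s
    exact ⟨r, s, by rw [hy, hy, e]⟩
  obtain ⟨φ, hφ⟩ := exists_hom_of_rel (fun i => ratio P i a) (Kd.adjoin_ya hdim ha) (fun i => y (Sum.inl i)) fun g => by
    rw [← h𝔓, ← h0, aeval_rename]
    rfl
  let _ : Algebra (FunField P) L := φ.toRingHom.toAlgebra
  have : IsScalarTower ℂ (FunField P) L := IsScalarTower.of_algebraMap_eq fun c => (φ.commutes c).symm
  have hs : Function.Surjective (Ideal.Quotient.mkₐ ℂ 𝔮) := Ideal.Quotient.mk_surjective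
  let D₀ : Derivation ℂ A A := Derivation.liftOfSurjective (d := D) hs fun g hg =>
    Ideal.Quotient.eq_zero_iff_mem.2 (hD g (Ideal.Quotient.eq_zero_iff_mem.1 hg))
  have hD₀ : ∀ g, D₀ (Ideal.Quotient.mk 𝔮 g) = Ideal.Quotient.mk 𝔮 (D g) := fun g =>
    Derivation.liftOfSurjective_apply (d := D) hs (fun g hg => Ideal.Quotient.eq_zero_iff_mem.2 (hD g (Ideal.Quotient.eq_zero_iff_mem.1 hg))) g
  let D₁ : Derivation ℂ A L := (Algebra.linearMap A L).compDer D₀
  obtain ⟨D₂, hD₂⟩ := Pool.Agent.GA.exists_ext (A := A) (E := L) (FaithfulSMul.algebraMap_injective A L) D₁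
  refine ⟨L, inferInstance, inferInstance, inferInstance, inferInstance, (aeval y δ)⁻¹ • D₂, y, h0, h1, fun i => (hφ i).symm, fun g => ?_⟩
  have hne : aeval y δ ≠ 0 := fun h => hδ ((h0 δ).1 h)
  rw [Derivation.smul_apply, smul_eq_mul, mul_inv_cancel_left₀ hne, hy g, hD₂, hy (D g), ← hD₀]
  rfl

end Pool.Agent.GQ
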