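import Pool.Agent.GQ.SliceA
import Pool.Agent.GQ.Fld
import Pool.Agent.GQ.Fda
import Pool.Agent.GQ.Fdc

/-!
# GQ Slv: the second possibility of the dichotomy gives a solution
-/

set_option autoImplicit false

open MvPolynomial Topology Filter Metric
open Pool.Agent.H13.SM (conTan cone)
open Pool.Agent.H17LG.Variety (FunField ratio)
open Pool.Agent.H62.FC (Homog)
open Pool.Agent.GG

noncomputable section

namespace Pool.Agent.GQ

variable {N : ℕ} {P : Ideal (MvPolynomial (Fin (N + 1)) ℂ)} {J : ℕ} {m : Fin J → ℕ} {θ : ∀ k, SymSec P (m k)}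

open scoped IntermediateField.algebraAdjoinAdjoin in
/-- clearing denominators -/
theorem exists_poly_of_alg {σ τ : Type} [Fintype τ] {𝔮 : Ideal (MvPolynomial τ ℂ)} [𝔮.IsPrime] (φ : σ → τ) {c : MvPolynomial τ ℂ}
    (h : IsAlgebraic (IntermediateField.adjoin ℂ (Set.range fun s => Gen.gp 𝔮 (φ s))) (aeval (Gen.gp 𝔮) c)) :
    ∃ p : Polynomial (MvPolynomial σ ℂ), (∃ i, rename φ (p.coeff i) ∉ 𝔮) ∧
      Polynomial.eval₂ ((rename φ : MvPolynomial σ ℂ →ₐ[ℂ] MvPolynomial τ ℂ) : MvPolynomial σ ℂ →+* MvPolynomial τ ℂ) c p ∈ 𝔮 := by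
  classical
  have h1 : IsAlgebraic (Algebra.adjoin ℂ (Set.range fun s => Gen.gp 𝔮 (φ s))) (aeval (Gen.gp 𝔮) c) :=
    (IsFractionRing.isAlgebraic_iff (Algebra.adjoin ℂ (Set.range fun s => Gen.gp 𝔮 (φ s)))
      (IntermediateField.adjoin ℂ (Set.range fun s => Gen.gp 𝔮 (φ s))) (Gen.FF 𝔮)).2 h
  obtain ⟨p, hp0, hp⟩ := h1
  have h2 : ∀ c : Algebra.adjoin ℂ (Set.range fun s => Gen.gp 𝔮 (φ s)), ∃ r : MvPolynomial σ ℂ, aeval (fun s => Gen.gp 𝔮 (φ s)) r = (c : Gen.FF 𝔮) := by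
    intro c
    have h3 : (c : Gen.FF 𝔮) ∈ (aeval (fun s => Gen.gp 𝔮 (φ s)) : MvPolynomial σ ℂ →ₐ[ℂ] Gen.FF 𝔮).range := by
      rw [← Algebra.adjoin_range_eq_range_aeval]
      exact c.2
    exact h3
  choose r hr using h2
  obtain ⟨i, hi⟩ : ∃ i, p.coeff i ≠ 0 := by
    by_contra hcon
    push Not at hcon
    exact hp0 (Polynomial.ext hcon)
  have hi' : i ∈ Finset.range (p.natDegree + 1) := by
    rw [Finset.mem_range, Nat.lt_succ_iff]
    exact Polynomial.le_natDegree_of_ne_zero hi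
  refine ⟨∑ j ∈ Finset.range (p.natDegree + 1), Polynomial.monomial j (r (p.coeff j)), ⟨i, ?_⟩, ?_⟩
  · rw [Polynomial.finsetSum_coeff, Finset.sum_eq_single i]
    · rw [Polynomial.coeff_monomial_same, ← Gen.aeval_gp_eq_zero, aeval_rename]
      intro h3
      apply hi
      apply Subtype.ext
      rw [← hr]
      exact h3
    · intro j _ hj
      rw [Polynomial.coeff_monomial, if_neg hj]
    · intro h3
      exact absurd hi' h3
  · rw [← Gen.aeval_gp_eq_zero, Polynomial.eval₂_finsetSum, map_sum]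
    rw [Polynomial.aeval_eq_sum_range] at hp
    rw [← hp]
    refine Finset.sum_congr rfl fun j _ => ?_
    rw [Polynomial.eval₂_monomial, map_mul, map_pow]
    show aeval (Gen.gp 𝔮) (rename φ (r (p.coeff j))) * _ = (p.coeff j : Gen.FF 𝔮) * _
    rw [aeval_rename, ← hr]
    rfl

/-- The alternative of the second possibility of `GG.dichotomy`. -/
theorem exists_sol [P.IsPrime] (hP : Homog P) {n : ℕ} (hdim : ∃ z : Fin (n + 1) → FunField P, IsTranscendenceBasis ℂ z) (f : Frame θ)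
    {a : Fin (N + 1)} (ha : X a ∉ P) (I : Fin (N + 1) → (Unit ⊕ Unit) ⊕ (Fin f.q ⊕ Fin f.q) ⊕ Fin J) (Δ : MvPolynomial (Ph N) ℂ)
    (𝔮 : Ideal (MvPolynomial (Ph N) ℂ)) (h𝔮 : 𝔮.IsPrime) (h1 : X (Sum.inl a) - 1 ∈ 𝔮) (h2 : X (Sum.inr a) ∈ 𝔮) (h3 : ∀ j, rename Sum.inl (f.Q j) ∈ 𝔮)
    (h4 : ∀ j, ∑ b, rename Sum.inl (pderiv b (f.Q j)) * X (Sum.inr b) ∈ 𝔮) (h5 : ∀ l k, (⇑(Dt (gfam f a) I))^[k + 1] (gfam f a l) ∈ 𝔮)
    (hΔ : vdet (gfam f a) I * Δ ∉ 𝔮) (hc : ∀ q, rename Sum.inl q ∈ 𝔮 → aeval (fun i => ratio P i a) q = 0) :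
    ∃ (L : Type) (_ : Field L) (_ : Algebra ℂ L) (_ : Algebra (FunField P) L) (_ : IsScalarTower ℂ (FunField P) L) (u : Derivation ℂ L L),
      IsSol f u ∧ aeval (ph P u a) (vdet (gfam f a) I * Δ) ≠ 0 := by
  classical
  obtain ⟨𝔯, h𝔯, hS, hΔ', hdom, hst, hal⟩ := exists_slice_of f hdim ha I Δ h𝔮 (by
    rintro g (rfl | rfl | ⟨j, rfl⟩ | ⟨j, rfl⟩ | ⟨l, k, rfl⟩)
    · exact h1
    · exact h2
    · exact h3 j
    · exact h4 j
    · exact h5 l k) hΔ fun q hq => RingHom.mem_ker.2 (hc q hq)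
  have hδ : vdet (gfam f a) I ∉ 𝔯 := fun h => hΔ' (Ideal.mul_mem_right _ _ h)
  obtain ⟨L, _, _, _, _, u, y, hy0, hgen, hy, hu⟩ := exists_field hdim ha 𝔯 (Dt (gfam f a) I) hst hδ fun q => (hdom q).trans RingHom.mem_ker
  have hpoly : ∀ q : MvPolynomial (Fin (N + 1)) ℂ, aeval y (rename Sum.inl q) = algebraMap (FunField P) L (aeval (fun i => ratio P i a) q) := by
    intro q
    rw [aeval_rename, ← MvPolynomial.aeval_algebraMap_apply]
    congr 2
    funext i
    exact hy i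
  have halg : ∀ k, IsAlgebraic (FunField P) (aeval y (f.A a k)) := by
    intro k
    have h6 : IsAlgebraic (IntermediateField.adjoin ℂ (Set.range fun b : Fin (N + 1) => Gen.gp 𝔯 (Sum.inl b : Ph N))) (aeval (Gen.gp 𝔯) (f.A a k)) := by
      have h7 : ∀ g : MvPolynomial (Ph N) ℂ, IsAlgebraic (IntermediateField.adjoin ℂ (Set.range fun b : Fin (N + 1) => Gen.gp 𝔯 (Sum.inl b : Ph N))) (aeval (Gen.gp 𝔯) g) := by
        intro g
        induction g using MvPolynomial.induction_on with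
        | C c =>
          rw [aeval_C]
          exact isAlgebraic_algebraMap (algebraMap ℂ (IntermediateField.adjoin ℂ (Set.range fun b : Fin (N + 1) => Gen.gp 𝔯 (Sum.inl b : Ph N))) c)
        | add p q hp hq =>
          rw [map_add]
          exact hp.add hq
        | mul_X p i hp =>
          rw [map_mul, aeval_X]
          exact hp.mul (hal i)
      exact h7 _
    obtain ⟨p, ⟨i, hi⟩, hp⟩ := exists_poly_of_alg (𝔮 := 𝔯) (Sum.inl : Fin (N + 1) → Ph N) h6
    refine ⟨p.map (aeval fun i => ratio P i a : MvPolynomial (Fin (N + 1)) ℂ →ₐ[ℂ] FunField P).toRingHom, ?_, ?_⟩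
    · intro h7
      apply hi
      rw [← hy0, hpoly]
      have h8 := congrArg (fun q => Polynomial.coeff q i) h7
      simp only [Polynomial.coeff_map, Polynomial.coeff_zero] at h8
      have h9 : aeval (fun i => ratio P i a) (p.coeff i) = 0 := h8
      rw [h9, map_zero]
    · have h7 := (hy0 _).2 hp
      rw [Polynomial.aeval_def, Polynomial.eval₂_map]
      rw [Polynomial.eval₂_eq_sum_range, map_sum] at h7
      rw [Polynomial.eval₂_eq_sum_range, ← h7]
      refine Finset.sum_congr rfl fun j _ => ?_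
      rw [map_mul, map_pow]
      congr 1
      exact (hpoly _).symm
  have hph := alg_of f ha I u y hgen hy (fun h => hδ ((hy0 _).1 h)) hu ((by
    have := (hy0 _).2 (hS (Or.inr (Or.inl rfl)))
    rwa [aeval_X] at this)) (fun j => (hy0 _).2 (hS (Or.inr (Or.inr (Or.inr (Or.inl ⟨j, rfl⟩)))))) halg
  obtain ⟨hyph, hLalg⟩ := hph
  refine ⟨L, _, _, _, inferInstance, u, ?_, ?_⟩
  · refine isSol_of_chart hP hdim f ha u hLalg (by rw [← hyph]; exact hgen) fun k => ?_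
    rw [← hyph]
    have h6 := hu (f.A a k)
    have h7 : aeval y (Dt (gfam f a) I (f.A a k)) = 0 := by
      rw [hy0]
      exact hS (Or.inr (Or.inr (Or.inr (Or.inr ⟨Sum.inr (Sum.inr k), 0, rfl⟩))))
    rw [h7] at h6
    exact (mul_eq_zero.1 h6).resolve_left fun h => hδ ((hy0 _).1 h)
  · rw [← hyph]
    exact fun h => hΔ' ((hy0 _).1 h)

end Pool.Agent.GQ
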