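import Pool.Agent.GQ.Defs
import Pool.Agent.GG.GenA

/-!
# GQ Smt: the generic point is smooth

PROOF.  `GG.exists_basis`: coordinates `y (b' i)` which are a transcendence basis, and for the other coordinates `l` relations `f l` with `∂_l (f l) ≠ 0` at the generic
point, `∂_l' (f l) = 0` for the other `l'`.  `g = ∏ ∂_l (f l)`: at a point `w` with `g (w) ≠ 0` a tangent vector with zero `b'`-coordinates is zero.
-/

set_option autoImplicit false

open MvPolynomial Topology Filter Metric

noncomputable section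

namespace Pool.Agent.GQ

/-- The generic point is smooth (`GG.Gen.exists_basis`, `GG.Gen.exists_rel`, or `GG.exists_basis` of GenA). -/
theorem exists_smooth {τ : Type} [Fintype τ] {L : Type} [Field L] [Algebra ℂ L] (y : τ → L) (hgen : IntermediateField.adjoin ℂ (Set.range y) = ⊤)
    {k : ℕ} (hk : ∃ z : Fin k → L, IsTranscendenceBasis ℂ z) : ∃ g ∉ rel y, g ∈ sgl (rel y) k := by
  classical
  obtain ⟨z, hz⟩ := hk
  have h0 : AlgebraicIndependent ℂ fun i : Fin 0 => y ((Fin.elim0 : Fin 0 → τ) i) := by
    rw [algebraicIndependent_empty_type_iff]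
    exact (algebraMap ℂ L).injective
  obtain ⟨d, b', hb', -, hbas, hrel⟩ := Pool.Agent.GG.exists_basis hgen (Fin.elim0 : Fin 0 → τ) h0
  have hd : d = k := by
    have h1 := hbas.cardinalMk_eq_trdeg
    rw [← hz.cardinalMk_eq_trdeg, Cardinal.mk_fintype, Cardinal.mk_fintype, Fintype.card_fin, Fintype.card_fin] at h1
    exact_mod_cast h1
  subst hd
  have hrel' : ∀ l : {l : τ // l ∉ Set.range b'}, ∃ f : MvPolynomial τ ℂ, aeval y f = 0 ∧ aeval y (pderiv l.1 f) ≠ 0 ∧
      ∀ l' ∉ Set.range b', l' ≠ l.1 → pderiv l' f = 0 := fun l => hrel l.1 l.2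
  choose f hf1 hf2 hf3 using hrel'
  refine ⟨∏ l, pderiv l.1 (f l), ?_, ?_⟩
  · rw [mem_rel, map_prod]
    exact Finset.prod_ne_zero_iff.2 fun l _ => hf2 l
  · intro w hw hlt
    by_contra hne
    rw [map_prod] at hne
    have hne' : ∀ l, eval w (pderiv l.1 (f l)) ≠ 0 := fun l => Finset.prod_ne_zero_iff.1 hne l (Finset.mem_univ l)
    have hle : Module.finrank ℂ (Tn (rel y) w) ≤ d := by
      let φ : Tn (rel y) w →ₗ[ℂ] (Fin d → ℂ) := (LinearMap.funLeft ℂ ℂ b').comp (Tn (rel y) w).subtype
      have hφ : Function.Injective φ := by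
        rw [injective_iff_map_eq_zero]
        rintro ⟨t, ht⟩ h
        apply Subtype.ext
        funext l
        show t l = 0
        have hb0 : ∀ i, t (b' i) = 0 := fun i => congrFun h i
        by_cases hl : l ∈ Set.range b'
        · obtain ⟨i, rfl⟩ := hl
          exact hb0 i
        have h1 := ht (f ⟨l, hl⟩) (mem_rel.2 (hf1 ⟨l, hl⟩))
        rw [Finset.sum_eq_single l] at h1
        · exact (mul_eq_zero.1 h1).resolve_left (hne' ⟨l, hl⟩)
        · intro s _ hs
          by_cases hs' : s ∈ Set.range b'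
          · obtain ⟨i, rfl⟩ := hs'
            rw [hb0 i, mul_zero]
          · rw [hf3 ⟨l, hl⟩ s hs' hs, map_zero, zero_mul]
        · intro h2
          exact absurd (Finset.mem_univ l) h2
      have h2 := LinearMap.finrank_le_finrank_of_injective hφ
      rwa [Module.finrank_fin_fun] at h2
    exact absurd hlt (not_lt.2 hle)

end Pool.Agent.GQ
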