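import Pool.Agent.GG.Unif
import Pool.Agent.GG.Chart

/-!
# GQ Fbd: a bound of the field

`unif` gives flow boxes `H` of uniform size `r` with a uniform bound `K`.  For an arc `x` with `(x, x') (z) = Y ∈ Kset` one has `x s = H (s - z, Y)` near `z`
(`Flow.uniq`), so the derivative of `(x, x')` at `z` is `fderiv (H, ∂H/∂z) (0, Y) (1, 0)`, of norm `≤ K` (`Flow.bound`).
-/

set_option autoImplicit false

open MvPolynomial Topology Filter Metric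
open Pool.Agent.H13.SM (conTan cone)
open Pool.Agent.H17 (PN VanishesAt)
open Pool.Agent.H62.FC (Homog)
open Pool.Agent.GG

noncomputable section

namespace Pool.Agent.GQ

variable {N : ℕ} {P : Ideal (MvPolynomial (Fin (N + 1)) ℂ)} {J : ℕ} {m : Fin J → ℕ} {θ : ∀ k, SymSec P (m k)}

/-- The first derivatives at the points of `Kset`: for an arc `x` with `(x, x') ∈ Kset` the vector `(x', x'')` is bounded. -/
theorem field_bound (hθ : Polar θ) (hm : ∀ k, 1 ≤ m k) (f : Frame θ) {C : Set (Fin J → ℂ)} (hC : IsCompact C) (h0 : (0 : Fin J → ℂ) ∉ C) :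
    ∃ B : ℝ, ∀ (a : Fin (N + 1)) (c : Fin J → ℂ) (x : ℂ → Fin (N + 1) → ℂ) (z : ℂ), NArc θ a c x z → c ∈ C → (∀ b, ‖x z b‖ ≤ 1) →
      ‖deriv (fun w => pt (x w) (deriv x w)) z‖ ≤ B := by
  obtain ⟨r, hr, K, hU⟩ := unif hθ hm f hC h0
  refine ⟨K, fun a c x z hx hc hb => ?_⟩
  obtain ⟨hA, hT⟩ := arcV_of_nArc f hx
  obtain ⟨Y, hY⟩ : ∃ Y : Ph N → ℂ, Y = pt (x z) (deriv x z) := ⟨_, rfl⟩
  have hYK : Y ∈ Kset θ a C := ⟨x z, deriv x z, c, hY, hT, hb, hc⟩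
  obtain ⟨ε, hε, H, hF⟩ := hU a Y hYK
  have huniq : ∀ᶠ s in 𝓝 z, x s = H (s - z, Y) := by
    have h1 := hF.uniq x z hA (by rw [← hY]; exact mem_ball_self hε)
    rwa [← hY] at h1
  have hq : ((0 : ℂ), Y) ∈ ball (0 : ℂ) r ×ˢ ball Y ε := ⟨mem_ball_self hr, mem_ball_self hε⟩
  have hHan : AnalyticAt ℂ H ((0 : ℂ), Y) := hF.an _ hq
  obtain ⟨Ψ, hΨ⟩ : ∃ Ψ : ℂ × (Ph N → ℂ) → Ph N → ℂ, Ψ = fun q => pt (H q) (deriv (fun z => H (z, q.2)) q.1) := ⟨_, rfl⟩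
  -- the velocity is analytic
  have hdan : DifferentiableAt ℂ (fun q : ℂ × (Ph N → ℂ) => deriv (fun z => H (z, q.2)) q.1) ((0 : ℂ), Y) := by
    have h1 : DifferentiableAt ℂ (fun q : ℂ × (Ph N → ℂ) => fderiv ℂ H q (1, 0)) ((0 : ℂ), Y) :=
      hHan.fderiv.differentiableAt.clm_apply (differentiableAt_const _)
    refine h1.congr_of_eventuallyEq ?_
    filter_upwards [hHan.eventually_analyticAt] with q hqa
    have h2 : HasDerivAt (fun w : ℂ => ((w, q.2) : ℂ × (Ph N → ℂ))) (1, 0) q.1 := (hasDerivAt_id q.1).prodMk (hasDerivAt_const q.1 q.2)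
    exact (HasFDerivAt.comp_hasDerivAt q.1 (f := fun w : ℂ => ((w, q.2) : ℂ × (Ph N → ℂ))) hqa.differentiableAt.hasFDerivAt h2).deriv
  have hΨd : DifferentiableAt ℂ Ψ ((0 : ℂ), Y) := by
    rw [hΨ, differentiableAt_pi]
    rintro (b | b)
    · exact differentiableAt_pi.1 hHan.differentiableAt b
    · exact differentiableAt_pi.1 hdan b
  have h1 : HasDerivAt (fun w : ℂ => Ψ (w - z, Y)) (fderiv ℂ Ψ ((0 : ℂ), Y) (1, 0)) z := by
    have h2 : HasDerivAt (fun w : ℂ => ((w - z, Y) : ℂ × (Ph N → ℂ))) (1, 0) z := ((hasDerivAt_id z).sub_const z).prodMk (hasDerivAt_const z Y)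
    refine HasFDerivAt.comp_hasDerivAt_of_eq z (f := fun w : ℂ => ((w - z, Y) : ℂ × (Ph N → ℂ))) hΨd.hasFDerivAt h2 ?_
    rw [sub_self]
  have h2 : (fun w => pt (x w) (deriv x w)) =ᶠ[𝓝 z] fun w => Ψ (w - z, Y) := by
    filter_upwards [huniq.eventually_nhds] with w hw
    have e1 := hw.self_of_nhds
    have e2 : deriv x w = deriv (fun s => H (s, Y)) (w - z) := by
      rw [Filter.EventuallyEq.deriv_eq hw]
      exact deriv_comp_sub_const (f := fun s => H (s, Y)) z w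
    rw [hΨ, e2]
    show pt (x w) _ = pt (H (w - z, Y)) _
    rw [e1]
  rw [h2.deriv_eq, h1.deriv]
  have h3 : ‖fderiv ℂ Ψ ((0 : ℂ), Y)‖ ≤ K := by
    rw [hΨ]
    exact (hF.bound _ hq).2.2
  have h4 : ‖((1 : ℂ), (0 : Ph N → ℂ))‖ = 1 := by
    rw [Prod.norm_def, norm_one, norm_zero]
    exact max_eq_left zero_le_one
  calc ‖fderiv ℂ Ψ ((0 : ℂ), Y) (1, 0)‖ ≤ ‖fderiv ℂ Ψ ((0 : ℂ), Y)‖ * ‖((1 : ℂ), (0 : Ph N → ℂ))‖ := ContinuousLinearMap.le_opNorm _ _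
    _ ≤ K := by rw [h4, mul_one]; exact h3

end Pool.Agent.GQ
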