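import Pool.Agent.GQ.Psi
import Pool.Agent.GQ.Fbd

/-!
# GQ Tvb: the tangent vectors of a family of arcs

At the time `z` the position and velocity of `Φ (w, s)` in a good chart `a` is `psi Φ a (w, s)`.  Its derivative in `w` at `s = 0` is bounded by
`field_bound`; its derivative in `s` at `w = z` is `fderiv Y'` (`psi_fam`).
-/

set_option autoImplicit false

open MvPolynomial Topology Filter Metric
open Pool.Agent.H13.SM (conTan cone)
open Pool.Agent.H17 (PN VanishesAt)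
open Pool.Agent.H62.FC (Homog)
open Pool.Agent.GG

noncomputable section

namespace Pool.Agent.GQ

variable {N : ℕ} {P : Ideal (MvPolynomial (Fin (N + 1)) ℂ)} {J : ℕ} {m : Fin J → ℕ} {θ : ∀ k, SymSec P (m k)}

/-- the derivative in the direction of the time -/
theorem tvs_time {n : ℕ} {Φ : ℂ × (Fin n → ℂ) → PN N} {a : Fin (N + 1)} {z : ℂ} (hd : DifferentiableAt ℂ (psi Φ a) (z, 0)) :
    HasDerivAt (fun w : ℂ => psi Φ a (w, (0 : Fin n → ℂ))) (tvs Φ a z 0) z := by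
  have h2 : HasDerivAt (fun w : ℂ => ((w, (0 : Fin n → ℂ)) : ℂ × (Fin n → ℂ))) (1, 0) z := (hasDerivAt_id z).prodMk (hasDerivAt_const z _)
  exact HasFDerivAt.comp_hasDerivAt (f := fun w : ℂ => ((w, (0 : Fin n → ℂ)) : ℂ × (Fin n → ℂ))) z hd.hasFDerivAt h2

/-- the derivatives in the directions of the parameters -/
theorem tvs_par {n : ℕ} {Φ : ℂ × (Fin n → ℂ) → PN N} {a : Fin (N + 1)} {z : ℂ} (hd : DifferentiableAt ℂ (psi Φ a) (z, 0))
    {Y : (Fin n → ℂ) → Ph N → ℂ} (h : ∀ᶠ s in 𝓝 (0 : Fin n → ℂ), psi Φ a (z, s) = Y s) (j : Fin n) :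
    tvs Φ a z j.succ = fderiv ℂ Y 0 (Pi.single j 1) := by
  have h2 : HasFDerivAt (fun s : Fin n → ℂ => ((z, s) : ℂ × (Fin n → ℂ))) (ContinuousLinearMap.inr ℂ ℂ (Fin n → ℂ)) 0 :=
    hasFDerivAt_prodMk_right z 0
  have h3 : HasFDerivAt (fun s : Fin n → ℂ => psi Φ a (z, s)) ((fderiv ℂ (psi Φ a) (z, 0)).comp (ContinuousLinearMap.inr ℂ ℂ (Fin n → ℂ))) 0 :=
    HasFDerivAt.comp (f := fun s : Fin n → ℂ => ((z, s) : ℂ × (Fin n → ℂ))) 0 hd.hasFDerivAt h2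
  have h4 : (fun s : Fin n → ℂ => psi Φ a (z, s)) =ᶠ[𝓝 0] Y := h
  rw [← h4.fderiv_eq, h3.fderiv]
  rfl

/-- The bound of the tangent vectors from the bound of `fderiv Y'` and `field_bound`. -/
theorem tvs_bound (hP : Homog P) (hθ : Polar θ) (hm : ∀ k, 1 ≤ m k) (f : Frame θ) {n : ℕ} {Φ : ℂ × (Fin n → ℂ) → PN N} {c : Fin J → ℂ} (hc : c ≠ 0)
    (hΦ : ∀ z, ArcAt θ c (fun w => Φ (w, 0)) z) (hR : ∀ z, ∃ F, RepN P Φ F (z, 0))
    (h : ∃ C : ℝ, ∀ z, ∃ (a' : Fin (N + 1)) (Y' : (Fin n → ℂ) → Ph N → ℂ), FamAt θ Φ a' Y' z ∧ (∀ b, ‖Y' 0 (Sum.inl b)‖ ≤ 1) ∧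
        ‖fderiv ℂ Y' 0‖ ≤ C * Real.exp (C * ‖z‖)) :
    ∃ C : ℝ, ∀ z, ∃ a, Gd (fun w => Φ (w, 0)) a z ∧ ∀ j, ‖tvs Φ a z j‖ ≤ C * Real.exp (C * ‖z‖) := by
  obtain ⟨C, hC⟩ := h
  obtain ⟨B, hB⟩ := field_bound hθ hm f (isCompact_singleton (x := c)) (fun h => hc (Set.mem_singleton_iff.1 h).symm)
  refine ⟨|B| + |C|, fun z => ?_⟩
  obtain ⟨a, Y, hY, hY1, hY2⟩ := hC z
  obtain ⟨ha, hpsi⟩ := (psi_fam hY).self_of_nhds
  have hev : ∀ᶠ s in 𝓝 (0 : Fin n → ℂ), psi Φ a (z, s) = Y s := (psi_fam hY).mono fun s hs => hs.2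
  have hd : DifferentiableAt ℂ (psi Φ a) (z, 0) := (psi_an (hR z) ha).differentiableAt
  have hle : ∀ b, ‖(Φ (z, 0)).rep b / (Φ (z, 0)).rep a‖ ≤ 1 := by
    intro b
    have h1 : psi Φ a (z, 0) (Sum.inl b) = (Φ (z, 0)).rep b / (Φ (z, 0)).rep a := rfl
    rw [← h1, hpsi]
    exact hY1 b
  have hexp : (1 : ℝ) ≤ Real.exp ((|B| + |C|) * ‖z‖) := Real.one_le_exp (mul_nonneg (add_nonneg (abs_nonneg _) (abs_nonneg _)) (norm_nonneg _))
  refine ⟨a, fun b => ?_, fun j => ?_⟩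
  · have h1 := hle b
    rw [norm_div, div_le_one (norm_pos_iff.2 ha)] at h1
    exact h1
  · induction j using Fin.cases with
    | zero =>
      have h1 := (tvs_time hd).deriv
      have h2 := hB a c (fun w i => (Φ (w, 0)).rep i / (Φ (w, 0)).rep a) z (ps_arc hP (hΦ z) ha).1 rfl hle
      rw [← h1]
      have h3 : (fun w : ℂ => psi Φ a (w, (0 : Fin n → ℂ))) =
          fun w => pt ((fun w i => (Φ (w, 0)).rep i / (Φ (w, 0)).rep a) w) (deriv (fun w i => (Φ (w, 0)).rep i / (Φ (w, 0)).rep a) w) := rfl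
      rw [h3]
      refine h2.trans ((le_abs_self B).trans ?_)
      have h4 : |B| ≤ |B| + |C| := le_add_of_nonneg_right (abs_nonneg _)
      have h5 : 0 ≤ |B| + |C| := add_nonneg (abs_nonneg _) (abs_nonneg _)
      nlinarith
    | succ i =>
      rw [tvs_par hd hev i]
      have h1 : ‖fderiv ℂ Y 0 (Pi.single i 1)‖ ≤ ‖fderiv ℂ Y 0‖ * ‖(Pi.single i (1 : ℂ) : Fin n → ℂ)‖ := ContinuousLinearMap.le_opNorm _ _
      have h2 : ‖(Pi.single i (1 : ℂ) : Fin n → ℂ)‖ ≤ 1 := by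
        rw [pi_norm_le_iff_of_nonneg zero_le_one]
        intro k
        by_cases hk : k = i
        · subst hk
          rw [Pi.single_eq_same, norm_one]
        · rw [Pi.single_eq_of_ne hk, norm_zero]
          exact zero_le_one
      have h3 : ‖fderiv ℂ Y 0 (Pi.single i 1)‖ ≤ ‖fderiv ℂ Y 0‖ := h1.trans (mul_le_of_le_one_right (norm_nonneg _) h2)
      refine h3.trans (hY2.trans ?_)
      have h4 : C * ‖z‖ ≤ (|B| + |C|) * ‖z‖ :=
        mul_le_mul_of_nonneg_right ((le_abs_self C).trans (le_add_of_nonneg_left (abs_nonneg _))) (norm_nonneg _)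
      have h5 : C ≤ |B| + |C| := (le_abs_self C).trans (le_add_of_nonneg_left (abs_nonneg _))
      calc C * Real.exp (C * ‖z‖) ≤ (|B| + |C|) * Real.exp (C * ‖z‖) := mul_le_mul_of_nonneg_right h5 (Real.exp_pos _).le
        _ ≤ (|B| + |C|) * Real.exp ((|B| + |C|) * ‖z‖) :=
          mul_le_mul_of_nonneg_left (Real.exp_le_exp.2 h4) (add_nonneg (abs_nonneg _) (abs_nonneg _))

/-- The tangent vectors at time `0`: `v₀` with its acceleration, and the derivatives of `Y`. -/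
theorem tvs_zero (hP : Homog P) {n : ℕ} {Φ : ℂ × (Fin n → ℂ) → PN N} (hR : ∃ F, RepN P Φ F (0, 0)) {a : Fin (N + 1)}
    {Y : (Fin n → ℂ) → Ph N → ℂ} (h : FamAt θ Φ a Y 0) :
    (∀ i, tvs Φ a 0 0 (Sum.inl i) = Y 0 (Sum.inr i)) ∧ ∀ j : Fin n, tvs Φ a 0 j.succ = fderiv ℂ Y 0 (Pi.single j 1) := by
  obtain ⟨ha, hpsi⟩ := (psi_fam h).self_of_nhds
  have hev : ∀ᶠ s in 𝓝 (0 : Fin n → ℂ), psi Φ a (0, s) = Y s := (psi_fam h).mono fun s hs => hs.2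
  have hd : DifferentiableAt ℂ (psi Φ a) (0, 0) := (psi_an hR ha).differentiableAt
  have hT := tvs_time hd
  refine ⟨fun i => ?_, fun j => tvs_par hd hev j⟩
  rw [← hpsi]
  have h1 : psi Φ a (0, 0) (Sum.inr i) = deriv (fun w i => (Φ (w, 0)).rep i / (Φ (w, 0)).rep a) 0 i := rfl
  have h2 : ∀ k, HasDerivAt (fun w : ℂ => (Φ (w, 0)).rep k / (Φ (w, 0)).rep a) (tvs Φ a 0 0 (Sum.inl k)) 0 := fun k =>
    (hasDerivAt_pi.1 hT) (Sum.inl k)
  have h3 : HasDerivAt (fun (w : ℂ) (k : Fin (N + 1)) => (Φ (w, 0)).rep k / (Φ (w, 0)).rep a) (fun k => tvs Φ a 0 0 (Sum.inl k)) 0 :=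
    hasDerivAt_pi.2 h2
  rw [h1, h3.deriv]

end Pool.Agent.GQ
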