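import Pool.Agent.GQ.Defs
import Pool.Agent.H7.Gtu.Main

/-!
# GQ Up: a section of `K^M (-1)` on an algebraic extension of the function field

The pluricanonical forms `H ratio P b o ω^M` of `kodaira` are pulled back to `L` (`Gtu.exists_formMap`, `Gtu.exists_under`, `Gtu.formMap_regular`); see
`Gtu.isGT_of_algebraic`.
-/

set_option autoImplicit false

open MvPolynomial Topology Filter Metric
open Pool.Agent.H13.SM (conTan cone)
open Pool.Agent.H17 (PN)
open Pool.Agent.H17LG.Variety (FunField ratio PoleAtMost IsLogGeneralType)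
open Pool.Agent.H23.Fano (Form PrimeDivisorOver)
open Pool.Agent.H7.Gtu
open Pool.Agent.GG

noncomputable section

namespace Pool.Agent.GQ

/-- A pluricanonical form regular along all prime divisors stays so on an algebraic extension. -/
theorem poleAtMost_map {K L : Type} [Field K] [Algebra ℂ K] [Field L] [Algebra ℂ L] [Algebra K L] [IsScalarTower ℂ K L] [Algebra.IsAlgebraic K L]
    {k M : ℕ} {Φ : Form K k →+ Form L k} (hsm : ∀ (c : K) ω, Φ (c • ω) = algebraMap K L c • Φ ω)
    (hmk : ∀ (c : K) a, Φ (Form.mk c a) = Form.mk (algebraMap K L c) fun i => algebraMap K L (a i)) {f : K} {ω : Form K k}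
    (h : ∀ D : PrimeDivisorOver K k, PoleAtMost 0 D M f ω) (E : PrimeDivisorOver L k) : PoleAtMost 0 E M (algebraMap K L f) (Φ ω) := by
  obtain ⟨D, e, he, hD⟩ := exists_under (K := K) E
  have heZ : (0 : ℤ) ≤ e := by positivity
  have hnn : ∀ x : K, 0 ≤ D.ord x → 0 ≤ E.ord (algebraMap K L x) := by
    intro x hx
    by_cases hx0 : x = 0
    · rw [hx0, map_zero, E.ord.map_zero]
      exact le_top
    · obtain ⟨n, hn, hn'⟩ := hD x hx0
      rw [hn']
      rw [hn] at hx
      have h1 : (0 : ℤ) ≤ n := by exact_mod_cast hx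
      have h2 : (0 : ℤ) ≤ e * n := mul_nonneg heZ h1
      exact_mod_cast h2
  obtain ⟨g, η, hη, hωg, hord⟩ := h D
  refine ⟨algebraMap K L g, Φ η, formMap_regular hmk hnn hη, ?_, ?_⟩
  · rw [hωg, hsm]
  · have h1 : algebraMap K L f * algebraMap K L g ^ M = algebraMap K L (f * g ^ M) := by
      rw [map_mul, map_pow]
    rw [h1]
    have h2 : (0 : WithTop ℤ) ≤ D.ord (f * g ^ M) := by simpa using hord
    simpa using hnn _ h2

variable {N : ℕ} {P : Ideal (MvPolynomial (Fin (N + 1)) ℂ)} [P.IsPrime] {L : Type} [Field L] [Algebra ℂ L] [Algebra (FunField P) L]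
  [IsScalarTower ℂ (FunField P) L]

/-- `H68.KR.kodaira` (as in `GG.exists_canSec`), `Gtu.exists_formMap`, `Gtu.exists_under`, `Gtu.formMap_regular`; see `Gtu.isGT_of_algebraic`. -/
theorem exists_sec {n : ℕ} (hdim : ∃ z : Fin (n + 1) → FunField P, IsTranscendenceBasis ℂ z)
    (hgt : IsLogGeneralType (K := FunField P) (k := n + 1) fun _ => False) (halg : Algebra.IsAlgebraic (FunField P) L) :
    ∃ M : ℕ, 1 ≤ M ∧ Nonempty (Sec P L (n + 1) M) := by
  obtain ⟨z, hz⟩ := id hdim
  obtain ⟨ω, hω, M, H, o, hM, hH, ho, hpole⟩ := Pool.Agent.H68.KR.kodaira (P := P) z hz hgt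
  obtain ⟨Φ, hsm, hmk⟩ := exists_formMap (K := FunField P) (L := L) (n + 1)
  have hinj : Function.Injective (algebraMap (FunField P) L) := (algebraMap (FunField P) L).injective
  obtain ⟨x, hxo, -, -, hr⟩ := Kd.exists_gen hdim ho
  have hne : ∀ b, X b ∉ P → ratio P b o ≠ 0 := fun b hb => Pool.Agent.H68.KR.ratio_ne_zero P hb ho
  refine ⟨M, hM, ⟨⟨Φ ω, formMap_ne_zero hz hsm hmk hω, fun b => algebraMap (FunField P) L (H * ratio P b o), fun b hb h0 => ?_,
    fun a b ha hb => ?_, fun b hb E => poleAtMost_map hsm hmk (hpole b hb) E⟩⟩⟩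
  · exact mul_ne_zero hH (hne b hb) ((map_eq_zero_iff _ hinj).1 h0)
  · rw [← map_mul]
    congr 1
    obtain ⟨y, hya, -, -, hy⟩ := Kd.exists_gen hdim ha
    have hyo : y o ≠ 0 := by
      intro h
      have h1 := hne a ha
      have h2 := Pool.Agent.H68.KR.ratio_ne_zero P ho ha
      rw [hy, h, zero_div] at h2
      exact h2 rfl
    rw [hy b o, hy b a, hy a o]
    field_simp

theorem exists_tb {n : ℕ} (hdim : ∃ z : Fin (n + 1) → FunField P, IsTranscendenceBasis ℂ z) (halg : Algebra.IsAlgebraic (FunField P) L) :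
    ∃ z : Fin (n + 1) → L, IsTranscendenceBasis ℂ z := by
  obtain ⟨z, hz⟩ := hdim
  exact ⟨algebraMap (FunField P) L ∘ z, hz.algebraMap_comp⟩

end Pool.Agent.GQ
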