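import Pool.Agent.GQ.Val
import Pool.Agent.GQ.Smt

/-!
# GQ Vne: the value of the section is not `0` at a general point

`exists_smooth` gives a smooth point `w₀` of the variety with the generic point `y = ph P u b`; `Kd.exists_dat` at `w₀`, `ω = W dt`, `J^e (h b W^M) = aeval y A` (`Kd.Dat.reg`); `Δ = J A`.  At the points with
`Δ ≠ 0` the value computed with these coordinates is `A / J^e det ^ M ≠ 0` (`Kd.Dat.det_ne`), and it is the value by `VL.unique`.
-/

set_option autoImplicit false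

open MvPolynomial Topology Filter Metric
open Pool.Agent.H13.SM (conTan cone)
open Pool.Agent.H17 (PN VanishesAt)
open Pool.Agent.H17LG.Variety (FunField ratio PoleAtMost IsLogGeneralType)
open Pool.Agent.H23.Fano (Form PrimeDivisorOver)
open Pool.Agent.H62.FC (Homog)
open Pool.Agent.GG

noncomputable section

namespace Pool.Agent.GQ

variable {N : ℕ} {P : Ideal (MvPolynomial (Fin (N + 1)) ℂ)} {J : ℕ} {m : Fin J → ℕ} {θ : ∀ k, SymSec P (m k)}

private theorem vn_aeval {A : Type} [Field A] [Algebra ℂ A] (y : Ph N → A) (G : MvPolynomial (Fin ((N + 1) + (N + 1))) ℂ) :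
    aeval (fr y) G = aeval y (rename finSumFinEquiv.symm G) := by
  rw [aeval_rename]
  rfl

private theorem vn_eval (w : Ph N → ℂ) (G : MvPolynomial (Fin ((N + 1) + (N + 1))) ℂ) : eval (fr w) G = eval w (rename finSumFinEquiv.symm G) := by
  rw [eval_rename]
  rfl

private theorem vn_isPt {L : Type} [Field L] [Algebra ℂ L] {y : Ph N → L} {w : Ph N → ℂ} (hw : Pt (rel y) w) : Kd.IsPt (fr y) (fr w) := by
  intro G hG
  rw [vn_aeval] at hG
  rw [vn_eval]
  exact hw _ (mem_rel.2 hG)

private theorem vn_tan {L : Type} [Field L] [Algebra ℂ L] {y : Ph N → L} {w T : Ph N → ℂ} (hT : T ∈ Tn (rel y) w) : fr T ∈ Kd.tan (fr y) (fr w) := by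
  intro G hG
  rw [vn_aeval] at hG
  have h1 := hT _ (mem_rel.2 hG)
  rw [← h1, ← Equiv.sum_comp finSumFinEquiv.symm]
  refine Finset.sum_congr rfl fun j _ => ?_
  rw [vn_eval, pderiv_rename finSumFinEquiv.symm.injective]
  rfl

/-- the other direction, as a linear map -/
private theorem vn_finrank {L : Type} [Field L] [Algebra ℂ L] {y : Ph N → L} {w : Ph N → ℂ} :
    Module.finrank ℂ (Kd.tan (fr y) (fr w)) ≤ Module.finrank ℂ (Tn (rel y) w) := by
  have key : ∀ T ∈ Kd.tan (fr y) (fr w), (LinearEquiv.funCongrLeft ℂ ℂ (finSumFinEquiv : Ph N ≃ _)) T ∈ Tn (rel y) w := by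
    intro T hT g hg
    have h1 := hT (rename finSumFinEquiv g) (by
      rw [vn_aeval, rename_rename]
      have e : (finSumFinEquiv.symm ∘ finSumFinEquiv : Ph N → Ph N) = id := by
        funext s
        exact finSumFinEquiv.symm_apply_apply s
      rw [e, rename_id_apply]
      exact mem_rel.1 hg)
    rw [← h1, ← Equiv.sum_comp finSumFinEquiv]
    refine Finset.sum_congr rfl fun s _ => ?_
    rw [pderiv_rename finSumFinEquiv.injective, vn_eval, rename_rename]
    have e : (finSumFinEquiv.symm ∘ finSumFinEquiv : Ph N → Ph N) = id := by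
      funext s
      exact finSumFinEquiv.symm_apply_apply s
    rw [e, rename_id_apply]
    rfl
  let φ : Kd.tan (fr y) (fr w) →ₗ[ℂ] Tn (rel y) w :=
    LinearMap.restrict (LinearEquiv.funCongrLeft ℂ ℂ (finSumFinEquiv : Ph N ≃ _)).toLinearMap key
  refine LinearMap.finrank_le_finrank_of_injective (f := φ) ?_
  intro a b hab
  have h1 := congrArg Subtype.val hab
  exact Subtype.ext ((LinearEquiv.funCongrLeft ℂ ℂ (finSumFinEquiv : Ph N ≃ _)).injective h1)

private theorem vn_range {L : Type} (y : Ph N → L) : Set.range (fun i : Fin ((N + 1) + (N + 1)) => y (finSumFinEquiv.symm i)) = Set.range y := by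
  ext x
  constructor
  · rintro ⟨i, rfl⟩
    exact ⟨_, rfl⟩
  · rintro ⟨s, rfl⟩
    exact ⟨finSumFinEquiv s, congrArg y (finSumFinEquiv.symm_apply_apply s)⟩

section Val

variable [P.IsPrime] {L : Type} [Field L] [Algebra ℂ L] [Algebra (FunField P) L] [IsScalarTower ℂ (FunField P) L]

variable {n M : ℕ} (hdim : ∃ z : Fin (n + 1) → FunField P, IsTranscendenceBasis ℂ z) {f : Frame θ} {u : Derivation ℂ L L} (hs : IsSol f u)
  (S : Sec P L (n + 1) M)

include hdim hs

/-- The value is not `0` at a general point, for linearly independent tangent vectors (`Kd.Dat.det_ne`). -/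
theorem VL.ne {b : Fin (N + 1)} (hb : X b ∉ P) : ∃ Δ ∉ rel (ph P u b), ∀ w, Pt (rel (ph P u b)) w → eval w Δ ≠ 0 →
    ∀ T : Fin (n + 1) → Ph N → ℂ, (∀ l, T l ∈ Tn (rel (ph P u b)) w) → LinearIndependent ℂ T → ∀ s, S.VL u b w T s → s ≠ 0 := by
  have hgen := hs.gen b hb
  have hk : ∃ z : Fin (n + 1) → L, IsTranscendenceBasis ℂ z := by
    obtain ⟨z, hz⟩ := hdim
    have := hs.alg
    exact ⟨_, hz.algebraMap_comp (A := L)⟩
  have hgen' : IntermediateField.adjoin ℂ (Set.range (fr (ph P u b))) = ⊤ := by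
    have h1 : Set.range (fr (ph P u b)) = Set.range (ph P u b) := vn_range _
    rw [h1, hgen]
  obtain ⟨g, hg, hgs⟩ := exists_smooth (ph P u b) hgen hk
  obtain ⟨w₀, hw₀, hgw⟩ := Gen.exists_point (rel (ph P u b)) hg
  have hfin : Module.finrank ℂ (Tn (rel (ph P u b)) w₀) ≤ n + 1 := by
    by_contra h
    exact hgw (hgs w₀ hw₀ (not_le.1 h))
  obtain ⟨d, hJ₀⟩ := Kd.exists_dat (fr (ph P u b)) hk hgen' (w := fr w₀) (vn_finrank.trans hfin)
  obtain ⟨W, hW⟩ := Kd.exists_mk d S.ω
  have h1 := d.reg hgen' (M := M) (H := S.h b) (W := W) fun E _ => by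
    rw [← hW]
    exact S.pole b hb E
  rw [Algebra.adjoin_range_eq_range_aeval] at h1
  obtain ⟨A, hA⟩ := h1
  have hJy : aeval (fr (ph P u b)) d.J ≠ 0 := fun h => hJ₀ (vn_isPt hw₀ _ h)
  have hWne : W ≠ 0 := by
    rintro rfl
    apply S.ne
    rw [hW]
    exact zero_smul _ _
  have hAy : aeval (fr (ph P u b)) A ≠ 0 := by
    have h2 : aeval (fr (ph P u b)) A = _ := hA
    rw [h2]
    exact mul_ne_zero (pow_ne_zero _ hJy) (mul_ne_zero (S.h_ne b hb) (pow_ne_zero _ hWne))
  refine ⟨rename finSumFinEquiv.symm (d.J * A), ?_, ?_⟩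
  · rw [mem_rel, ← vn_aeval, map_mul]
    exact mul_ne_zero hJy hAy
  · intro w hw hΔ T hT hind s hsv
    rw [← vn_eval, map_mul] at hΔ
    have hJw : eval (fr w) d.J ≠ 0 := fun h => hΔ (by rw [h, zero_mul])
    have hAw : eval (fr w) A ≠ 0 := fun h => hΔ (by rw [h, mul_zero])
    have hpt := vn_isPt hw
    have hval : S.VL u b w T (eval (fr w) A * (eval (fr w) d.J ^ (2 * (n + 1) * M + 1))⁻¹ * (Matrix.of fun l j => d.tau (fr (T l)) j).det ^ M) := by
      refine ⟨d, W, _, hJw, hW, ?_, rfl⟩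
      have e1 : S.h b * W ^ M = aeval (fr (ph P u b)) A / aeval (fr (ph P u b)) d.J ^ (2 * (n + 1) * M + 1) := by
        have h2 : aeval (fr (ph P u b)) A = _ := hA
        rw [h2]
        field_simp
      rw [e1]
      have h2 := Kd.Ev.poly (fr (ph P u b)) (fr w) A
      have h3 := (Kd.Ev.poly (fr (ph P u b)) (fr w) d.J).pow (2 * (n + 1) * M + 1)
      rw [MvPolynomial.aeval_eq_eval] at h2 h3
      exact h2.div (Kd.isPtB_iff.2 hpt) h3 (mul_inv_cancel₀ (pow_ne_zero _ hJw))
    rw [VL.unique hdim hs S hb hw hT hsv hval]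
    refine mul_ne_zero (mul_ne_zero hAw (inv_ne_zero (pow_ne_zero _ hJw))) (pow_ne_zero _ ?_)
    refine d.det_ne hpt hJw (fun l => vn_tan (hT l)) ?_
    exact hind.map' (LinearEquiv.funCongrLeft ℂ ℂ (finSumFinEquiv.symm : _ ≃ Ph N)).toLinearMap (LinearEquiv.ker _)

end Val

end Pool.Agent.GQ
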