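import Pool.Agent.GG.Core
import Pool.Agent.GG.Hom
import Pool.Agent.GQ.Slv
import Pool.Agent.GQ.Rel
import Pool.Agent.GQ.Chg
import Pool.Agent.GQ.Jac
import Pool.Agent.GQ.Smt
import Pool.Agent.GQ.Up
import Pool.Agent.GQ.Vne
import Pool.Agent.GQ.Fmx
import Pool.Agent.GQ.Low
import Pool.Agent.GQ.Tvb
import Pool.Agent.GQ.One

/-!
# GQ Cor: the points of the arcs of one type lie in a hypersurface, for singular varieties of general type

As `GG.core`.  If the `x`-parts of the initial vectors of arcs (rows `I`, `v_b ≠ 0`) are Zariski dense there is a solution field `L` (`exists_sol`), with a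
section `S` of `K^M (-1)` (`exists_sec`).  A germ of the variety of the generic point `ph P u a` at a general point gives a family of entire curves
(`exists_fam`), which stays in it (`prop_zero`) and exponentially far from its singular points (`prop_low`); the value of `S` at time `0` is `0`
(`one_sing`), although the tangent vectors are independent (`VL.ne`): a contradiction.
-/

set_option autoImplicit false

open MvPolynomial Topology Filter Metric
open Pool.Agent.H13.SM (conTan cone)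
open Pool.Agent.H17 (PN VanishesAt)
open Pool.Agent.H17LG.Variety (FunField ratio PoleAtMost IsLogGeneralType)
open Pool.Agent.H23.Fano (Form PrimeDivisorOver)
open Pool.Agent.H62.FC (Homog)
open Pool.Agent.GG

noncomputable section

namespace Pool.Agent.GQ

variable {N : ℕ} {P : Ideal (MvPolynomial (Fin (N + 1)) ℂ)} {J : ℕ} {m : Fin J → ℕ} {θ : ∀ k, SymSec P (m k)}

/-- the derivatives of a map to the variety of `I` are tangent vectors -/
private theorem cor_tan {n : ℕ} {Ψ : ℂ × (Fin n → ℂ) → Ph N → ℂ} {p : ℂ × (Fin n → ℂ)} (hd : DifferentiableAt ℂ Ψ p) {I : Ideal (MvPolynomial (Ph N) ℂ)}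
    (h : ∀ᶠ q in 𝓝 p, Pt I (Ψ q)) (v : ℂ × (Fin n → ℂ)) : fderiv ℂ Ψ p v ∈ Tn I (Ψ p) := by
  intro g hg
  have h0 : p + (0 : ℂ) • v = p := by rw [zero_smul, add_zero]
  have h1 : HasDerivAt (fun t : ℂ => p + t • v) v 0 := by
    have h1 := ((hasDerivAt_id (0 : ℂ)).smul_const v).const_add p
    rwa [one_smul] at h1
  have h2 : HasDerivAt (fun t : ℂ => Ψ (p + t • v)) (fderiv ℂ Ψ p v) 0 :=
    HasFDerivAt.comp_hasDerivAt_of_eq (0 : ℂ) (f := fun t : ℂ => p + t • v) hd.hasFDerivAt h1 h0.symm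
  have h3 := Chart_hasDerivAt g h2
  have h4 : (fun t : ℂ => eval (Ψ (p + t • v)) g) =ᶠ[𝓝 0] fun _ => 0 := by
    have h5 : Tendsto (fun t : ℂ => p + t • v) (𝓝 0) (𝓝 p) := by
      have h6 := h1.continuousAt.tendsto
      rwa [h0] at h6
    filter_upwards [h5.eventually h] with t ht
    exact ht g hg
  have h5 := h3.unique ((hasDerivAt_const (0 : ℂ) (0 : ℂ)).congr_of_eventuallyEq h4)
  rw [h0] at h5
  rw [← h5]
  exact Finset.sum_congr rfl fun s _ => mul_comm _ _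

/-- coordinates which are algebraically independent -/
theorem exists_coord [P.IsPrime] {n : ℕ} (hdim : ∃ z : Fin n → FunField P, IsTranscendenceBasis ℂ z) {a : Fin (N + 1)} (ha : X a ∉ P) :
    ∃ b : Fin n → Fin (N + 1), ∀ p : MvPolynomial (Fin n) ℂ, aeval (fun i => ratio P i a) (rename b p) = 0 → p = 0 := by
  obtain ⟨z, hz⟩ := hdim
  have hc : Pool.Agent.H17GT.coordFun P a ≠ 0 := Pool.Agent.H17R.coordFun_ne_zero_iff.2 ha
  have halg : Algebra.IsAlgebraic (IntermediateField.adjoin ℂ (Set.range fun i => ratio P i a)) (FunField P) := by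
    refine ⟨fun y => ?_⟩
    have h1 : y ∈ IntermediateField.adjoin ℂ (Set.range fun i => ratio P i a) := by
      rw [Pool.Agent.H17R.adjoin_ratio hc]
      exact IntermediateField.mem_top
    exact isAlgebraic_algebraMap (⟨y, h1⟩ : IntermediateField.adjoin ℂ (Set.range fun i => ratio P i a))
  obtain ⟨J, hJ⟩ := Pool.Agent.H92.GT.exists_index halg hz
  refine ⟨J, fun p hp => ?_⟩
  rw [aeval_rename] at hp
  exact (algebraicIndependent_iff.1 hJ.1) p hp

/-- the contradiction -/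
theorem core_false [P.IsPrime] (hP : Homog P) (hθ : Polar θ) (hm : ∀ k, 1 ≤ m k) (f : Frame θ) {n : ℕ}
    (hdim : ∃ z : Fin (n + 1) → FunField P, IsTranscendenceBasis ℂ z) (hgt : IsLogGeneralType (K := FunField P) (k := n + 1) fun _ => False)
    {a : Fin (N + 1)} (ha : X a ∉ P) (I : Fin (N + 1) → (Unit ⊕ Unit) ⊕ (Fin f.q ⊕ Fin f.q) ⊕ Fin J) (b : Fin (N + 1))
    {L : Type} [Field L] [Algebra ℂ L] [Algebra (FunField P) L] [IsScalarTower ℂ (FunField P) L] {u : Derivation ℂ L L} (hs : IsSol f u)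
    (hne : aeval (ph P u a) (vdet (gfam f a) I * X (Sum.inr b)) ≠ 0) : False := by
  classical
  obtain ⟨M, hM, ⟨S⟩⟩ := exists_sec (L := L) hdim hgt hs.alg
  obtain ⟨Δ₁, hΔ₁, hne₁⟩ := VL.ne hdim hs S ha
  obtain ⟨g₁, hg₁, hg₁'⟩ := exists_smooth (ph P u a) (hs.gen a ha) (exists_tb hdim hs.alg)
  obtain ⟨b', hb'⟩ := exists_coord hdim ha
  have hΔ : vdet (gfam f a) I * X (Sum.inr b) * Δ₁ * g₁ ∉ rel (ph P u a) := by
    intro h
    rcases (rel_prime (ph P u a)).mem_or_mem h with h | h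
    · rcases (rel_prime (ph P u a)).mem_or_mem h with h | h
      · exact hne (mem_rel.1 h)
      · exact hΔ₁ h
    · exact hg₁ h
  obtain ⟨d, Y, hY, hY0, hYΔ, hsurj⟩ := exists_germ (rel_prime (ph P u a)) hΔ (fun i => (Sum.inl (b' i) : Ph N)) fun p hp => by
    refine hb' p ?_
    have h1 := mem_rel.1 hp
    rw [aeval_rename] at h1
    have h2 : (ph P u a ∘ fun i => (Sum.inl (b' i) : Ph N)) = fun i => algebraMap (FunField P) L (ratio P (b' i) a) := rfl
    rw [h2] at h1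
    have h3 : aeval (fun i => algebraMap (FunField P) L (ratio P (b' i) a)) p = algebraMap (FunField P) L (aeval (fun i => ratio P (b' i) a) p) := by
      rw [← MvPolynomial.aeval_algebraMap_apply]
      rfl
    rw [h3] at h1
    rw [aeval_rename]
    exact (algebraMap (FunField P) L).injective (h1.trans (map_zero _).symm)
  -- the points of the germ
  have hcontΔ : ∀ᶠ s in 𝓝 (0 : Fin d → ℂ), eval (Y s) (vdet (gfam f a) I * X (Sum.inr b) * Δ₁ * g₁) ≠ 0 := by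
    have hc : ContinuousAt (fun s => eval (Y s) (vdet (gfam f a) I * X (Sum.inr b) * Δ₁ * g₁)) 0 :=
      (MvPolynomial.continuous_eval _).continuousAt.comp hY.continuousAt
    exact hc.eventually_ne hYΔ
  have hgood : ∀ w : Ph N → ℂ, Pt (rel (ph P u a)) w → eval w (vdet (gfam f a) I * X (Sum.inr b) * Δ₁ * g₁) ≠ 0 →
      ∃ x v c, w = pt x v ∧ IsTan θ a c x v ∧ c ≠ 0 ∧ IsInit (gfam f a) w := by
    intro w hw hΔw
    rw [map_mul, map_mul, map_mul, eval_X] at hΔw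
    have h1 : eval w (vdet (gfam f a) I) ≠ 0 := left_ne_zero_of_mul (left_ne_zero_of_mul (left_ne_zero_of_mul hΔw))
    have h2 : w (Sum.inr b) ≠ 0 := right_ne_zero_of_mul (left_ne_zero_of_mul (left_ne_zero_of_mul hΔw))
    obtain ⟨hcr, x, v, c, hwx, hT⟩ := crit_of_pt hP hdim hs ha hw h1
    refine ⟨x, v, c, hwx, hT, ?_, isInit_of_crit hcr⟩
    rintro rfl
    have h4 := no_common_zero hθ hm hT.1 hT.2.2.1 fun k => hT.2.2.2.2 k
    obtain ⟨r, hr⟩ := Submodule.mem_span_singleton.1 h4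
    have h5 : r * x a = v a := congrFun hr a
    rw [hT.2.1, hT.2.2.2.1, mul_one] at h5
    rw [h5, zero_smul] at hr
    apply h2
    rw [hwx, ← hr]
    rfl
  have hw₀ : Pt (rel (ph P u a)) (Y 0) := hY0.self_of_nhds
  have hΔ0 := hYΔ
  rw [map_mul, map_mul, map_mul, eval_X] at hΔ0
  have hg0 : eval (Y 0) g₁ ≠ 0 := right_ne_zero_of_mul hΔ0
  have hD0 : eval (Y 0) Δ₁ ≠ 0 := right_ne_zero_of_mul (left_ne_zero_of_mul hΔ0)
  have hvb : Y 0 (Sum.inr b) ≠ 0 := right_ne_zero_of_mul (left_ne_zero_of_mul (left_ne_zero_of_mul hΔ0))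
  -- the derivative of the germ in the `x`-part
  set D : (Fin d → ℂ) →L[ℂ] (Ph N → ℂ) := fderiv ℂ Y 0 with hD
  have hYd : HasFDerivAt Y D 0 := hY.differentiableAt.hasFDerivAt
  set E : (Fin d → ℂ) →ₗ[ℂ] (Fin (N + 1) → ℂ) := LinearMap.pi fun i => (LinearMap.proj (Sum.inl i : Ph N)).comp (D : (Fin d → ℂ) →ₗ[ℂ] (Ph N → ℂ)) with hE
  have hEa : ∀ s i, E s i = D s (Sum.inl i) := fun s i => rfl
  set v₀ : Fin (N + 1) → ℂ := fun i => Y 0 (Sum.inr i) with hv₀
  have hv0 : v₀ ≠ 0 := fun h => hvb (congrFun h b)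
  obtain ⟨s, hsi⟩ : ∃ s : Fin n → Fin d → ℂ, ∀ (β : ℂ) (γ : Fin n → ℂ), β • v₀ + ∑ j, γ j • E (s j) = 0 → β = 0 ∧ γ = 0 := by
    refine exists_dirs E (LinearMap.pi fun j => LinearMap.proj (b' j)) ?_ hv0
    intro y
    obtain ⟨t, ht⟩ := hsurj y
    refine ⟨t, ?_⟩
    rw [← ht]
    have h1 : HasFDerivAt (fun (u : Fin d → ℂ) (j : Fin (n + 1)) => Y u (Sum.inl (b' j)))
        (ContinuousLinearMap.pi fun j => (ContinuousLinearMap.proj (Sum.inl (b' j))).comp D) 0 :=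
      hasFDerivAt_pi.2 fun j => hasFDerivAt_pi'.1 hYd (Sum.inl (b' j))
    rw [h1.fderiv]
    rfl
  -- the family of curves
  set Ls : (Fin n → ℂ) →L[ℂ] (Fin d → ℂ) := ∑ i, (ContinuousLinearMap.proj i : (Fin n → ℂ) →L[ℂ] ℂ).smulRight (s i) with hLs
  have hLsi : ∀ i, Ls (Pi.single i 1) = s i := by
    intro i
    rw [hLs, _root_.sum_apply, Finset.sum_eq_single i]
    · simp
    · intro j _ hj
      simp [Pi.single_eq_of_ne hj]
    · simp
  have hL0 : Tendsto Ls (𝓝 0) (𝓝 0) := by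
    have := Ls.continuous.tendsto 0
    rwa [map_zero] at this
  have hYL : AnalyticAt ℂ (fun u => Y (Ls u)) 0 := by
    refine AnalyticAt.fun_comp (g := Y) (f := Ls) ?_ (Ls.analyticAt 0)
    rw [map_zero]
    exact hY
  have hYLd : HasFDerivAt (fun u => Y (Ls u)) (D.comp Ls) 0 := by
    refine HasFDerivAt.comp (g := Y) (f := Ls) 0 ?_ Ls.hasFDerivAt
    rw [map_zero]
    exact hYd
  obtain ⟨Φ, c, hc0, hΦ, hFam, hcs, hR, hbd⟩ := exists_fam hP hθ hm f (a := a) hYL (by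
    filter_upwards [hL0.eventually hY0, hL0.eventually hcontΔ] with u hu1 hu2
    exact hgood _ hu1 hu2)
  have hY00 : Y (Ls 0) = Y 0 := by rw [map_zero]
  have hpf := psi_fam hFam
  obtain ⟨hra, hpsi0⟩ := hpf.self_of_nhds
  rw [hY00] at hpsi0
  have hc0' : ∀ᶠ s in 𝓝 (0 : Fin n → ℂ), c s ≠ 0 := by
    filter_upwards [hcs] with s hs' h0
    rw [h0, mem_closedBall, dist_eq_norm, zero_sub, norm_neg] at hs'
    have := norm_pos_iff.2 hc0
    linarith
  -- the ideals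
  have hst : ∀ a, X a ∉ P → ∀ I, ∀ g ∈ rel (ph P u a), Dt (gfam f a) I g ∈ rel (ph P u a) := by
    intro a' ha' I' g hg
    rw [mem_rel, aeval_Dt hP hdim hs ha', mem_rel.1 hg, map_zero, mul_zero]
  have hst' : ∀ a, X a ∉ P → ∀ I, ∀ g ∈ sgl (rel (ph P u a)) (n + 1), Dt (gfam f a) I g ∈ sgl (rel (ph P u a)) (n + 1) := fun a' ha' I' =>
    sgl_stable (rel (ph P u a')) (Dt (gfam f a') I') (hst a' ha' I') (n + 1)
  have hpt : ∀ z a, (Φ (z, 0)).rep a ≠ 0 → ∀ᶠ p in 𝓝 (z, (0 : Fin n → ℂ)), Pt (rel (ph P u a)) (psi Φ a p) := by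
    intro z a' ha'
    have h1 : ∀ᶠ s in 𝓝 (0 : Fin n → ℂ), c s ≠ 0 ∧ (Φ (0, s)).rep a ≠ 0 ∧ Pt (rel (ph P u a)) (psi Φ a (0, s)) := by
      filter_upwards [hc0', hpf, hL0.eventually hY0] with s h1 h2 h3
      refine ⟨h1, h2.1, ?_⟩
      rw [h2.2]
      exact h3
    have h2 : ∀ᶠ p in 𝓝 (z, (0 : Fin n → ℂ)), c p.2 ≠ 0 ∧ (Φ (0, p.2)).rep a ≠ 0 ∧ Pt (rel (ph P u a)) (psi Φ a (0, p.2)) := by
      have h3 : Tendsto (fun p : ℂ × (Fin n → ℂ) => p.2) (𝓝 (z, 0)) (𝓝 0) := continuousAt_snd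
      exact h3.eventually h1
    filter_upwards [h2, psi_chg (hR z) ha' ha'] with p h4 h5
    exact prop_zero hP hθ hm f (fun a => rel (ph P u a)) hst (fun a b ha hb => rel_chg hdim u ha hb) h4.1 (g := fun w => Φ (w, p.2)) (hΦ p.2)
      (z₀ := 0) (a₀ := a) h4.2.1 h4.2.2 p.1 a' h5.1
  obtain ⟨t, q, hq⟩ := LowAux.exists_gen fun a => sgl (rel (ph P u a)) (n + 1)
  have hlow := prop_low hP hθ hm f (fun a => sgl (rel (ph P u a)) (n + 1)) hst' (fun a b ha hb => sgl_chg hdim u ha hb (n + 1)) q hq hc0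
    (g := fun w => Φ (w, 0)) (hΦ 0) (a₀ := a) hra (by
      by_contra hcon
      push Not at hcon
      apply hg0
      have h1 : Ideal.span (Set.range (q a)) ≤ RingHom.ker (eval (Y 0) : MvPolynomial (Ph N) ℂ →+* ℂ) := by
        rw [Ideal.span_le]
        rintro _ ⟨j, rfl⟩
        have h2 := hcon j
        have h3 : ps (fun w => Φ (w, 0)) a 0 = Y 0 := hpsi0
        rw [h3] at h2
        exact h2
      rw [hq a] at h1
      exact h1 hg₁')
  have htan := tvs_bound hP hθ hm f hc0 (hΦ 0) hR hbd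
  -- the tangent vectors at time `0`
  have hT : ∀ j, tvs Φ a 0 j ∈ Tn (rel (ph P u a)) (Y 0) := by
    intro j
    have h1 := cor_tan (psi_an (hR 0) hra).differentiableAt (hpt 0 a hra) (dir n j)
    rw [hpsi0] at h1
    exact h1
  have hsm : Module.finrank ℂ (Tn (rel (ph P u a)) (Y 0)) ≤ n + 1 := by
    by_contra hcon
    push Not at hcon
    exact hg0 (hg₁' (Y 0) hw₀ hcon)
  obtain ⟨g, A, l, hg, hA⟩ := VL.formula hdim hs S ha hw₀ hsm
  have hval := hA (Y 0) hw₀ hg (tvs Φ a 0)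
  have hzero := one_sing hP hθ hm hdim hs hM S hc0 (hΦ 0) hR hpt q hq hlow htan hra (by rw [hpsi0]; exact hval)
  refine hne₁ (Y 0) hw₀ hD0 (tvs Φ a 0) hT ?_ _ hval hzero
  obtain ⟨ht0, ht1⟩ := tvs_zero hP (hR 0) hFam
  rw [Fintype.linearIndependent_iff]
  intro γ hγ
  have h1 : γ 0 • v₀ + ∑ j : Fin n, γ j.succ • E (s j) = 0 := by
    funext i
    have h2 := congrFun hγ (Sum.inl i)
    rw [Finset.sum_apply, Fin.sum_univ_succ] at h2
    simp only [Pi.smul_apply, smul_eq_mul, ht0, ht1, Pi.zero_apply] at h2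
    rw [hYLd.fderiv, hY00] at h2
    simp only [ContinuousLinearMap.comp_apply, hLsi] at h2
    rw [Pi.add_apply, Pi.smul_apply, smul_eq_mul, Finset.sum_apply, Pi.zero_apply]
    simp only [Pi.smul_apply, smul_eq_mul, hEa]
    exact h2
  obtain ⟨h2, h3⟩ := hsi (γ 0) (fun j => γ j.succ) h1
  intro j
  refine Fin.cases h2 (fun i => ?_) j
  exact congrFun h3 i

/-- As `GG.core`. -/
theorem core_sing [P.IsPrime] (hP : Homog P) (hθ : Polar θ) (hm : ∀ k, 1 ≤ m k) (f : Frame θ) {n : ℕ}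
    (hdim : ∃ z : Fin (n + 1) → FunField P, IsTranscendenceBasis ℂ z) (hgt : IsLogGeneralType (K := FunField P) (k := n + 1) fun _ => False)
    {a : Fin (N + 1)} (ha : X a ∉ P) (I : Fin (N + 1) → (Unit ⊕ Unit) ⊕ (Fin f.q ⊕ Fin f.q) ⊕ Fin J) (b : Fin (N + 1)) :
    ∃ q : MvPolynomial (Fin (N + 1)) ℂ, aeval (fun i => ratio P i a) q ≠ 0 ∧
      ∀ x v c, IsTan θ a c x v → Crit (gfam f a) I (pt x v) → v b ≠ 0 → eval x q = 0 := by
  classical
  set G := gfam f a with hG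
  set S : Set (MvPolynomial (Ph N) ℂ) := {g | g = X (Sum.inl a) - 1 ∨ g = X (Sum.inr a) ∨ (∃ j, g = rename Sum.inl (f.Q j)) ∨
    (∃ j, g = ∑ b, rename Sum.inl (pderiv b (f.Q j)) * X (Sum.inr b)) ∨ ∃ l k, g = (⇑(Dt G I))^[k + 1] (G l)} with hS
  have hev : ∀ (x v : Fin (N + 1) → ℂ) (g : MvPolynomial (Fin (N + 1)) ℂ), eval (pt x v) (rename Sum.inl g) = eval x g := by
    intro x v g
    rw [eval_rename]
    rfl
  have hdv : ∀ (x v : Fin (N + 1) → ℂ) j, eval (pt x v) (∑ b, rename Sum.inl (pderiv b (f.Q j)) * X (Sum.inr b)) =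
      ∑ i, v i * eval x (pderiv i (f.Q j)) := by
    intro x v j
    rw [map_sum]
    refine Finset.sum_congr rfl fun i _ => ?_
    rw [map_mul, hev, eval_X]
    exact mul_comm _ _
  rcases dichotomy S (vdet G I * X (Sum.inr b)) (Sum.inl : Fin (N + 1) → Ph N) (rel fun i => ratio P i a) with ⟨q, hq, h⟩ | ⟨𝔮, h𝔮, hS𝔮, hΔ, hcomap⟩
  · refine ⟨q, fun h0 => hq (mem_rel.2 h0), fun x v c ht hc hv => ?_⟩
    refine h (pt x v) ?_ ?_
    · rintro g (rfl | rfl | ⟨j, rfl⟩ | ⟨j, rfl⟩ | ⟨l, k, rfl⟩)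
      · rw [map_sub, eval_X, map_one]
        exact sub_eq_zero.2 ht.2.1
      · rw [eval_X]
        exact ht.2.2.2.1
      · rw [hev]
        exact ht.1.2 _ (f.span.le (Ideal.subset_span ⟨j, rfl⟩))
      · rw [hdv]
        exact ht.2.2.1 _ (f.span.le (Ideal.subset_span ⟨j, rfl⟩))
      · exact hc.2 l k
    · rw [map_mul, eval_X]
      exact mul_ne_zero hc.1 hv
  exfalso
  obtain ⟨L, _, _, _, _, u, hs, hne⟩ := exists_sol hP hdim f ha I (X (Sum.inr b)) 𝔮 h𝔮 (hS𝔮 (Or.inl rfl)) (hS𝔮 (Or.inr (Or.inl rfl)))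
    (fun j => hS𝔮 (Or.inr (Or.inr (Or.inl ⟨j, rfl⟩)))) (fun j => hS𝔮 (Or.inr (Or.inr (Or.inr (Or.inl ⟨j, rfl⟩)))))
    (fun l k => hS𝔮 (Or.inr (Or.inr (Or.inr (Or.inr ⟨l, k, rfl⟩))))) hΔ (fun q hq => mem_rel.1 (hcomap q hq))
  exact core_false hP hθ hm f hdim hgt ha I b hs hne

end Pool.Agent.GQ
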