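import Pool.Agent.GQ.Flat

/-!
# GQ Dpr: prime ideals which are stable under a derivation
-/

set_option autoImplicit false

noncomputable section

namespace Pool.Agent.GQ

/-- `𝔮 = {x | D^k x ∈ 𝔭 for all k}` is a prime ideal which is stable under `D` -/
theorem exists_dprime {R : Type} [CommRing R] [Algebra ℂ R] (D : Derivation ℂ R R) (I 𝔭 : Ideal R) [𝔭.IsPrime] (hI : I ≤ 𝔭) (hD : ∀ x ∈ I, D x ∈ I) :
    ∃ 𝔮 : Ideal R, 𝔮.IsPrime ∧ I ≤ 𝔮 ∧ 𝔮 ≤ 𝔭 ∧ ∀ x ∈ 𝔮, D x ∈ 𝔮 := by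
  letI : Algebra ℚ R := ((algebraMap ℂ R).comp (algebraMap ℚ ℂ)).toAlgebra
  exact ⟨flat D 𝔭, inferInstance, le_flat hI hD, flat_le D 𝔭, fun _ hx => D_mem_flat hx⟩

/-- The radical of a `D`-stable ideal is `D`-stable. -/
theorem radical_stable {R : Type} [CommRing R] [Algebra ℂ R] (D : Derivation ℂ R R) (I : Ideal R) (hD : ∀ x ∈ I, D x ∈ I) :
    ∀ x ∈ I.radical, D x ∈ I.radical := by
  intro x hx
  rw [Ideal.radical_eq_sInf, Submodule.mem_sInf]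
  rintro 𝔭 ⟨h1, h2⟩
  obtain ⟨𝔮, h3, h4, h5, h6⟩ := exists_dprime D I 𝔭 h1 hD
  exact h5 (h6 x ((Ideal.IsPrime.radical_le_iff h3).2 h4 hx))

end Pool.Agent.GQ
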