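import Mathlib

/-!
# GQ Flat: the largest invariant ideal in a prime ideal is prime

`D` is a derivation of a ring `A` which contains `ℚ`, `𝔮` a prime ideal: `flat D 𝔮 = {f | D ^ n f ∈ 𝔮 for all n}` is a prime ideal, `D (flat D 𝔮) ⊆ flat D 𝔮 ⊆ 𝔮`, and it contains every
ideal `I ⊆ 𝔮` with `D I ⊆ I`.
-/

set_option autoImplicit false

noncomputable section

namespace Pool.Agent.GQ

variable {R A : Type*} [CommRing R] [CommRing A] [Algebra R A] [Algebra ℚ A]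

omit [Algebra ℚ A] in
/-- the Leibniz formula -/
theorem iter_mul (D : Derivation R A A) (f g : A) (n : ℕ) :
    (⇑D)^[n] (f * g) = ∑ p ∈ Finset.HasAntidiagonal.antidiagonal n, n.choose p.1 • ((⇑D)^[p.1] f * (⇑D)^[p.2] g) := by
  induction n with
  | zero => simp
  | succ n ih =>
    rw [Function.iterate_succ_apply', ih, map_sum]
    rw [Finset.sum_antidiagonal_choose_succ_nsmul (M := A) (f := fun i j => (⇑D)^[i] f * (⇑D)^[j] g) n]
    rw [← Finset.sum_add_distrib]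
    refine Finset.sum_congr rfl fun p hp => ?_
    have h1 : n.choose p.2 = n.choose p.1 := by
      rw [Finset.HasAntidiagonal.mem_antidiagonal] at hp
      rw [← hp, Nat.choose_symm_add]
    rw [map_nsmul, Derivation.leibniz, h1, ← smul_add]
    congr 1
    rw [Function.iterate_succ_apply', Function.iterate_succ_apply', smul_eq_mul, smul_eq_mul]
    ring

/-- the largest invariant ideal in `𝔮` -/
def flat (D : Derivation R A A) (𝔮 : Ideal A) : Ideal A where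
  carrier := {f | ∀ n, (⇑D)^[n] f ∈ 𝔮}
  add_mem' := by
    intro f g hf hg n
    rw [iterate_map_add]
    exact 𝔮.add_mem (hf n) (hg n)
  zero_mem' := by
    intro n
    rw [iterate_map_zero]
    exact 𝔮.zero_mem
  smul_mem' := by
    intro c f hf n
    rw [smul_eq_mul, iter_mul]
    exact 𝔮.sum_mem fun p _ => 𝔮.nsmul_mem (𝔮.mul_mem_left _ (hf p.2)) _

theorem mem_flat {D : Derivation R A A} {𝔮 : Ideal A} {f : A} : f ∈ flat D 𝔮 ↔ ∀ n, (⇑D)^[n] f ∈ 𝔮 := Iff.rfl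

theorem flat_le (D : Derivation R A A) (𝔮 : Ideal A) : flat D 𝔮 ≤ 𝔮 := fun _ hf => hf 0

theorem D_mem_flat {D : Derivation R A A} {𝔮 : Ideal A} {f : A} (hf : f ∈ flat D 𝔮) : D f ∈ flat D 𝔮 := by
  intro n
  rw [← Function.iterate_succ_apply]
  exact hf (n + 1)

theorem le_flat {D : Derivation R A A} {𝔮 I : Ideal A} (h : I ≤ 𝔮) (hD : ∀ f ∈ I, D f ∈ I) : I ≤ flat D 𝔮 := by
  intro f hf n
  refine h ?_
  induction n with
  | zero => exact hf
  | succ n ih =>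
    rw [Function.iterate_succ_apply']
    exact hD _ ih

instance flat_isPrime (D : Derivation R A A) (𝔮 : Ideal A) [h : 𝔮.IsPrime] : (flat D 𝔮).IsPrime := by
  classical
  refine Ideal.isPrime_iff.2 ⟨fun h1 => h.ne_top (top_le_iff.1 (h1 ▸ flat_le D 𝔮)), fun {f g} hfg => ?_⟩
  by_contra hcon
  push Not at hcon
  obtain ⟨hf, hg⟩ := hcon
  rw [mem_flat] at hf hg
  push Not at hf hg
  obtain ⟨i, hi, hi'⟩ : ∃ i, (⇑D)^[i] f ∉ 𝔮 ∧ ∀ a < i, (⇑D)^[a] f ∈ 𝔮 :=
    ⟨Nat.find hf, Nat.find_spec hf, fun a ha => not_not.1 (Nat.find_min hf ha)⟩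
  obtain ⟨j, hj, hj'⟩ : ∃ j, (⇑D)^[j] g ∉ 𝔮 ∧ ∀ a < j, (⇑D)^[a] g ∈ 𝔮 :=
    ⟨Nat.find hg, Nat.find_spec hg, fun a ha => not_not.1 (Nat.find_min hg ha)⟩
  have h1 := hfg (i + j)
  rw [iter_mul, ← Finset.add_sum_erase _ _ (show (i, j) ∈ Finset.HasAntidiagonal.antidiagonal (i + j) by simp)] at h1
  have h2 : ∑ p ∈ (Finset.HasAntidiagonal.antidiagonal (i + j)).erase (i, j), (i + j).choose p.1 • ((⇑D)^[p.1] f * (⇑D)^[p.2] g) ∈ 𝔮 := by
    refine 𝔮.sum_mem fun p hp => 𝔮.nsmul_mem ?_ _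
    obtain ⟨hne, hp⟩ := Finset.mem_erase.1 hp
    rw [Finset.HasAntidiagonal.mem_antidiagonal] at hp
    by_cases hlt : p.1 < i
    · exact 𝔮.mul_mem_right _ (hi' _ hlt)
    · refine 𝔮.mul_mem_left _ (hj' _ ?_)
      have h3 : p.1 ≠ i := by
        intro h3
        apply hne
        exact Prod.ext h3 (by dsimp only; omega)
      omega
  have h3 : (i + j).choose i • ((⇑D)^[i] f * (⇑D)^[j] g) ∈ 𝔮 := (Submodule.add_mem_iff_left 𝔮 h2).1 h1
  have h4 : (⇑D)^[i] f * (⇑D)^[j] g ∈ 𝔮 := by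
    have hc : (((i + j).choose i : ℕ) : ℚ) ≠ 0 := by
      have := Nat.choose_pos (Nat.le_add_right i j)
      exact_mod_cast this.ne'
    have h5 := 𝔮.mul_mem_left (algebraMap ℚ A ((((i + j).choose i : ℕ) : ℚ)⁻¹)) h3
    have h6 : algebraMap ℚ A ((((i + j).choose i : ℕ) : ℚ)⁻¹) * ((i + j).choose i • ((⇑D)^[i] f * (⇑D)^[j] g)) = (⇑D)^[i] f * (⇑D)^[j] g := by
      rw [nsmul_eq_mul, ← mul_assoc, ← map_natCast (algebraMap ℚ A), ← map_mul, inv_mul_cancel₀ hc, map_one, one_mul]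
    rwa [h6] at h5
  rcases h.mem_or_mem h4 with h5 | h5
  · exact hi h5
  · exact hj h5

end Pool.Agent.GQ
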