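import Pool.Agent.GG.Unif

/-!
# GQ Flr: flow boxes of uniform size with a row whose determinant is bounded below

PROOF.  As `GG.unif`: at the centre `(0, Y)` of the flow box of `exists_Flow` the determinant of the row of `exists_row` is `≠ 0`, and it is a continuous function of
`q`, so it is bounded below on a smaller box.
-/

set_option autoImplicit false

open MvPolynomial Topology Filter Metric
open Pool.Agent.H13.SM (conTan cone)
open Pool.Agent.GG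

noncomputable section

namespace Pool.Agent.GQ

variable {N : ℕ} {P : Ideal (MvPolynomial (Fin (N + 1)) ℂ)} {J : ℕ} {m : Fin J → ℕ} {θ : ∀ k, SymSec P (m k)}

/-- the determinant of the row is bounded below near the centre of a flow box -/
private theorem Flr_near {ι : Type} {G : ι → MvPolynomial (Ph N) ℂ} {I : Fin (N + 1) → ι} {Y : Ph N → ℂ} {r K : ℝ} {H : ℂ × (Ph N → ℂ) → Fin (N + 1) → ℂ}
    (hr : 0 < r) (hH : Flow G Y r r K H) (hI : eval Y (vdet G I) ≠ 0) :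
    ∃ ρ > 0, ρ ≤ r ∧ ∀ q ∈ ball (0 : ℂ) ρ ×ˢ ball Y ρ,
      ‖eval Y (vdet G I)‖ / 2 ≤ ‖eval (pt (H q) (deriv (fun z => H (z, q.2)) q.1)) (vdet G I)‖ := by
  have hmem : ((0 : ℂ), Y) ∈ ball (0 : ℂ) r ×ˢ ball Y r := ⟨mem_ball_self hr, mem_ball_self hr⟩
  have hnhds : ball (0 : ℂ) r ×ˢ ball Y r ∈ 𝓝 ((0 : ℂ), Y) := (isOpen_ball.prod isOpen_ball).mem_nhds hmem
  -- the derivative
  have hder : ∀ᶠ q in 𝓝 ((0 : ℂ), Y), deriv (fun z => H (z, q.2)) q.1 = fderiv ℂ H q (1, 0) := by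
    filter_upwards [hnhds] with q hq
    have h1 : HasFDerivAt H (fderiv ℂ H q) q := (hH.an q hq).differentiableAt.hasFDerivAt
    have h2 : HasDerivAt (fun z : ℂ => (z, q.2)) ((1 : ℂ), (0 : Ph N → ℂ)) q.1 := (hasDerivAt_id q.1).prodMk (hasDerivAt_const q.1 q.2)
    exact (h1.comp_hasDerivAt q.1 h2).deriv
  have hcd : ContinuousAt (fun q : ℂ × (Ph N → ℂ) => deriv (fun z => H (z, q.2)) q.1) ((0 : ℂ), Y) := by
    refine ContinuousAt.congr ?_ (hder.mono fun q hq => hq.symm)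
    exact ((hH.an _ hmem).fderiv.continuousAt).clm_apply continuousAt_const
  have hcH : ContinuousAt H ((0 : ℂ), Y) := (hH.an _ hmem).continuousAt
  have hpt : ContinuousAt (fun q : ℂ × (Ph N → ℂ) => (pt (H q) (deriv (fun z => H (z, q.2)) q.1) : Ph N → ℂ)) ((0 : ℂ), Y) := by
    rw [continuousAt_pi]
    rintro (b | b)
    · exact (continuous_apply b).continuousAt.comp hcH
    · exact (continuous_apply b).continuousAt.comp hcd
  have hcont : ContinuousAt (fun q : ℂ × (Ph N → ℂ) => ‖eval (pt (H q) (deriv (fun z => H (z, q.2)) q.1)) (vdet G I)‖) ((0 : ℂ), Y) :=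
    ((MvPolynomial.continuous_eval (vdet G I)).continuousAt.comp hpt).norm
  have hval : eval (pt (H ((0 : ℂ), Y)) (deriv (fun z => H (z, Y)) 0)) (vdet G I) = eval Y (vdet G I) := by
    rw [hH.zero Y (mem_ball_self hr), hH.der Y (mem_ball_self hr)]
    have h1 : (pt (fun b => Y (Sum.inl b)) fun b => Y (Sum.inr b) : Ph N → ℂ) = Y := by
      funext s
      rcases s with b | b <;> rfl
    rw [h1]
  have hpos : 0 < ‖eval Y (vdet G I)‖ := norm_pos_iff.2 hI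
  have hev : ∀ᶠ q in 𝓝 ((0 : ℂ), Y), ‖eval Y (vdet G I)‖ / 2 < ‖eval (pt (H q) (deriv (fun z => H (z, q.2)) q.1)) (vdet G I)‖ := by
    refine hcont.eventually (lt_mem_nhds ?_)
    show _ < ‖eval (pt (H ((0 : ℂ), Y)) (deriv (fun z => H (z, Y)) 0)) (vdet G I)‖
    rw [hval]
    linarith
  obtain ⟨ρ, hρ, h⟩ := Metric.eventually_nhds_iff.1 hev
  refine ⟨min ρ r, lt_min hρ hr, min_le_right _ _, fun q hq => (h ?_).le⟩
  rw [Prod.dist_eq]
  exact max_lt (lt_of_lt_of_le hq.1 (min_le_left _ _)) (lt_of_lt_of_le hq.2 (min_le_left _ _))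

/-- Flow boxes of uniform size with rows whose determinant is bounded below (`exists_row`, `exists_Flow`, continuity at the centre, `Flow.anti`, compactness as
in `GG.unif`). -/
theorem unifR (hθ : Polar θ) (hm : ∀ k, 1 ≤ m k) (f : Frame θ) {C : Set (Fin J → ℂ)} (hC : IsCompact C) (h0 : (0 : Fin J → ℂ) ∉ C) :
    ∃ r > 0, ∃ (K δ : ℝ), 0 < δ ∧ ∀ a, ∀ Y ∈ Kset θ a C, ∃ ε > 0, ∃ (H : ℂ × (Ph N → ℂ) → Fin (N + 1) → ℂ)
      (I : Fin (N + 1) → (Unit ⊕ Unit) ⊕ (Fin f.q ⊕ Fin f.q) ⊕ Fin J), Flow (gfam f a) Y r ε K H ∧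
        ∀ q ∈ ball (0 : ℂ) r ×ˢ ball Y ε, δ ≤ ‖eval (pt (H q) (deriv (fun z => H (z, q.2)) q.1)) (vdet (gfam f a) I)‖ := by
  have key : ∀ a : Fin (N + 1), ∃ r > 0, ∃ (K δ : ℝ), 0 < δ ∧ ∀ Y ∈ Kset θ a C, ∃ ε > 0, ∃ (H : ℂ × (Ph N → ℂ) → Fin (N + 1) → ℂ)
      (I : Fin (N + 1) → (Unit ⊕ Unit) ⊕ (Fin f.q ⊕ Fin f.q) ⊕ Fin J), Flow (gfam f a) Y r ε K H ∧
        ∀ q ∈ ball (0 : ℂ) r ×ˢ ball Y ε, δ ≤ ‖eval (pt (H q) (deriv (fun z => H (z, q.2)) q.1)) (vdet (gfam f a) I)‖ := by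
    intro a
    refine (isCompact_Kset hθ hm a hC).induction_on (p := fun S => ∃ r > 0, ∃ (K δ : ℝ), 0 < δ ∧ ∀ Y ∈ S, ∃ ε > 0,
      ∃ (H : ℂ × (Ph N → ℂ) → Fin (N + 1) → ℂ) (I : Fin (N + 1) → (Unit ⊕ Unit) ⊕ (Fin f.q ⊕ Fin f.q) ⊕ Fin J), Flow (gfam f a) Y r ε K H ∧
        ∀ q ∈ ball (0 : ℂ) r ×ˢ ball Y ε, δ ≤ ‖eval (pt (H q) (deriv (fun z => H (z, q.2)) q.1)) (vdet (gfam f a) I)‖) ?_ ?_ ?_ ?_
    · exact ⟨1, one_pos, 0, 1, one_pos, fun Y hY => absurd hY (Set.notMem_empty Y)⟩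
    · rintro S T hST ⟨r, hr, K, δ, hδ, h⟩
      exact ⟨r, hr, K, δ, hδ, fun Y hY => h Y (hST hY)⟩
    · rintro S T ⟨r, hr, K, δ, hδ, h⟩ ⟨r', hr', K', δ', hδ', h'⟩
      refine ⟨min r r', lt_min hr hr', max K K', min δ δ', lt_min hδ hδ', ?_⟩
      rintro Y (hY | hY)
      · obtain ⟨ε, hε, H, I, hH, hI⟩ := h Y hY
        exact ⟨ε, hε, H, I, hH.anti (min_le_left _ _) subset_rfl (le_max_left _ _), fun q hq =>
          (min_le_left _ _).trans (hI q ⟨ball_subset_ball (min_le_left _ _) hq.1, hq.2⟩)⟩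
      · obtain ⟨ε, hε, H, I, hH, hI⟩ := h' Y hY
        exact ⟨ε, hε, H, I, hH.anti (min_le_right _ _) subset_rfl (le_max_right _ _), fun q hq =>
          (min_le_right _ _).trans (hI q ⟨ball_subset_ball (min_le_right _ _) hq.1, hq.2⟩)⟩
    · rintro Y ⟨x, v, c, rfl, hT, -, hc⟩
      have hc0 : c ≠ 0 := fun h => h0 (h ▸ hc)
      obtain ⟨I, hI⟩ := exists_row hθ f hT (ne_zero_of_isTan hm hT hc0)
      obtain ⟨r, hr, K, H, hH⟩ := exists_Flow hI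
      obtain ⟨ρ, hρ, hρr, hlow⟩ := Flr_near hr hH hI
      refine ⟨ball (pt x v) (ρ / 2), mem_nhdsWithin_of_mem_nhds (ball_mem_nhds _ (by positivity)), ρ, hρ, K, _,
        half_pos (norm_pos_iff.2 hI), fun Y' hY' => ?_⟩
      have h1 : dist Y' (pt x v) < ρ / 2 := hY'
      have hsub : ball Y' (ρ / 2) ⊆ ball (pt x v) ρ := ball_subset_ball' (by linarith)
      refine ⟨ρ / 2, by positivity, H, I, hH.anti hρr (hsub.trans (ball_subset_ball hρr)) le_rfl, fun q hq => ?_⟩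
      exact hlow q ⟨hq.1, hsub hq.2⟩
  choose ra hra Ka δa hδa hKa using key
  have hne : (Finset.univ : Finset (Fin (N + 1))).Nonempty := ⟨0, Finset.mem_univ 0⟩
  refine ⟨Finset.univ.inf' hne ra, (Finset.lt_inf'_iff hne).2 fun a _ => hra a, Finset.univ.sup' hne Ka, Finset.univ.inf' hne δa,
    (Finset.lt_inf'_iff hne).2 fun a _ => hδa a, fun a Y hY => ?_⟩
  obtain ⟨ε, hε, H, I, hH, hI⟩ := hKa a Y hY
  exact ⟨ε, hε, H, I, hH.anti (Finset.inf'_le ra (Finset.mem_univ a)) subset_rfl (Finset.le_sup' Ka (Finset.mem_univ a)), fun q hq =>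
    (Finset.inf'_le δa (Finset.mem_univ a)).trans (hI q ⟨ball_subset_ball (Finset.inf'_le ra (Finset.mem_univ a)) hq.1, hq.2⟩)⟩

end Pool.Agent.GQ
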