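import Mathlib

/-!
# GQ Gro: Gronwall along a segment
-/

set_option autoImplicit false

open Topology Filter Metric

noncomputable section

namespace Pool.Agent.GQ

/-- Gronwall along the segment from `z` to `z'` -/
theorem gronwall_seg {s : Type} [Fintype s] {q : ℂ → s → ℂ} {z₀ : ℂ} {r B : ℝ} (hq : ∀ w ∈ ball z₀ r, DifferentiableAt ℂ q w)
    (hB : ∀ w ∈ ball z₀ r, ‖deriv q w‖ ≤ B * ‖q w‖) {z z' : ℂ} (hz : z ∈ ball z₀ r) (hz' : z' ∈ ball z₀ r) : ‖q z'‖ ≤ Real.exp (|B| * ‖z' - z‖) * ‖q z‖ := by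
  set L : ℝ → ℂ := fun t => z + (t : ℂ) * (z' - z) with hL
  have hLm : ∀ t ∈ Set.Icc (0 : ℝ) 1, L t ∈ ball z₀ r := by
    intro t ht
    have h1 := (convex_ball z₀ r) hz hz' (sub_nonneg.2 ht.2) ht.1 (by ring)
    have h2 : (1 - t) • z + t • z' = L t := by
      simp only [hL, Complex.real_smul]
      push_cast
      ring
    rwa [h2] at h1
  have hLd : ∀ t : ℝ, HasDerivAt L (z' - z) t := by
    intro t
    have h1 : HasDerivAt (fun t : ℝ => (t : ℂ) * (z' - z)) (1 * (z' - z)) t := (Complex.ofRealCLM.hasDerivAt (x := t)).mul_const (z' - z)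
    rw [one_mul] at h1
    exact h1.const_add z
  have hd : ∀ t ∈ Set.Icc (0 : ℝ) 1, HasDerivAt (fun t => q (L t)) ((z' - z) • deriv q (L t)) t := by
    intro t ht
    have h1 := HasDerivAt.scomp (g₁ := q) (h := L) t (hq _ (hLm t ht)).hasDerivAt (hLd t)
    exact h1
  have hK := norm_le_gronwallBound_of_norm_deriv_right_le (f := fun t => q (L t)) (f' := fun t => (z' - z) • deriv q (L t)) (δ := ‖q z‖)
    (K := |B| * ‖z' - z‖) (ε := 0) (a := 0) (b := 1) (fun t ht => (hd t ht).continuousAt.continuousWithinAt)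
    (fun t ht => (hd t ⟨ht.1, ht.2.le⟩).hasDerivWithinAt) (by simp [hL])
    (fun t ht => by
      have h1 := hB _ (hLm t ⟨ht.1, ht.2.le⟩)
      have h2 : B * ‖q (L t)‖ ≤ |B| * ‖q (L t)‖ := mul_le_mul_of_nonneg_right (le_abs_self B) (norm_nonneg _)
      rw [norm_smul, add_zero]
      have h3 := mul_le_mul_of_nonneg_left (h1.trans h2) (norm_nonneg (z' - z))
      linarith) 1 ⟨zero_le_one, le_rfl⟩
  rw [gronwallBound_ε0] at hK
  have h1 : L 1 = z' := by simp [hL]
  simp only [h1, sub_zero, mul_one] at hK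
  linarith [mul_comm ‖q z‖ (Real.exp (|B| * ‖z' - z‖))]

end Pool.Agent.GQ
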