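import Pool.Agent.GQ.LowD

/-!
# GQ LowA: algebra of the generic point
-/

set_option autoImplicit false

open MvPolynomial
open Pool.Agent.GG

noncomputable section

namespace Pool.Agent.GQ

variable {N : ℕ}

theorem aeval_eval {σ : Type} (y : σ → ℂ) (g : MvPolynomial σ ℂ) : aeval y g = eval y g :=
  congrArg (fun φ : MvPolynomial σ ℂ →+* ℂ => φ g) (coe_aeval_eq_eval y)

/-! ## change of charts -/

/-- the numerators of `trT` -/
def trN (a b : Fin (N + 1)) : Ph N → MvPolynomial (Ph N) ℂ :=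
  Sum.elim (fun j => X (Sum.inl j) * X (Sum.inl a) * X (Sum.inl b)) fun j =>
    (X (Sum.inr j) * X (Sum.inl a) + X (Sum.inl j) * X (Sum.inr a)) * X (Sum.inl b) - X (Sum.inl j) * X (Sum.inl a) * X (Sum.inr b)

theorem aeval_trN {L : Type} [Field L] [Algebra ℂ L] (a b : Fin (N + 1)) {y : Ph N → L} (h : y (Sum.inl b) ≠ 0) (s : Ph N) :
    aeval y (trN a b s) = y (Sum.inl b) ^ 2 * trT a b y s := by
  rcases s with j | j
  · simp only [trN, trT, Sum.elim_inl, map_mul, aeval_X]
    field_simp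
  · simp only [trN, trT, Sum.elim_inr, map_mul, map_add, map_sub, aeval_X]
    field_simp

theorem exists_clear (a b : Fin (N + 1)) (g : MvPolynomial (Ph N) ℂ) : ∃ (e : ℕ) (h : MvPolynomial (Ph N) ℂ),
    ∀ (L : Type) [Field L] [Algebra ℂ L] (y : Ph N → L), y (Sum.inl b) ≠ 0 → aeval y h = y (Sum.inl b) ^ e * aeval (trT a b y) g := by
  induction g using MvPolynomial.induction_on with
  | C c => exact ⟨0, C c, fun L _ _ y _ => by rw [pow_zero, one_mul, aeval_C, aeval_C]⟩
  | add p q hp hq =>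
    obtain ⟨e₁, h₁, hp⟩ := hp
    obtain ⟨e₂, h₂, hq⟩ := hq
    refine ⟨e₁ + e₂, X (Sum.inl b) ^ e₂ * h₁ + X (Sum.inl b) ^ e₁ * h₂, fun L _ _ y hy => ?_⟩
    rw [map_add, map_mul, map_mul, map_pow, map_pow, aeval_X, hp L y hy, hq L y hy, map_add]
    ring
  | mul_X p i hp =>
    obtain ⟨e₁, h₁, hp⟩ := hp
    refine ⟨e₁ + 2, h₁ * trN a b i, fun L _ _ y hy => ?_⟩
    rw [map_mul, map_mul, hp L y hy, aeval_trN a b hy, aeval_X]
    ring

theorem trT_trT {L : Type} [Field L] (a b : Fin (N + 1)) {y : Ph N → L} (ha : y (Sum.inl a) ≠ 0) (hb : y (Sum.inl b) ≠ 0) : trT b a (trT a b y) = y := by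
  funext s
  rcases s with j | j
  · simp only [trT, Sum.elim_inl]
    field_simp
  · simp only [trT, Sum.elim_inl, Sum.elim_inr]
    field_simp
    ring

theorem trT_inl_a {L : Type} [Field L] (a b : Fin (N + 1)) {y : Ph N → L} (hb : y (Sum.inl b) ≠ 0) : trT a b y (Sum.inl b) = y (Sum.inl a) := by
  simp only [trT, Sum.elim_inl]
  field_simp

variable {K : Type} [Field K] [Algebra ℂ K] {x : Fin (N + 1) → K} {δ : Derivation ℂ K K} {a b : Fin (N + 1)}

theorem trT_gy (ha : x a ≠ 0) (hb : x b ≠ 0) : trT a b (gy x δ a) = gy x δ b := by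
  have h1 : x a / x a = 1 := div_self ha
  have h2 : δ (1 : K) = 0 := δ.map_one_eq_zero
  funext s
  rcases s with j | j
  · simp only [trT, gy, Sum.elim_inl, h1, mul_one]
    field_simp
  · simp only [trT, gy, Sum.elim_inl, Sum.elim_inr, h1, h2, mul_one, mul_zero, add_zero]
    have h3 : x j / x b = (x j / x a) / (x b / x a) := by field_simp
    have h4 : x b / x a ≠ 0 := div_ne_zero hb ha
    rw [h3, Derivation.leibniz_div δ (x j / x a) (x b / x a)]
    simp only [smul_eq_mul]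
    generalize δ (x j / x a) = u
    generalize δ (x b / x a) = w
    field_simp

theorem mem_Vi {g : MvPolynomial (Ph N) ℂ} : g ∈ Vi x δ a ↔ aeval (gy x δ a) g = 0 := RingHom.mem_ker

instance : (Vi x δ a).IsPrime := RingHom.ker_isPrime _

theorem IsZ.one {y : Ph N → ℂ} (h : IsZ x δ a y) : y (Sum.inl a) = 1 := by
  have h1 : X (Sum.inl a) - 1 ∈ Vi x δ a := by
    rw [mem_Vi, map_sub, aeval_X, map_one]
    show x a / x a - 1 = 0
    rw [div_self h.1, sub_self]
  have h2 := h.2 _ h1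
  rw [map_sub, eval_X, map_one] at h2
  exact sub_eq_zero.1 h2

theorem IsZ.zero {y : Ph N → ℂ} (h : IsZ x δ a y) : y (Sum.inr a) = 0 := by
  have h1 : X (Sum.inr a) ∈ Vi x δ a := by
    rw [mem_Vi, aeval_X]
    show δ (x a / x a) = 0
    rw [div_self h.1, δ.map_one_eq_zero]
  have h2 := h.2 _ h1
  rwa [eval_X] at h2

theorem IsZ.ne {y : Ph N → ℂ} (h : IsZ x δ a y) (hb : y (Sum.inl b) ≠ 0) : x b ≠ 0 := by
  intro h0
  have h1 : X (Sum.inl b) ∈ Vi x δ a := by
    rw [mem_Vi, aeval_X]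
    show x b / x a = 0
    rw [h0, zero_div]
  have h2 := h.2 _ h1
  rw [eval_X] at h2
  exact hb h2

/-- the variety in another chart -/
theorem IsZ.tr {y : Ph N → ℂ} (h : IsZ x δ a y) (hb : y (Sum.inl b) ≠ 0) : IsZ x δ b (trT a b y) := by
  refine ⟨h.ne hb, fun g hg => ?_⟩
  obtain ⟨e, q, hq⟩ := exists_clear a b g
  have h1 : gy x δ a (Sum.inl b) ≠ 0 := div_ne_zero (h.ne hb) h.1
  have h2 : q ∈ Vi x δ a := by
    rw [mem_Vi, hq K _ h1, trT_gy h.1 (h.ne hb), mem_Vi.1 hg, mul_zero]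
  have h3 := hq ℂ y hb
  rw [aeval_eval, aeval_eval] at h3
  have h4 : eval y q = 0 := h.2 q h2
  have h5 : y (Sum.inl b) ^ e * eval (trT a b y) g = 0 := by
    rw [← h4]
    exact h3.symm
  exact (mul_eq_zero.1 h5).resolve_left (pow_ne_zero e hb)

/-! ## the derivation -/

/-- the chain rule -/
theorem der_aeval {σ : Type} [Fintype σ] [DecidableEq σ] (δ : Derivation ℂ K K) (y : σ → K) (g : MvPolynomial σ ℂ) :
    δ (aeval y g) = ∑ s, aeval y (pderiv s g) * δ (y s) := by
  induction g using MvPolynomial.induction_on with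
  | C c => simp
  | add p q hp hq => simp only [map_add, hp, hq, add_mul, Finset.sum_add_distrib]
  | mul_X p i hp =>
    rw [map_mul, aeval_X, Derivation.leibniz, hp, smul_eq_mul, smul_eq_mul]
    simp only [Derivation.leibniz, smul_eq_mul, map_add, map_mul, aeval_X, add_mul, Finset.sum_add_distrib]
    have h1 : ∑ s, aeval y p * aeval y (pderiv s (X i : MvPolynomial σ ℂ)) * δ (y s) = aeval y p * δ (y i) := by
      rw [Finset.sum_eq_single i]
      · rw [pderiv_X_self, map_one, mul_one]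
      · intro s _ hs
        rw [pderiv_X_of_ne hs.symm, map_zero, mul_zero, zero_mul]
      · intro h
        exact absurd (Finset.mem_univ i) h
    rw [h1]
    congr 1
    rw [Finset.mul_sum]
    exact Finset.sum_congr rfl fun s _ => by ring

variable {ι : Type} {G : ι → MvPolynomial (Ph N) ℂ}

/-- the vector field at the generic point -/
theorem fld_gy (hG : ∀ l, δ (aeval (gy x δ a) (G l)) = 0) (I : Fin (N + 1) → ι) (s : Ph N) :
    aeval (gy x δ a) (fld G I s) = aeval (gy x δ a) (vdet G I) * δ (gy x δ a s) := by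
  rcases s with j | j
  · simp only [fld, Sum.elim_inl, map_mul, aeval_X]
    rfl
  · have h1 : ∀ l, ∑ b, aeval (gy x δ a) (vmat G I l b) * δ (gy x δ a (Sum.inr b)) = aeval (gy x δ a) (rhs G I l) := by
      intro l
      have h2 := hG (I l)
      rw [der_aeval, Fintype.sum_sum_type] at h2
      have h3 : aeval (gy x δ a) (rhs G I l) = -∑ b, aeval (gy x δ a) (pderiv (Sum.inl b) (G (I l))) * δ (gy x δ a (Sum.inl b)) := by
        rw [rhs, map_neg, map_sum]
        congr 1
        refine Finset.sum_congr rfl fun b _ => ?_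
        rw [map_mul, aeval_X]
        rfl
      rw [h3, eq_neg_iff_add_eq_zero, add_comm]
      exact h2
    obtain ⟨A, hA⟩ : ∃ A : Matrix (Fin (N + 1)) (Fin (N + 1)) K, A = (vmat G I).map (aeval (gy x δ a) : MvPolynomial (Ph N) ℂ →ₐ[ℂ] K) := ⟨_, rfl⟩
    obtain ⟨w, hw⟩ : ∃ w : Fin (N + 1) → K, w = fun b => δ (gy x δ a (Sum.inr b)) := ⟨_, rfl⟩
    have h4 : A.mulVec w = fun l => aeval (gy x δ a) (rhs G I l) := by
      funext l
      rw [← h1 l, hA, hw]
      rfl
    have h5 : A.det = aeval (gy x δ a) (vdet G I) := by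
      rw [hA]
      exact ((aeval (gy x δ a) : MvPolynomial (Ph N) ℂ →ₐ[ℂ] K).map_det (vmat G I)).symm
    have h6 : A.adjugate.mulVec (A.mulVec w) = A.det • w := by
      rw [Matrix.mulVec_mulVec, Matrix.adjugate_mul, Matrix.smul_mulVec, Matrix.one_mulVec]
    have h7 : A.adjugate = ((vmat G I).adjugate).map (aeval (gy x δ a) : MvPolynomial (Ph N) ℂ →ₐ[ℂ] K) := by
      rw [hA]
      exact ((aeval (gy x δ a) : MvPolynomial (Ph N) ℂ →ₐ[ℂ] K).map_adjugate (vmat G I)).symm
    have h8 := congrFun h6 j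
    rw [h4, h5, h7, hw] at h8
    show aeval (gy x δ a) (((vmat G I).adjugate.mulVec (rhs G I)) j) = _
    have h9 : aeval (gy x δ a) (((vmat G I).adjugate.mulVec (rhs G I)) j) =
        (((vmat G I).adjugate).map (aeval (gy x δ a) : MvPolynomial (Ph N) ℂ →ₐ[ℂ] K)).mulVec (fun l => aeval (gy x δ a) (rhs G I l)) j := by
      simp only [Matrix.mulVec, dotProduct, map_sum, map_mul, Matrix.map_apply]
    rw [h9, h8]
    rfl

theorem Dt_gy (hG : ∀ l, δ (aeval (gy x δ a) (G l)) = 0) (I : Fin (N + 1) → ι) (g : MvPolynomial (Ph N) ℂ) :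
    aeval (gy x δ a) (Dt G I g) = aeval (gy x δ a) (vdet G I) * δ (aeval (gy x δ a) g) := by
  rw [Dt, mkD_eq, map_sum, der_aeval, Finset.mul_sum]
  refine Finset.sum_congr rfl fun s _ => ?_
  rw [map_mul, fld_gy hG]
  ring

theorem Dt_mem (hG : ∀ l, δ (aeval (gy x δ a) (G l)) = 0) (I : Fin (N + 1) → ι) {g : MvPolynomial (Ph N) ℂ} (hg : g ∈ Vi x δ a) : Dt G I g ∈ Vi x δ a := by
  rw [mem_Vi, Dt_gy hG, mem_Vi.1 hg, map_zero, mul_zero]

/-- the matrix of the derivation on generators -/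
theorem exists_Dt_eq (hG : ∀ l, δ (aeval (gy x δ a) (G l)) = 0) (I : Fin (N + 1) → ι) {p : ℕ} {F : Fin p → MvPolynomial (Ph N) ℂ}
    (hF : Ideal.span (Set.range F) = Vi x δ a) : ∃ B : Fin p → Fin p → MvPolynomial (Ph N) ℂ, ∀ i, Dt G I (F i) = ∑ j, B i j * F j := by
  have h1 : ∀ i, ∃ c : Fin p → MvPolynomial (Ph N) ℂ, ∑ j, c j * F j = Dt G I (F i) := by
    intro i
    have h2 : F i ∈ Vi x δ a := by
      rw [← hF]
      exact Ideal.subset_span ⟨i, rfl⟩
    have h3 := Dt_mem hG I h2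
    rw [← hF] at h3
    exact Ideal.mem_span_range_iff_exists_fun.1 h3
  choose B hB using h1
  exact ⟨B, fun i => (hB i).symm⟩

end Pool.Agent.GQ
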