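import Pool.Agent.GQ.LowA
import Pool.Agent.GG.Chart

/-!
# GQ LowB: the minors in two charts
-/

set_option autoImplicit false

open MvPolynomial Topology Filter Metric
open Pool.Agent.GG

noncomputable section

namespace Pool.Agent.GQ

variable {N : ℕ} {K : Type} [Field K] [Algebra ℂ K] {x : Fin (N + 1) → K} {δ : Derivation ℂ K K} {a b : Fin (N + 1)}

theorem analyticAt_trT (a : Fin (N + 1)) {b : Fin (N + 1)} {y : Ph N → ℂ} (hb : y (Sum.inl b) ≠ 0) : AnalyticAt ℂ (trT a b : (Ph N → ℂ) → Ph N → ℂ) y := by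
  have hp : ∀ s : Ph N, AnalyticAt ℂ (fun y : Ph N → ℂ => y s) y := fun s => (ContinuousLinearMap.proj (R := ℂ) (φ := fun _ : Ph N => ℂ) s).analyticAt y
  rw [analyticAt_pi_iff]
  rintro (j | j)
  · exact ((hp (Sum.inl j)).mul (hp (Sum.inl a))).div (hp (Sum.inl b)) hb
  · exact ((((hp (Sum.inr j)).mul (hp (Sum.inl a))).add ((hp (Sum.inl j)).mul (hp (Sum.inr a)))).div (hp (Sum.inl b)) hb).sub
      ((((hp (Sum.inl j)).mul (hp (Sum.inl a))).mul (hp (Sum.inr b))).div ((hp (Sum.inl b)).pow 2) (pow_ne_zero 2 hb))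

theorem contOn_trT (a : Fin (N + 1)) {b : Fin (N + 1)} {S : Set (Ph N → ℂ)} (hS : ∀ y ∈ S, y (Sum.inl b) ≠ 0) :
    ContinuousOn (trT a b : (Ph N → ℂ) → Ph N → ℂ) S := fun y hy => (analyticAt_trT a (hS y hy)).continuousAt.continuousWithinAt

/-- the Jacobian matrices in two charts -/
theorem jac_tr {p q : ℕ} {Fa : Fin p → MvPolynomial (Ph N) ℂ} {Fb : Fin q → MvPolynomial (Ph N) ℂ} (hFa : Ideal.span (Set.range Fa) = Vi x δ a)
    (hFb : Ideal.span (Set.range Fb) = Vi x δ b) (ha : x a ≠ 0) (hxb : x b ≠ 0) :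
    ∃ (e : Fin p → ℕ) (r : Fin p → Fin q → MvPolynomial (Ph N) ℂ), ∀ y, IsZ x δ a y → y (Sum.inl b) ≠ 0 →
      jac Fa y = (Matrix.of fun i j => eval (trT a b y) (r i j) * y (Sum.inl b) ^ e i) * jac Fb (trT a b y) *
        (Matrix.of fun t s => fderiv ℂ (trT a b : (Ph N → ℂ) → Ph N → ℂ) y (Pi.single s 1) t) := by
  have h1 : ∀ i, ∃ (e : ℕ) (r : Fin q → MvPolynomial (Ph N) ℂ), ∀ (y : Ph N → ℂ), y (Sum.inl a) ≠ 0 →
      eval y (∑ j, r j * Fb j) = y (Sum.inl a) ^ e * eval (trT b a y) (Fa i) := by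
    intro i
    obtain ⟨e, h, hh⟩ := exists_clear b a (Fa i)
    have h2 : h ∈ Vi x δ b := by
      have h3 : Fa i ∈ Vi x δ a := by
        rw [← hFa]
        exact Ideal.subset_span ⟨i, rfl⟩
      rw [mem_Vi, hh K _ (div_ne_zero ha hxb), trT_gy hxb ha, mem_Vi.1 h3, mul_zero]
    rw [← hFb] at h2
    obtain ⟨r, hr⟩ := Ideal.mem_span_range_iff_exists_fun.1 h2
    refine ⟨e, r, fun y hy => ?_⟩
    rw [hr, ← aeval_eval, hh ℂ y hy, aeval_eval]
  choose e r hr using h1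
  refine ⟨e, r, fun y hy hb => ?_⟩
  have hy1 : y (Sum.inl a) = 1 := hy.one
  have hya : y (Sum.inl a) ≠ 0 := by rw [hy1]; exact one_ne_zero
  have hy' : IsZ x δ b (trT a b y) := hy.tr hb
  obtain ⟨T, hT⟩ : ∃ T : (Ph N → ℂ) → Ph N → ℂ, T = trT a b := ⟨_, rfl⟩
  have hTd : DifferentiableAt ℂ T y := by
    rw [hT]
    exact (analyticAt_trT a hb).differentiableAt
  ext i s
  -- the curve in the direction `s`
  have hc : HasDerivAt (fun t : ℂ => y + t • (Pi.single s 1 : Ph N → ℂ)) (Pi.single s 1) 0 := by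
    simpa using ((hasDerivAt_id (0 : ℂ)).smul_const (Pi.single s 1 : Ph N → ℂ)).const_add y
  have hc0 : (fun t : ℂ => y + t • (Pi.single s 1 : Ph N → ℂ)) 0 = y := by simp
  have hTc : HasDerivAt (fun t : ℂ => T (y + t • (Pi.single s 1 : Ph N → ℂ))) (fderiv ℂ T y (Pi.single s 1)) 0 :=
    hTd.hasFDerivAt.comp_hasDerivAt_of_eq 0 hc hc0.symm
  have hev : ∀ᶠ t in 𝓝 (0 : ℂ), eval (T (y + t • (Pi.single s 1 : Ph N → ℂ))) (∑ j, r i j * Fb j) =
      T (y + t • (Pi.single s 1 : Ph N → ℂ)) (Sum.inl a) ^ e i * eval (y + t • (Pi.single s 1 : Ph N → ℂ)) (Fa i) := by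
    have hcont : ContinuousAt (fun t : ℂ => y + t • (Pi.single s 1 : Ph N → ℂ)) 0 := hc.continuousAt
    have e1 : ∀ᶠ t in 𝓝 (0 : ℂ), (y + t • (Pi.single s 1 : Ph N → ℂ)) (Sum.inl a) ≠ 0 := by
      have h2 : ContinuousAt (fun t : ℂ => (y + t • (Pi.single s 1 : Ph N → ℂ)) (Sum.inl a)) 0 := (continuous_apply (Sum.inl a)).continuousAt.comp hcont
      refine h2.eventually_ne ?_
      rw [zero_smul, add_zero]
      exact hya
    have e2 : ∀ᶠ t in 𝓝 (0 : ℂ), (y + t • (Pi.single s 1 : Ph N → ℂ)) (Sum.inl b) ≠ 0 := by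
      have h2 : ContinuousAt (fun t : ℂ => (y + t • (Pi.single s 1 : Ph N → ℂ)) (Sum.inl b)) 0 := (continuous_apply (Sum.inl b)).continuousAt.comp hcont
      refine h2.eventually_ne ?_
      rw [zero_smul, add_zero]
      exact hb
    filter_upwards [e1, e2] with t h3 h4
    rw [hT]
    have h5 : trT a b (y + t • (Pi.single s 1 : Ph N → ℂ)) (Sum.inl a) ≠ 0 := by
      simp only [trT, Sum.elim_inl]
      exact div_ne_zero (mul_ne_zero h3 h3) h4
    rw [hr i _ h5, trT_trT a b h3 h4]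
  have hL := Chart_hasDerivAt (∑ j, r i j * Fb j) hTc
  have hR := Chart_hasDerivAt (Fa i) hc
  have hU : HasDerivAt (fun t : ℂ => T (y + t • (Pi.single s 1 : Ph N → ℂ)) (Sum.inl a)) (fderiv ℂ T y (Pi.single s 1) (Sum.inl a)) 0 := hasDerivAt_pi.1 hTc _
  have hfa : eval y (Fa i) = 0 := hy.2 _ (by rw [← hFa]; exact Ideal.subset_span ⟨i, rfl⟩)
  have hfb : ∀ j, eval (T y) (Fb j) = 0 := fun j => by
    rw [hT]
    exact hy'.2 _ (by rw [← hFb]; exact Ideal.subset_span ⟨j, rfl⟩)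
  have hRR := ((hU.pow (e i)).mul hR).congr_of_eventuallyEq hev
  have hEq := hL.unique hRR
  rw [zero_smul, add_zero, hfa, mul_zero, zero_add] at hEq
  have hu : T y (Sum.inl a) = (y (Sum.inl b))⁻¹ := by
    rw [hT]
    simp only [trT, Sum.elim_inl, hy1, mul_one, one_div]
  have hs1 : ∑ i_1, (Pi.single s 1 : Ph N → ℂ) i_1 * eval y (pderiv i_1 (Fa i)) = jac Fa y i s := by
    rw [Finset.sum_eq_single s]
    · rw [Pi.single_eq_same, one_mul]
      rfl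
    · intro t _ ht
      rw [Pi.single_eq_of_ne ht, zero_mul]
    · intro h
      exact absurd (Finset.mem_univ s) h
  have hs2 : ∑ t, fderiv ℂ T y (Pi.single s 1) t * eval (T y) (pderiv t (∑ j, r i j * Fb j)) =
      ∑ t, (∑ j, eval (T y) (r i j) * jac Fb (T y) j t) * fderiv ℂ T y (Pi.single s 1) t := by
    refine Finset.sum_congr rfl fun t _ => ?_
    rw [map_sum, map_sum, mul_comm]
    congr 1
    refine Finset.sum_congr rfl fun j _ => ?_
    rw [Derivation.leibniz, smul_eq_mul, smul_eq_mul, map_add, map_mul, map_mul, hfb j, zero_mul, add_zero]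
    rfl
  have hEq' : ∑ t, (∑ j, eval (T y) (r i j) * jac Fb (T y) j t) * fderiv ℂ T y (Pi.single s 1) t = (y (Sum.inl b))⁻¹ ^ e i * jac Fa y i s := by
    rw [← hs2, ← hs1, ← hu]
    simpa using hEq
  have hbe : y (Sum.inl b) ^ e i * ((y (Sum.inl b))⁻¹ ^ e i * jac Fa y i s) = jac Fa y i s := by
    rw [← mul_assoc, ← mul_pow, mul_inv_cancel₀ hb, one_pow, one_mul]
  rw [← hbe, ← hEq', ← hT, Matrix.mul_apply, Finset.mul_sum]
  refine Finset.sum_congr rfl fun t _ => ?_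
  rw [Matrix.mul_apply, ← mul_assoc]
  congr 1
  rw [Finset.mul_sum]
  refine Finset.sum_congr rfl fun j _ => ?_
  rw [Matrix.of_apply]
  ring

/-- the minors in two charts -/
theorem minors_tr {p q : ℕ} {Fa : Fin p → MvPolynomial (Ph N) ℂ} {Fb : Fin q → MvPolynomial (Ph N) ℂ} (hFa : x a ≠ 0 → Ideal.span (Set.range Fa) = Vi x δ a)
    (hFb : x b ≠ 0 → Ideal.span (Set.range Fb) = Vi x δ b) (n : ℕ) (R : ℝ) {ε : ℝ} (hε : 0 < ε) :
    ∃ C : ℝ, 0 ≤ C ∧ ∀ y, IsZ x δ a y → ‖y‖ ≤ R → ε ≤ ‖y (Sum.inl b)‖ → ‖Mc n (jac Fa y)‖ ≤ C * ‖Mc n (jac Fb (trT a b y))‖ := by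
  by_cases ha : x a = 0
  · exact ⟨0, le_rfl, fun y hy => absurd ha hy.1⟩
  by_cases hb : x b = 0
  · exact ⟨0, le_rfl, fun y hy _ h => absurd hb (hy.ne (norm_pos_iff.1 (hε.trans_le h)))⟩
  obtain ⟨e, r, h⟩ := jac_tr (hFa ha) (hFb hb) ha hb
  obtain ⟨S, hS⟩ : ∃ S : Set (Ph N → ℂ), S = closedBall (0 : Ph N → ℂ) R ∩ {y | ε ≤ ‖y (Sum.inl b)‖} := ⟨_, rfl⟩
  have hSc : IsCompact S := by
    rw [hS]
    exact (isCompact_closedBall _ _).inter_right (isClosed_le continuous_const (continuous_apply _).norm)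
  have hS0 : ∀ y ∈ S, y (Sum.inl b) ≠ 0 := by
    intro y hy
    rw [hS] at hy
    exact norm_pos_iff.1 (hε.trans_le hy.2)
  have h1 : ∀ (i : Fin p) (j : Fin q), ∃ C : ℝ, ∀ y ∈ S, ‖eval (trT a b y) (r i j) * y (Sum.inl b) ^ e i‖ ≤ C := by
    intro i j
    refine hSc.exists_bound_of_continuousOn ?_
    exact ((MvPolynomial.continuous_eval (r i j)).comp_continuousOn (contOn_trT a hS0)).mul ((continuous_apply (Sum.inl b)).continuousOn.pow _)
  have h2 : ∀ (t s : Ph N), ∃ C : ℝ, ∀ y ∈ S, ‖fderiv ℂ (trT a b : (Ph N → ℂ) → Ph N → ℂ) y (Pi.single s 1) t‖ ≤ C := by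
    intro t s
    refine hSc.exists_bound_of_continuousOn fun y hy => ?_
    have h3 : ContinuousAt (fun y => fderiv ℂ (trT a b : (Ph N → ℂ) → Ph N → ℂ) y (Pi.single s 1)) y :=
      (analyticAt_trT a (hS0 y hy)).fderiv.continuousAt.clm_apply continuousAt_const
    exact ((continuous_apply t).continuousAt.comp h3).continuousWithinAt
  choose C₁ hC₁ using h1
  choose C₂ hC₂ using h2
  have hC₁' : ∀ y ∈ S, ∀ i j, ‖eval (trT a b y) (r i j) * y (Sum.inl b) ^ e i‖ ≤ ∑ i, ∑ j, |C₁ i j| := fun y hy i j =>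
    ((hC₁ i j y hy).trans (le_abs_self _)).trans ((Finset.single_le_sum (f := fun j => |C₁ i j|) (fun _ _ => abs_nonneg _) (Finset.mem_univ j)).trans
      (Finset.single_le_sum (f := fun i => ∑ j, |C₁ i j|) (fun _ _ => Finset.sum_nonneg fun _ _ => abs_nonneg _) (Finset.mem_univ i)))
  have hC₂' : ∀ y ∈ S, ∀ t s, ‖fderiv ℂ (trT a b : (Ph N → ℂ) → Ph N → ℂ) y (Pi.single s 1) t‖ ≤ ∑ t, ∑ s, |C₂ t s| := fun y hy i j =>
    ((hC₂ i j y hy).trans (le_abs_self _)).trans ((Finset.single_le_sum (f := fun j => |C₂ i j|) (fun _ _ => abs_nonneg _) (Finset.mem_univ j)).trans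
      (Finset.single_le_sum (f := fun i => ∑ j, |C₂ i j|) (fun _ _ => Finset.sum_nonneg fun _ _ => abs_nonneg _) (Finset.mem_univ i)))
  refine ⟨(Fintype.card (Ph N) * ∑ t, ∑ s, |C₂ t s|) ^ n * (Fintype.card (Fin q) * ∑ i, ∑ j, |C₁ i j|) ^ n, by positivity, fun y hy hR hyb => ?_⟩
  have hyS : y ∈ S := by
    rw [hS]
    exact ⟨mem_closedBall_zero_iff.2 hR, hyb⟩
  rw [h y hy (hS0 y hyS), mul_assoc]
  exact minors_mul n _ _ _ (Finset.sum_nonneg fun _ _ => Finset.sum_nonneg fun _ _ => abs_nonneg _) (fun i j => hC₁' y hyS i j)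
    (Finset.sum_nonneg fun _ _ => Finset.sum_nonneg fun _ _ => abs_nonneg _) fun i j => hC₂' y hyS i j

end Pool.Agent.GQ
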