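import Mathlib

/-!
# GQ Mnr: the minors of a matrix, along a linear differential equation and under products

`Mc c M` is the vector of all `c`-minors of `M` (rows and columns given by arbitrary maps).  If `M' = B M - M E` then `|(Mc c M)'| ≤ K |Mc c M|` (`minors_deriv`);
`|Mc c (R M T)| ≤ C |Mc c M|` (`minors_mul`); Grönwall's inequality along segments (`grow`), and steps of length `r` (`chain`).
-/

set_option autoImplicit false

open Topology Filter Metric

namespace Pool.Agent.GQ

section alg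

variable {n : Type} [Fintype n] [DecidableEq n]

theorem updateCol_adj (M : Matrix n n ℂ) (i : n) (v : n → ℂ) : (M.updateCol i v).det = ∑ k, M.adjugate i k * v k := by
  rw [← Matrix.cramer_apply, Matrix.cramer_eq_adjugate_mulVec]
  rfl

theorem updateRow_adj (M : Matrix n n ℂ) (k : n) (v : n → ℂ) : (M.updateRow k v).det = ∑ i, M.adjugate i k * v i := by
  rw [← Matrix.det_transpose, ← Matrix.updateCol_transpose, updateCol_adj, ← Matrix.adjugate_transpose]
  rfl

theorem sum_updateCol (M A : Matrix n n ℂ) : ∑ i, (M.updateCol i fun k => A k i).det = ∑ k, (M.updateRow k (A k)).det := by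
  simp only [updateCol_adj, updateRow_adj]
  exact Finset.sum_comm

/-- the derivative of a determinant -/
theorem hasDerivAt_det {M : ℂ → Matrix n n ℂ} {M' : Matrix n n ℂ} {x : ℂ} (h : ∀ i j, HasDerivAt (fun z => M z i j) (M' i j) x) :
    HasDerivAt (fun z => (M z).det) (∑ i, ((M x).updateCol i fun k => M' k i).det) x := by
  have h1 : ∀ τ : Equiv.Perm n, HasDerivAt (fun z => ((τ.sign : ℤ) : ℂ) * ∏ i, M z (τ i) i)
      (((τ.sign : ℤ) : ℂ) * ∑ i, (∏ j ∈ Finset.univ.erase i, M x (τ j) j) * M' (τ i) i) x := by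
    intro τ
    have h2 := HasDerivAt.fun_finset_prod (u := Finset.univ) (f := fun i z => M z (τ i) i) (f' := fun i => M' (τ i) i) (x := x) fun i _ => h (τ i) i
    exact h2.const_mul _
  have h3 : (fun z => (M z).det) = fun z => ∑ τ : Equiv.Perm n, ((τ.sign : ℤ) : ℂ) * ∏ i, M z (τ i) i := by
    funext z
    exact Matrix.det_apply' (M z)
  rw [h3]
  have h4 : (∑ i, ((M x).updateCol i fun k => M' k i).det) =
      ∑ τ : Equiv.Perm n, ((τ.sign : ℤ) : ℂ) * ∑ i, (∏ j ∈ Finset.univ.erase i, M x (τ j) j) * M' (τ i) i := by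
    simp only [Matrix.det_apply', Finset.mul_sum]
    rw [Finset.sum_comm]
    refine Finset.sum_congr rfl fun τ _ => Finset.sum_congr rfl fun i _ => ?_
    congr 1
    rw [← Finset.prod_erase_mul _ _ (Finset.mem_univ i), Matrix.updateCol_self]
    congr 1
    refine Finset.prod_congr rfl fun j hj => ?_
    rw [Matrix.updateCol_ne (Finset.ne_of_mem_erase hj)]
  rw [h4]
  exact HasDerivAt.fun_sum fun τ _ => h1 τ

end alg

section minors

variable {α β : Type} [Fintype α] [DecidableEq α] [Fintype β] [DecidableEq β]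

/-- the minors -/
def Mc (c : ℕ) (M : Matrix α β ℂ) (q : (Fin c → α) × (Fin c → β)) : ℂ := (M.submatrix q.1 q.2).det

theorem norm_Mc_le {c : ℕ} (M : Matrix α β ℂ) (I : Fin c → α) (S : Fin c → β) : ‖(M.submatrix I S).det‖ ≤ ‖Mc c M‖ := norm_le_pi_norm (Mc c M) (I, S)

theorem minors_deriv (c : ℕ) {M : ℂ → Matrix α β ℂ} {x : ℂ} {B : Matrix α α ℂ} {E : Matrix β β ℂ} {K : ℝ} (hB : ∀ i j, ‖B i j‖ ≤ K) (hE : ∀ i j, ‖E i j‖ ≤ K)
    (h : ∀ i j, HasDerivAt (fun z => M z i j) ((B * M x - M x * E) i j) x) :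
    ∃ V, HasDerivAt (fun z => Mc c (M z)) V x ∧ ‖V‖ ≤ c * (Fintype.card α + Fintype.card β) * K * ‖Mc c (M x)‖ := by
  have hK : 0 ≤ K ∨ (IsEmpty α ∧ IsEmpty β) := by
    rcases isEmpty_or_nonempty α with h1 | ⟨⟨a⟩⟩
    · rcases isEmpty_or_nonempty β with h2 | ⟨⟨b⟩⟩
      · exact Or.inr ⟨h1, h2⟩
      · exact Or.inl ((norm_nonneg _).trans (hE b b))
    · exact Or.inl ((norm_nonneg _).trans (hB a a))
  refine ⟨fun q => ∑ i, (((M x).submatrix q.1 q.2).updateCol i fun k => (B * M x - M x * E) (q.1 k) (q.2 i)).det, ?_, ?_⟩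
  · rw [hasDerivAt_pi]
    intro q
    exact hasDerivAt_det (M := fun z => (M z).submatrix q.1 q.2) (M' := fun i j => (B * M x - M x * E) (q.1 i) (q.2 j)) fun i j => h (q.1 i) (q.2 j)
  · have key : ∀ q : (Fin c → α) × (Fin c → β), ∑ i, (((M x).submatrix q.1 q.2).updateCol i fun k => (B * M x - M x * E) (q.1 k) (q.2 i)).det =
        (∑ k, ∑ l, B (q.1 k) l * ((M x).submatrix (Function.update q.1 k l) q.2).det) -
          ∑ i, ∑ t, E t (q.2 i) * ((M x).submatrix q.1 (Function.update q.2 i t)).det := by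
      intro q
      have e1 : ∀ i, (((M x).submatrix q.1 q.2).updateCol i fun k => (B * M x - M x * E) (q.1 k) (q.2 i)).det =
          (((M x).submatrix q.1 q.2).updateCol i fun k => (B * M x) (q.1 k) (q.2 i)).det - (((M x).submatrix q.1 q.2).updateCol i fun k => (M x * E) (q.1 k) (q.2 i)).det := by
        intro i
        rw [updateCol_adj, updateCol_adj, updateCol_adj, ← Finset.sum_sub_distrib]
        refine Finset.sum_congr rfl fun k _ => ?_
        rw [Matrix.sub_apply]
        ring
      rw [Finset.sum_congr rfl fun i _ => e1 i, Finset.sum_sub_distrib]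
      congr 1
      · rw [sum_updateCol ((M x).submatrix q.1 q.2) (fun k i => (B * M x) (q.1 k) (q.2 i))]
        refine Finset.sum_congr rfl fun k _ => ?_
        have e2 : ∀ l, ((M x).submatrix (Function.update q.1 k l) q.2).det = (((M x).submatrix q.1 q.2).updateRow k fun i => M x l (q.2 i)).det := by
          intro l
          congr 1
          ext a b
          by_cases hak : a = k
          · subst hak
            rw [Matrix.updateRow_self, Matrix.submatrix_apply, Function.update_self]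
          · rw [Matrix.updateRow_ne hak, Matrix.submatrix_apply, Matrix.submatrix_apply, Function.update_of_ne hak]
        simp only [e2, updateRow_adj]
        simp only [Finset.mul_sum]
        rw [Finset.sum_comm]
        refine Finset.sum_congr rfl fun i _ => ?_
        rw [Matrix.mul_apply, Finset.mul_sum]
        exact Finset.sum_congr rfl fun l _ => by ring
      · refine Finset.sum_congr rfl fun i _ => ?_
        have e2 : ∀ t, ((M x).submatrix q.1 (Function.update q.2 i t)).det = (((M x).submatrix q.1 q.2).updateCol i fun k => M x (q.1 k) t).det := by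
          intro t
          congr 1
          ext a b
          by_cases hak : b = i
          · subst hak
            rw [Matrix.updateCol_self, Matrix.submatrix_apply, Function.update_self]
          · rw [Matrix.updateCol_ne hak, Matrix.submatrix_apply, Matrix.submatrix_apply, Function.update_of_ne hak]
        simp only [e2, updateCol_adj]
        simp only [Finset.mul_sum]
        rw [Finset.sum_comm]
        refine Finset.sum_congr rfl fun k _ => ?_
        rw [Matrix.mul_apply, Finset.mul_sum]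
        exact Finset.sum_congr rfl fun l _ => by ring
    rcases hK with hK | ⟨h1, h2⟩
    · refine (pi_norm_le_iff_of_nonneg (by positivity)).2 fun q => ?_
      rw [key q]
      have b1 : ‖∑ k, ∑ l, B (q.1 k) l * ((M x).submatrix (Function.update q.1 k l) q.2).det‖ ≤ c * (Fintype.card α * (K * ‖Mc c (M x)‖)) := by
        refine (norm_sum_le _ _).trans ?_
        calc ∑ k, ‖∑ l, B (q.1 k) l * ((M x).submatrix (Function.update q.1 k l) q.2).det‖ ≤ ∑ _k : Fin c, (Fintype.card α * (K * ‖Mc c (M x)‖)) := by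
              refine Finset.sum_le_sum fun k _ => (norm_sum_le _ _).trans ?_
              calc ∑ l, ‖B (q.1 k) l * ((M x).submatrix (Function.update q.1 k l) q.2).det‖ ≤ ∑ _l : α, K * ‖Mc c (M x)‖ := by
                    refine Finset.sum_le_sum fun l _ => ?_
                    rw [norm_mul]
                    exact mul_le_mul (hB _ _) (norm_Mc_le _ _ _) (norm_nonneg _) hK
                _ = _ := by rw [Finset.sum_const, Finset.card_univ, nsmul_eq_mul]
          _ = _ := by rw [Finset.sum_const, Finset.card_univ, Fintype.card_fin, nsmul_eq_mul]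
      have b2 : ‖∑ i, ∑ t, E t (q.2 i) * ((M x).submatrix q.1 (Function.update q.2 i t)).det‖ ≤ c * (Fintype.card β * (K * ‖Mc c (M x)‖)) := by
        refine (norm_sum_le _ _).trans ?_
        calc ∑ i, ‖∑ t, E t (q.2 i) * ((M x).submatrix q.1 (Function.update q.2 i t)).det‖ ≤ ∑ _i : Fin c, (Fintype.card β * (K * ‖Mc c (M x)‖)) := by
              refine Finset.sum_le_sum fun k _ => (norm_sum_le _ _).trans ?_
              calc ∑ t, ‖E t (q.2 k) * ((M x).submatrix q.1 (Function.update q.2 k t)).det‖ ≤ ∑ _t : β, K * ‖Mc c (M x)‖ := by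
                    refine Finset.sum_le_sum fun l _ => ?_
                    rw [norm_mul]
                    exact mul_le_mul (hE _ _) (norm_Mc_le _ _ _) (norm_nonneg _) hK
                _ = _ := by rw [Finset.sum_const, Finset.card_univ, nsmul_eq_mul]
          _ = _ := by rw [Finset.sum_const, Finset.card_univ, Fintype.card_fin, nsmul_eq_mul]
      refine (norm_sub_le _ _).trans ((add_le_add b1 b2).trans (le_of_eq ?_))
      ring
    · have h3 : ‖fun q : (Fin c → α) × (Fin c → β) => ∑ i, (((M x).submatrix q.1 q.2).updateCol i fun k => (B * M x - M x * E) (q.1 k) (q.2 i)).det‖ ≤ 0 := by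
        refine (pi_norm_le_iff_of_nonneg le_rfl).2 fun q => ?_
        have h4 : IsEmpty (Fin c) := ⟨fun i => h1.false (q.1 i)⟩
        rw [Finset.univ_eq_empty, Finset.sum_empty, norm_zero]
      have h4 : Fintype.card α = 0 := Fintype.card_eq_zero
      have h5 : Fintype.card β = 0 := Fintype.card_eq_zero
      rw [h4, h5]
      simpa using h3

theorem minors_mul_left (c : ℕ) {γ : Type} [Fintype γ] [DecidableEq γ] (R : Matrix γ α ℂ) (M : Matrix α β ℂ) {K : ℝ} (hK : 0 ≤ K) (hR : ∀ i j, ‖R i j‖ ≤ K) :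
    ‖Mc c (R * M)‖ ≤ (Fintype.card α * K) ^ c * ‖Mc c M‖ := by
  refine (pi_norm_le_iff_of_nonneg (by positivity)).2 fun q => ?_
  have h1 : Mc c (R * M) q = ∑ φ : Fin c → α, (∏ i, R (q.1 i) (φ i)) * (M.submatrix φ q.2).det := by
    have h2 : (R * M).submatrix q.1 q.2 = fun i => ∑ l, fun j => R (q.1 i) l * M l (q.2 j) := by
      ext i j
      rw [Matrix.submatrix_apply, Matrix.mul_apply, Finset.sum_apply]
    show ((R * M).submatrix q.1 q.2).det = _
    rw [h2]
    show Matrix.detRowAlternating.toMultilinearMap (fun i => ∑ l, fun j => R (q.1 i) l * M l (q.2 j)) = _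
    rw [MultilinearMap.map_sum]
    refine Finset.sum_congr rfl fun φ _ => ?_
    have h3 : (fun i => (fun j => R (q.1 i) (φ i) * M (φ i) (q.2 j))) = fun i => R (q.1 i) (φ i) • (fun j => M (φ i) (q.2 j)) := by
      funext i j
      rfl
    rw [h3, MultilinearMap.map_smul_univ]
    rfl
  rw [h1]
  refine (norm_sum_le _ _).trans ?_
  calc ∑ φ : Fin c → α, ‖(∏ i, R (q.1 i) (φ i)) * (M.submatrix φ q.2).det‖ ≤ ∑ _φ : Fin c → α, K ^ c * ‖Mc c M‖ := by
        refine Finset.sum_le_sum fun φ _ => ?_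
        rw [norm_mul, norm_prod]
        refine mul_le_mul ?_ (norm_Mc_le _ _ _) (norm_nonneg _) (by positivity)
        calc ∏ i, ‖R (q.1 i) (φ i)‖ ≤ ∏ _i : Fin c, K := Finset.prod_le_prod (fun _ _ => norm_nonneg _) fun i _ => hR _ _
          _ = K ^ c := by rw [Finset.prod_const, Finset.card_univ, Fintype.card_fin]
    _ = _ := by
        rw [Finset.sum_const, Finset.card_univ, Fintype.card_fun, Fintype.card_fin, nsmul_eq_mul]
        push_cast
        ring

theorem minors_transpose (c : ℕ) (M : Matrix α β ℂ) : ‖Mc c M.transpose‖ ≤ ‖Mc c M‖ := by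
  refine (pi_norm_le_iff_of_nonneg (norm_nonneg _)).2 fun q => ?_
  have h1 : Mc c M.transpose q = (M.submatrix q.2 q.1).det := by
    show (M.transpose.submatrix q.1 q.2).det = _
    rw [← Matrix.det_transpose]
    rfl
  rw [h1]
  exact norm_Mc_le _ _ _

theorem minors_mul_right (c : ℕ) {γ : Type} [Fintype γ] [DecidableEq γ] (M : Matrix α β ℂ) (T : Matrix β γ ℂ) {K : ℝ} (hK : 0 ≤ K) (hT : ∀ i j, ‖T i j‖ ≤ K) :
    ‖Mc c (M * T)‖ ≤ (Fintype.card β * K) ^ c * ‖Mc c M‖ := by
  have h1 : M * T = (T.transpose * M.transpose).transpose := by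
    rw [Matrix.transpose_mul, Matrix.transpose_transpose, Matrix.transpose_transpose]
  rw [h1]
  refine (minors_transpose c _).trans ((minors_mul_left c T.transpose M.transpose hK fun i j => hT j i).trans ?_)
  exact mul_le_mul_of_nonneg_left (minors_transpose c M) (by positivity)

/-- the minors of a product of three matrices -/
theorem minors_mul (c : ℕ) {γ δ : Type} [Fintype γ] [DecidableEq γ] [Fintype δ] [DecidableEq δ] (R : Matrix γ α ℂ) (M : Matrix α β ℂ) (T : Matrix β δ ℂ) {K L : ℝ}
    (hK : 0 ≤ K) (hR : ∀ i j, ‖R i j‖ ≤ K) (hL : 0 ≤ L) (hT : ∀ i j, ‖T i j‖ ≤ L) :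
    ‖Mc c (R * M * T)‖ ≤ (Fintype.card β * L) ^ c * ((Fintype.card α * K) ^ c * ‖Mc c M‖) :=
  (minors_mul_right c (R * M) T hL hT).trans (mul_le_mul_of_nonneg_left (minors_mul_left c R M hK hR) (by positivity))

end minors

/-! ## Grönwall's inequality -/

theorem grow {E : Type*} [NormedAddCommGroup E] [NormedSpace ℂ E] {q : ℂ → E} {q' : ℂ → E} {z w : ℂ} {K : ℝ}
    (h : ∀ x ∈ segment ℝ w z, HasDerivAt q (q' x) x) (hb : ∀ x ∈ segment ℝ w z, ‖q' x‖ ≤ K * ‖q x‖) : ‖q z‖ ≤ ‖q w‖ * Real.exp (K * ‖z - w‖) := by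
  have hmem : ∀ t ∈ Set.Icc (0 : ℝ) 1, w + (t : ℂ) * (z - w) ∈ segment ℝ w z := by
    intro t ht
    rw [segment_eq_image']
    refine ⟨t, ht, ?_⟩
    show w + t • (z - w) = _
    rw [Complex.real_smul]
  have hd : ∀ t ∈ Set.Icc (0 : ℝ) 1, HasDerivAt (fun t : ℝ => q (w + (t : ℂ) * (z - w))) ((z - w) • q' (w + (t : ℂ) * (z - w))) t := by
    intro t ht
    have h1 : HasDerivAt (fun t : ℝ => w + (t : ℂ) * (z - w)) (z - w) t := by
      have h2 : HasDerivAt (fun t : ℝ => (t : ℂ)) 1 t := Complex.ofRealCLM.hasDerivAt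
      simpa using (h2.mul_const (z - w)).const_add w
    exact (h _ (hmem t ht)).scomp t h1
  have h1 := norm_le_gronwallBound_of_norm_deriv_right_le (f := fun t : ℝ => q (w + (t : ℂ) * (z - w))) (f' := fun t : ℝ => (z - w) • q' (w + (t : ℂ) * (z - w)))
    (δ := ‖q w‖) (K := K * ‖z - w‖) (ε := 0) (a := 0) (b := 1) (fun t ht => (hd t ht).continuousAt.continuousWithinAt)
    (fun t ht => (hd t ⟨ht.1, ht.2.le⟩).hasDerivWithinAt) (by simp) (fun t ht => by
      rw [norm_smul, add_zero]
      have h2 := hb _ (hmem t ⟨ht.1, ht.2.le⟩)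
      nlinarith [norm_nonneg (z - w)]) 1 ⟨zero_le_one, le_rfl⟩
  have h2 : w + ((1 : ℝ) : ℂ) * (z - w) = z := by push_cast; ring
  rw [h2, gronwallBound_ε0, sub_zero, mul_one] at h1
  exact h1

/-- steps of length `r` -/
theorem chain {μ : ℂ → ℝ} {r C : ℝ} (hr : 0 < r) (hC : 1 ≤ C) (hμ : ∀ z, 0 ≤ μ z) (h : ∀ z w, ‖z - w‖ ≤ r → μ z ≤ C * μ w) (z : ℂ) :
    μ 0 ≤ C * Real.exp (Real.log C / r * ‖z‖) * μ z := by
  obtain ⟨n, hn⟩ : ∃ n : ℕ, n = ⌈‖z‖ / r⌉₊ := ⟨_, rfl⟩
  have hC0 : 0 < C := lt_of_lt_of_le one_pos hC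
  have h1 : ∀ k : ℕ, k ≤ n → μ 0 ≤ C ^ k * μ (((k : ℝ) / n : ℝ) * z) := by
    intro k
    induction k with
    | zero => intro _; simp
    | succ k ih =>
      intro hk
      refine (ih (by omega)).trans ?_
      rw [pow_succ, mul_assoc]
      refine mul_le_mul_of_nonneg_left (h _ _ ?_) (by positivity)
      have hn0 : (0 : ℝ) < n := by
        have : 0 < n := by omega
        exact_mod_cast this
      have e1 : ((((k : ℝ) / n : ℝ) : ℂ) * z - ((((k + 1 : ℕ) : ℝ) / n : ℝ) : ℂ) * z) = -(((1 / n : ℝ) : ℂ) * z) := by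
        push_cast
        ring
      rw [e1, norm_neg, norm_mul, Complex.norm_real, Real.norm_of_nonneg (by positivity)]
      rw [one_div, inv_mul_le_iff₀ hn0]
      have h3 := Nat.le_ceil (‖z‖ / r)
      rw [← hn, div_le_iff₀ hr] at h3
      exact h3
  have h2 : μ 0 ≤ C ^ n * μ z := by
    rcases Nat.eq_zero_or_pos n with h0 | h0
    · have h3 : ‖z‖ / r ≤ 0 := by
        have h4 := Nat.le_ceil (‖z‖ / r)
        rw [← hn, h0] at h4
        simpa using h4
      have h5 : ‖z‖ ≤ 0 := by
        rw [div_le_iff₀ hr, zero_mul] at h3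
        exact h3
      have h6 : z = 0 := norm_le_zero_iff.1 h5
      rw [h0, h6, pow_zero, one_mul]
    · have h3 := h1 n le_rfl
      have hn0 : (n : ℝ) ≠ 0 := by exact_mod_cast h0.ne'
      rw [div_self hn0] at h3
      simpa using h3
  refine h2.trans (mul_le_mul_of_nonneg_right ?_ (hμ z))
  have h3 : (n : ℝ) ≤ ‖z‖ / r + 1 := by
    rw [hn]
    exact (Nat.ceil_lt_add_one (by positivity)).le
  have hlog : 0 ≤ Real.log C := Real.log_nonneg hC
  calc C ^ n = Real.exp (Real.log C * n) := by
        rw [mul_comm, Real.exp_nat_mul, Real.exp_log hC0]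
    _ ≤ Real.exp (Real.log C * (‖z‖ / r + 1)) := Real.exp_le_exp.2 (mul_le_mul_of_nonneg_left h3 hlog)
    _ = C * Real.exp (Real.log C / r * ‖z‖) := by
        rw [mul_add, mul_one, Real.exp_add, Real.exp_log hC0, mul_comm]
        congr 1
        congr 1
        ring

end Pool.Agent.GQ
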