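import Pool.Agent.GG.ArcOde
import Pool.Agent.GQ.Mnr

/-!
# GQ MnrP: the Jacobian matrix of the generators of an invariant ideal along a solution

`D = mkDerivation φ`, `D (f i) = ∑ j, b i j * f j`.  At the zeros of `f`: `D (∂_s f_i) = ∑ j, b i j ∂_s f_j - ∑ t, ∂_s φ_t ∂_t f_i`, so along a solution in the zero set the Jacobian matrix satisfies `M' = B M - M E`.
-/

set_option autoImplicit false

open MvPolynomial Topology Filter Metric
open Pool.Agent.GG

noncomputable section

namespace Pool.Agent.GQ

section gen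

variable {σ : Type} [Fintype σ] [DecidableEq σ] {p : ℕ}

theorem mkD_eq (φ : σ → MvPolynomial σ ℂ) (g : MvPolynomial σ ℂ) : mkDerivation ℂ φ g = ∑ t, φ t * pderiv t g := by
  induction g using MvPolynomial.induction_on with
  | C a =>
    rw [← algebraMap_eq, Derivation.map_algebraMap]
    simp
  | add p q hp hq => simp only [map_add, hp, hq, mul_add, Finset.sum_add_distrib]
  | mul_X p i hp =>
    rw [Derivation.leibniz, hp, mkDerivation_X]
    simp only [Derivation.leibniz, smul_eq_mul, mul_add, Finset.sum_add_distrib]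
    have h1 : ∑ t, φ t * (p * pderiv t (X i)) = p * φ i := by
      rw [Finset.sum_eq_single i]
      · rw [pderiv_X_self]
        ring
      · intro t _ ht
        rw [pderiv_X_of_ne ht.symm]
        ring
      · intro h
        exact absurd (Finset.mem_univ i) h
    rw [h1]
    congr 1
    rw [Finset.mul_sum]
    exact Finset.sum_congr rfl fun t _ => by ring

/-- the commutator of a derivation and a partial derivative -/
theorem mkD_pderiv (φ : σ → MvPolynomial σ ℂ) (s : σ) (g : MvPolynomial σ ℂ) :
    mkDerivation ℂ φ (pderiv s g) = pderiv s (mkDerivation ℂ φ g) - ∑ t, pderiv s (φ t) * pderiv t g := by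
  rw [mkD_eq, mkD_eq, map_sum, ← Finset.sum_sub_distrib]
  refine Finset.sum_congr rfl fun t _ => ?_
  rw [Derivation.leibniz, smul_eq_mul, smul_eq_mul]
  have h1 : pderiv s (pderiv t g) = pderiv t (pderiv s g) := by
    have h2 := congrArg (fun d : Derivation ℂ (MvPolynomial σ ℂ) (MvPolynomial σ ℂ) => d g) (show ⁅(pderiv s : Derivation ℂ (MvPolynomial σ ℂ) (MvPolynomial σ ℂ)), pderiv t⁆ = 0 from ?_)
    · rw [Derivation.commutator_apply] at h2
      exact sub_eq_zero.1 h2
    · refine MvPolynomial.derivation_ext fun i => ?_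
      rw [Derivation.commutator_apply]
      simp only [pderiv_X, Derivation.zero_apply]
      rcases eq_or_ne i t with h | h
      · rcases eq_or_ne i s with h' | h'
        · subst h; subst h'; simp
        · subst h; simp [Pi.single_eq_of_ne h']
      · rcases eq_or_ne i s with h' | h'
        · subst h'; simp [Pi.single_eq_of_ne h]
        · simp [Pi.single_eq_of_ne h, Pi.single_eq_of_ne h']
  rw [h1]
  ring

/-- the Jacobian matrix at `y` -/
def jac (f : Fin p → MvPolynomial σ ℂ) (y : σ → ℂ) : Matrix (Fin p) σ ℂ := fun i s => eval y (pderiv s (f i))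

theorem eval_D_jac {φ : σ → MvPolynomial σ ℂ} {f : Fin p → MvPolynomial σ ℂ} {b : Fin p → Fin p → MvPolynomial σ ℂ}
    (hD : ∀ i, mkDerivation ℂ φ (f i) = ∑ j, b i j * f j) {y : σ → ℂ} (hy : ∀ i, eval y (f i) = 0) (i : Fin p) (s : σ) :
    eval y (mkDerivation ℂ φ (pderiv s (f i))) = ∑ j, eval y (b i j) * jac f y j s - ∑ t, jac f y i t * eval y (pderiv s (φ t)) := by
  rw [mkD_pderiv, hD, map_sub, map_sum, map_sum, map_sum]
  congr 1
  · refine Finset.sum_congr rfl fun j _ => ?_
    rw [Derivation.leibniz, smul_eq_mul, smul_eq_mul, map_add, map_mul, map_mul, hy j, zero_mul, add_zero]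
    rfl
  · refine Finset.sum_congr rfl fun t _ => ?_
    rw [map_mul, mul_comm]
    rfl

end gen

variable {N p : ℕ} {ι : Type} {G : ι → MvPolynomial (Ph N) ℂ} {J : Fin (N + 1) → ι}

/-- the Jacobian matrix along a solution -/
theorem jac_ode {f : Fin p → MvPolynomial (Ph N) ℂ} {b : Fin p → Fin p → MvPolynomial (Ph N) ℂ} (hD : ∀ i, Dt G J (f i) = ∑ j, b i j * f j)
    {y : ℂ → Ph N → ℂ} {z : ℂ} (hy : HasDerivAt y (W G J (y z)) z) (h0 : ∀ i, eval (y z) (f i) = 0) (i : Fin p) (s : Ph N) :
    HasDerivAt (fun z => jac f (y z) i s)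
      (((Matrix.of fun i j => eval (y z) (b i j) / eval (y z) (vdet G J)) * jac f (y z) -
        jac f (y z) * (Matrix.of fun t s => eval (y z) (pderiv s (fld G J t)) / eval (y z) (vdet G J))) i s) z := by
  have h1 := hasDerivAt_eval hy (pderiv s (f i))
  have h2 := eval_D_jac (φ := fld G J) hD h0 i s
  have h3 : eval (y z) (Dt G J (pderiv s (f i))) / eval (y z) (vdet G J) =
      ((Matrix.of fun i j => eval (y z) (b i j) / eval (y z) (vdet G J)) * jac f (y z) -
        jac f (y z) * (Matrix.of fun t s => eval (y z) (pderiv s (fld G J t)) / eval (y z) (vdet G J))) i s := by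
    rw [Matrix.sub_apply, Matrix.mul_apply, Matrix.mul_apply]
    show eval (y z) (mkDerivation ℂ (fld G J) (pderiv s (f i))) / _ = _
    rw [h2, sub_div, Finset.sum_div, Finset.sum_div]
    congr 1
    · refine Finset.sum_congr rfl fun j _ => ?_
      show _ = eval (y z) (b i j) / eval (y z) (vdet G J) * jac f (y z) j s
      ring
    · refine Finset.sum_congr rfl fun t _ => ?_
      show _ = jac f (y z) i t * (eval (y z) (pderiv s (fld G J t)) / eval (y z) (vdet G J))
      ring
  rw [← h3]
  exact h1

end Pool.Agent.GQ
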