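import Pool.Agent.GG.Defs
import Pool.Agent.GQ.MnrP

/-!
# GQ LowD: an invariant variety in phase space, given by its generic point

`K` is a field over `ℂ`, `x : Fin (N + 1) → K` a point of projective space over `K`, `δ` a derivation of `K` over `ℂ`.  `gy x δ a` is the point of the phase
space with the coordinates `x_j / x_a`, `δ (x_j / x_a)`; `Vi x δ a` is the ideal of its relations over `ℂ`.
-/

set_option autoImplicit false

open MvPolynomial
open Pool.Agent.GG

noncomputable section

namespace Pool.Agent.GQ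

variable {N : ℕ} {K : Type} [Field K] [Algebra ℂ K]

/-- the generic point in the chart `a` -/
def gy (x : Fin (N + 1) → K) (δ : Derivation ℂ K K) (a : Fin (N + 1)) : Ph N → K :=
  Sum.elim (fun j => x j / x a) fun j => δ (x j / x a)

/-- the ideal of the relations of the generic point in the chart `a` -/
def Vi (x : Fin (N + 1) → K) (δ : Derivation ℂ K K) (a : Fin (N + 1)) : Ideal (MvPolynomial (Ph N) ℂ) :=
  RingHom.ker (aeval (gy x δ a) : MvPolynomial (Ph N) ℂ →ₐ[ℂ] K)

/-- `y` is a point of the variety in the chart `a` -/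
def IsZ (x : Fin (N + 1) → K) (δ : Derivation ℂ K K) (a : Fin (N + 1)) (y : Ph N → ℂ) : Prop := x a ≠ 0 ∧ ∀ g ∈ Vi x δ a, eval y g = 0

/-- the change of charts from `a` to `b`: position and velocity of `(x_a / x_b) x` -/
def trT {L : Type} [Field L] (a b : Fin (N + 1)) (y : Ph N → L) : Ph N → L :=
  Sum.elim (fun j => y (Sum.inl j) * y (Sum.inl a) / y (Sum.inl b)) fun j =>
    (y (Sum.inr j) * y (Sum.inl a) + y (Sum.inl j) * y (Sum.inr a)) / y (Sum.inl b) - y (Sum.inl j) * y (Sum.inl a) * y (Sum.inr b) / y (Sum.inl b) ^ 2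

end Pool.Agent.GQ
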