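import Pool.Agent.GQ.LowB
import Pool.Agent.GG.Fam1
import Pool.Agent.GG.Unif

/-!
# GQ LowM: the lower bound for the minors along an entire curve

The curve `g` has constant values `c` of the differentials.  `x`, `δ` is the generic point of an invariant variety in phase space, `F a` generators of its ideal in the chart `a`.  If the curve starts in the variety it stays there, and the
`n`-minors of the Jacobian matrix of `F a` decrease at most exponentially in `‖z‖`.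
-/

set_option autoImplicit false

open MvPolynomial Topology Filter Metric
open Pool.Agent.GG
open Pool.Agent.H13.SM (conTan cone)
open Pool.Agent.H17 (PN)
open Pool.Agent.H62.FC (Homog)

noncomputable section

namespace Pool.Agent.GQ

variable {N : ℕ} {P : Ideal (MvPolynomial (Fin (N + 1)) ℂ)} {J : ℕ} {m : Fin J → ℕ} {θ : ∀ k, SymSec P (m k)} {K : Type} [Field K] [Algebra ℂ K]
  {x : Fin (N + 1) → K} {δ : Derivation ℂ K K}

/-- two normalised lifts -/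
theorem tr_rep {a b : Fin (N + 1)} {c c' : Fin J → ℂ} {g : ℂ → PN N} {z : ℂ} {y u : ℂ → Fin (N + 1) → ℂ} (hy : NArc θ a c y z) (hry : Rep g y z)
    (hu : NArc θ b c' u z) (hru : Rep g u z) : y z b ≠ 0 ∧ pt (u z) (deriv u z) = trT a b (pt (y z) (deriv y z)) := by
  have h1 : ∀ᶠ w in 𝓝 z, y w b ≠ 0 ∧ u w = (y w b)⁻¹ • y w := by
    filter_upwards [hry, hru, hu.2] with w hw hw' hu'
    obtain ⟨h0, hw⟩ := hw
    obtain ⟨h0', hw'⟩ := hw'
    rw [hw] at hw'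
    obtain ⟨t, ht⟩ := (Projectivization.mk_eq_mk_iff' ℂ _ _ h0 h0').mp hw'
    have h2 : y w b = t := by rw [← ht, Pi.smul_apply, hu'.2.1, smul_eq_mul, mul_one]
    have h3 : t ≠ 0 := by
      intro h3
      rw [h3, zero_smul] at ht
      exact h0 ht.symm
    refine ⟨by rw [h2]; exact h3, ?_⟩
    rw [h2, ← ht, inv_smul_smul₀ h3]
  have hb : y z b ≠ 0 := h1.self_of_nhds.1
  refine ⟨hb, ?_⟩
  have hT := (Chart_isTan hy).self_of_nhds
  have hya : y z a = 1 := hT.2.1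
  have hya' : deriv y z a = 0 := hT.2.2.2.1
  have hd : HasDerivAt y (deriv y z) z := hy.1.differentiableAt.hasDerivAt
  have hdb : HasDerivAt (fun w => y w b) (deriv y z b) z := hasDerivAt_pi.1 hd b
  have hdi : HasDerivAt (fun w => (y w b)⁻¹) (-(deriv y z b) / (y z b) ^ 2) z := hdb.inv hb
  have hdd : HasDerivAt (fun w => (y w b)⁻¹ • y w) ((y z b)⁻¹ • deriv y z + (-(deriv y z b) / (y z b) ^ 2) • y z) z := hdi.smul hd
  have he : deriv u z = (y z b)⁻¹ • deriv y z + (-(deriv y z b) / (y z b) ^ 2) • y z := by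
    have h2 : u =ᶠ[𝓝 z] fun w => (y w b)⁻¹ • y w := h1.mono fun w hw => hw.2
    rw [h2.deriv_eq]
    exact hdd.deriv
  funext s
  rcases s with j | j
  · show u z j = y z j * y z a / y z b
    rw [h1.self_of_nhds.2, Pi.smul_apply, smul_eq_mul, hya, mul_one, div_eq_inv_mul]
  · show deriv u z j = (deriv y z j * y z a + y z j * deriv y z a) / y z b - y z j * y z a * deriv y z b / y z b ^ 2
    rw [he, Pi.add_apply, Pi.smul_apply, Pi.smul_apply, smul_eq_mul, smul_eq_mul, hya, hya']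
    ring

/-- the maximal coordinate -/
theorem one_le_of_rep {a b : Fin (N + 1)} {c c' : Fin J → ℂ} {g : ℂ → PN N} {z : ℂ} {y u : ℂ → Fin (N + 1) → ℂ} (hy : NArc θ a c y z) (hry : Rep g y z)
    (hu : NArc θ b c' u z) (hru : Rep g u z) (hn : ∀ i, ‖u z i‖ ≤ 1) : 1 ≤ ‖y z b‖ := by
  obtain ⟨h0, h1⟩ := tr_rep hy hry hu hru
  have h2 : u z a = (y z b)⁻¹ := by
    have h3 : u z a = y z a * y z a / y z b := congrFun h1 (Sum.inl a)
    rw [h3, hy.2.self_of_nhds.2.1, mul_one, one_div]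
  have h4 := hn a
  rw [h2, norm_inv] at h4
  exact (inv_le_one₀ (norm_pos_iff.2 h0)).1 h4

/-- one step near a point of the compact set -/
theorem step_loc (hθ : Polar θ) (hm : ∀ k, 1 ≤ m k) (f : Frame θ) {a : Fin (N + 1)} (hG : ∀ l, δ (aeval (gy x δ a) (gfam f a l)) = 0) {p : ℕ}
    {F : Fin p → MvPolynomial (Ph N) ℂ} (hF : Ideal.span (Set.range F) = Vi x δ a) (n : ℕ) {c : Fin J → ℂ} (hc : c ≠ 0) {Y₀ : Ph N → ℂ}
    (hY₀ : Y₀ ∈ Kset θ a {c}) : ∃ U ∈ 𝓝 Y₀, ∃ ρ > 0, ∃ C : ℝ, ∀ g : ℂ → PN N, (∀ z, ArcAt θ c g z) → ∀ (z : ℂ) (y : ℂ → Fin (N + 1) → ℂ), NArc θ a c y z →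
      Rep g y z → pt (y z) (deriv y z) ∈ U → IsZ x δ a (pt (y z) (deriv y z)) → ∀ w, ‖w - z‖ < ρ → ∃ u : ℂ → Fin (N + 1) → ℂ, NArc θ a c u w ∧ Rep g u w ∧
        ‖pt (u w) (deriv u w)‖ ≤ C ∧ IsZ x δ a (pt (u w) (deriv u w)) ∧ ‖Mc n (jac F (pt (y z) (deriv y z)))‖ ≤ C * ‖Mc n (jac F (pt (u w) (deriv u w)))‖ := by
  classical
  obtain ⟨x₁, v₁, c₁, hY, hT, -, hc₁⟩ := hY₀
  have hc₁' : c₁ = c := hc₁
  rw [hc₁'] at hT
  have hv : v₁ ≠ 0 := ne_zero_of_isTan hm hT hc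
  obtain ⟨I, hI⟩ := exists_row hθ f hT hv
  rw [← hY] at hI
  obtain ⟨r, hr, K₀, H, hH⟩ := exists_Flow hI
  obtain ⟨hh, hhd⟩ : ∃ hh : ℂ × (Ph N → ℂ) → Ph N → ℂ, hh = fun q => pt (H q) (deriv (fun z => H (z, q.2)) q.1) := ⟨_, rfl⟩
  have hopen : IsOpen (ball (0 : ℂ) r ×ˢ ball Y₀ r) := isOpen_ball.prod isOpen_ball
  have hq0 : ((0 : ℂ), Y₀) ∈ ball (0 : ℂ) r ×ˢ ball Y₀ r := ⟨mem_ball_self hr, mem_ball_self hr⟩
  have hder : ∀ q ∈ ball (0 : ℂ) r ×ˢ ball Y₀ r, deriv (fun z => H (z, q.2)) q.1 = fderiv ℂ H q (1, 0) := by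
    intro q hq
    have h1 : HasFDerivAt H (fderiv ℂ H q) (q.1, q.2) := (hH.an q hq).differentiableAt.hasFDerivAt
    have h2 : HasDerivAt (fun z : ℂ => (z, q.2)) ((1 : ℂ), (0 : Ph N → ℂ)) q.1 := (hasDerivAt_id q.1).prodMk (hasDerivAt_const _ _)
    exact (h1.comp_hasDerivAt q.1 h2).deriv
  have hhc : ContinuousAt hh (0, Y₀) := by
    have h1 : ContinuousAt (fun q => pt (H q) (fderiv ℂ H q (1, 0))) (0, Y₀) := by
      rw [continuousAt_pi]
      rintro (b | b)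
      · exact (continuous_apply b).continuousAt.comp (hH.an _ hq0).continuousAt
      · exact (continuous_apply b).continuousAt.comp ((hH.an _ hq0).fderiv.continuousAt.clm_apply continuousAt_const)
    refine h1.congr ?_
    filter_upwards [hopen.mem_nhds hq0] with q hq
    rw [hhd]
    simp only
    rw [hder q hq]
  have hh0 : ∀ Y ∈ ball Y₀ r, hh (0, Y) = Y := by
    intro Y hYr
    rw [hhd]
    funext s
    rcases s with b | b
    · exact congrFun (hH.zero Y hYr) b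
    · exact congrFun (hH.der Y hYr) b
  obtain ⟨B, hB⟩ := exists_Dt_eq hG I hF
  -- bounds near `Y₀`
  have hev : ∀ g : MvPolynomial (Ph N) ℂ, ContinuousAt (fun q => eval (hh q) g) (0, Y₀) := fun g => (MvPolynomial.continuous_eval g).continuousAt.comp hhc
  have hne : eval (hh (0, Y₀)) (vdet (gfam f a) I) ≠ 0 := by
    rw [hh0 Y₀ (mem_ball_self hr)]
    exact hI
  have e1 : ∀ᶠ q in 𝓝 ((0 : ℂ), Y₀), eval (hh q) (vdet (gfam f a) I) ≠ 0 := (hev _).eventually_ne hne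
  have e2 : ∀ g : MvPolynomial (Ph N) ℂ, ∃ C : ℝ, ∀ᶠ q in 𝓝 ((0 : ℂ), Y₀), ‖eval (hh q) g / eval (hh q) (vdet (gfam f a) I)‖ ≤ C := by
    intro g
    have h1 : ContinuousAt (fun q => eval (hh q) g / eval (hh q) (vdet (gfam f a) I)) (0, Y₀) := (hev g).div (hev _) hne
    exact ⟨_, h1.norm.tendsto.eventually_le_const (lt_add_one _)⟩
  have e3 : ∀ᶠ q in 𝓝 ((0 : ℂ), Y₀), ‖hh q‖ ≤ ‖hh (0, Y₀)‖ + 1 := hhc.norm.tendsto.eventually_le_const (lt_add_one _)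
  choose C₁ hC₁ using fun i j => e2 (B i j)
  choose C₂ hC₂ using fun t s => e2 (pderiv s (fld (gfam f a) I t))
  have e4 : ∀ᶠ q in 𝓝 ((0 : ℂ), Y₀), ∀ i j, ‖eval (hh q) (B i j) / eval (hh q) (vdet (gfam f a) I)‖ ≤ C₁ i j :=
    eventually_all.2 fun i => eventually_all.2 fun j => hC₁ i j
  have e5 : ∀ᶠ q in 𝓝 ((0 : ℂ), Y₀), ∀ t s, ‖eval (hh q) (pderiv s (fld (gfam f a) I t)) / eval (hh q) (vdet (gfam f a) I)‖ ≤ C₂ t s :=
    eventually_all.2 fun i => eventually_all.2 fun j => hC₂ i j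
  obtain ⟨ρ, hρ, hball⟩ := Metric.eventually_nhds_iff_ball.1 (e1.and (e3.and (e4.and (e5.and (hopen.mem_nhds hq0)))))
  obtain ⟨K₂, hK₂⟩ : ∃ K₂ : ℝ, K₂ = ∑ i, ∑ j, |C₁ i j| + ∑ t, ∑ s, |C₂ t s| := ⟨_, rfl⟩
  have n1 : 0 ≤ ∑ i, ∑ j, |C₁ i j| := Finset.sum_nonneg fun _ _ => Finset.sum_nonneg fun _ _ => abs_nonneg _
  have n2 : 0 ≤ ∑ t, ∑ s, |C₂ t s| := Finset.sum_nonneg fun _ _ => Finset.sum_nonneg fun _ _ => abs_nonneg _
  have hK₂0 : 0 ≤ K₂ := by rw [hK₂]; exact add_nonneg n1 n2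
  have b1 : ∀ i j, C₁ i j ≤ K₂ := by
    intro i j
    have h1 := Finset.single_le_sum (f := fun j => |C₁ i j|) (fun _ _ => abs_nonneg _) (Finset.mem_univ j)
    have h2 := Finset.single_le_sum (f := fun i => ∑ j, |C₁ i j|) (fun _ _ => Finset.sum_nonneg fun _ _ => abs_nonneg _) (Finset.mem_univ i)
    have h3 := le_abs_self (C₁ i j)
    linarith
  have b2 : ∀ t s, C₂ t s ≤ K₂ := by
    intro i j
    have h1 := Finset.single_le_sum (f := fun j => |C₂ i j|) (fun _ _ => abs_nonneg _) (Finset.mem_univ j)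
    have h2 := Finset.single_le_sum (f := fun i => ∑ j, |C₂ i j|) (fun _ _ => Finset.sum_nonneg fun _ _ => abs_nonneg _) (Finset.mem_univ i)
    have h3 := le_abs_self (C₂ i j)
    linarith
  obtain ⟨K₃, hK₃⟩ : ∃ K₃ : ℝ, K₃ = n * (Fintype.card (Fin p) + Fintype.card (Ph N)) * K₂ := ⟨_, rfl⟩
  have hK₃0 : 0 ≤ K₃ := by rw [hK₃]; positivity
  refine ⟨ball Y₀ ρ, ball_mem_nhds _ hρ, ρ, hρ, max (‖hh (0, Y₀)‖ + 1) (Real.exp (K₃ * ρ)), fun g hg z y hy hry hyU hZ w hw => ?_⟩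
  obtain ⟨Y, hYd⟩ : ∃ Y : Ph N → ℂ, Y = pt (y z) (deriv y z) := ⟨_, rfl⟩
  rw [← hYd] at hyU hZ ⊢
  have hin : ∀ w' ∈ ball z ρ, (w' - z, Y) ∈ ball ((0 : ℂ), Y₀) ρ := by
    intro w' hw'
    rw [← ball_prod_same]
    refine ⟨?_, hyU⟩
    rw [mem_ball_zero_iff, ← dist_eq_norm]
    exact mem_ball.1 hw'
  have hYr : Y ∈ ball Y₀ r := (hball _ (hin z (mem_ball_self hρ))).2.2.2.2.2
  have hsub : ∀ w' ∈ ball z ρ, w' ∈ ball z r := by
    intro w' hw'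
    have h1 : w' - z ∈ ball (0 : ℂ) r := (hball _ (hin w' hw')).2.2.2.2.1
    rw [mem_ball_zero_iff, ← dist_eq_norm] at h1
    exact mem_ball.2 h1
  have hfr := Fam1Aux.flow_rep f hg hy hry hr hH (by rw [← hYd]; exact hYr)
  rw [← hYd] at hfr
  obtain ⟨u, hu⟩ : ∃ u : ℂ → Fin (N + 1) → ℂ, u = fun w' => H (w' - z, Y) := ⟨_, rfl⟩
  rw [← hu] at hfr
  obtain ⟨yy, hyy⟩ : ∃ yy : ℂ → Ph N → ℂ, yy = fun w' => pt (u w') (deriv u w') := ⟨_, rfl⟩
  have hyh : ∀ w', yy w' = hh (w' - z, Y) := by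
    intro w'
    have h4 : deriv (fun w => H (w - z, Y)) w' = deriv (fun z => H (z, Y)) (w' - z) := deriv_comp_sub_const (f := fun z => H (z, Y)) z w'
    rw [hyy, hu, hhd]
    simp only
    rw [h4]
  have hyz : yy z = Y := by
    rw [hyh, sub_self, hh0 Y hYr]
  have hball' : ∀ w' ∈ ball z ρ, eval (yy w') (vdet (gfam f a) I) ≠ 0 ∧ ‖yy w'‖ ≤ ‖hh (0, Y₀)‖ + 1 ∧
      (∀ i j, ‖eval (yy w') (B i j) / eval (yy w') (vdet (gfam f a) I)‖ ≤ K₂) ∧
      ∀ t s, ‖eval (yy w') (pderiv s (fld (gfam f a) I t)) / eval (yy w') (vdet (gfam f a) I)‖ ≤ K₂ := by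
    intro w' hw'
    obtain ⟨h1, h2, h3, h4, -⟩ := hball _ (hin w' hw')
    rw [hyh]
    exact ⟨h1, h2, fun i j => (h3 i j).trans (b1 i j), fun t s => (h4 t s).trans (b2 t s)⟩
  have hode : ∀ w' ∈ ball z ρ, HasDerivAt yy (W (gfam f a) I (yy w')) w' := by
    intro w' hw'
    have h1 := (arcV_of_nArc f (hfr w' (hsub w' hw')).1).1
    have h2 := (hball' w' hw').1
    rw [hyy] at h2 ⊢
    exact (arc_ode h1 h2).self_of_nhds
  have hwb : w ∈ ball z ρ := by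
    rw [mem_ball, dist_eq_norm]
    exact hw
  -- the curve stays in the variety
  have hstay : ∀ w' ∈ ball z ρ, ∀ i, eval (yy w') (F i) = 0 := by
    intro w' hw'
    have hseg : ∀ t ∈ segment ℝ z w', t ∈ ball z ρ := fun t ht => (convex_ball z ρ).segment_subset (mem_ball_self hρ) hw' ht
    have h1 := grow (q := fun t => fun i => eval (yy t) (F i)) (q' := fun t => fun i => eval (yy t) (Dt (gfam f a) I (F i)) / eval (yy t) (vdet (gfam f a) I))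
      (z := w') (w := z) (K := p * K₂) (fun t ht => hasDerivAt_pi.2 fun i => hasDerivAt_eval (hode t (hseg t ht)) (F i)) fun t ht => by
        obtain ⟨-, -, h3, -⟩ := hball' t (hseg t ht)
        refine (pi_norm_le_iff_of_nonneg (by positivity)).2 fun i => ?_
        have h5 : eval (yy t) (Dt (gfam f a) I (F i)) / eval (yy t) (vdet (gfam f a) I) =
            ∑ j, eval (yy t) (B i j) / eval (yy t) (vdet (gfam f a) I) * eval (yy t) (F j) := by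
          rw [hB i, map_sum, Finset.sum_div]
          refine Finset.sum_congr rfl fun j _ => ?_
          rw [map_mul]
          ring
        rw [h5]
        refine (norm_sum_le _ _).trans ?_
        calc ∑ j, ‖eval (yy t) (B i j) / eval (yy t) (vdet (gfam f a) I) * eval (yy t) (F j)‖ ≤ ∑ _j : Fin p, K₂ * ‖fun i => eval (yy t) (F i)‖ := by
              refine Finset.sum_le_sum fun j _ => ?_
              rw [norm_mul]
              exact mul_le_mul (h3 i j) (norm_le_pi_norm (fun i => eval (yy t) (F i)) j) (norm_nonneg _) hK₂0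
          _ = _ := by rw [Finset.sum_const, Finset.card_univ, Fintype.card_fin, nsmul_eq_mul, mul_assoc]
    have h2 : (fun i => eval (yy z) (F i)) = (0 : Fin p → ℂ) := by
      funext i
      rw [hyz]
      exact hZ.2 _ (by rw [← hF]; exact Ideal.subset_span ⟨i, rfl⟩)
    rw [h2, norm_zero, zero_mul] at h1
    have h3 : (fun i => eval (yy w') (F i)) = (0 : Fin p → ℂ) := norm_le_zero_iff.1 h1
    exact fun i => congrFun h3 i
  have hMc : ‖Mc n (jac F (yy z))‖ ≤ ‖Mc n (jac F (yy w))‖ * Real.exp (K₃ * ‖z - w‖) := by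
    have hseg : ∀ t ∈ segment ℝ w z, t ∈ ball z ρ := fun t ht => (convex_ball z ρ).segment_subset hwb (mem_ball_self hρ) ht
    have h1 : ∀ t ∈ ball z ρ, ∃ V, HasDerivAt (fun t => Mc n (jac F (yy t))) V t ∧ ‖V‖ ≤ K₃ * ‖Mc n (jac F (yy t))‖ := by
      intro t ht
      obtain ⟨-, -, h3, h4⟩ := hball' t ht
      rw [hK₃]
      exact minors_deriv n (M := fun t => jac F (yy t)) (B := Matrix.of fun i j => eval (yy t) (B i j) / eval (yy t) (vdet (gfam f a) I))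
        (E := Matrix.of fun t' s => eval (yy t) (pderiv s (fld (gfam f a) I t')) / eval (yy t) (vdet (gfam f a) I)) (fun i j => h3 i j) (fun i j => h4 i j)
        fun i s => jac_ode hB (hode t ht) (hstay t ht) i s
    choose! V hV using h1
    exact grow (q := fun t => Mc n (jac F (yy t))) (q' := V) (fun t ht => (hV t (hseg t ht)).1) fun t ht => (hV t (hseg t ht)).2
  have huw : pt (u w) (deriv u w) = yy w := by rw [hyy]
  refine ⟨u, (hfr w (hsub w hwb)).1, (hfr w (hsub w hwb)).2, ?_, ?_, ?_⟩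
  · rw [huw]
    exact (hball' w hwb).2.1.trans (le_max_left _ _)
  · rw [huw]
    refine ⟨hZ.1, fun q hq => ?_⟩
    rw [← hF] at hq
    obtain ⟨e, he⟩ := Ideal.mem_span_range_iff_exists_fun.1 hq
    rw [← he, map_sum]
    refine Finset.sum_eq_zero fun i _ => ?_
    rw [map_mul, hstay w hwb i, mul_zero]
  · rw [huw]
    rw [hyz] at hMc
    refine hMc.trans ?_
    rw [mul_comm]
    refine mul_le_mul_of_nonneg_right (le_trans ?_ (le_max_right _ _)) (norm_nonneg _)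
    refine Real.exp_le_exp.2 (mul_le_mul_of_nonneg_left ?_ hK₃0)
    rw [norm_sub_rev]
    exact hw.le

/-- one step in a chart -/
theorem step_chart (hθ : Polar θ) (hm : ∀ k, 1 ≤ m k) (f : Frame θ) {a : Fin (N + 1)} (hG : x a ≠ 0 → ∀ l, δ (aeval (gy x δ a) (gfam f a l)) = 0) {p : ℕ}
    {F : Fin p → MvPolynomial (Ph N) ℂ} (hF : x a ≠ 0 → Ideal.span (Set.range F) = Vi x δ a) (n : ℕ) {c : Fin J → ℂ} (hc : c ≠ 0) :
    ∃ ρ > 0, ∃ C : ℝ, ∀ g : ℂ → PN N, (∀ z, ArcAt θ c g z) → ∀ (z : ℂ) (y : ℂ → Fin (N + 1) → ℂ), NArc θ a c y z →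
      Rep g y z → (∀ b, ‖y z b‖ ≤ 1) → IsZ x δ a (pt (y z) (deriv y z)) → ∀ w, ‖w - z‖ < ρ → ∃ u : ℂ → Fin (N + 1) → ℂ, NArc θ a c u w ∧ Rep g u w ∧
        ‖pt (u w) (deriv u w)‖ ≤ C ∧ IsZ x δ a (pt (u w) (deriv u w)) ∧ ‖Mc n (jac F (pt (y z) (deriv y z)))‖ ≤ C * ‖Mc n (jac F (pt (u w) (deriv u w)))‖ := by
  by_cases ha : x a = 0
  · exact ⟨1, one_pos, 0, fun g hg z y hy hr hb hZ => absurd ha hZ.1⟩
  have key : ∃ ρ > 0, ∃ C : ℝ, ∀ Y ∈ Kset θ a {c}, ∀ g : ℂ → PN N, (∀ z, ArcAt θ c g z) → ∀ (z : ℂ) (y : ℂ → Fin (N + 1) → ℂ), NArc θ a c y z →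
      Rep g y z → pt (y z) (deriv y z) = Y → IsZ x δ a (pt (y z) (deriv y z)) → ∀ w, ‖w - z‖ < ρ → ∃ u : ℂ → Fin (N + 1) → ℂ, NArc θ a c u w ∧ Rep g u w ∧
        ‖pt (u w) (deriv u w)‖ ≤ C ∧ IsZ x δ a (pt (u w) (deriv u w)) ∧ ‖Mc n (jac F (pt (y z) (deriv y z)))‖ ≤ C * ‖Mc n (jac F (pt (u w) (deriv u w)))‖ := by
    refine (isCompact_Kset hθ hm a isCompact_singleton).induction_on (p := fun S => ∃ ρ > 0, ∃ C : ℝ, ∀ Y ∈ S, ∀ g : ℂ → PN N, (∀ z, ArcAt θ c g z) →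
      ∀ (z : ℂ) (y : ℂ → Fin (N + 1) → ℂ), NArc θ a c y z →
      Rep g y z → pt (y z) (deriv y z) = Y → IsZ x δ a (pt (y z) (deriv y z)) → ∀ w, ‖w - z‖ < ρ → ∃ u : ℂ → Fin (N + 1) → ℂ, NArc θ a c u w ∧ Rep g u w ∧
        ‖pt (u w) (deriv u w)‖ ≤ C ∧ IsZ x δ a (pt (u w) (deriv u w)) ∧ ‖Mc n (jac F (pt (y z) (deriv y z)))‖ ≤ C * ‖Mc n (jac F (pt (u w) (deriv u w)))‖)
      ?_ ?_ ?_ ?_
    · exact ⟨1, one_pos, 0, fun Y hY => absurd hY (Set.notMem_empty Y)⟩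
    · rintro S T hST ⟨ρ, hρ, C, h⟩
      exact ⟨ρ, hρ, C, fun Y hY => h Y (hST hY)⟩
    · rintro S T ⟨ρ, hρ, C, h⟩ ⟨ρ', hρ', C', h'⟩
      refine ⟨min ρ ρ', lt_min hρ hρ', max C C', fun Y hY g hg z y hy hr hYy hZ w hw => ?_⟩
      rcases hY with hY | hY
      · obtain ⟨u, h1, h2, h3, h4, h5⟩ := h Y hY g hg z y hy hr hYy hZ w (hw.trans_le (min_le_left _ _))
        exact ⟨u, h1, h2, h3.trans (le_max_left _ _), h4, h5.trans (mul_le_mul_of_nonneg_right (le_max_left _ _) (norm_nonneg _))⟩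
      · obtain ⟨u, h1, h2, h3, h4, h5⟩ := h' Y hY g hg z y hy hr hYy hZ w (hw.trans_le (min_le_right _ _))
        exact ⟨u, h1, h2, h3.trans (le_max_right _ _), h4, h5.trans (mul_le_mul_of_nonneg_right (le_max_right _ _) (norm_nonneg _))⟩
    · intro Y hY
      obtain ⟨U, hU, ρ, hρ, C, h⟩ := step_loc hθ hm f (hG ha) (hF ha) n hc hY
      refine ⟨U, mem_nhdsWithin_of_mem_nhds hU, ρ, hρ, C, fun Y' hY' g hg z y hy hr hYy hZ w hw => ?_⟩
      exact h g hg z y hy hr (by rw [hYy]; exact hY') hZ w hw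
  obtain ⟨ρ, hρ, C, h⟩ := key
  refine ⟨ρ, hρ, C, fun g hg z y hy hr hb hZ w hw => h _ ?_ g hg z y hy hr rfl hZ w hw⟩
  exact ⟨y z, deriv y z, c, rfl, (Chart_isTan hy).self_of_nhds, hb, rfl⟩

/-- **The lower bound.** -/
theorem low (hP : Homog P) (hθ : Polar θ) (hm : ∀ k, 1 ≤ m k) (f : Frame θ) (x : Fin (N + 1) → K) (δ : Derivation ℂ K K)
    (hG : ∀ a, x a ≠ 0 → ∀ l, δ (aeval (gy x δ a) (gfam f a l)) = 0) {p : Fin (N + 1) → ℕ} (F : ∀ a, Fin (p a) → MvPolynomial (Ph N) ℂ)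
    (hF : ∀ a, x a ≠ 0 → Ideal.span (Set.range (F a)) = Vi x δ a) (n : ℕ) {c : Fin J → ℂ} (hc : c ≠ 0) {g : ℂ → PN N} (hg : ∀ z, ArcAt θ c g z) {a₀ : Fin (N + 1)}
    {x₀ : ℂ → Fin (N + 1) → ℂ} (hx₀ : NArc θ a₀ c x₀ 0) (hr₀ : Rep g x₀ 0) (hz : IsZ x δ a₀ (pt (x₀ 0) (deriv x₀ 0)))
    (h0 : Mc n (jac (F a₀) (pt (x₀ 0) (deriv x₀ 0))) ≠ 0) : ∃ ε > 0, ∃ K₁ : ℝ, ∀ (z : ℂ) (a : Fin (N + 1)) (y : ℂ → Fin (N + 1) → ℂ), NArc θ a c y z → Rep g y z →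
      (∀ b, ‖y z b‖ ≤ 1) → IsZ x δ a (pt (y z) (deriv y z)) ∧ ε * Real.exp (-(K₁ * ‖z‖)) ≤ ‖Mc n (jac (F a) (pt (y z) (deriv y z)))‖ := by
  classical
  choose ρ hρ C hC using fun a => step_chart hθ hm f (hG a) (hF a) n hc
  -- uniform constants
  have hbd : ∀ a : Fin (N + 1), ∃ R : ℝ, ∀ Y ∈ Kset θ a {c}, ‖Y‖ ≤ R := fun a =>
    ((isCompact_Kset hθ hm a isCompact_singleton).isBounded.exists_norm_le).imp fun R hR => hR
  choose R hR using hbd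
  obtain ⟨R₁, hR₁⟩ : ∃ R₁ : ℝ, R₁ = ∑ a, |R a| + ∑ a, |C a| + ‖pt (x₀ 0) (deriv x₀ 0)‖ := ⟨_, rfl⟩
  have n1 : 0 ≤ ∑ a, |R a| := Finset.sum_nonneg fun _ _ => abs_nonneg _
  have n2 : 0 ≤ ∑ a, |C a| := Finset.sum_nonneg fun _ _ => abs_nonneg _
  have hRa : ∀ a, R a ≤ R₁ := fun a => by
    have h1 := Finset.single_le_sum (f := fun a => |R a|) (fun _ _ => abs_nonneg _) (Finset.mem_univ a)
    have h2 := le_abs_self (R a)
    have h3 := norm_nonneg (pt (x₀ 0) (deriv x₀ 0))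
    linarith
  have hCa : ∀ a, C a ≤ R₁ := fun a => by
    have h1 := Finset.single_le_sum (f := fun a => |C a|) (fun _ _ => abs_nonneg _) (Finset.mem_univ a)
    have h2 := le_abs_self (C a)
    have h3 := norm_nonneg (pt (x₀ 0) (deriv x₀ 0))
    linarith
  choose D hD0 hD using fun a b => minors_tr (x := x) (δ := δ) (a := a) (b := b) (hF a) (hF b) n R₁ one_pos
  obtain ⟨D₁, hD₁⟩ : ∃ D₁ : ℝ, D₁ = 1 + ∑ a, ∑ b, D a b := ⟨_, rfl⟩
  have n3 : 0 ≤ ∑ a, ∑ b, D a b := Finset.sum_nonneg fun _ _ => Finset.sum_nonneg fun _ _ => hD0 _ _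
  have hDD : ∀ a b, D a b ≤ D₁ := fun a b => by
    have h1 := Finset.single_le_sum (f := fun b => D a b) (fun _ _ => hD0 _ _) (Finset.mem_univ b)
    have h2 := Finset.single_le_sum (f := fun a => ∑ b, D a b) (fun _ _ => Finset.sum_nonneg fun _ _ => hD0 _ _) (Finset.mem_univ a)
    linarith
  have hD1 : 1 ≤ D₁ := by linarith
  -- the change of charts
  have move : ∀ (z : ℂ) (a b : Fin (N + 1)) (y u : ℂ → Fin (N + 1) → ℂ), NArc θ a c y z → Rep g y z → NArc θ b c u z → Rep g u z → (∀ i, ‖u z i‖ ≤ 1) →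
      ‖pt (y z) (deriv y z)‖ ≤ R₁ → IsZ x δ a (pt (y z) (deriv y z)) → IsZ x δ b (pt (u z) (deriv u z)) ∧
        ‖Mc n (jac (F a) (pt (y z) (deriv y z)))‖ ≤ D₁ * ‖Mc n (jac (F b) (pt (u z) (deriv u z)))‖ := by
    intro z a b y u hy hry hu hru hn hyR hZ
    obtain ⟨h1, h2⟩ := tr_rep hy hry hu hru
    have h3 := one_le_of_rep hy hry hu hru hn
    rw [h2]
    refine ⟨hZ.tr h1, (hD a b _ hZ hyR h3).trans (mul_le_mul_of_nonneg_right (hDD a b) (norm_nonneg _))⟩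
  -- the choice of charts
  choose ac yc hyc hryc hnc using fun z => exists_nArc hP (hg z)
  obtain ⟨μ, hμ⟩ : ∃ μ : ℂ → ℝ, μ = fun z => ‖Mc n (jac (F (ac z)) (pt (yc z z) (deriv (yc z) z)))‖ := ⟨_, rfl⟩
  have hμ0 : ∀ z, 0 ≤ μ z := fun z => by rw [hμ]; exact norm_nonneg _
  obtain ⟨ρ₁, hρ₁, hρa⟩ : ∃ ρ₁ > 0, ∀ a, ρ₁ ≤ ρ a := by
    have hne : (Finset.univ : Finset (Fin (N + 1))).Nonempty := ⟨0, Finset.mem_univ 0⟩
    exact ⟨Finset.univ.inf' hne ρ, (Finset.lt_inf'_iff hne).2 fun a _ => hρ a, fun a => Finset.inf'_le ρ (Finset.mem_univ a)⟩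
  have hstep : ∀ z w, ‖w - z‖ < ρ₁ → IsZ x δ (ac z) (pt (yc z z) (deriv (yc z) z)) → IsZ x δ (ac w) (pt (yc w w) (deriv (yc w) w)) ∧ μ z ≤ max 1 (R₁ * D₁) * μ w := by
    intro z w hw hZ
    obtain ⟨u, hu, hru, hun, huZ, huM⟩ := hC (ac z) g hg z (yc z) (hyc z) (hryc z) (hnc z) hZ w (hw.trans_le (hρa _))
    obtain ⟨h1, h2⟩ := move w (ac z) (ac w) u (yc w) hu hru (hyc w) (hryc w) (hnc w) (hun.trans (hCa _)) huZ
    refine ⟨h1, ?_⟩
    rw [hμ]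
    have hR0 : 0 ≤ R₁ := (norm_nonneg _).trans (hun.trans (hCa _))
    calc _ ≤ C (ac z) * ‖Mc n (jac (F (ac z)) (pt (u w) (deriv u w)))‖ := huM
      _ ≤ R₁ * ‖Mc n (jac (F (ac z)) (pt (u w) (deriv u w)))‖ := mul_le_mul_of_nonneg_right (hCa _) (norm_nonneg _)
      _ ≤ R₁ * (D₁ * ‖Mc n (jac (F (ac w)) (pt (yc w w) (deriv (yc w) w)))‖) := mul_le_mul_of_nonneg_left h2 hR0
      _ ≤ _ := by
        rw [← mul_assoc]
        exact mul_le_mul_of_nonneg_right (le_max_right _ _) (norm_nonneg _)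
  -- the start
  have hstart := move 0 a₀ (ac 0) x₀ (yc 0) hx₀ hr₀ (hyc 0) (hryc 0) (hnc 0) (by rw [hR₁]; linarith) hz
  have hall : ∀ z, IsZ x δ (ac z) (pt (yc z z) (deriv (yc z) z)) := by
    have hcl : IsClopen {z | IsZ x δ (ac z) (pt (yc z z) (deriv (yc z) z))} := by
      constructor
      · rw [← isOpen_compl_iff, Metric.isOpen_iff]
        intro z hz'
        refine ⟨ρ₁, hρ₁, fun w hw hw' => hz' ?_⟩
        refine (hstep w z ?_ hw').1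
        rw [norm_sub_rev, ← dist_eq_norm]
        exact hw
      · rw [Metric.isOpen_iff]
        intro z hz'
        refine ⟨ρ₁, hρ₁, fun w hw => ?_⟩
        refine (hstep z w ?_ hz').1
        rw [← dist_eq_norm]
        exact hw
    have h1 := hcl.eq_univ ⟨0, hstart.1⟩
    intro z
    have h2 : z ∈ {z | IsZ x δ (ac z) (pt (yc z z) (deriv (yc z) z))} := by rw [h1]; exact Set.mem_univ z
    exact h2
  have hchain := chain (μ := μ) (r := ρ₁ / 2) (C := max 1 (R₁ * D₁)) (by positivity) (le_max_left _ _) hμ0 fun z w hzw =>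
    (hstep z w (by rw [norm_sub_rev]; linarith) (hall z)).2
  obtain ⟨C₁, hC₁⟩ : ∃ C₁ : ℝ, C₁ = max 1 (R₁ * D₁) := ⟨_, rfl⟩
  have hC₁1 : 1 ≤ C₁ := by rw [hC₁]; exact le_max_left _ _
  rw [← hC₁] at hchain
  obtain ⟨K₁, hK₁⟩ : ∃ K₁ : ℝ, K₁ = Real.log C₁ / (ρ₁ / 2) := ⟨_, rfl⟩
  rw [← hK₁] at hchain
  have hμpos : 0 < μ 0 := by
    have h1 : 0 < ‖Mc n (jac (F a₀) (pt (x₀ 0) (deriv x₀ 0)))‖ := norm_pos_iff.2 h0
    have h2 : 0 < D₁ * μ 0 := by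
      rw [hμ]
      exact h1.trans_le hstart.2
    exact pos_of_mul_pos_right h2 (by linarith)
  refine ⟨μ 0 / (C₁ * D₁), by positivity, K₁, fun z a y hy hry hn => ?_⟩
  have hyc' : ‖pt (yc z z) (deriv (yc z) z)‖ ≤ R₁ :=
    (hR (ac z) _ ⟨yc z z, deriv (yc z) z, c, rfl, (Chart_isTan (hyc z)).self_of_nhds, hnc z, rfl⟩).trans (hRa _)
  obtain ⟨h1, h2⟩ := move z (ac z) a (yc z) y (hyc z) (hryc z) hy hry hn hyc' (hall z)
  refine ⟨h1, ?_⟩
  have h3 := hchain z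
  have h4 : μ z ≤ D₁ * ‖Mc n (jac (F a) (pt (y z) (deriv y z)))‖ := by
    rw [hμ]
    exact h2
  have h5 : μ 0 ≤ C₁ * Real.exp (K₁ * ‖z‖) * (D₁ * ‖Mc n (jac (F a) (pt (y z) (deriv y z)))‖) := h3.trans (mul_le_mul_of_nonneg_left h4 (by positivity))
  rw [Real.exp_neg, div_mul_eq_mul_div, div_le_iff₀ (by positivity), mul_inv_le_iff₀ (Real.exp_pos _)]
  refine h5.trans (le_of_eq ?_)
  ring

end Pool.Agent.GQ
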