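import Pool.Agent.GQ.LowM
import Pool.Agent.GQ.Defs

/-!
# GQ LowS: the curves stay in the variety, and exponentially far from its singular points

The statements `prop_zero` for the ideals `rel (ph P u a)` and `prop_low` for the ideals `sgl (rel (ph P u a)) (n + 1)`, from `LowM.step_chart` and `LowM.low`: the minors of the size of the codimension are in `sgl`.
-/

set_option autoImplicit false

open MvPolynomial Topology Filter Metric
open Pool.Agent.GG
open Pool.Agent.H13.SM (conTan cone)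
open Pool.Agent.H17 (PN)
open Pool.Agent.H17LG.Variety (FunField ratio)
open Pool.Agent.H17GT (coordFun)
open Pool.Agent.H62.FC (Homog)

noncomputable section

namespace Pool.Agent.GQ

/-! ## minors and rank -/

section rank

variable {α β : Type} [Fintype α] [DecidableEq α] [Fintype β] [DecidableEq β]

theorem exists_minor_rank (A : Matrix α β ℂ) : ∃ (r : Fin A.rank → α) (c : Fin A.rank → β), (A.submatrix r c).det ≠ 0 ∧ LinearIndependent ℂ fun i => A (r i) := by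
  classical
  have h1 : A.rank = Module.finrank ℂ (Submodule.span ℂ (Set.range A.row)) := Matrix.rank_eq_finrank_span_row A
  obtain ⟨f, hf, -, hli⟩ := Submodule.exists_fun_fin_finrank_span_eq ℂ (Set.range A.row)
  choose r0 hr0 using hf
  have hli' : LinearIndependent ℂ (fun i : Fin A.rank => A (r0 (Fin.cast h1 i))) := by
    have h2 : (fun i : Fin A.rank => A (r0 (Fin.cast h1 i))) = f ∘ (Fin.cast h1) := by
      funext i
      exact hr0 _
    rw [h2]
    exact hli.comp _ (Fin.cast_injective h1)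
  set r : Fin A.rank → α := fun i => r0 (Fin.cast h1 i) with hr
  let B : Matrix (Fin A.rank) β ℂ := A.submatrix r id
  have hB : B.rank = A.rank := by
    have := LinearIndependent.rank_matrix (M := B) hli'
    simpa using this
  have h3 : B.rank = Module.finrank ℂ (Submodule.span ℂ (Set.range B.col)) := Matrix.rank_eq_finrank_span_cols B
  obtain ⟨g, hg, -, hgli⟩ := Submodule.exists_fun_fin_finrank_span_eq ℂ (Set.range B.col)
  choose c0 hc0 using hg
  have h4 : A.rank = Module.finrank ℂ (Submodule.span ℂ (Set.range B.col)) := by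
    rw [← h3, hB]
  refine ⟨r, fun i => c0 (Fin.cast h4 i), ?_, hli'⟩
  have hli2 : LinearIndependent ℂ (fun i : Fin A.rank => B.col (c0 (Fin.cast h4 i))) := by
    have h2 : (fun i : Fin A.rank => B.col (c0 (Fin.cast h4 i))) = g ∘ (Fin.cast h4) := by
      funext i
      exact hc0 _
    rw [h2]
    exact hgli.comp _ (Fin.cast_injective h4)
  have h5 : IsUnit (A.submatrix r fun i => c0 (Fin.cast h4 i)) := by
    rw [← Matrix.linearIndependent_cols_iff_isUnit]
    exact hli2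
  exact ((Matrix.isUnit_iff_isUnit_det _).1 h5).ne_zero

theorem Mc_ne_of_le {c : ℕ} {A : Matrix α β ℂ} (h : c ≤ A.rank) : Mc c A ≠ 0 := by
  classical
  obtain ⟨r, -, -, hli⟩ := exists_minor_rank A
  obtain ⟨B, hB⟩ : ∃ B : Matrix (Fin c) β ℂ, B = A.submatrix (fun i => r (Fin.castLE h i)) id := ⟨_, rfl⟩
  have hBr : B.rank = c := by
    have h1 : LinearIndependent ℂ fun i => B i := by
      rw [hB]
      exact hli.comp _ (Fin.castLE_injective h)
    have := LinearIndependent.rank_matrix (M := B) h1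
    simpa using this
  have hBe : ∀ i j, B i j = A (r (Fin.castLE h i)) j := fun i j => by
    rw [hB]
    rfl
  obtain ⟨r', c', hdet, -⟩ := exists_minor_rank B
  intro h0
  apply hdet
  have h2 : Mc c A (fun i => r (Fin.castLE h (r' (Fin.cast hBr.symm i))), fun i => c' (Fin.cast hBr.symm i)) = 0 := by
    rw [h0]
    rfl
  have h3 : (B.submatrix r' c').det = Mc c A (fun i => r (Fin.castLE h (r' (Fin.cast hBr.symm i))), fun i => c' (Fin.cast hBr.symm i)) := by
    show (B.submatrix r' c').det = _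
    have h4 : A.submatrix (fun i => r (Fin.castLE h (r' (Fin.cast hBr.symm i)))) (fun i => c' (Fin.cast hBr.symm i)) =
        (B.submatrix r' c').submatrix (Fin.castOrderIso hBr.symm).toEquiv (Fin.castOrderIso hBr.symm).toEquiv := by
      ext i j
      rw [Matrix.submatrix_apply, Matrix.submatrix_apply, Matrix.submatrix_apply, hBe]
      rfl
    show _ = (A.submatrix (fun i => r (Fin.castLE h (r' (Fin.cast hBr.symm i)))) (fun i => c' (Fin.cast hBr.symm i))).det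
    rw [h4, Matrix.det_submatrix_equiv_self]
  rw [h3, h2]

theorem le_rank_of_Mc {c : ℕ} {A : Matrix α β ℂ} (h : Mc c A ≠ 0) : c ≤ A.rank := by
  classical
  obtain ⟨q, hq⟩ := Function.ne_iff.1 h
  have h1 : (A.submatrix q.1 q.2).det ≠ 0 := hq
  have h2 : LinearIndependent ℂ fun i => A.submatrix q.1 q.2 i :=
    Matrix.linearIndependent_rows_of_det_ne_zero h1
  have h3 : LinearIndependent ℂ fun i => A (q.1 i) := by
    refine LinearIndependent.of_comp (LinearMap.funLeft ℂ ℂ q.2) ?_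
    exact h2
  have h4 : A.rank = Module.finrank ℂ (Submodule.span ℂ (Set.range A.row)) := Matrix.rank_eq_finrank_span_row A
  rw [h4]
  have h5 : Submodule.span ℂ (Set.range fun i => A (q.1 i)) ≤ Submodule.span ℂ (Set.range A.row) := by
    refine Submodule.span_mono ?_
    rintro _ ⟨i, rfl⟩
    exact ⟨q.1 i, rfl⟩
  have h6 := Submodule.finrank_mono h5
  rw [finrank_span_eq_card h3, Fintype.card_fin] at h6
  exact h6

end rank

section tn

variable {τ : Type} [Fintype τ] [DecidableEq τ] {p : ℕ}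

theorem Tn_eq {I : Ideal (MvPolynomial τ ℂ)} {F : Fin p → MvPolynomial τ ℂ} (hF : Ideal.span (Set.range F) = I) {w : τ → ℂ} (hw : Pt I w) :
    Tn I w = LinearMap.ker (jac F w).mulVecLin := by
  ext t
  rw [LinearMap.mem_ker, Matrix.mulVecLin_apply]
  constructor
  · intro h
    funext i
    exact h (F i) (by rw [← hF]; exact Ideal.subset_span ⟨i, rfl⟩)
  · intro h g hg
    rw [← hF] at hg
    obtain ⟨b, hb⟩ := Ideal.mem_span_range_iff_exists_fun.1 hg
    have h1 : ∀ s, eval w (pderiv s g) = ∑ i, eval w (b i) * jac F w i s := by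
      intro s
      rw [← hb, map_sum, map_sum]
      refine Finset.sum_congr rfl fun i _ => ?_
      rw [Derivation.leibniz, smul_eq_mul, smul_eq_mul, map_add, map_mul, map_mul, hw (F i) (by rw [← hF]; exact Ideal.subset_span ⟨i, rfl⟩), zero_mul, add_zero]
      rfl
    have h2 : ∀ i, ∑ s, jac F w i s * t s = 0 := fun i => congrFun h i
    calc ∑ s, eval w (pderiv s g) * t s = ∑ s, ∑ i, eval w (b i) * (jac F w i s * t s) := by
          refine Finset.sum_congr rfl fun s _ => ?_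
          rw [h1 s, Finset.sum_mul]
          exact Finset.sum_congr rfl fun i _ => by ring
      _ = ∑ i, eval w (b i) * ∑ s, jac F w i s * t s := by
          rw [Finset.sum_comm]
          exact Finset.sum_congr rfl fun i _ => (Finset.mul_sum _ _ _).symm
      _ = 0 := Finset.sum_eq_zero fun i _ => by rw [h2 i, mul_zero]

theorem rank_add {I : Ideal (MvPolynomial τ ℂ)} {F : Fin p → MvPolynomial τ ℂ} (hF : Ideal.span (Set.range F) = I) {w : τ → ℂ} (hw : Pt I w) :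
    (jac F w).rank + Module.finrank ℂ (Tn I w) = Fintype.card τ := by
  rw [Tn_eq hF hw]
  have h1 := LinearMap.finrank_range_add_finrank_ker (jac F w).mulVecLin
  rw [Module.finrank_fintype_fun_eq_card] at h1
  exact h1

/-- the minors as polynomials -/
def mnr (F : Fin p → MvPolynomial τ ℂ) {c : ℕ} (q : (Fin c → Fin p) × (Fin c → τ)) : MvPolynomial τ ℂ :=
  (Matrix.of fun i j => pderiv (q.2 j) (F (q.1 i))).det

theorem eval_mnr (F : Fin p → MvPolynomial τ ℂ) {c : ℕ} (q : (Fin c → Fin p) × (Fin c → τ)) (w : τ → ℂ) : eval w (mnr F q) = Mc c (jac F w) q := by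
  rw [mnr, RingHom.map_det]
  rfl

theorem mnr_mem {I : Ideal (MvPolynomial τ ℂ)} {F : Fin p → MvPolynomial τ ℂ} (hF : Ideal.span (Set.range F) = I) {k c : ℕ} (hc : Fintype.card τ ≤ c + k)
    (q : (Fin c → Fin p) × (Fin c → τ)) : mnr F q ∈ sgl I k := by
  intro w hw hk
  rw [eval_mnr]
  by_contra h
  have h1 : Mc c (jac F w) ≠ 0 := by
    intro h0
    rw [h0] at h
    exact h rfl
  have h2 := le_rank_of_Mc h1
  have h3 := rank_add hF hw
  omega

end tn

variable {N : ℕ} {P : Ideal (MvPolynomial (Fin (N + 1)) ℂ)} {J : ℕ} {m : Fin J → ℕ} {θ : ∀ k, SymSec P (m k)}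

/-! ## the curves stay in the variety -/

theorem stay {K : Type} [Field K] [Algebra ℂ K] (hP : Homog P) (hθ : Polar θ) (hm : ∀ k, 1 ≤ m k) (f : Frame θ) (x : Fin (N + 1) → K) (δ : Derivation ℂ K K)
    (hG : ∀ a, x a ≠ 0 → ∀ l, δ (aeval (gy x δ a) (gfam f a l)) = 0) {p : Fin (N + 1) → ℕ} (F : ∀ a, Fin (p a) → MvPolynomial (Ph N) ℂ)
    (hF : ∀ a, x a ≠ 0 → Ideal.span (Set.range (F a)) = Vi x δ a) {c : Fin J → ℂ} (hc : c ≠ 0) {g : ℂ → PN N} (hg : ∀ z, ArcAt θ c g z) {a₀ : Fin (N + 1)} {z₀ : ℂ}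
    {x₀ : ℂ → Fin (N + 1) → ℂ} (hx₀ : NArc θ a₀ c x₀ z₀) (hr₀ : Rep g x₀ z₀) (hz : IsZ x δ a₀ (pt (x₀ z₀) (deriv x₀ z₀))) (z : ℂ) (a : Fin (N + 1))
    (y : ℂ → Fin (N + 1) → ℂ) (hy : NArc θ a c y z) (hry : Rep g y z) : IsZ x δ a (pt (y z) (deriv y z)) := by
  classical
  choose ρ hρ C hC using fun a => step_chart hθ hm f (hG a) (hF a) 0 hc
  have move : ∀ (z : ℂ) (a b : Fin (N + 1)) (y u : ℂ → Fin (N + 1) → ℂ), NArc θ a c y z → Rep g y z → NArc θ b c u z → Rep g u z →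
      IsZ x δ a (pt (y z) (deriv y z)) → IsZ x δ b (pt (u z) (deriv u z)) := by
    intro z a b y u hy hry hu hru hZ
    obtain ⟨h1, h2⟩ := tr_rep hy hry hu hru
    rw [h2]
    exact hZ.tr h1
  choose ac yc hyc hryc hnc using fun z => exists_nArc hP (hg z)
  obtain ⟨ρ₁, hρ₁, hρa⟩ : ∃ ρ₁ > 0, ∀ a, ρ₁ ≤ ρ a := by
    have hne : (Finset.univ : Finset (Fin (N + 1))).Nonempty := ⟨0, Finset.mem_univ 0⟩
    exact ⟨Finset.univ.inf' hne ρ, (Finset.lt_inf'_iff hne).2 fun a _ => hρ a, fun a => Finset.inf'_le ρ (Finset.mem_univ a)⟩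
  have hstep : ∀ z w, ‖w - z‖ < ρ₁ → IsZ x δ (ac z) (pt (yc z z) (deriv (yc z) z)) → IsZ x δ (ac w) (pt (yc w w) (deriv (yc w) w)) := by
    intro z w hw hZ
    obtain ⟨u, hu, hru, -, huZ, -⟩ := hC (ac z) g hg z (yc z) (hyc z) (hryc z) (hnc z) hZ w (hw.trans_le (hρa _))
    exact move w (ac z) (ac w) u (yc w) hu hru (hyc w) (hryc w) huZ
  have hcl : IsClopen {z | IsZ x δ (ac z) (pt (yc z z) (deriv (yc z) z))} := by
    constructor
    · rw [← isOpen_compl_iff, Metric.isOpen_iff]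
      intro z hz'
      refine ⟨ρ₁, hρ₁, fun w hw hw' => hz' ?_⟩
      refine hstep w z ?_ hw'
      rw [norm_sub_rev, ← dist_eq_norm]
      exact hw
    · rw [Metric.isOpen_iff]
      intro z hz'
      refine ⟨ρ₁, hρ₁, fun w hw => ?_⟩
      refine hstep z w ?_ hz'
      rw [← dist_eq_norm]
      exact hw
  have h1 := hcl.eq_univ ⟨z₀, move z₀ a₀ (ac z₀) x₀ (yc z₀) hx₀ hr₀ (hyc z₀) (hryc z₀) hz⟩
  have h2 : z ∈ {z | IsZ x δ (ac z) (pt (yc z z) (deriv (yc z) z))} := by rw [h1]; exact Set.mem_univ z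
  exact move z (ac z) a (yc z) y (hyc z) (hryc z) hy hry h2

/-! ## the curve in the chart `x_a = 1` -/

theorem NArc.congr {a : Fin (N + 1)} {c : Fin J → ℂ} {x y : ℂ → Fin (N + 1) → ℂ} {z : ℂ} (h : NArc θ a c x z) (he : y =ᶠ[𝓝 z] x) : NArc θ a c y z := by
  refine ⟨h.1.congr he.symm, ?_⟩
  filter_upwards [h.2, he.eventuallyEq_nhds] with w hw hw'
  have h1 : y w = x w := hw'.self_of_nhds
  rw [h1, hw'.deriv_eq]
  exact hw

theorem ps_aux (hP : Homog P) {c : Fin J → ℂ} {g : ℂ → PN N} {z : ℂ} (hg : ArcAt θ c g z) {a : Fin (N + 1)} (ha : (g z).rep a ≠ 0) :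
    NArc θ a c (fun w i => (g w).rep i / (g w).rep a) z ∧ Rep g (fun w i => (g w).rep i / (g w).rep a) z := by
  obtain ⟨F, hF, hr, h₁⟩ := id hg
  have key : ∀ᶠ w in 𝓝 z, ∃ t : ℂ, t ≠ 0 ∧ (g w).rep = t • F w := by
    filter_upwards [hr] with w hw
    obtain ⟨h0, hw⟩ := hw
    obtain ⟨t, ht⟩ := Projectivization.exists_smul_eq_mk_rep ℂ (F w) h0
    refine ⟨(t : ℂ), t.ne_zero, ?_⟩
    rw [hw, ← ht]
    rfl
  have hFa : F z a ≠ 0 := by
    obtain ⟨t, ht, h1⟩ := key.self_of_nhds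
    intro h2
    apply ha
    rw [h1, Pi.smul_apply, h2, smul_zero]
  have he : (fun w i => (g w).rep i / (g w).rep a) =ᶠ[𝓝 z] fun w => (F w a)⁻¹ • F w := by
    filter_upwards [key] with w hw
    obtain ⟨t, ht, h1⟩ := hw
    funext i
    show (g w).rep i / (g w).rep a = (F w a)⁻¹ * F w i
    rw [h1, Pi.smul_apply, Pi.smul_apply, smul_eq_mul, smul_eq_mul, mul_div_mul_left _ _ ht, div_eq_inv_mul]
  obtain ⟨h1, h2⟩ := nArc_of_lift (a := a) hP hg hF hr hFa
  refine ⟨NArc.congr h1 he, ?_⟩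
  filter_upwards [h2, he] with w hw hw'
  obtain ⟨h0, hw⟩ := hw
  have hne : (fun i => (g w).rep i / (g w).rep a) ≠ 0 := fun h3 => h0 (hw'.symm.trans h3)
  refine ⟨hne, hw.trans ?_⟩
  exact (Projectivization.mk_eq_mk_iff' ℂ _ _ h0 hne).2 ⟨1, by rw [one_smul]; exact hw'⟩

theorem rep_ne_of_Gd {g : ℂ → PN N} {a : Fin (N + 1)} {z : ℂ} (h : Gd g a z) : (g z).rep a ≠ 0 := by
  intro h0
  refine (g z).rep_nonzero (funext fun b => ?_)
  have h1 := h b
  rw [h0, norm_zero] at h1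
  exact norm_le_zero_iff.1 h1

/-! ## the generic point -/

section Sol

variable [P.IsPrime] {L : Type} [Field L] [Algebra ℂ L] [Algebra (FunField P) L]

/-- the generic point of projective space over `L` -/
def gx (P : Ideal (MvPolynomial (Fin (N + 1)) ℂ)) [P.IsPrime] {L : Type} [Field L] [Algebra (FunField P) L] (b₀ : Fin (N + 1)) (i : Fin (N + 1)) : L :=
  algebraMap (FunField P) L (ratio P i b₀)

theorem coordFun_ne {b : Fin (N + 1)} (hb : X b ∉ P) : coordFun P b ≠ 0 := Pool.Agent.H17R.coordFun_ne_zero_iff.2 hb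

theorem gx_ne_iff {b₀ : Fin (N + 1)} (hb₀ : X b₀ ∉ P) {a : Fin (N + 1)} : (gx P b₀ a : L) ≠ 0 ↔ X a ∉ P := by
  rw [gx, Ne, map_eq_zero]
  rw [← Ne, Pool.Agent.H17R.ratio_ne_zero_iff (coordFun_ne hb₀), Pool.Agent.H17R.coordFun_ne_zero_iff]

theorem ratio_div {b₀ a : Fin (N + 1)} (hb₀ : X b₀ ∉ P) (i : Fin (N + 1)) : ratio P i b₀ / ratio P a b₀ = ratio P i a := by
  apply Subtype.ext
  change (coordFun P i / coordFun P b₀) / (coordFun P a / coordFun P b₀) = coordFun P i / coordFun P a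
  rw [div_div_div_cancel_right₀ (coordFun_ne hb₀)]

theorem gy_ph (u : Derivation ℂ L L) {b₀ : Fin (N + 1)} (hb₀ : X b₀ ∉ P) (a : Fin (N + 1)) : gy (gx P b₀) u a = ph P u a := by
  have h1 : ∀ i, (gx P b₀ i : L) / gx P b₀ a = algebraMap (FunField P) L (ratio P i a) := fun i => by
    rw [gx, gx, ← map_div₀, ratio_div hb₀]
  funext s
  rcases s with i | i
  · exact h1 i
  · show u (gx P b₀ i / gx P b₀ a) = u (algebraMap (FunField P) L (ratio P i a))
    rw [h1]

theorem Vi_rel (u : Derivation ℂ L L) {b₀ : Fin (N + 1)} (hb₀ : X b₀ ∉ P) (a : Fin (N + 1)) : Vi (gx P b₀) u a = rel (ph P u a) := by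
  rw [Vi, rel, gy_ph u hb₀]

theorem isZ_iff (u : Derivation ℂ L L) {b₀ : Fin (N + 1)} (hb₀ : X b₀ ∉ P) {a : Fin (N + 1)} {y : Ph N → ℂ} :
    IsZ (gx P b₀) u a y ↔ X a ∉ P ∧ Pt (rel (ph P u a)) y := by
  rw [IsZ, gx_ne_iff hb₀, Vi_rel u hb₀]
  rfl

/-- the equations of the variety at the generic point -/
theorem aeval_ratio_zero (hP : Homog P) {a : Fin (N + 1)} (ha : X a ∉ P) {Q : MvPolynomial (Fin (N + 1)) ℂ} (hQ : Q ∈ P) : aeval (fun i => ratio P i a) Q = 0 := by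
  rw [← sum_homogeneousComponent Q, map_sum]
  refine Finset.sum_eq_zero fun d _ => ?_
  exact (Pool.Agent.H17R.gen_eq_zero_iff (coordFun_ne ha) (homogeneousComponent_isHomogeneous d Q)).2 (hP Q hQ d)

variable [IsScalarTower ℂ (FunField P) L]

theorem aeval_inl (u : Derivation ℂ L L) (a : Fin (N + 1)) (Q : MvPolynomial (Fin (N + 1)) ℂ) :
    aeval (ph P u a) (rename Sum.inl Q) = algebraMap (FunField P) L (aeval (fun i => ratio P i a) Q) := by
  rw [aeval_rename, ← MvPolynomial.aeval_algebraMap_apply]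
  rfl

theorem gfam_const (hP : Homog P) {f : Frame θ} {u : Derivation ℂ L L} (hs : IsSol f u) {a : Fin (N + 1)} (ha : X a ∉ P)
    (l : (Unit ⊕ Unit) ⊕ (Fin f.q ⊕ Fin f.q) ⊕ Fin J) : u (aeval (ph P u a) (gfam f a l)) = 0 := by
  have h1 : algebraMap (FunField P) L (ratio P a a) = 1 := by
    rw [Pool.Agent.H17R.ratio_self (coordFun_ne ha), map_one]
  have hQ : ∀ j, f.Q j ∈ P := fun j => f.span.le (Ideal.subset_span ⟨j, rfl⟩)
  have h2 : ∀ j, aeval (ph P u a) (rename Sum.inl (f.Q j)) = 0 := fun j => by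
    rw [aeval_inl, aeval_ratio_zero hP ha (hQ j), map_zero]
  rcases l with (_ | _) | (j | j) | k
  · show u (aeval (ph P u a) (X (Sum.inl a))) = 0
    rw [aeval_X]
    show u (algebraMap (FunField P) L (ratio P a a)) = 0
    rw [h1, u.map_one_eq_zero]
  · show u (aeval (ph P u a) (X (Sum.inr a))) = 0
    rw [aeval_X]
    show u (u (algebraMap (FunField P) L (ratio P a a))) = 0
    rw [h1, u.map_one_eq_zero, map_zero]
  · show u (aeval (ph P u a) (rename Sum.inl (f.Q j))) = 0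
    rw [h2, map_zero]
  · show u (aeval (ph P u a) (∑ b, rename Sum.inl (pderiv b (f.Q j)) * X (Sum.inr b))) = 0
    have h3 : aeval (ph P u a) (∑ b, rename Sum.inl (pderiv b (f.Q j)) * X (Sum.inr b)) = u (aeval (ph P u a) (rename Sum.inl (f.Q j))) := by
      rw [aeval_rename, der_aeval, map_sum]
      refine Finset.sum_congr rfl fun b _ => ?_
      rw [map_mul, aeval_X, aeval_rename]
      rfl
    rw [h3, h2, map_zero, map_zero]
  · exact hs.const a ha k

omit [P.IsPrime] [Algebra (FunField P) L] [IsScalarTower ℂ (FunField P) L] in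
theorem exists_gens (I : Fin (N + 1) → Ideal (MvPolynomial (Ph N) ℂ)) : ∃ (p : Fin (N + 1) → ℕ) (F : ∀ a, Fin (p a) → MvPolynomial (Ph N) ℂ),
    ∀ a, Ideal.span (Set.range (F a)) = I a := by
  have h : ∀ a, ∃ (p : ℕ) (F : Fin p → MvPolynomial (Ph N) ℂ), Ideal.span (Set.range F) = I a := fun a =>
    Submodule.fg_iff_exists_fin_generating_family.1 (IsNoetherian.noetherian (I a))
  choose p F hF using h
  exact ⟨p, F, hF⟩

/-- **The curve stays in the variety.** -/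
theorem zero_rel (hP : Homog P) (hθ : Polar θ) (hm : ∀ k, 1 ≤ m k) {f : Frame θ} {u : Derivation ℂ L L} (hs : IsSol f u) {c : Fin J → ℂ} (hc : c ≠ 0)
    {g : ℂ → PN N} (hg : ∀ z, ArcAt θ c g z) {z₀ : ℂ} {a₀ : Fin (N + 1)} (ha₀ : (g z₀).rep a₀ ≠ 0) (hX : X a₀ ∉ P) (h : Pt (rel (ph P u a₀)) (ps g a₀ z₀)) (z : ℂ)
    (a : Fin (N + 1)) (ha : (g z).rep a ≠ 0) : X a ∉ P ∧ Pt (rel (ph P u a)) (ps g a z) := by
  obtain ⟨p, F, hF⟩ := exists_gens fun a => Vi (gx P a₀ : Fin (N + 1) → L) u a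
  obtain ⟨h1, h2⟩ := ps_aux hP (hg z₀) ha₀
  obtain ⟨h3, h4⟩ := ps_aux hP (hg z) ha
  have hG : ∀ a, (gx P a₀ : Fin (N + 1) → L) a ≠ 0 → ∀ l, u (aeval (gy (gx P a₀) u a) (gfam f a l)) = 0 := fun a ha l => by
    rw [gy_ph u hX]
    exact gfam_const hP hs ((gx_ne_iff hX).1 ha) l
  have hz : IsZ (gx P a₀) u a₀ (ps g a₀ z₀) := (isZ_iff u hX).2 ⟨hX, h⟩
  have h5 := stay hP hθ hm f (gx P a₀) u hG F (fun a _ => hF a) hc hg h1 h2 hz z a (fun w i => (g w).rep i / (g w).rep a) h3 h4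
  exact (isZ_iff u hX).1 h5

/-- **The curve stays exponentially far from the singular points.** -/
theorem low_sgl (hP : Homog P) (hθ : Polar θ) (hm : ∀ k, 1 ≤ m k) {f : Frame θ} {u : Derivation ℂ L L} (hs : IsSol f u) (n : ℕ)
    {s : Fin (N + 1) → ℕ} (q : ∀ a, Fin (s a) → MvPolynomial (Ph N) ℂ) (hq : ∀ a, X a ∉ P → Ideal.span (Set.range (q a)) = sgl (rel (ph P u a)) (n + 1))
    {c : Fin J → ℂ} (hc : c ≠ 0) {g : ℂ → PN N} (hg : ∀ z, ArcAt θ c g z) {a₀ : Fin (N + 1)} (ha₀ : (g 0).rep a₀ ≠ 0) (hX : X a₀ ∉ P)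
    (h0 : Pt (rel (ph P u a₀)) (ps g a₀ 0)) (h : Module.finrank ℂ (Tn (rel (ph P u a₀)) (ps g a₀ 0)) ≤ n + 1) :
    ∃ C > 0, ∀ (z : ℂ) (a : Fin (N + 1)), Gd g a z → ∃ j, Real.exp (-(C * (‖z‖ + 1))) ≤ ‖eval (ps g a z) (q a j)‖ := by
  classical
  obtain ⟨p, F, hF⟩ := exists_gens fun a => rel (ph P u a)
  obtain ⟨cc, hcc⟩ : ∃ cc : ℕ, cc = Fintype.card (Ph N) - (n + 1) := ⟨_, rfl⟩
  obtain ⟨h1, h2⟩ := ps_aux hP (hg 0) ha₀
  have hMc0 : Mc cc (jac (F a₀) (ps g a₀ 0)) ≠ 0 := by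
    refine Mc_ne_of_le ?_
    have h3 := rank_add (hF a₀) h0
    omega
  have hG : ∀ a, (gx P a₀ : Fin (N + 1) → L) a ≠ 0 → ∀ l, u (aeval (gy (gx P a₀) u a) (gfam f a l)) = 0 := fun a ha l => by
    rw [gy_ph u hX]
    exact gfam_const hP hs ((gx_ne_iff hX).1 ha) l
  have hz : IsZ (gx P a₀) u a₀ (ps g a₀ 0) := (isZ_iff u hX).2 ⟨hX, h0⟩
  have hF' : ∀ a, (gx P a₀ : Fin (N + 1) → L) a ≠ 0 → Ideal.span (Set.range (F a)) = Vi (gx P a₀) u a := fun a _ => by
    rw [Vi_rel u hX]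
    exact hF a
  obtain ⟨ε, hε, K₁, hK₁⟩ := low hP hθ hm f (gx P a₀) u hG F hF' cc hc hg h1 h2 hz hMc0
  -- the minors in terms of the generators
  have hb : ∀ a : Fin (N + 1), ∃ B : ℝ, 0 ≤ B ∧ (X a ∉ P → ∀ w ∈ Kset θ a {c}, ‖Mc cc (jac (F a) w)‖ ≤ B * ‖fun j => eval w (q a j)‖) := by
    intro a
    by_cases ha : X a ∈ P
    · exact ⟨0, le_rfl, fun h => absurd ha h⟩
    have h3 : ∀ r : (Fin cc → Fin (p a)) × (Fin cc → Ph N), ∃ b : Fin (s a) → MvPolynomial (Ph N) ℂ, ∑ j, b j * q a j = mnr (F a) r := by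
      intro r
      have h4 := mnr_mem (hF a) (k := n + 1) (c := cc) (by omega) r
      rw [← hq a ha] at h4
      exact Ideal.mem_span_range_iff_exists_fun.1 h4
    choose b hb using h3
    have h5 : ∀ r j, ∃ B : ℝ, ∀ w ∈ Kset θ a {c}, ‖eval w (b r j)‖ ≤ B := fun r j =>
      (isCompact_Kset hθ hm a isCompact_singleton).exists_bound_of_continuousOn (MvPolynomial.continuous_eval (b r j)).continuousOn
    choose B hB using h5
    refine ⟨∑ r, ∑ j, |B r j|, Finset.sum_nonneg fun _ _ => Finset.sum_nonneg fun _ _ => abs_nonneg _, fun _ w hw => ?_⟩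
    refine (pi_norm_le_iff_of_nonneg (by positivity)).2 fun r => ?_
    rw [← eval_mnr, ← hb r, map_sum]
    refine (norm_sum_le _ _).trans ?_
    calc ∑ j, ‖eval w (b r j * q a j)‖ ≤ ∑ j, |B r j| * ‖fun j => eval w (q a j)‖ := by
          refine Finset.sum_le_sum fun j _ => ?_
          rw [map_mul, norm_mul]
          exact mul_le_mul ((hB r j w hw).trans (le_abs_self _)) (norm_le_pi_norm (fun j => eval w (q a j)) j) (norm_nonneg _) (abs_nonneg _)
      _ = (∑ j, |B r j|) * ‖fun j => eval w (q a j)‖ := (Finset.sum_mul _ _ _).symm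
      _ ≤ _ := mul_le_mul_of_nonneg_right (Finset.single_le_sum (f := fun r => ∑ j, |B r j|) (fun _ _ => Finset.sum_nonneg fun _ _ => abs_nonneg _) (Finset.mem_univ r))
          (norm_nonneg _)
  choose B hB0 hB using hb
  obtain ⟨B₁, hB₁⟩ : ∃ B₁ : ℝ, B₁ = 1 + ∑ a, B a := ⟨_, rfl⟩
  have n1 : 0 ≤ ∑ a, B a := Finset.sum_nonneg fun _ _ => hB0 _
  have hBB : ∀ a, B a ≤ B₁ := fun a => by
    have h3 := Finset.single_le_sum (f := B) (fun _ _ => hB0 _) (Finset.mem_univ a)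
    linarith
  have hB₁0 : 0 < B₁ := by linarith
  refine ⟨|K₁| + |Real.log (ε / B₁)| + 1, by positivity, fun z a hGd => ?_⟩
  have ha := rep_ne_of_Gd hGd
  obtain ⟨h3, h4⟩ := ps_aux hP (hg z) ha
  have hn : ∀ b, ‖(g z).rep b / (g z).rep a‖ ≤ 1 := fun b => by
    rw [norm_div, div_le_one (norm_pos_iff.2 ha)]
    exact hGd b
  obtain ⟨h5, h6⟩ := hK₁ z a (fun w i => (g w).rep i / (g w).rep a) h3 h4 hn
  have hXa : X a ∉ P := ((isZ_iff u hX).1 h5).1
  have hKs : ps g a z ∈ Kset θ a {c} := ⟨_, _, c, rfl, (Chart_isTan h3).self_of_nhds, hn, rfl⟩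
  have h7 : ε * Real.exp (-(K₁ * ‖z‖)) ≤ B₁ * ‖fun j => eval (ps g a z) (q a j)‖ :=
    h6.trans ((hB a hXa _ hKs).trans (mul_le_mul_of_nonneg_right (hBB a) (norm_nonneg _)))
  have h8 : Real.exp (-((|K₁| + |Real.log (ε / B₁)| + 1) * (‖z‖ + 1))) ≤ ε / B₁ * Real.exp (-(K₁ * ‖z‖)) := by
    have h9 : ε / B₁ = Real.exp (Real.log (ε / B₁)) := (Real.exp_log (by positivity)).symm
    rw [h9, ← Real.exp_add, Real.exp_log (by positivity)]
    refine Real.exp_le_exp.2 ?_
    have h10 := neg_abs_le (Real.log (ε / B₁))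
    have h11 := le_abs_self K₁
    have h12 := norm_nonneg z
    have h13 := abs_nonneg K₁
    have h14 := abs_nonneg (Real.log (ε / B₁))
    nlinarith [mul_nonneg h12 h14, mul_nonneg h12 h13, mul_le_mul_of_nonneg_right h11 h12]
  have h9 : Real.exp (-((|K₁| + |Real.log (ε / B₁)| + 1) * (‖z‖ + 1))) ≤ ‖fun j => eval (ps g a z) (q a j)‖ := by
    refine h8.trans ?_
    rw [div_mul_eq_mul_div, div_le_iff₀ hB₁0]
    rw [mul_comm _ B₁]
    exact h7
  by_contra hcon
  push Not at hcon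
  have h10 : ‖fun j => eval (ps g a z) (q a j)‖ < Real.exp (-((|K₁| + |Real.log (ε / B₁)| + 1) * (‖z‖ + 1))) :=
    (pi_norm_lt_iff (Real.exp_pos _)).2 hcon
  linarith

end Sol

end Pool.Agent.GQ
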