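import Pool.Agent.GQ.Defs

/-!
# GQ Nmh: changes of charts in the phase space, homogenisation
-/

set_option autoImplicit false

open MvPolynomial Topology Filter Metric
open Pool.Agent.H13.SM (conTan cone)
open Pool.Agent.H17 (PN VanishesAt)
open Pool.Agent.H17LG.Variety (FunField ratio PoleAtMost IsLogGeneralType)
open Pool.Agent.H23.Fano (Form PrimeDivisorOver)
open Pool.Agent.H62.FC (Homog)
open Pool.Agent.GG

noncomputable section

namespace Pool.Agent.GQ

variable {N : ℕ} {P : Ideal (MvPolynomial (Fin (N + 1)) ℂ)}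

/-- The homogenisation of `g`: `x_a^M g (x / x_a, (x / x_a)')`, a polynomial for `M > 2 deg g`, divisible by `x_a`. -/
theorem exists_hom (a : Fin (N + 1)) (g : MvPolynomial (Ph N) ℂ) : ∃ (M : ℕ) (Q : MvPolynomial (Ph N) ℂ),
    (∀ (A : Type) [Field A] [Algebra ℂ A] (w : Ph N → A), w (Sum.inl a) ≠ 0 → aeval w Q = w (Sum.inl a) ^ M * aeval (nm a w) g) ∧
      ∀ (A : Type) [Field A] [Algebra ℂ A] (w : Ph N → A), w (Sum.inl a) = 0 → aeval w Q = 0 := by
  induction g using MvPolynomial.induction_on with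
  | C c =>
    refine ⟨1, X (Sum.inl a) * C c, fun A _ _ w _ => ?_, fun A _ _ w hw => ?_⟩
    · simp only [map_mul, aeval_X, aeval_C, pow_one]
    · rw [map_mul, aeval_X, hw, zero_mul]
  | add p q hp hq =>
    obtain ⟨M₁, Q₁, h1, h1'⟩ := hp
    obtain ⟨M₂, Q₂, h2, h2'⟩ := hq
    refine ⟨M₁ + M₂, X (Sum.inl a) ^ M₂ * Q₁ + X (Sum.inl a) ^ M₁ * Q₂, fun A _ _ w hw => ?_, fun A _ _ w hw => ?_⟩
    · rw [map_add, map_mul, map_mul, map_pow, map_pow, aeval_X, h1 A w hw, h2 A w hw, map_add]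
      ring
    · rw [map_add, map_mul, map_mul, h1' A w hw, h2' A w hw, mul_zero, mul_zero, add_zero]
  | mul_X p s hp =>
    obtain ⟨M, Q, h1, h1'⟩ := hp
    rcases s with b | b
    · refine ⟨M + 1, Q * X (Sum.inl b), fun A _ _ w hw => ?_, fun A _ _ w hw => ?_⟩
      · have h2 : nm a w (Sum.inl b) = w (Sum.inl b) / w (Sum.inl a) := rfl
        rw [map_mul, map_mul, aeval_X, aeval_X, h1 A w hw, h2]
        field_simp
        ring
      · rw [map_mul, h1' A w hw, zero_mul]
    · refine ⟨M + 2, Q * (X (Sum.inr b) * X (Sum.inl a) - X (Sum.inl b) * X (Sum.inr a)), fun A _ _ w hw => ?_, fun A _ _ w hw => ?_⟩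
      · have h2 : nm a w (Sum.inr b) = w (Sum.inr b) / w (Sum.inl a) - w (Sum.inl b) * w (Sum.inr a) / w (Sum.inl a) ^ 2 := rfl
        rw [map_mul, map_mul, map_sub, map_mul, map_mul, aeval_X, aeval_X, aeval_X, aeval_X, aeval_X, h1 A w hw, h2]
        field_simp
        ring
      · rw [map_mul, h1' A w hw, zero_mul]

section Sol

variable [P.IsPrime] {L : Type} [Field L] [Algebra ℂ L] [Algebra (FunField P) L]

private theorem Nmh_ratio {n : ℕ} (hdim : ∃ z : Fin (n + 1) → FunField P, IsTranscendenceBasis ℂ z) {a b : Fin (N + 1)} (ha : X a ∉ P)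
    (hb : X b ∉ P) : ratio P b a ≠ 0 ∧ ∀ i, ratio P i a / ratio P b a = ratio P i b := by
  obtain ⟨x, hxa, -, h2, h3⟩ := Kd.exists_gen hdim ha
  have hxb : x b ≠ 0 := by
    intro h
    refine hb ((h2 1 (X b) (isHomogeneous_X _ _)).1 ?_)
    rw [aeval_X]
    exact h
  refine ⟨?_, fun i => ?_⟩
  · rw [h3]
    exact div_ne_zero hxb hxa
  · rw [h3, h3, h3]
    field_simp

private theorem Nmh_self {n : ℕ} (hdim : ∃ z : Fin (n + 1) → FunField P, IsTranscendenceBasis ℂ z) {a : Fin (N + 1)} (ha : X a ∉ P) :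
    ratio P a a = 1 := by
  obtain ⟨x, hxa, -, -, h3⟩ := Kd.exists_gen hdim ha
  rw [h3, div_self hxa]

theorem nm_ph {n : ℕ} (hdim : ∃ z : Fin (n + 1) → FunField P, IsTranscendenceBasis ℂ z) (u : Derivation ℂ L L) {a b : Fin (N + 1)} (ha : X a ∉ P)
    (hb : X b ∉ P) : nm b (ph P u a) = ph P u b := by
  obtain ⟨h1, h2⟩ := Nmh_ratio hdim ha hb
  have h0 : algebraMap (FunField P) L (ratio P b a) ≠ 0 := (map_ne_zero _).2 h1
  have h3 : ∀ i, algebraMap (FunField P) L (ratio P i b) = algebraMap (FunField P) L (ratio P i a) / algebraMap (FunField P) L (ratio P b a) := fun i => by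
    rw [← h2 i, map_div₀]
  funext s
  rcases s with i | i
  · show algebraMap (FunField P) L (ratio P i a) / algebraMap (FunField P) L (ratio P b a) = algebraMap (FunField P) L (ratio P i b)
    rw [h3]
  · show u (algebraMap (FunField P) L (ratio P i a)) / algebraMap (FunField P) L (ratio P b a) -
      algebraMap (FunField P) L (ratio P i a) * u (algebraMap (FunField P) L (ratio P b a)) / algebraMap (FunField P) L (ratio P b a) ^ 2 =
        u (algebraMap (FunField P) L (ratio P i b))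
    rw [h3, Derivation.leibniz_div]
    simp only [smul_eq_mul]
    field_simp

/-- `nm` is its own inverse -/
theorem nm_nm {A : Type} [Field A] {a b : Fin (N + 1)} {w : Ph N → A} (ha : w (Sum.inl a) = 1) (ha' : w (Sum.inr a) = 0) (hb : w (Sum.inl b) ≠ 0) :
    nm a (nm b w) = w := by
  funext s
  rcases s with i | i
  · show w (Sum.inl i) / w (Sum.inl b) / (w (Sum.inl a) / w (Sum.inl b)) = w (Sum.inl i)
    rw [ha]
    field_simp
  · show (w (Sum.inr i) / w (Sum.inl b) - w (Sum.inl i) * w (Sum.inr b) / w (Sum.inl b) ^ 2) / (w (Sum.inl a) / w (Sum.inl b)) -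
      w (Sum.inl i) / w (Sum.inl b) * (w (Sum.inr a) / w (Sum.inl b) - w (Sum.inl a) * w (Sum.inr b) / w (Sum.inl b) ^ 2) /
        (w (Sum.inl a) / w (Sum.inl b)) ^ 2 = w (Sum.inr i)
    rw [ha, ha']
    field_simp
    ring

/-- A point of the chart `x_a = 1` is a point of the chart `x_b = 1` (`exists_hom`, `nm_ph`). -/
theorem pt_nm [IsScalarTower ℂ (FunField P) L] {n : ℕ} (hdim : ∃ z : Fin (n + 1) → FunField P, IsTranscendenceBasis ℂ z) (u : Derivation ℂ L L) {a b : Fin (N + 1)} (ha : X a ∉ P)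
    (hb : X b ∉ P) {w : Ph N → ℂ} (hw : Pt (rel (ph P u a)) w) (h : w (Sum.inl b) ≠ 0) : Pt (rel (ph P u b)) (nm b w) := by
  intro g hg
  obtain ⟨M, Q, h1, -⟩ := exists_hom b g
  have h0 : ph P u a (Sum.inl b) ≠ 0 := (map_ne_zero (algebraMap (FunField P) L)).2 (Nmh_ratio hdim ha hb).1
  have h2 : Q ∈ rel (ph P u a) := by
    rw [mem_rel, h1 L _ h0, nm_ph hdim u ha hb, mem_rel.1 hg, mul_zero]
  have h3 := hw Q h2
  rw [← aeval_eq_eval, h1 ℂ w h, mul_eq_zero] at h3
  rw [← aeval_eq_eval]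
  exact h3.resolve_left (pow_ne_zero _ h)

/-- the coordinates `x_a = 1`, `v_a = 0` -/
theorem pt_one [IsScalarTower ℂ (FunField P) L] {n : ℕ} (hdim : ∃ z : Fin (n + 1) → FunField P, IsTranscendenceBasis ℂ z) (u : Derivation ℂ L L) {a : Fin (N + 1)} (ha : X a ∉ P)
    {w : Ph N → ℂ} (hw : Pt (rel (ph P u a)) w) : w (Sum.inl a) = 1 ∧ w (Sum.inr a) = 0 := by
  have h1 : (X (Sum.inl a) - 1 : MvPolynomial (Ph N) ℂ) ∈ rel (ph P u a) := by
    rw [mem_rel, map_sub, aeval_X, map_one]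
    show algebraMap (FunField P) L (ratio P a a) - 1 = 0
    rw [Nmh_self hdim ha, map_one, sub_self]
  have h2 : (X (Sum.inr a) : MvPolynomial (Ph N) ℂ) ∈ rel (ph P u a) := by
    rw [mem_rel, aeval_X]
    show u (algebraMap (FunField P) L (ratio P a a)) = 0
    rw [Nmh_self hdim ha, map_one, Derivation.map_one_eq_zero]
  have h3 := hw _ h1
  have h4 := hw _ h2
  rw [map_sub, eval_X, map_one, sub_eq_zero] at h3
  rw [eval_X] at h4
  exact ⟨h3, h4⟩

end Sol

end Pool.Agent.GQ
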