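import Pool.Agent.GQ.Nmh
import Pool.Agent.H13.SM.Inv

/-!
# GQ Nmt: changes of charts in the phase space, tangent vectors
-/

set_option autoImplicit false

open MvPolynomial Topology Filter Metric
open Pool.Agent.H13.SM (conTan cone)
open Pool.Agent.H17 (PN VanishesAt)
open Pool.Agent.H17LG.Variety (FunField ratio PoleAtMost IsLogGeneralType)
open Pool.Agent.H23.Fano (Form PrimeDivisorOver)
open Pool.Agent.H62.FC (Homog)
open Pool.Agent.GG

noncomputable section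

namespace Pool.Agent.GQ

variable {N : ℕ} {P : Ideal (MvPolynomial (Fin (N + 1)) ℂ)}

/-- the change of charts is differentiable -/
theorem nm_diff {b : Fin (N + 1)} {w : Ph N → ℂ} (h : w (Sum.inl b) ≠ 0) : DifferentiableAt ℂ (nm b : (Ph N → ℂ) → Ph N → ℂ) w := by
  have h1 : ∀ s : Ph N, DifferentiableAt ℂ (fun p : Ph N → ℂ => p s) w := fun s => differentiableAt_apply s w
  rw [differentiableAt_pi]
  intro s
  rcases s with i | i
  · show DifferentiableAt ℂ (fun p : Ph N → ℂ => p (Sum.inl i) / p (Sum.inl b)) w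
    simp only [div_eq_mul_inv]
    exact (h1 (Sum.inl i)).mul ((h1 (Sum.inl b)).inv h)
  · show DifferentiableAt ℂ (fun p : Ph N → ℂ => p (Sum.inr i) / p (Sum.inl b) - p (Sum.inl i) * p (Sum.inr b) / p (Sum.inl b) ^ 2) w
    simp only [div_eq_mul_inv]
    exact ((h1 (Sum.inr i)).mul ((h1 (Sum.inl b)).inv h)).sub
      (((h1 (Sum.inl i)).mul (h1 (Sum.inr b))).mul (((h1 (Sum.inl b)).pow 2).inv (pow_ne_zero 2 h)))

/-- The derivatives of `nm a` and `nm b` are inverse to each other. -/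
theorem nm_inv {a b : Fin (N + 1)} {w t : Ph N → ℂ} (ha : w (Sum.inl a) = 1) (ha' : w (Sum.inr a) = 0) (hb : w (Sum.inl b) ≠ 0)
    (hta : t (Sum.inl a) = 0) (hta' : t (Sum.inr a) = 0) : fderiv ℂ (nm a) (nm b w) (fderiv ℂ (nm b) w t) = t := by
  have h0 : HasDerivAt (fun s : ℂ => w + s • t) t 0 := by
    have h1 := ((hasDerivAt_id (0 : ℂ)).smul_const t).const_add w
    rwa [one_smul] at h1
  have hw0 : w + (0 : ℂ) • t = w := by rw [zero_smul, add_zero]
  have h2 : HasFDerivAt (nm b : (Ph N → ℂ) → Ph N → ℂ) (fderiv ℂ (nm b) w) (w + (0 : ℂ) • t) := by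
    rw [hw0]
    exact (nm_diff hb).hasFDerivAt
  have h3 := h2.comp_hasDerivAt (0 : ℂ) h0
  have h4 : (nm b w) (Sum.inl a) ≠ 0 := by
    show w (Sum.inl a) / w (Sum.inl b) ≠ 0
    rw [ha]
    exact div_ne_zero one_ne_zero hb
  have h5 : HasFDerivAt (nm a : (Ph N → ℂ) → Ph N → ℂ) (fderiv ℂ (nm a) (nm b w)) ((nm b ∘ fun s : ℂ => w + s • t) 0) := by
    show HasFDerivAt (nm a : (Ph N → ℂ) → Ph N → ℂ) (fderiv ℂ (nm a) (nm b w)) (nm b (w + (0 : ℂ) • t))
    rw [hw0]
    exact (nm_diff h4).hasFDerivAt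
  have h6 := h5.comp_hasDerivAt (0 : ℂ) h3
  have h7 : ∀ᶠ s : ℂ in 𝓝 0, (w + s • t) (Sum.inl b) ≠ 0 := by
    have h8 : ContinuousAt (fun s : ℂ => (w + s • t) (Sum.inl b)) 0 := by
      have h9 : Continuous fun s : ℂ => w (Sum.inl b) + s * t (Sum.inl b) := by fun_prop
      exact h9.continuousAt
    refine h8.eventually_ne ?_
    rw [hw0]
    exact hb
  have h8 : (nm a ∘ nm b ∘ fun s : ℂ => w + s • t) =ᶠ[𝓝 0] fun s : ℂ => w + s • t := by
    filter_upwards [h7] with s hs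
    show nm a (nm b (w + s • t)) = w + s • t
    refine nm_nm ?_ ?_ hs
    · show w (Sum.inl a) + s * t (Sum.inl a) = 1
      rw [ha, hta, mul_zero, add_zero]
    · show w (Sum.inr a) + s * t (Sum.inr a) = 0
      rw [ha', hta', mul_zero, add_zero]
  exact (h6.congr_of_eventuallyEq h8.symm).unique h0

section Sol

variable [P.IsPrime] {L : Type} [Field L] [Algebra ℂ L] [Algebra (FunField P) L]

/-- the same for tangent vectors (differentiate along `w + ε t`, or use dual numbers / `Kd.dpl`) -/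
theorem tn_nm [IsScalarTower ℂ (FunField P) L] {n : ℕ} (hdim : ∃ z : Fin (n + 1) → FunField P, IsTranscendenceBasis ℂ z) (u : Derivation ℂ L L) {a b : Fin (N + 1)} (ha : X a ∉ P)
    (hb : X b ∉ P) {w : Ph N → ℂ} (hw : Pt (rel (ph P u a)) w) (h : w (Sum.inl b) ≠ 0) {t : Ph N → ℂ} (ht : t ∈ Tn (rel (ph P u a)) w) :
    fderiv ℂ (nm b) w t ∈ Tn (rel (ph P u b)) (nm b w) := by
  intro g hg
  obtain ⟨M, Q, h1, h1'⟩ := exists_hom b g
  have h2 : Q ∈ rel (ph P u a) := by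
    rw [mem_rel]
    by_cases h0 : ph P u a (Sum.inl b) = 0
    · exact h1' L _ h0
    · rw [h1 L _ h0, nm_ph hdim u ha hb, mem_rel.1 hg, mul_zero]
  have h3 := ht Q h2
  have h4 := Pool.Agent.H13.SM.Inv_hasFDerivAt_eval Q w
  have h5 := (Pool.Agent.H13.SM.Inv_hasFDerivAt_eval g (nm b w)).comp w (nm_diff h).hasFDerivAt
  have h6 : HasFDerivAt (fun y : Ph N → ℂ => y (Sum.inl b) ^ M) (((M : ℂ) * w (Sum.inl b) ^ (M - 1)) •
      (ContinuousLinearMap.proj (R := ℂ) (φ := fun _ : Ph N => ℂ) (Sum.inl b))) w := by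
    have h7 : HasDerivAt (fun z : ℂ => z ^ M) ((M : ℂ) * w (Sum.inl b) ^ (M - 1)) (w (Sum.inl b)) := hasDerivAt_pow M _
    exact h7.comp_hasFDerivAt w (hasFDerivAt_apply (𝕜 := ℂ) (Sum.inl b : Ph N) w)
  have h7 := h6.mul h5
  have h8 : (fun y : Ph N → ℂ => eval y Q) =ᶠ[𝓝 w] fun y => y (Sum.inl b) ^ M * eval (nm b y) g := by
    have h9 : ∀ᶠ y : Ph N → ℂ in 𝓝 w, y (Sum.inl b) ≠ 0 := (continuous_apply (Sum.inl b : Ph N)).continuousAt.eventually_ne h
    filter_upwards [h9] with y hy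
    have h10 := h1 ℂ y hy
    rwa [aeval_eq_eval, aeval_eq_eval] at h10
  have h9 := (h4.congr_of_eventuallyEq h8.symm).unique h7
  have h10 := congrArg (fun f : (Ph N → ℂ) →L[ℂ] ℂ => f t) h9
  have h11 : eval (nm b w) g = 0 := pt_nm hdim u ha hb hw h g hg
  simp only [FunLike.coe_add, FunLike.coe_smul, Pi.add_apply, Pi.smul_apply, smul_eq_mul, sum_apply, ContinuousLinearMap.proj_apply,
    ContinuousLinearMap.comp_apply, Function.comp_apply, h11, zero_mul, add_zero] at h10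
  rw [h3] at h10
  exact (mul_eq_zero.1 h10.symm).resolve_left (pow_ne_zero _ h)

private theorem Nmt_zero [IsScalarTower ℂ (FunField P) L] {n : ℕ} (hdim : ∃ z : Fin (n + 1) → FunField P, IsTranscendenceBasis ℂ z) (u : Derivation ℂ L L)
    {a : Fin (N + 1)} (ha : X a ∉ P) {w t : Ph N → ℂ} (ht : t ∈ Tn (rel (ph P u a)) w) : t (Sum.inl a) = 0 ∧ t (Sum.inr a) = 0 := by
  classical
  have h0 : ratio P a a = 1 := by
    obtain ⟨x, hxa, -, -, h3⟩ := Kd.exists_gen hdim ha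
    rw [h3, div_self hxa]
  have h1 : (X (Sum.inl a) - 1 : MvPolynomial (Ph N) ℂ) ∈ rel (ph P u a) := by
    rw [mem_rel, map_sub, aeval_X, map_one]
    show algebraMap (FunField P) L (ratio P a a) - 1 = 0
    rw [h0, map_one, sub_self]
  have h2 : (X (Sum.inr a) : MvPolynomial (Ph N) ℂ) ∈ rel (ph P u a) := by
    rw [mem_rel, aeval_X]
    show u (algebraMap (FunField P) L (ratio P a a)) = 0
    rw [h0, map_one, Derivation.map_one_eq_zero]
  have h3 := ht _ h1
  have h4 := ht _ h2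
  have h5 : ∀ s r : Ph N, eval w (pderiv s (X r : MvPolynomial (Ph N) ℂ)) * t s = if s = r then t r else 0 := fun s r => by
    rw [pderiv_X]
    by_cases hs : s = r
    · rw [hs, Pi.single_eq_same, map_one, one_mul, if_pos rfl]
    · rw [Pi.single_eq_of_ne (Ne.symm hs), map_zero, zero_mul, if_neg hs]
  simp only [map_sub, Derivation.map_one_eq_zero, sub_zero, h5, Finset.sum_ite_eq', Finset.mem_univ, if_true] at h3
  simp only [h5, Finset.sum_ite_eq', Finset.mem_univ, if_true] at h4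
  exact ⟨h3, h4⟩

private theorem Nmt_le [IsScalarTower ℂ (FunField P) L] {n : ℕ} (hdim : ∃ z : Fin (n + 1) → FunField P, IsTranscendenceBasis ℂ z) (u : Derivation ℂ L L)
    {a b : Fin (N + 1)} (ha : X a ∉ P) (hb : X b ∉ P) {w : Ph N → ℂ} (hw : Pt (rel (ph P u a)) w) (h : w (Sum.inl b) ≠ 0) :
    Module.finrank ℂ (Tn (rel (ph P u a)) w) ≤ Module.finrank ℂ (Tn (rel (ph P u b)) (nm b w)) := by
  obtain ⟨h1, h1'⟩ := pt_one hdim u ha hw
  let f : Tn (rel (ph P u a)) w →ₗ[ℂ] Tn (rel (ph P u b)) (nm b w) :=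
    (fderiv ℂ (nm b : (Ph N → ℂ) → Ph N → ℂ) w).toLinearMap.restrict fun t ht => tn_nm hdim u ha hb hw h ht
  refine LinearMap.finrank_le_finrank_of_injective (f := f) ?_
  intro t t' htt
  have h2 : fderiv ℂ (nm b) w (t : Ph N → ℂ) = fderiv ℂ (nm b) w (t' : Ph N → ℂ) := congrArg Subtype.val htt
  have h3 := nm_inv h1 h1' h (Nmt_zero hdim u ha t.2).1 (Nmt_zero hdim u ha t.2).2
  have h4 := nm_inv h1 h1' h (Nmt_zero hdim u ha t'.2).1 (Nmt_zero hdim u ha t'.2).2
  refine Subtype.ext ?_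
  rw [← h3, h2, h4]

/-- the two maps are inverse to each other, so the dimensions of the tangent spaces are equal -/
theorem finrank_nm [IsScalarTower ℂ (FunField P) L] {n : ℕ} (hdim : ∃ z : Fin (n + 1) → FunField P, IsTranscendenceBasis ℂ z) (u : Derivation ℂ L L) {a b : Fin (N + 1)} (ha : X a ∉ P)
    (hb : X b ∉ P) {w : Ph N → ℂ} (hw : Pt (rel (ph P u a)) w) (h : w (Sum.inl b) ≠ 0) :
    Module.finrank ℂ (Tn (rel (ph P u b)) (nm b w)) = Module.finrank ℂ (Tn (rel (ph P u a)) w) := by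
  obtain ⟨h1, h1'⟩ := pt_one hdim u ha hw
  refine le_antisymm ?_ (Nmt_le hdim u ha hb hw h)
  have h4 : (nm b w) (Sum.inl a) ≠ 0 := by
    show w (Sum.inl a) / w (Sum.inl b) ≠ 0
    rw [h1]
    exact div_ne_zero one_ne_zero h
  have h5 := Nmt_le hdim u hb ha (pt_nm hdim u ha hb hw h) h4
  rwa [nm_nm h1 h1' h] at h5

end Sol

end Pool.Agent.GQ
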