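import Pool.Agent.GQ.Flr
import Pool.Agent.GQ.Gro
import Pool.Agent.GQ.Psi
import Pool.Agent.GG.Fam1

/-!
# GQ Prp: one step of the propagation

`unifR` gives a flow box at `z'` in the good chart `a'`, of uniform size, with a row `I` whose determinant is bounded below.  Along the curve in the flow box (`flow_rep`) the generators `q a' j` satisfy
`q' = (A / vdet_I) q` (`arc_ode`, `hasDerivAt_eval`) with bounded coefficients: `gronwall_seg`.  At `z` the chart `a'` is compared with the good chart `a` by `hch` (`|w_a| ≥ 1`).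
-/

set_option autoImplicit false

open MvPolynomial Topology Filter Metric
open Pool.Agent.H13.SM (conTan cone)
open Pool.Agent.H17 (PN VanishesAt)
open Pool.Agent.H62.FC (Homog)
open Pool.Agent.GG

noncomputable section

namespace Pool.Agent.GQ

variable {N : ℕ} {P : Ideal (MvPolynomial (Fin (N + 1)) ℂ)} {J : ℕ} {m : Fin J → ℕ} {θ : ∀ k, SymSec P (m k)}

/-- a finite family of polynomials is bounded on a ball -/
private theorem prp_bdd {σ ι : Type} [Fintype σ] [Finite ι] (p : ι → MvPolynomial σ ℂ) (R : ℝ) :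
    ∃ C : ℝ, 0 ≤ C ∧ ∀ i, ∀ w : σ → ℂ, ‖w‖ ≤ R → ‖eval w (p i)‖ ≤ C := by
  have := Fintype.ofFinite ι
  have key : ∀ i, ∃ C : ℝ, ∀ w : σ → ℂ, ‖w‖ ≤ R → ‖eval w (p i)‖ ≤ C := fun i => by
    obtain ⟨C, hC⟩ := (isCompact_closedBall (0 : σ → ℂ) R).exists_bound_of_continuousOn (f := fun w => eval w (p i))
      (MvPolynomial.continuous_eval (p i)).continuousOn
    exact ⟨C, fun w hw => hC w (mem_closedBall_zero_iff.2 hw)⟩
  choose C hC using key
  refine ⟨∑ i, |C i|, Finset.sum_nonneg fun i _ => abs_nonneg _, fun i w hw => ?_⟩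
  exact (hC i w hw).trans ((le_abs_self _).trans
    (Finset.single_le_sum (f := fun i => |C i|) (fun i _ => abs_nonneg _) (Finset.mem_univ i)))

/-- position and velocity from a representative with `x_a = 1` -/
private theorem prp_ps {g : ℂ → PN N} {a : Fin (N + 1)} {x : ℂ → Fin (N + 1) → ℂ} {z : ℂ} (hr : Rep g x z) (hx : ∀ᶠ w in 𝓝 z, x w a = 1) :
    (g z).rep a ≠ 0 ∧ ps g a z = pt (x z) (deriv x z) := by
  have h1 : ∀ᶠ w in 𝓝 z, (g w).rep a ≠ 0 ∧ (fun i => (g w).rep i / (g w).rep a) = x w := by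
    filter_upwards [hr, hx] with w hw hxa
    obtain ⟨h, hg⟩ := hw
    obtain ⟨c, hc⟩ := Projectivization.exists_smul_eq_mk_rep ℂ (x w) h
    rw [← hg] at hc
    have h2 : ∀ i, (g w).rep i = (c : ℂ) * x w i := fun i => by
      rw [← hc]
      rfl
    have h3 : (g w).rep a = (c : ℂ) := by rw [h2, hxa, mul_one]
    refine ⟨?_, ?_⟩
    · rw [h3]
      exact c.ne_zero
    · funext i
      rw [h3, h2, mul_div_cancel_left₀ _ c.ne_zero]
  refine ⟨h1.self_of_nhds.1, ?_⟩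
  have h2 : (fun w i => (g w).rep i / (g w).rep a) =ᶠ[𝓝 z] x := h1.mono fun w hw => hw.2
  unfold ps
  rw [h2.deriv_eq]
  have h3 := h2.self_of_nhds
  simp only at h3
  rw [h3]

private theorem prp_gd {g : ℂ → PN N} {a : Fin (N + 1)} {z : ℂ} (h : Gd g a z) : (g z).rep a ≠ 0 := by
  intro h0
  refine (g z).rep_nonzero (funext fun b => ?_)
  have h1 := h b
  rw [h0, norm_zero] at h1
  exact norm_le_zero_iff.1 h1

private theorem prp_norm {x v : Fin (N + 1) → ℂ} {K : ℝ} (hx : ‖x‖ ≤ K) (hv : ‖v‖ ≤ K) : ‖(pt x v : Ph N → ℂ)‖ ≤ K := by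
  refine (pi_norm_le_iff_of_nonneg ((norm_nonneg _).trans hx)).2 ?_
  rintro (b | b)
  · exact (norm_le_pi_norm x b).trans hx
  · exact (norm_le_pi_norm v b).trans hv

/-- a sum with bounded coefficients -/
private theorem prp_sum {k S : ℕ} (hk : k ≤ S) {A x : Fin k → ℂ} {C : ℝ} (hC : 0 ≤ C) (hA : ∀ i, ‖A i‖ ≤ C) : ‖∑ i, A i * x i‖ ≤ S * C * ‖x‖ := by
  calc ‖∑ i, A i * x i‖ ≤ ∑ i, ‖A i * x i‖ := norm_sum_le _ _
    _ ≤ ∑ _i : Fin k, C * ‖x‖ := by
        refine Finset.sum_le_sum fun i _ => ?_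
        rw [norm_mul]
        exact mul_le_mul (hA i) (norm_le_pi_norm x i) (norm_nonneg _) hC
    _ = k * (C * ‖x‖) := by
        rw [Finset.sum_const, Finset.card_univ, Fintype.card_fin, nsmul_eq_mul]
    _ ≤ S * (C * ‖x‖) := by
        have h1 : (k : ℝ) ≤ S := by exact_mod_cast hk
        exact mul_le_mul_of_nonneg_right h1 (mul_nonneg hC (norm_nonneg _))
    _ = S * C * ‖x‖ := by ring

/-- One step: in the flow box at `z` (chart `a`, `GG.Fam1Aux.flow_rep`) the generators `q a j` of the ideal `𝔞 a` satisfy the linear equation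
`q' = (A / vdet_I) q` with bounded coefficients; `hch` compares the charts `a` and `a'` at `z'`. -/
theorem prop_step (hP : Homog P) (hθ : Polar θ) (hm : ∀ k, 1 ≤ m k) (f : Frame θ) {C : Set (Fin J → ℂ)} (hC : IsCompact C) (h0 : (0 : Fin J → ℂ) ∉ C)
    (𝔞 : Fin (N + 1) → Ideal (MvPolynomial (Ph N) ℂ)) (hst : ∀ a, X a ∉ P → ∀ I, ∀ g ∈ 𝔞 a, Dt (gfam f a) I g ∈ 𝔞 a)
    (hch : ∀ a b, X a ∉ P → X b ∉ P → ∀ g ∈ 𝔞 a, ∃ (M : ℕ), ∃ Q ∈ 𝔞 b, ∀ w : Ph N → ℂ, w (Sum.inl b) = 1 → w (Sum.inr b) = 0 →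
      w (Sum.inl a) ≠ 0 → eval w Q = w (Sum.inl a) ^ M * eval (nm a w) g)
    {s : Fin (N + 1) → ℕ} (q : ∀ a, Fin (s a) → MvPolynomial (Ph N) ℂ) (hq : ∀ a, Ideal.span (Set.range (q a)) = 𝔞 a) :
    ∃ r > 0, ∃ K ≥ 1, ∀ c ∈ C, ∀ g : ℂ → PN N, (∀ z, ArcAt θ c g z) → ∀ (z z' : ℂ) (a a' : Fin (N + 1)), Gd g a z → Gd g a' z' → ‖z' - z‖ < r →
      ‖fun j => eval (ps g a z) (q a j)‖ ≤ K * ‖fun j => eval (ps g a' z') (q a' j)‖ := by
  classical
  obtain ⟨r, hr, K₀, δ, hδ, hU⟩ := unifR hθ hm f hC h0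
  -- the matrices of the vector fields
  have hA : ∀ p : Σ a : Fin (N + 1), ((Fin (N + 1) → (Unit ⊕ Unit) ⊕ (Fin f.q ⊕ Fin f.q) ⊕ Fin J) × Fin (s a)),
      ∃ A : Fin (s p.1) → MvPolynomial (Ph N) ℂ, X p.1 ∉ P → Dt (gfam f p.1) p.2.1 (q p.1 p.2.2) = ∑ k, A k * q p.1 k := by
    rintro ⟨a, I, j⟩
    by_cases ha : X a ∈ P
    · exact ⟨0, fun h => absurd ha h⟩
    · have h1 := hst a ha I (q a j) (by rw [← hq a]; exact Ideal.subset_span ⟨j, rfl⟩)
      rw [← hq a] at h1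
      obtain ⟨A, hA⟩ := (Ideal.mem_span_range_iff_exists_fun).1 h1
      exact ⟨A, fun _ => hA.symm⟩
  choose A hA using hA
  obtain ⟨CA, hCA, hAb⟩ := prp_bdd (fun p : Σ p : (Σ a : Fin (N + 1), ((Fin (N + 1) → (Unit ⊕ Unit) ⊕ (Fin f.q ⊕ Fin f.q) ⊕ Fin J) × Fin (s a))), Fin (s p.1) =>
    A p.1 p.2) K₀
  -- the changes of the charts
  have hB : ∀ p : Σ a : Fin (N + 1), (Fin (N + 1) × Fin (s a)), ∃ (M : ℕ) (B : Fin (s p.2.1) → MvPolynomial (Ph N) ℂ), X p.1 ∉ P → X p.2.1 ∉ P →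
      ∀ w : Ph N → ℂ, w (Sum.inl p.2.1) = 1 → w (Sum.inr p.2.1) = 0 → w (Sum.inl p.1) ≠ 0 →
        ∑ k, eval w (B k) * eval w (q p.2.1 k) = w (Sum.inl p.1) ^ M * eval (nm p.1 w) (q p.1 p.2.2) := by
    rintro ⟨a, a', j⟩
    by_cases ha : X a ∈ P
    · exact ⟨0, 0, fun h => absurd ha h⟩
    by_cases ha' : X a' ∈ P
    · exact ⟨0, 0, fun _ h => absurd ha' h⟩
    obtain ⟨M, Q, hQ, h1⟩ := hch a a' ha ha' (q a j) (by rw [← hq a]; exact Ideal.subset_span ⟨j, rfl⟩)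
    rw [← hq a'] at hQ
    obtain ⟨B, hB⟩ := (Ideal.mem_span_range_iff_exists_fun).1 hQ
    refine ⟨M, B, fun _ _ w hw1 hw2 hw3 => ?_⟩
    rw [← h1 w hw1 hw2 hw3, ← hB, map_sum]
    exact Finset.sum_congr rfl fun k _ => (map_mul _ _ _).symm
  choose M B hB using hB
  obtain ⟨CB, hCB, hBb⟩ := prp_bdd (fun p : Σ p : (Σ a : Fin (N + 1), (Fin (N + 1) × Fin (s a))), Fin (s p.2.1) => B p.1 p.2) K₀
  obtain ⟨S, hS⟩ : ∃ S : ℕ, ∀ a, s a ≤ S := ⟨∑ a, s a, fun a => Finset.single_le_sum (f := s) (fun _ _ => Nat.zero_le _) (Finset.mem_univ a)⟩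
  obtain ⟨B₀, hB₀⟩ : ∃ B₀ : ℝ, B₀ = S * CA / δ := ⟨_, rfl⟩
  refine ⟨r, hr, max 1 (S * CB * Real.exp (|B₀| * r)), le_max_left _ _, ?_⟩
  intro c hc g hg z z' a a' hga hga' hzz
  have hra := prp_gd hga
  have hra' := prp_gd hga'
  obtain ⟨hN, hR, hXa', hT, -⟩ := ps_arc hP (hg z') hra'
  obtain ⟨-, -, hXa, -, -⟩ := ps_arc hP (hg z) hra
  obtain ⟨Y, hY⟩ : ∃ Y : Ph N → ℂ, Y = ps g a' z' := ⟨_, rfl⟩
  have hYK : Y ∈ Kset θ a' C := by
    refine ⟨_, _, c, hY, hT, fun b => ?_, hc⟩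
    rw [norm_div]
    exact (div_le_one (norm_pos_iff.2 hra')).2 (hga' b)
  obtain ⟨ε, hε, H, I, hF, hdet⟩ := hU a' Y hYK
  have hfl : ∀ w ∈ ball z' r, NArc θ a' c (fun w' => H (w' - z', Y)) w ∧ Rep g (fun w' => H (w' - z', Y)) w := by
    have h1 := Fam1Aux.flow_rep f hg hN hR hr hF (by
      rw [hY]
      exact mem_ball_self hε)
    intro w hw
    have h2 := h1 w hw
    rw [hY]
    exact h2
  obtain ⟨x, hx⟩ : ∃ x : ℂ → Fin (N + 1) → ℂ, x = fun w' => H (w' - z', Y) := ⟨_, rfl⟩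
  rw [← hx] at hfl
  obtain ⟨y, hy⟩ : ∃ y : ℂ → Ph N → ℂ, y = fun w => pt (x w) (deriv x w) := ⟨_, rfl⟩
  have hyw : ∀ w, y w = pt (H (w - z', Y)) (deriv (fun z => H (z, Y)) (w - z')) := by
    intro w
    have h1 : deriv x w = deriv (fun z => H (z, Y)) (w - z') := by
      rw [hx]
      exact deriv_comp_sub_const (f := fun z => H (z, Y)) z' w
    rw [hy]
    show pt (x w) (deriv x w) = _
    rw [h1, hx]
  have hbox : ∀ w ∈ ball z' r, ((w - z', Y) : ℂ × (Ph N → ℂ)) ∈ ball (0 : ℂ) r ×ˢ ball Y ε := by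
    intro w hw
    refine ⟨?_, mem_ball_self hε⟩
    rw [mem_ball_zero_iff, ← dist_eq_norm]
    exact mem_ball.1 hw
  have hyb : ∀ w ∈ ball z' r, ‖y w‖ ≤ K₀ := by
    intro w hw
    obtain ⟨h1, h2, -⟩ := hF.bound _ (hbox w hw)
    rw [hyw]
    exact prp_norm h1 h2
  have hyd : ∀ w ∈ ball z' r, δ ≤ ‖eval (y w) (vdet (gfam f a') I)‖ := by
    intro w hw
    have h1 := hdet _ (hbox w hw)
    rw [hyw]
    exact h1
  have hode : ∀ w ∈ ball z' r, HasDerivAt y (W (gfam f a') I (y w)) w := by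
    intro w hw
    have h1 : eval (pt (x w) (deriv x w)) (vdet (gfam f a') I) ≠ 0 := by
      have h2 := hyd w hw
      rw [hy] at h2
      intro h3
      have h4 : eval ((fun w => pt (x w) (deriv x w)) w) (vdet (gfam f a') I) = 0 := h3
      rw [h4, norm_zero] at h2
      linarith
    have h2 := (arc_ode (arcV_of_nArc f (hfl w hw).1).1 h1).self_of_nhds
    rw [hy]
    exact h2
  have hqd : ∀ w ∈ ball z' r, ∀ j, HasDerivAt (fun w => eval (y w) (q a' j))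
      ((∑ k, eval (y w) (A ⟨a', I, j⟩ k) * eval (y w) (q a' k)) / eval (y w) (vdet (gfam f a') I)) w := by
    intro w hw j
    have h1 := hasDerivAt_eval (hode w hw) (q a' j)
    have h2 := hA ⟨a', I, j⟩ hXa'
    rw [h2, map_sum] at h1
    simpa only [map_mul] using h1
  have hQd : ∀ w ∈ ball z' r, HasDerivAt (fun w j => eval (y w) (q a' j))
      (fun j => (∑ k, eval (y w) (A ⟨a', I, j⟩ k) * eval (y w) (q a' k)) / eval (y w) (vdet (gfam f a') I)) w := by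
    intro w hw
    rw [hasDerivAt_pi]
    exact hqd w hw
  have hgr := gronwall_seg (q := fun w j => eval (y w) (q a' j)) (z₀ := z') (r := r) (B := B₀) (fun w hw => (hQd w hw).differentiableAt) (by
    intro w hw
    rw [(hQd w hw).deriv]
    have hB₀' : 0 ≤ B₀ := by rw [hB₀]; positivity
    refine (pi_norm_le_iff_of_nonneg (mul_nonneg hB₀' (norm_nonneg _))).2 fun j => ?_
    rw [norm_div, div_le_iff₀ (lt_of_lt_of_le hδ (hyd w hw))]
    have h1 := prp_sum (hS a') (A := fun k => eval (y w) (A ⟨a', I, j⟩ k)) (x := fun k => eval (y w) (q a' k)) hCA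
      (fun k => hAb ⟨⟨a', I, j⟩, k⟩ (y w) (hyb w hw))
    refine h1.trans ?_
    have h2 : (S : ℝ) * CA * ‖fun k => eval (y w) (q a' k)‖ = B₀ * ‖fun k => eval (y w) (q a' k)‖ * δ := by
      rw [hB₀]
      field_simp
    rw [h2]
    exact mul_le_mul_of_nonneg_left (hyd w hw) (mul_nonneg hB₀' (norm_nonneg _))) (z := z') (z' := z) (mem_ball_self hr) (by
      rw [mem_ball, dist_eq_norm, norm_sub_rev]
      exact hzz)
  have hzb : z ∈ ball z' r := by
    rw [mem_ball, dist_eq_norm, norm_sub_rev]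
    exact hzz
  have hps : ∀ w ∈ ball z' r, (g w).rep a' ≠ 0 ∧ ps g a' w = y w := by
    intro w hw
    have h1 := prp_ps (hfl w hw).2 ((hfl w hw).1.2.mono fun w' hw' => hw'.2.1)
    rw [hy]
    exact h1
  obtain ⟨hza', hpsz⟩ := hps z hzb
  have hchg := ps_chg hP (hg z) hza' hra
  obtain ⟨-, hx1, -, hv0, -⟩ := (arcV_of_nArc f (hfl z hzb).1).2
  have hw1 : y z (Sum.inl a') = 1 := by rw [hy]; exact hx1
  have hw2 : y z (Sum.inr a') = 0 := by rw [hy]; exact hv0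
  have hwa : 1 ≤ ‖y z (Sum.inl a)‖ := by
    rw [← hpsz]
    show 1 ≤ ‖(g z).rep a / (g z).rep a'‖
    rw [norm_div, one_le_div (norm_pos_iff.2 hza')]
    exact hga a'
  have hwa0 : y z (Sum.inl a) ≠ 0 := norm_pos_iff.1 (lt_of_lt_of_le one_pos hwa)
  have hfin : ‖fun j => eval (ps g a z) (q a j)‖ ≤ S * CB * ‖fun j => eval (y z) (q a' j)‖ := by
    refine (pi_norm_le_iff_of_nonneg (by positivity)).2 fun j => ?_
    have h1 := hB ⟨a, a', j⟩ hXa hXa' (y z) hw1 hw2 hwa0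
    have h2 := prp_sum (hS a') (A := fun k => eval (y z) (B ⟨a, a', j⟩ k)) (x := fun k => eval (y z) (q a' k)) hCB
      (fun k => hBb ⟨⟨a, a', j⟩, k⟩ (y z) (hyb z hzb))
    rw [hchg, hpsz]
    refine le_trans ?_ h2
    have h3 : ‖∑ k, eval (y z) (B ⟨a, a', j⟩ k) * eval (y z) (q a' k)‖ = ‖y z (Sum.inl a)‖ ^ M ⟨a, a', j⟩ * ‖eval (nm a (y z)) (q a j)‖ := by
      rw [← norm_pow, ← norm_mul]
      exact congrArg _ h1
    rw [h3]
    exact le_mul_of_one_le_left (norm_nonneg _) (one_le_pow₀ hwa)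
  rw [(hps z' (mem_ball_self hr)).2]
  have hexp : Real.exp (|B₀| * ‖z - z'‖) ≤ Real.exp (|B₀| * r) := by
    refine Real.exp_le_exp.2 (mul_le_mul_of_nonneg_left ?_ (abs_nonneg _))
    rw [norm_sub_rev]
    exact hzz.le
  calc ‖fun j => eval (ps g a z) (q a j)‖ ≤ S * CB * ‖fun j => eval (y z) (q a' j)‖ := hfin
    _ ≤ S * CB * (Real.exp (|B₀| * ‖z - z'‖) * ‖fun j => eval (y z') (q a' j)‖) := mul_le_mul_of_nonneg_left hgr (by positivity)
    _ ≤ S * CB * (Real.exp (|B₀| * r) * ‖fun j => eval (y z') (q a' j)‖) :=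
        mul_le_mul_of_nonneg_left (mul_le_mul_of_nonneg_right hexp (norm_nonneg _)) (by positivity)
    _ = S * CB * Real.exp (|B₀| * r) * ‖fun j => eval (y z') (q a' j)‖ := by ring
    _ ≤ max 1 (S * CB * Real.exp (|B₀| * r)) * ‖fun j => eval (y z') (q a' j)‖ := mul_le_mul_of_nonneg_right (le_max_right _ _) (norm_nonneg _)

end Pool.Agent.GQ
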