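import Pool.Agent.GQ.Flat
import Pool.Agent.GG.Alg
import Pool.Agent.GG.Gen
import Pool.Agent.H13.SM.Dense

/-!
# GQ Slice: an invariant prime ideal which is algebraic over the base

`D` is a derivation of `ℂ[τ]`, `S` a set whose ideal is stable under `D`, `𝔓` a prime ideal of `ℂ[σ]` of dimension `n` (the coordinates `b` are a transcendence basis), `φ : σ → τ`.  If there is a
prime ideal `𝔮₀ ⊇ S` with `Δ ∉ 𝔮₀` which dominates `𝔓`, there is one, `𝔮`, which is stable under `D` and such that every constant `t` of `D` modulo `𝔮` is algebraic over the functions of the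
coordinates `φ s`.

PROOF.  `𝔮` maximal among the stable ones.  If `t` is a transcendental constant, the map `(b, t)` has rank `n + 1` at a point of `V (𝔮)`, so for `λ` = the value of `t` there no `q ∉ 𝔓` vanishes on
the slice `t = λ`; by `dichotomy` and `flat` there is a larger one.
-/

set_option autoImplicit false

open MvPolynomial Topology Filter
open Pool.Agent.GG Pool.Agent.GG.Gen

noncomputable section

namespace Pool.Agent.GQ

variable {σ τ : Type} [Fintype τ]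

/-- the data of the slices -/
structure Good (D : Derivation ℂ (MvPolynomial τ ℂ) (MvPolynomial τ ℂ)) (S : Set (MvPolynomial τ ℂ)) (Δ : MvPolynomial τ ℂ) (φ : σ → τ)
    (𝔓 : Ideal (MvPolynomial σ ℂ)) (𝔮 : Ideal (MvPolynomial τ ℂ)) : Prop where
  prime : 𝔮.IsPrime
  sub : S ⊆ 𝔮
  notMem : Δ ∉ 𝔮
  dom : ∀ q : MvPolynomial σ ℂ, rename φ q ∈ 𝔮 → q ∈ 𝔓
  stable : ∀ g ∈ 𝔮, D g ∈ 𝔮

omit [Fintype τ] in
theorem span_stable {D : Derivation ℂ (MvPolynomial τ ℂ) (MvPolynomial τ ℂ)} {S : Set (MvPolynomial τ ℂ)} (hS : ∀ g ∈ S, D g ∈ Ideal.span S) {g : MvPolynomial τ ℂ}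
    (hg : g ∈ Ideal.span S) : D g ∈ Ideal.span S := by
  induction hg using Submodule.span_induction with
  | mem g hg => exact hS g hg
  | zero => rw [map_zero]; exact Ideal.zero_mem _
  | add p q _ _ hp hq => rw [map_add]; exact Ideal.add_mem _ hp hq
  | smul c p hp hpD =>
    rw [smul_eq_mul, Derivation.leibniz, smul_eq_mul, smul_eq_mul]
    exact Ideal.add_mem _ (Ideal.mul_mem_left _ _ hpD) (Ideal.mul_mem_right _ _ hp)

omit [Fintype τ] in
/-- a stable ideal in a good position can be made prime and stable -/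
theorem Good.of_prime {D : Derivation ℂ (MvPolynomial τ ℂ) (MvPolynomial τ ℂ)} {S S' : Set (MvPolynomial τ ℂ)} {Δ : MvPolynomial τ ℂ} {φ : σ → τ}
    {𝔓 : Ideal (MvPolynomial σ ℂ)} (hSS : S ⊆ Ideal.span S') (hS : ∀ g ∈ S', D g ∈ Ideal.span S') {𝔮 : Ideal (MvPolynomial τ ℂ)} (h1 : 𝔮.IsPrime) (h2 : S' ⊆ 𝔮) (h3 : Δ ∉ 𝔮)
    (h4 : ∀ q : MvPolynomial σ ℂ, rename φ q ∈ 𝔮 → q ∈ 𝔓) : Good D S Δ φ 𝔓 (flat D 𝔮) ∧ Ideal.span S' ≤ flat D 𝔮 := by
  have h5 : Ideal.span S' ≤ flat D 𝔮 := le_flat (Ideal.span_le.2 h2) fun g hg => span_stable hS hg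
  exact ⟨⟨inferInstance, fun g hg => h5 (hSS hg), fun h => h3 (flat_le D 𝔮 h), fun q hq => h4 q (flat_le D 𝔮 hq), fun g hg => D_mem_flat hg⟩, h5⟩

/-- the graph of `t` -/
def graph (𝔮 : Ideal (MvPolynomial τ ℂ)) [𝔮.IsPrime] (t : MvPolynomial τ ℂ) : MvPolynomial (Option τ) ℂ →ₐ[ℂ] FF 𝔮 :=
  aeval fun o : Option τ => o.elim (aeval (gp 𝔮) t) (gp 𝔮)

/-- the slice: a germ with values in `V (𝔮)` along which `t` is constant and the coordinates `b` are free -/
theorem exists_slice_germ {𝔮 : Ideal (MvPolynomial τ ℂ)} [h𝔮 : 𝔮.IsPrime] {Δ t : MvPolynomial τ ℂ} (hΔ : Δ ∉ 𝔮) {n : ℕ} (B : Fin n → τ)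
    (hB : AlgebraicIndependent ℂ (Fin.cons (aeval (gp 𝔮) t) fun j => gp 𝔮 (B j) : Fin (n + 1) → FF 𝔮)) :
    ∃ (y : (Fin n → ℂ) → τ → ℂ) (lam : ℂ), ContinuousAt y 0 ∧ (∀ᶠ u in 𝓝 0, ∀ g ∈ 𝔮, eval (y u) g = 0) ∧ eval (y 0) Δ ≠ 0 ∧
      (∀ᶠ u in 𝓝 0, eval (y u) t = lam) ∧ ∀ᶠ u in 𝓝 0, ∀ k, y u (B k) = y 0 (B k) + u k := by
  classical
  have hgr : ∀ g : MvPolynomial τ ℂ, graph 𝔮 t (rename some g) = aeval (gp 𝔮) g := by
    intro g
    unfold graph
    rw [aeval_rename]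
    rfl
  have hΔ' : rename some Δ ∉ RingHom.ker (graph 𝔮 t) := by
    rw [RingHom.mem_ker, hgr, aeval_gp_eq_zero]
    exact hΔ
  have hpr : (RingHom.ker (graph 𝔮 t)).IsPrime := RingHom.ker_isPrime _
  obtain ⟨γ, h1, h2, h3, h4⟩ := Gen.exists_germ (RingHom.ker (graph 𝔮 t)) hΔ' (n := n + 1) (Fin.cons none fun j => some (B j)) (by
    intro p hp
    rw [RingHom.mem_ker] at hp
    unfold graph at hp
    rw [aeval_rename] at hp
    apply (algebraicIndependent_iff.1 hB) p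
    rw [← hp]
    congr 2
    funext j
    refine Fin.cases rfl (fun i => rfl) j)
  have hc : ContinuousAt (fun u : Fin n → ℂ => (Fin.cons 0 u : Fin (n + 1) → ℂ)) 0 := by
    refine Continuous.continuousAt ?_
    refine continuous_pi fun j => ?_
    refine Fin.cases ?_ (fun i => ?_) j
    · exact continuous_const
    · exact continuous_apply i
  have h0 : (Fin.cons 0 (0 : Fin n → ℂ) : Fin (n + 1) → ℂ) = 0 := by
    funext j
    refine Fin.cases rfl (fun i => rfl) j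
  have ht : Tendsto (fun u : Fin n → ℂ => (Fin.cons 0 u : Fin (n + 1) → ℂ)) (𝓝 0) (𝓝 0) := by
    have := hc.tendsto
    rwa [h0] at this
  have hev : ∀ u (g : MvPolynomial τ ℂ), eval (fun s => γ u (some s)) g = eval (γ u) (rename some g) := by
    intro u g
    rw [eval_rename]
    rfl
  refine ⟨fun u s => γ (Fin.cons 0 u) (some s), γ 0 none, ?_, ?_, ?_, ?_, ?_⟩
  · have h5 : ContinuousAt γ (Fin.cons 0 (0 : Fin n → ℂ)) := by
      rw [h0]
      exact h1.continuousAt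
    have h6 : ContinuousAt (fun u : Fin n → ℂ => γ (Fin.cons 0 u)) 0 := ContinuousAt.comp (g := γ) (f := fun u : Fin n → ℂ => (Fin.cons 0 u : Fin (n + 1) → ℂ)) h5 hc
    exact continuousAt_pi.2 fun s => (continuousAt_pi.1 h6) (some s)
  · filter_upwards [ht.eventually h2] with u hu g hg
    rw [hev]
    refine hu _ ?_
    rw [RingHom.mem_ker, hgr, aeval_gp_eq_zero]
    exact hg
  · show eval (fun s => γ (Fin.cons 0 0) (some s)) Δ ≠ 0
    rw [h0, hev]
    exact h3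
  · filter_upwards [ht.eventually h2, ht.eventually h4] with u hu1 hu2
    rw [hev]
    have h5 : X none - rename some t ∈ RingHom.ker (graph 𝔮 t) := by
      rw [RingHom.mem_ker, map_sub, hgr]
      unfold graph
      rw [aeval_X]
      exact sub_self _
    have h6 := hu1 _ h5
    rw [map_sub, eval_X, sub_eq_zero] at h6
    rw [← h6]
    have h7 := hu2 0
    simpa using h7
  · filter_upwards [ht.eventually h4] with u hu k
    have h7 := hu k.succ
    simp only [Fin.cons_succ] at h7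
    rw [h7]
    show _ = γ (Fin.cons 0 0) (some (B k)) + u k
    rw [h0]

theorem exists_slice {D : Derivation ℂ (MvPolynomial τ ℂ) (MvPolynomial τ ℂ)} {S : Set (MvPolynomial τ ℂ)} (hS : ∀ g ∈ S, D g ∈ Ideal.span S) {Δ : MvPolynomial τ ℂ}
    {φ : σ → τ} {𝔓 : Ideal (MvPolynomial σ ℂ)} [𝔓.IsPrime] {n : ℕ} (b : Fin n → σ) (hb : ∀ p : MvPolynomial (Fin n) ℂ, rename b p ∈ 𝔓 → p = 0)
    (hdim : ∀ q ∉ 𝔓, ∃ (p : MvPolynomial (Fin n) ℂ) (g : MvPolynomial σ ℂ), p ≠ 0 ∧ rename b p - g * q ∈ 𝔓)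
    (h𝔓 : ∀ y : τ → ℂ, (∀ g ∈ S, eval y g = 0) → eval y Δ ≠ 0 → ∀ p ∈ 𝔓, eval (fun s => y (φ s)) p = 0)
    {𝔮₀ : Ideal (MvPolynomial τ ℂ)} (h1 : 𝔮₀.IsPrime) (h2 : S ⊆ 𝔮₀) (h3 : Δ ∉ 𝔮₀) (h4 : ∀ q : MvPolynomial σ ℂ, rename φ q ∈ 𝔮₀ → q ∈ 𝔓) :
    ∃ (𝔮 : Ideal (MvPolynomial τ ℂ)), Good D S Δ φ 𝔓 𝔮 ∧
      ∀ [𝔮.IsPrime], ∀ t : MvPolynomial τ ℂ, D t ∈ 𝔮 → IsAlgebraic (IntermediateField.adjoin ℂ (Set.range fun s => gp 𝔮 (φ s))) (aeval (gp 𝔮) t) := by
  classical
  have hne : {𝔮 | Good D S Δ φ 𝔓 𝔮}.Nonempty := ⟨_, (Good.of_prime Ideal.subset_span hS h1 h2 h3 h4).1⟩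
  obtain ⟨𝔮, h𝔮, hmax⟩ := WellFounded.has_min (wellFounded_gt : WellFounded ((· > ·) : Ideal (MvPolynomial τ ℂ) → Ideal (MvPolynomial τ ℂ) → Prop)) _ hne
  refine ⟨𝔮, h𝔮, fun t ht => ?_⟩
  by_contra hal
  have htr : Transcendental (IntermediateField.adjoin ℂ (Set.range fun s => gp 𝔮 (φ s))) (aeval (gp 𝔮) t) := hal
  -- the coordinates `b` and `t` are independent
  have hBi : AlgebraicIndependent ℂ fun j => gp 𝔮 (φ (b j)) := by
    rw [algebraicIndependent_iff]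
    intro p hp
    apply hb p
    apply h𝔮.dom
    rw [rename_rename, ← aeval_gp_eq_zero, aeval_rename]
    exact hp
  have hB : AlgebraicIndependent ℂ (Fin.cons (aeval (gp 𝔮) t) fun j => gp 𝔮 (φ (b j)) : Fin (n + 1) → FF 𝔮) := by
    have h5 : Transcendental (Algebra.adjoin ℂ (Set.range fun j => gp 𝔮 (φ (b j)))) (aeval (gp 𝔮) t) := by
      intro h6
      apply htr
      obtain ⟨p, hp, hp0⟩ := h6
      have hle : Algebra.adjoin ℂ (Set.range fun j => gp 𝔮 (φ (b j))) ≤ (IntermediateField.adjoin ℂ (Set.range fun s => gp 𝔮 (φ s))).toSubalgebra := by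
        rw [Algebra.adjoin_le_iff]
        rintro _ ⟨j, rfl⟩
        exact IntermediateField.subset_adjoin ℂ _ ⟨b j, rfl⟩
      refine ⟨p.map (Subalgebra.inclusion hle).toRingHom, ?_, ?_⟩
      · intro h7
        apply hp
        exact Polynomial.map_injective _ (Subalgebra.inclusion_injective hle) (by rw [Polynomial.map_zero]; exact h7)
      · rw [Polynomial.aeval_def, Polynomial.eval₂_map] 
        rw [Polynomial.aeval_def] at hp0
        exact hp0
    have h6 := ((hBi.option_iff_transcendental (aeval (gp 𝔮) t)).2 h5).comp _ (finSuccEquiv n).injective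
    have h7 : (Fin.cons (aeval (gp 𝔮) t) fun j => gp 𝔮 (φ (b j)) : Fin (n + 1) → FF 𝔮) =
        (fun o : Option (Fin n) => o.elim (aeval (gp 𝔮) t) fun j => gp 𝔮 (φ (b j))) ∘ finSuccEquiv n := by
      funext j
      refine Fin.cases ?_ (fun i => ?_) j
      · rw [Function.comp_apply, finSuccEquiv_zero]
        rfl
      · rw [Function.comp_apply, finSuccEquiv_succ]
        rfl
    rw [h7]
    exact h6
  obtain ⟨y, lam, hyc, hy, hyΔ, hyt, hyb⟩ := exists_slice_germ (t := t) h𝔮.notMem (fun j => φ (b j)) hB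
  rcases dichotomy ((𝔮 : Set (MvPolynomial τ ℂ)) ∪ {t - C lam}) Δ φ 𝔓 with ⟨q, hq, h⟩ | ⟨𝔮', h1', h2', h3', h4'⟩
  · obtain ⟨p, g, hp, hpg⟩ := hdim q hq
    apply hp
    refine Pool.Agent.H13.SM.eq_zero_of_eventually (y₀ := fun j => y 0 (φ (b j))) ?_
    have hΔc : ∀ᶠ u in 𝓝 (0 : Fin n → ℂ), eval (y u) Δ ≠ 0 := by
      have hc : ContinuousAt (fun u => eval (y u) Δ) 0 := (MvPolynomial.continuous_eval _).continuousAt.comp hyc
      exact hc.eventually_ne hyΔ
    have h5 : ∀ᶠ u in 𝓝 (0 : Fin n → ℂ), eval (fun j => y 0 (φ (b j)) + u j) p = 0 := by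
      filter_upwards [hy, hΔc, hyt, hyb] with u hu hΔu htu hbu
      have h6 : eval (fun s => y u (φ s)) q = 0 := by
        refine h (y u) ?_ hΔu
        rintro g (hg | rfl)
        · exact hu g hg
        · rw [map_sub, eval_C, htu, sub_self]
      have h7 := h𝔓 (y u) (fun g hg => hu g (h𝔮.sub hg)) hΔu _ hpg
      rw [map_sub, map_mul, h6, mul_zero, sub_zero, eval_rename] at h7
      rw [← h7]
      congr 2
      funext j
      exact (hbu j).symm
    have h6 : Tendsto (fun z : Fin n → ℂ => fun j => z j - y 0 (φ (b j))) (𝓝 fun j => y 0 (φ (b j))) (𝓝 0) := by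
      have h7 : ContinuousAt (fun z : Fin n → ℂ => fun j => z j - y 0 (φ (b j))) fun j => y 0 (φ (b j)) :=
        continuousAt_pi.2 fun j => (continuous_apply j).continuousAt.sub continuousAt_const
      have h8 := h7.tendsto
      have h9 : (fun j : Fin n => y 0 (φ (b j)) - y 0 (φ (b j))) = 0 := by
        funext j
        exact sub_self _
      rwa [h9] at h8
    filter_upwards [h6.eventually h5] with z hz
    rw [← hz]
    congr 2
    funext j
    ring
  · have hst : ∀ g ∈ (𝔮 : Set (MvPolynomial τ ℂ)) ∪ {t - C lam}, D g ∈ Ideal.span ((𝔮 : Set (MvPolynomial τ ℂ)) ∪ {t - C lam}) := by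
      rintro g (hg | rfl)
      · exact Ideal.subset_span (Or.inl (h𝔮.stable g hg))
      · refine Ideal.subset_span (Or.inl ?_)
        rw [map_sub, MvPolynomial.derivation_C, sub_zero]
        exact ht
    obtain ⟨h5, h6⟩ := Good.of_prime (S := S) (Δ := Δ) (φ := φ) (𝔓 := 𝔓) (fun g hg => Ideal.subset_span (Or.inl (h𝔮.sub hg))) hst h1' h2' h3' h4'
    refine hmax _ h5 ?_
    refine lt_of_le_of_ne (fun g hg => h6 (Ideal.subset_span (Or.inl hg))) fun h7 => ?_
    have h8 : t - C lam ∈ 𝔮 := by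
      rw [h7]
      exact h6 (Ideal.subset_span (Or.inr rfl))
    apply hal
    have h9 : aeval (gp 𝔮) t = algebraMap ℂ (FF 𝔮) lam := by
      have := (aeval_gp_eq_zero 𝔮 _).2 h8
      rw [map_sub, aeval_C, sub_eq_zero] at this
      exact this
    rw [h9]
    exact isAlgebraic_algebraMap (algebraMap ℂ (IntermediateField.adjoin ℂ (Set.range fun s => gp 𝔮 (φ s))) lam)

end Pool.Agent.GQ
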