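import Pool.Agent.GQ.Slice
import Pool.Agent.GA.AlgD
import Pool.Agent.GG.Hom
import Pool.Agent.GG.Row

/-!
# GQ SliceA: the vectors of the arcs form a variety which is generically finite over the base

`exists_slice` for the family `gfam f a` and the rows `I`: either the base points of the vectors with `Crit` and `Δ₀ ≠ 0` lie in a hypersurface, or there is a prime ideal `𝔮` of `ℂ[x, v]`, stable
under the derivation `Dt`, which contains the equations of the criterion, does not contain `vdet * Δ₀`, dominates the variety, and whose function field is algebraic over the function field of the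
variety.
-/

set_option autoImplicit false

open MvPolynomial Topology Filter
open Pool.Agent.H13.SM (conTan cone)
open Pool.Agent.H17LG.Variety (FunField ratio)
open Pool.Agent.H17GT (coordFun)
open Pool.Agent.H62.FC (Homog)
open Pool.Agent.GG Pool.Agent.GG.Gen

noncomputable section

namespace Pool.Agent.GQ

variable {N : ℕ} {P : Ideal (MvPolynomial (Fin (N + 1)) ℂ)} {J : ℕ} {m : Fin J → ℕ} {θ : ∀ k, SymSec P (m k)}

/-- If the family has algebraic values at the generic point, everything is algebraic (Jacobian criterion). -/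
theorem alg_all {ι : Type} {𝔮 : Ideal (MvPolynomial (Ph N) ℂ)} [𝔮.IsPrime] (G : ι → MvPolynomial (Ph N) ℂ) (I : Fin (N + 1) → ι) (hI : vdet G I ∉ 𝔮)
    (hG : ∀ r, IsAlgebraic (IntermediateField.adjoin ℂ (Set.range fun b : Fin (N + 1) => gp 𝔮 (Sum.inl b : Ph N))) (aeval (gp 𝔮) (G (I r)))) (s : Ph N) :
    IsAlgebraic (IntermediateField.adjoin ℂ (Set.range fun b : Fin (N + 1) => gp 𝔮 (Sum.inl b : Ph N))) (gp 𝔮 s) := by
  classical
  set K₁ := IntermediateField.adjoin ℂ (Set.range fun b : Fin (N + 1) => gp 𝔮 (Sum.inl b : Ph N)) with hK₁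
  rcases s with b | b
  · exact isAlgebraic_algebraMap (⟨gp 𝔮 (Sum.inl b), IntermediateField.subset_adjoin ℂ _ ⟨b, rfl⟩⟩ : K₁)
  by_contra hcon
  have hind : AlgebraicIndependent K₁ fun _ : Unit => gp 𝔮 (Sum.inr b : Ph N) := algebraicIndependent_unique_type_iff.2 hcon
  have : CharZero K₁ := charZero_of_injective_algebraMap (algebraMap ℂ K₁).injective
  obtain ⟨D, hD⟩ := Pool.Agent.GA.AlgD.exists_derivation hind fun _ => (1 : FF 𝔮)
  have hDb := hD ()
  have hDx : ∀ c, D (gp 𝔮 (Sum.inl c : Ph N)) = 0 := by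
    intro c
    have h1 : gp 𝔮 (Sum.inl c : Ph N) = algebraMap K₁ (FF 𝔮) ⟨gp 𝔮 (Sum.inl c), IntermediateField.subset_adjoin ℂ _ ⟨c, rfl⟩⟩ := rfl
    rw [h1]
    exact D.map_algebraMap _
  -- as a derivation over `ℂ`
  let E : Derivation ℂ (FF 𝔮) (FF 𝔮) := D.restrictScalars ℂ
  have hE : ∀ z, E z = D z := fun z => rfl
  have hz : ∀ r, E (aeval (gp 𝔮) (G (I r))) = 0 := by
    intro r
    have h1 : IsIntegral K₁ (aeval (gp 𝔮) (G (I r))) := (hG r).isIntegral
    have h2 : (minpoly K₁ (aeval (gp 𝔮) (G (I r)))).Separable := (minpoly.irreducible h1).separable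
    have h3 := D.map_aeval (minpoly K₁ (aeval (gp 𝔮) (G (I r)))) (aeval (gp 𝔮) (G (I r)))
    rw [minpoly.aeval, map_zero] at h3
    have h4 := h2.aeval_derivative_ne_zero (minpoly.aeval _ (aeval (gp 𝔮) (G (I r))))
    exact (smul_eq_zero.1 h3.symm).resolve_left h4
  have hmat : (Matrix.of fun l c : Fin (N + 1) => aeval (gp 𝔮) (vmat G I l c)).mulVec (fun c => E (gp 𝔮 (Sum.inr c : Ph N))) = 0 := by
    funext r
    have h1 := Pool.Agent.GA.AlgD.der_aeval E (gp 𝔮) (G (I r))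
    rw [hz r, Fintype.sum_sum_type] at h1
    have h2 : ∑ c : Fin (N + 1), aeval (gp 𝔮) (pderiv (Sum.inl c) (G (I r))) * E (gp 𝔮 (Sum.inl c : Ph N)) = 0 :=
      Finset.sum_eq_zero fun c _ => by rw [hE, hDx c, mul_zero]
    rw [h2, zero_add] at h1
    exact h1.symm
  have hdet : (Matrix.of fun l c : Fin (N + 1) => aeval (gp 𝔮) (vmat G I l c)).det ≠ 0 := by
    have h1 : (Matrix.of fun l c : Fin (N + 1) => aeval (gp 𝔮) (vmat G I l c)).det = aeval (gp 𝔮) (vdet G I) := by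
      unfold vdet
      rw [AlgHom.map_det]
      rfl
    rw [h1, Ne, aeval_gp_eq_zero]
    exact hI
  have h3 := Matrix.eq_zero_of_mulVec_eq_zero hdet hmat
  have h4 := congrFun h3 b
  rw [hE, hDb] at h4
  exact one_ne_zero h4

/-- the ideal of the affine part -/
abbrev aff (P : Ideal (MvPolynomial (Fin (N + 1)) ℂ)) [P.IsPrime] (a : Fin (N + 1)) : Ideal (MvPolynomial (Fin (N + 1)) ℂ) :=
  RingHom.ker (aeval (fun i => ratio P i a) : MvPolynomial (Fin (N + 1)) ℂ →ₐ[ℂ] FunField P)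

/-- the equations of the criterion -/
def CS (f : Frame θ) (a : Fin (N + 1)) (I : Fin (N + 1) → (Unit ⊕ Unit) ⊕ (Fin f.q ⊕ Fin f.q) ⊕ Fin J) : Set (MvPolynomial (Ph N) ℂ) :=
  {g | g = X (Sum.inl a) - 1 ∨ g = X (Sum.inr a) ∨ (∃ j, g = rename Sum.inl (f.Q j)) ∨
    (∃ j, g = ∑ b, rename Sum.inl (pderiv b (f.Q j)) * X (Sum.inr b)) ∨ ∃ l k, g = (⇑(Dt (gfam f a) I))^[k + 1] (gfam f a l)}

theorem CS_stable (f : Frame θ) (a : Fin (N + 1)) (I : Fin (N + 1) → (Unit ⊕ Unit) ⊕ (Fin f.q ⊕ Fin f.q) ⊕ Fin J) {g : MvPolynomial (Ph N) ℂ}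
    (hg : g ∈ CS f a I) : Dt (gfam f a) I g ∈ Ideal.span (CS f a I) := by
  have h1 : ∀ l, Dt (gfam f a) I (gfam f a l) ∈ Ideal.span (CS f a I) := fun l =>
    Ideal.subset_span (Or.inr (Or.inr (Or.inr (Or.inr ⟨l, 0, rfl⟩))))
  rcases hg with rfl | rfl | ⟨j, rfl⟩ | ⟨j, rfl⟩ | ⟨l, k, rfl⟩
  · rw [map_sub, Derivation.map_one_eq_zero, sub_zero]
    exact h1 (Sum.inl (Sum.inl ()))
  · exact h1 (Sum.inl (Sum.inr ()))
  · exact h1 (Sum.inr (Sum.inl (Sum.inl j)))
  · exact h1 (Sum.inr (Sum.inl (Sum.inr j)))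
  · refine Ideal.subset_span (Or.inr (Or.inr (Or.inr (Or.inr ⟨l, k + 1, ?_⟩))))
    rw [Function.iterate_succ_apply' _ (k + 1)]

theorem eval_pt_inl (x v : Fin (N + 1) → ℂ) (g : MvPolynomial (Fin (N + 1)) ℂ) : eval (pt x v) (rename Sum.inl g) = eval x g := by
  rw [eval_rename]
  rfl

/-- the zeros of the equations of the criterion -/
theorem isTan_of_CS (f : Frame θ) {a : Fin (N + 1)} {I : Fin (N + 1) → (Unit ⊕ Unit) ⊕ (Fin f.q ⊕ Fin f.q) ⊕ Fin J} {x v : Fin (N + 1) → ℂ}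
    (h : ∀ g ∈ CS f a I, eval (pt x v) g = 0) : x ∈ cone P ∧ x a = 1 ∧ v ∈ conTan P x ∧ v a = 0 := by
  have h1 : x a = 1 := by
    have := h _ (Or.inl rfl)
    rw [map_sub, eval_X, map_one] at this
    exact sub_eq_zero.1 this
  have h2 : v a = 0 := by
    have := h _ (Or.inr (Or.inl rfl))
    rwa [eval_X] at this
  have h3 : ∀ j, eval x (f.Q j) = 0 := by
    intro j
    have := h _ (Or.inr (Or.inr (Or.inl ⟨j, rfl⟩)))
    rwa [eval_pt_inl] at this
  have h4 : ∀ j, ∑ i, eval x (pderiv i (f.Q j)) * v i = 0 := by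
    intro j
    have := h _ (Or.inr (Or.inr (Or.inr (Or.inl ⟨j, rfl⟩))))
    rw [map_sum] at this
    rw [← this]
    refine Finset.sum_congr rfl fun i _ => ?_
    rw [map_mul, eval_pt_inl, eval_X]
    rfl
  have h5 : x ≠ 0 := by
    rintro rfl
    exact zero_ne_one h1
  have h6 : x ∈ cone P := by
    refine ⟨h5, fun R hR => ?_⟩
    rw [← f.span] at hR
    have : Ideal.span (Set.range f.Q) ≤ RingHom.ker (eval x : MvPolynomial (Fin (N + 1)) ℂ →+* ℂ) := by
      rw [Ideal.span_le]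
      rintro _ ⟨j, rfl⟩
      exact h3 j
    exact this hR
  refine ⟨h6, h1, ?_, h2⟩
  intro Q hQ
  rw [← f.span] at hQ
  induction hQ using Submodule.span_induction with
  | mem Q hQ =>
    obtain ⟨j, rfl⟩ := hQ
    rw [← h4 j]
    exact Finset.sum_congr rfl fun b _ => mul_comm _ _
  | zero => simp
  | add Q R _ _ hQ hR => simp only [map_add, mul_add, Finset.sum_add_distrib, hQ, hR, add_zero]
  | smul g Q hQm hQ =>
    have hQ0 : eval x Q = 0 := by
      apply h6.2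
      rw [← f.span]
      exact hQm
    simp only [smul_eq_mul, Derivation.leibniz, map_add, map_mul, hQ0, zero_mul, add_zero]
    rw [show (∑ i, v i * (eval x g * eval x (pderiv i Q))) = eval x g * ∑ i, v i * eval x (pderiv i Q) by
      rw [Finset.mul_sum]; exact Finset.sum_congr rfl fun b _ => by ring]
    rw [hQ, mul_zero]

/-- the homogenisation of `q` with respect to `x_a` -/
def hmg (a : Fin (N + 1)) (q : MvPolynomial (Fin (N + 1)) ℂ) : MvPolynomial (Fin (N + 1)) ℂ :=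
  ∑ d ∈ Finset.range (q.totalDegree + 1), X a ^ (q.totalDegree - d) * homogeneousComponent d q

theorem hmg_hom (a : Fin (N + 1)) (q : MvPolynomial (Fin (N + 1)) ℂ) : (hmg a q).IsHomogeneous q.totalDegree := by
  unfold hmg
  refine IsHomogeneous.sum _ _ _ fun d hd => ?_
  have h1 := (isHomogeneous_X_pow (R := ℂ) a (q.totalDegree - d)).mul (homogeneousComponent_isHomogeneous d q)
  rwa [Nat.sub_add_cancel (Nat.lt_succ_iff.1 (Finset.mem_range.1 hd))] at h1

theorem eval_hmg_one (a : Fin (N + 1)) (q : MvPolynomial (Fin (N + 1)) ℂ) {x : Fin (N + 1) → ℂ} (h : x a = 1) : eval x (hmg a q) = eval x q := by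
  conv_rhs => rw [← sum_homogeneousComponent q]
  unfold hmg
  rw [map_sum, map_sum]
  refine Finset.sum_congr rfl fun d _ => ?_
  rw [map_mul, map_pow, eval_X, h, one_pow, one_mul]

/-- the elements of the ideal of the affine part vanish at the points of the cone with `x_a = 1` -/
theorem eval_aff [P.IsPrime] {a : Fin (N + 1)} (ha : X a ∉ P) {x : Fin (N + 1) → ℂ} (hx : x ∈ cone P) (hxa : x a = 1) {q : MvPolynomial (Fin (N + 1)) ℂ}
    (hq : q ∈ aff P a) : eval x q = 0 := by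
  have hc : coordFun P a ≠ 0 := Pool.Agent.H17R.coordFun_ne_zero_iff.2 ha
  have h2 : Pool.Agent.H17R.gen P a (hmg a q) = aeval (fun i => ratio P i a) q := by
    unfold Pool.Agent.H17R.gen hmg
    conv_rhs => rw [← sum_homogeneousComponent q]
    rw [map_sum, map_sum]
    refine Finset.sum_congr rfl fun d _ => ?_
    rw [map_mul, map_pow, aeval_X, Pool.Agent.H17R.ratio_self hc, one_pow, one_mul]
  have h1 : Pool.Agent.H17R.gen P a (hmg a q) = 0 := by
    rw [h2]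
    exact RingHom.mem_ker.1 hq
  have h3 := (Pool.Agent.H17R.gen_eq_zero_iff hc (hmg_hom a q)).1 h1
  rw [← eval_hmg_one a q hxa]
  exact hx.2 _ h3

/-- a multiple of `q ∉ 𝔓` is a nonzero polynomial in the coordinates `b` -/
theorem exists_mul {K : Type} [Field K] [Algebra ℂ K] {σ : Type} (y : σ → K) {n : ℕ} {b : Fin n → σ} (hb : IsTranscendenceBasis ℂ fun j => y (b j))
    {q : MvPolynomial σ ℂ} (hq : aeval y q ≠ 0) : ∃ (p : MvPolynomial (Fin n) ℂ) (g : MvPolynomial σ ℂ), p ≠ 0 ∧ aeval y (rename b p - g * q) = 0 := by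
  have h1 : IsAlgebraic (Algebra.adjoin ℂ (Set.range fun j => y (b j))) (aeval y q) := hb.isAlgebraic.isAlgebraic _
  obtain ⟨p, hp0, hp⟩ := h1.exists_nonzero_coeff_and_aeval_eq_zero (mem_nonZeroDivisors_iff_ne_zero.2 hq)
  have h2 : ∀ c : Algebra.adjoin ℂ (Set.range fun j => y (b j)), ∃ r : MvPolynomial (Fin n) ℂ, aeval (fun j => y (b j)) r = (c : K) := by
    intro c
    have h3 : (c : K) ∈ (aeval (fun j => y (b j)) : MvPolynomial (Fin n) ℂ →ₐ[ℂ] K).range := by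
      rw [← Algebra.adjoin_range_eq_range_aeval]
      exact c.2
    exact h3
  obtain ⟨r, hr⟩ := h2 (p.coeff 0)
  choose s hs using h2
  refine ⟨r, -∑ i ∈ Finset.range p.natDegree, rename b (s (p.coeff (i + 1))) * q ^ i, ?_, ?_⟩
  · rintro rfl
    rw [map_zero] at hr
    exact hp0 (Subtype.ext hr.symm)
  · have h3 : aeval y (rename b r) = (p.coeff 0 : K) := by
      rw [aeval_rename]
      exact hr
    have h4 : ∀ i, aeval y (rename b (s (p.coeff (i + 1)))) = (p.coeff (i + 1) : K) := by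
      intro i
      rw [aeval_rename]
      exact hs _
    rw [Polynomial.aeval_eq_sum_range, Finset.sum_range_succ'] at hp
    rw [map_sub, map_mul, map_neg, map_sum, h3, neg_mul, sub_neg_eq_add, Finset.sum_mul, ← hp, add_comm]
    congr 1
    · refine Finset.sum_congr rfl fun i _ => ?_
      rw [map_mul, map_pow, h4, pow_succ]
      show _ = (p.coeff (i + 1) : K) * (aeval y q ^ i * aeval y q)
      ring
    · show _ = (p.coeff 0 : K) * aeval y q ^ 0
      rw [pow_zero, mul_one]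

/-- **The variety of the vectors of the arcs**, from a prime ideal which contains the equations of the criterion. -/
theorem exists_slice_of [P.IsPrime] (f : Frame θ) {n : ℕ} (hdim : ∃ z : Fin n → FunField P, IsTranscendenceBasis ℂ z) {a : Fin (N + 1)} (ha : X a ∉ P)
    (I : Fin (N + 1) → (Unit ⊕ Unit) ⊕ (Fin f.q ⊕ Fin f.q) ⊕ Fin J) (Δ₀ : MvPolynomial (Ph N) ℂ) {𝔮₀ : Ideal (MvPolynomial (Ph N) ℂ)} (h1 : 𝔮₀.IsPrime)
    (h2 : CS f a I ⊆ 𝔮₀) (h3 : vdet (gfam f a) I * Δ₀ ∉ 𝔮₀) (h4 : ∀ q, rename Sum.inl q ∈ 𝔮₀ → q ∈ aff P a) :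
    ∃ (𝔮 : Ideal (MvPolynomial (Ph N) ℂ)) (_ : 𝔮.IsPrime), CS f a I ⊆ 𝔮 ∧ vdet (gfam f a) I * Δ₀ ∉ 𝔮 ∧ (∀ q, rename Sum.inl q ∈ 𝔮 ↔ q ∈ aff P a) ∧
      (∀ g ∈ 𝔮, Dt (gfam f a) I g ∈ 𝔮) ∧
      ∀ s, IsAlgebraic (IntermediateField.adjoin ℂ (Set.range fun b : Fin (N + 1) => gp 𝔮 (Sum.inl b : Ph N))) (gp 𝔮 s) := by
  classical
  have hpt : ∀ y : Ph N → ℂ, pt (fun i => y (Sum.inl i)) (fun i => y (Sum.inr i)) = y := by
    intro y
    funext s
    cases s <;> rfl
  have hpr : (aff P a).IsPrime := RingHom.ker_isPrime _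
  have hc : coordFun P a ≠ 0 := Pool.Agent.H17R.coordFun_ne_zero_iff.2 ha
  have h𝔓 : ∀ y : Ph N → ℂ, (∀ g ∈ CS f a I, eval y g = 0) → eval y (vdet (gfam f a) I * Δ₀) ≠ 0 → ∀ p ∈ aff P a, eval (fun s => y (Sum.inl s)) p = 0 := by
    intro y hy _ p hp
    rw [← hpt y] at hy
    obtain ⟨h1, h2, -, -⟩ := isTan_of_CS f hy
    exact eval_aff ha h1 h2 hp
  obtain ⟨z, hz⟩ := hdim
  have halg : Algebra.IsAlgebraic (IntermediateField.adjoin ℂ (Set.range fun i => ratio P i a)) (FunField P) := by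
    refine ⟨fun y => ?_⟩
    have h1 : y ∈ IntermediateField.adjoin ℂ (Set.range fun i => ratio P i a) := by
      rw [Pool.Agent.H17R.adjoin_ratio hc]
      exact IntermediateField.mem_top
    exact isAlgebraic_algebraMap (⟨y, h1⟩ : IntermediateField.adjoin ℂ (Set.range fun i => ratio P i a))
  obtain ⟨b, hb⟩ := Pool.Agent.H92.GT.exists_index halg hz
  obtain ⟨𝔮, h𝔮, hal⟩ := exists_slice (D := Dt (gfam f a) I) (S := CS f a I) (fun g hg => CS_stable f a I hg) (Δ := vdet (gfam f a) I * Δ₀) (φ := (Sum.inl : Fin (N + 1) → Ph N))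
    (𝔓 := aff P a) b (fun p hp => by
      have h5 : aeval (fun i => ratio P (b i) a) p = 0 := by
        have h6 := RingHom.mem_ker.1 hp
        rw [aeval_rename] at h6
        exact h6
      exact (algebraicIndependent_iff.1 hb.1) p h5) (fun q hq => by
      obtain ⟨p, g, hp, hpg⟩ := exists_mul (fun i => ratio P i a) hb (q := q) fun h => hq (RingHom.mem_ker.2 h)
      exact ⟨p, g, hp, RingHom.mem_ker.2 hpg⟩) h𝔓 h1 h2 h3 h4
  have hpq := h𝔮.prime
  refine ⟨𝔮, hpq, h𝔮.sub, h𝔮.notMem, fun q => ⟨h𝔮.dom q, fun hq => ?_⟩, h𝔮.stable, ?_⟩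
  · by_contra hcon
    have h5 : vdet (gfam f a) I * Δ₀ * rename Sum.inl q ∉ 𝔮 := fun h => (hpq.mem_or_mem h).elim h𝔮.notMem hcon
    obtain ⟨y, hy, hy0⟩ := exists_point 𝔮 h5
    rw [map_mul] at hy0
    apply right_ne_zero_of_mul hy0
    rw [eval_rename]
    exact h𝔓 y (fun g hg => hy g (h𝔮.sub hg)) (left_ne_zero_of_mul hy0) q hq
  · refine alg_all (gfam f a) I (fun h => h𝔮.notMem (Ideal.mul_mem_right _ _ h)) fun r => ?_
    refine hal _ ?_
    exact h𝔮.sub (Or.inr (Or.inr (Or.inr (Or.inr ⟨I r, 0, rfl⟩))))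

/-- **The variety of the vectors of the arcs.** -/
theorem exists_slice_main [P.IsPrime] (f : Frame θ) {n : ℕ} (hdim : ∃ z : Fin n → FunField P, IsTranscendenceBasis ℂ z) {a : Fin (N + 1)} (ha : X a ∉ P)
    (I : Fin (N + 1) → (Unit ⊕ Unit) ⊕ (Fin f.q ⊕ Fin f.q) ⊕ Fin J) (Δ₀ : MvPolynomial (Ph N) ℂ) :
    (∃ q ∉ aff P a, ∀ x v c, IsTan θ a c x v → Crit (gfam f a) I (pt x v) → eval (pt x v) Δ₀ ≠ 0 → eval x q = 0) ∨
    ∃ (𝔮 : Ideal (MvPolynomial (Ph N) ℂ)) (_ : 𝔮.IsPrime), CS f a I ⊆ 𝔮 ∧ vdet (gfam f a) I * Δ₀ ∉ 𝔮 ∧ (∀ q, rename Sum.inl q ∈ 𝔮 ↔ q ∈ aff P a) ∧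
      (∀ g ∈ 𝔮, Dt (gfam f a) I g ∈ 𝔮) ∧
      ∀ s, IsAlgebraic (IntermediateField.adjoin ℂ (Set.range fun b : Fin (N + 1) => gp 𝔮 (Sum.inl b : Ph N))) (gp 𝔮 s) := by
  have hpr : (aff P a).IsPrime := RingHom.ker_isPrime _
  rcases dichotomy (CS f a I) (vdet (gfam f a) I * Δ₀) (Sum.inl : Fin (N + 1) → Ph N) (aff P a) with ⟨q, hq, h⟩ | ⟨𝔮₀, h1, h2, h3, h4⟩
  · left
    refine ⟨q, hq, fun x v c ht hcr hΔ => h (pt x v) ?_ ?_⟩
    · rintro g (rfl | rfl | ⟨j, rfl⟩ | ⟨j, rfl⟩ | ⟨l, k, rfl⟩)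
      · rw [map_sub, eval_X, map_one]
        exact sub_eq_zero.2 ht.2.1
      · rw [eval_X]
        exact ht.2.2.2.1
      · rw [eval_pt_inl]
        exact ht.1.2 _ (f.span.le (Ideal.subset_span ⟨j, rfl⟩))
      · rw [map_sum, ← ht.2.2.1 _ (f.span.le (Ideal.subset_span ⟨j, rfl⟩))]
        refine Finset.sum_congr rfl fun i _ => ?_
        rw [map_mul, eval_pt_inl, eval_X]
        exact mul_comm _ _
      · exact hcr.2 l k
    · rw [map_mul]
      exact mul_ne_zero hcr.1 hΔ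
  · right
    exact exists_slice_of f hdim ha I Δ₀ h1 h2 h3 h4

end Pool.Agent.GQ
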