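import Pool.Agent.GQ.Nmt

/-!
# GQ Val: the values of the section at the smooth points of the phase space
-/

set_option autoImplicit false

open MvPolynomial Topology Filter Metric
open Pool.Agent.H13.SM (conTan cone)
open Pool.Agent.H17 (PN VanishesAt)
open Pool.Agent.H17LG.Variety (FunField ratio PoleAtMost IsLogGeneralType)
open Pool.Agent.H23.Fano (Form PrimeDivisorOver)
open Pool.Agent.H62.FC (Homog)
open Pool.Agent.GG

noncomputable section

namespace Pool.Agent.GQ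

variable {N : ℕ} {P : Ideal (MvPolynomial (Fin (N + 1)) ℂ)} {J : ℕ} {m : Fin J → ℕ} {θ : ∀ k, SymSec P (m k)}

/-! ## the index sets -/

/-- the renaming of the variables -/
def rn (G : MvPolynomial (Fin ((N + 1) + (N + 1))) ℂ) : MvPolynomial (Ph N) ℂ := rename finSumFinEquiv.symm G

theorem eval_rn (w : Ph N → ℂ) (G : MvPolynomial (Fin ((N + 1) + (N + 1))) ℂ) : eval w (rn G) = eval (fr w) G := by
  rw [rn, eval_rename]
  rfl

theorem aeval_rn {A : Type} [CommRing A] [Algebra ℂ A] (w : Ph N → A) (G : MvPolynomial (Fin ((N + 1) + (N + 1))) ℂ) :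
    aeval w (rn G) = aeval (fr w) G := by
  rw [rn, aeval_rename]
  rfl

theorem fr_apply {A : Type} (p : Ph N → A) (s : Ph N) : fr p (finSumFinEquiv s) = p s := by
  rw [fr, Equiv.symm_apply_apply]

theorem sum_fr (f : Fin ((N + 1) + (N + 1)) → ℂ) : ∑ j, f j = ∑ s : Ph N, f (finSumFinEquiv s) :=
  (Equiv.sum_comp (finSumFinEquiv : Ph N ≃ Fin ((N + 1) + (N + 1))) f).symm

section Pts

variable {L : Type} [Field L] [Algebra ℂ L]

theorem isPt_fr {y : Ph N → L} {w : Ph N → ℂ} (hw : Pt (rel y) w) : Kd.IsPt (fr y) (fr w) := by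
  intro G hG
  rw [← eval_rn]
  exact hw _ (mem_rel.2 (by rw [aeval_rn, hG]))

theorem dpl_rn (w t : Ph N → ℂ) (G : MvPolynomial (Fin ((N + 1) + (N + 1))) ℂ) :
    ∑ j, eval (fr w) (pderiv j G) * fr t j = ∑ s, eval w (pderiv s (rn G)) * t s := by
  rw [sum_fr]
  refine Finset.sum_congr rfl fun s _ => ?_
  have h1 : pderiv s (rn G) = rn (pderiv (finSumFinEquiv s) G) := by
    have h2 := pderiv_rename (R := ℂ) (f := (finSumFinEquiv.symm : Fin ((N + 1) + (N + 1)) → Ph N)) finSumFinEquiv.symm.injective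
      (finSumFinEquiv s) G
    rw [Equiv.symm_apply_apply] at h2
    exact h2
  rw [h1, eval_rn, fr_apply]

theorem tan_fr {y : Ph N → L} {w t : Ph N → ℂ} (ht : t ∈ Tn (rel y) w) : fr t ∈ Kd.tan (fr y) (fr w) := by
  intro G hG
  rw [dpl_rn]
  exact ht _ (mem_rel.2 (by rw [aeval_rn, hG]))

theorem tan_of_fr {y : Ph N → L} {w t : Ph N → ℂ} (ht : fr t ∈ Kd.tan (fr y) (fr w)) : t ∈ Tn (rel y) w := by
  intro G hG
  have h1 : rn (rename finSumFinEquiv G) = G := by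
    rw [rn, rename_rename]
    have h2 : (finSumFinEquiv.symm ∘ finSumFinEquiv : Ph N → Ph N) = id := funext fun s => Equiv.symm_apply_apply _ _
    rw [h2, rename_id_apply]
  rw [← h1, ← dpl_rn]
  exact ht _ (by rw [← aeval_rn, h1, mem_rel.1 hG])

theorem finrank_fr (y : Ph N → L) (w : Ph N → ℂ) : Module.finrank ℂ (Kd.tan (fr y) (fr w)) = Module.finrank ℂ (Tn (rel y) w) := by
  let e : Tn (rel y) w ≃ₗ[ℂ] Kd.tan (fr y) (fr w) :=
    { toFun := fun t => ⟨fr (t : Ph N → ℂ), tan_fr t.2⟩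
      map_add' := fun _ _ => rfl
      map_smul' := fun _ _ => rfl
      invFun := fun t => ⟨fun s => (t : Fin ((N + 1) + (N + 1)) → ℂ) (finSumFinEquiv s), tan_of_fr (by
        have h1 : fr (fun s => (t : Fin ((N + 1) + (N + 1)) → ℂ) (finSumFinEquiv s)) = (t : Fin ((N + 1) + (N + 1)) → ℂ) :=
          funext fun i => by rw [fr, Equiv.apply_symm_apply]
        rw [h1]
        exact t.2)⟩
      left_inv := fun t => Subtype.ext (funext fun s => fr_apply _ s)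
      right_inv := fun t => Subtype.ext (funext fun i => by
        show (t : Fin ((N + 1) + (N + 1)) → ℂ) (finSumFinEquiv (finSumFinEquiv.symm i)) = _
        rw [Equiv.apply_symm_apply]) }
  exact e.finrank_eq.symm

omit [Field L] [Algebra ℂ L] in
theorem range_fr (y : Ph N → L) : Set.range (fr y) = Set.range y := by
  ext x
  constructor
  · rintro ⟨i, rfl⟩
    exact ⟨_, rfl⟩
  · rintro ⟨s, rfl⟩
    exact ⟨finSumFinEquiv s, fr_apply y s⟩

theorem ev_fr {A : Type} [CommRing A] [Algebra ℂ A] (y : Ph N → L) (w : Ph N → A) (s : Ph N) : Kd.Ev (fr y) (fr w) (y s) (w s) := by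
  have h1 := Kd.Ev.var (fr y) (fr w) (finSumFinEquiv s)
  rwa [fr_apply, fr_apply] at h1

end Pts

/-! ## the change of charts over a ring -/

/-- position and velocity of `x / x_b`, `uu` the inverse of `x_b` -/
def nmB {A : Type} [CommRing A] (b : Fin (N + 1)) (uu : A) (p : Ph N → A) : Ph N → A :=
  Sum.elim (fun i => p (Sum.inl i) * uu) fun i => p (Sum.inr i) * uu - p (Sum.inl i) * p (Sum.inr b) * (uu * uu)

theorem ev_nmB {L : Type} [Field L] [Algebra ℂ L] {A : Type} [CommRing A] [Algebra ℂ A] [Nontrivial A] {y : Ph N → L} {w : Ph N → A}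
    (hw : Kd.IsPtB (fr y) (fr w)) {b : Fin (N + 1)} {uu : A} (hu : w (Sum.inl b) * uu = 1) (s : Ph N) :
    Kd.Ev (fr y) (fr w) (nm b y s) (nmB b uu w s) := by
  rcases s with i | i
  · exact (ev_fr y w (Sum.inl i)).div hw (ev_fr y w (Sum.inl b)) hu
  · refine ((ev_fr y w (Sum.inr i)).div hw (ev_fr y w (Sum.inl b)) hu).sub ?_
    refine ((ev_fr y w (Sum.inl i)).mul (ev_fr y w (Sum.inr b))).div hw ((ev_fr y w (Sum.inl b)).pow 2) ?_
    calc w (Sum.inl b) ^ 2 * (uu * uu) = (w (Sum.inl b) * uu) * (w (Sum.inl b) * uu) := by ring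
      _ = 1 := by rw [hu, one_mul]

theorem nmB_eq {b : Fin (N + 1)} {w : Ph N → ℂ} (hb : w (Sum.inl b) ≠ 0) (s : Ph N) : nmB b (w (Sum.inl b))⁻¹ w s = nm b w s := by
  rcases s with i | i
  · show w (Sum.inl i) * (w (Sum.inl b))⁻¹ = w (Sum.inl i) / w (Sum.inl b)
    rw [div_eq_mul_inv]
  · show w (Sum.inr i) * (w (Sum.inl b))⁻¹ - w (Sum.inl i) * w (Sum.inr b) * ((w (Sum.inl b))⁻¹ * (w (Sum.inl b))⁻¹) =
      w (Sum.inr i) / w (Sum.inl b) - w (Sum.inl i) * w (Sum.inr b) / w (Sum.inl b) ^ 2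
    field_simp

/-- the dual number `w + ε t` -/
def dq (w t : Ph N → ℂ) (s : Ph N) : DualNumber ℂ := TrivSqZeroExt.inl (w s) + TrivSqZeroExt.inr (t s)

/-- the derivative of `nm` -/
theorem nmB_dq {b : Fin (N + 1)} {w : Ph N → ℂ} (hb : w (Sum.inl b) ≠ 0) (t : Ph N → ℂ) (s : Ph N) :
    nmB b (TrivSqZeroExt.inl (w (Sum.inl b))⁻¹ + TrivSqZeroExt.inr (-(t (Sum.inl b) / w (Sum.inl b) ^ 2)) : DualNumber ℂ) (dq w t) s =
      dq (nm b w) (fderiv ℂ (nm b) w t) s := by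
  have h0 : HasDerivAt (fun ε : ℂ => w + ε • t) t 0 := by
    have h1 := ((hasDerivAt_id (0 : ℂ)).smul_const t).const_add w
    rwa [one_smul] at h1
  have hw0 : w + (0 : ℂ) • t = w := by rw [zero_smul, add_zero]
  have h2 : HasFDerivAt (nm b : (Ph N → ℂ) → Ph N → ℂ) (fderiv ℂ (nm b) w) (w + (0 : ℂ) • t) := by
    rw [hw0]
    exact (nm_diff hb).hasFDerivAt
  have h3 := hasDerivAt_pi.1 (h2.comp_hasDerivAt (0 : ℂ) h0) s
  have hl : ∀ r : Ph N, HasDerivAt (fun ε : ℂ => w r + ε * t r) (t r) 0 := by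
    intro r
    have := ((hasDerivAt_id (0 : ℂ)).mul_const (t r)).const_add (w r)
    rwa [one_mul] at this
  have hb0 : w (Sum.inl b) + (0 : ℂ) * t (Sum.inl b) ≠ 0 := by rwa [zero_mul, add_zero]
  rcases s with i | i
  · have h4 : HasDerivAt (fun ε : ℂ => (w (Sum.inl i) + ε * t (Sum.inl i)) / (w (Sum.inl b) + ε * t (Sum.inl b)))
        ((t (Sum.inl i) * (w (Sum.inl b) + 0 * t (Sum.inl b)) - (w (Sum.inl i) + 0 * t (Sum.inl i)) * t (Sum.inl b)) /
          (w (Sum.inl b) + 0 * t (Sum.inl b)) ^ 2) 0 := (hl _).div (hl _) hb0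
    have h5 := h3.unique h4
    simp only [zero_mul, add_zero] at h5
    show (dq w t (Sum.inl i)) * (TrivSqZeroExt.inl (w (Sum.inl b))⁻¹ + TrivSqZeroExt.inr (-(t (Sum.inl b) / w (Sum.inl b) ^ 2)) : DualNumber ℂ) =
      TrivSqZeroExt.inl (nm b w (Sum.inl i)) + TrivSqZeroExt.inr (fderiv ℂ (nm b) w t (Sum.inl i))
    rw [h5]
    show (dq w t (Sum.inl i)) * (TrivSqZeroExt.inl (w (Sum.inl b))⁻¹ + TrivSqZeroExt.inr (-(t (Sum.inl b) / w (Sum.inl b) ^ 2)) : DualNumber ℂ) =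
      TrivSqZeroExt.inl (w (Sum.inl i) / w (Sum.inl b)) + TrivSqZeroExt.inr _
    ext
    · simp [dq, div_eq_mul_inv]
    · simp [dq, TrivSqZeroExt.snd_mul]
      field_simp
      ring
  · have h4 : HasDerivAt (fun ε : ℂ => (w (Sum.inr i) + ε * t (Sum.inr i)) / (w (Sum.inl b) + ε * t (Sum.inl b)) -
        (w (Sum.inl i) + ε * t (Sum.inl i)) * (w (Sum.inr b) + ε * t (Sum.inr b)) / (w (Sum.inl b) + ε * t (Sum.inl b)) ^ 2) _ 0 :=
      ((hl _).div (hl _) hb0).sub ((((hl _).mul (hl _))).div ((hl _).pow 2) (pow_ne_zero 2 hb0))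
    have h5 := h3.unique h4
    simp only [zero_mul, add_zero] at h5
    show (dq w t (Sum.inr i)) * (TrivSqZeroExt.inl (w (Sum.inl b))⁻¹ + TrivSqZeroExt.inr (-(t (Sum.inl b) / w (Sum.inl b) ^ 2)) : DualNumber ℂ) -
      (dq w t (Sum.inl i)) * (dq w t (Sum.inr b)) *
        ((TrivSqZeroExt.inl (w (Sum.inl b))⁻¹ + TrivSqZeroExt.inr (-(t (Sum.inl b) / w (Sum.inl b) ^ 2)) : DualNumber ℂ) *
          (TrivSqZeroExt.inl (w (Sum.inl b))⁻¹ + TrivSqZeroExt.inr (-(t (Sum.inl b) / w (Sum.inl b) ^ 2)) : DualNumber ℂ)) =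
      TrivSqZeroExt.inl (nm b w (Sum.inr i)) + TrivSqZeroExt.inr (fderiv ℂ (nm b) w t (Sum.inr i))
    rw [h5]
    show (dq w t (Sum.inr i)) * (TrivSqZeroExt.inl (w (Sum.inl b))⁻¹ + TrivSqZeroExt.inr (-(t (Sum.inl b) / w (Sum.inl b) ^ 2)) : DualNumber ℂ) -
      (dq w t (Sum.inl i)) * (dq w t (Sum.inr b)) *
        ((TrivSqZeroExt.inl (w (Sum.inl b))⁻¹ + TrivSqZeroExt.inr (-(t (Sum.inl b) / w (Sum.inl b) ^ 2)) : DualNumber ℂ) *
          (TrivSqZeroExt.inl (w (Sum.inl b))⁻¹ + TrivSqZeroExt.inr (-(t (Sum.inl b) / w (Sum.inl b) ^ 2)) : DualNumber ℂ)) =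
      TrivSqZeroExt.inl (w (Sum.inr i) / w (Sum.inl b) - w (Sum.inl i) * w (Sum.inr b) / w (Sum.inl b) ^ 2) + TrivSqZeroExt.inr _
    ext
    · simp [dq]
      field_simp
    · simp [dq, TrivSqZeroExt.snd_mul]
      field_simp
      ring

theorem dq_inv {b : Fin (N + 1)} {w : Ph N → ℂ} (hb : w (Sum.inl b) ≠ 0) (t : Ph N → ℂ) :
    dq w t (Sum.inl b) * (TrivSqZeroExt.inl (w (Sum.inl b))⁻¹ + TrivSqZeroExt.inr (-(t (Sum.inl b) / w (Sum.inl b) ^ 2)) : DualNumber ℂ) = 1 := by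
  ext
  · simp [dq, hb]
  · simp [dq, TrivSqZeroExt.snd_mul]
    field_simp
    ring

/-! ## the values -/

section Val

variable [P.IsPrime] {L : Type} [Field L] [Algebra ℂ L] [Algebra (FunField P) L] [IsScalarTower ℂ (FunField P) L]

variable {n M : ℕ} (hdim : ∃ z : Fin (n + 1) → FunField P, IsTranscendenceBasis ℂ z) {f : Frame θ} {u : Derivation ℂ L L} (hs : IsSol f u)
  (S : Sec P L (n + 1) M)

include hdim hs

/-- `Kd.Dat.compare` with `φ = 1`, as in `Kd.Plc.IsVal.unique`. -/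
theorem VL.unique {b : Fin (N + 1)} (hb : X b ∉ P) {w : Ph N → ℂ} (hw : Pt (rel (ph P u b)) w) {T : Fin (n + 1) → Ph N → ℂ}
    (hT : ∀ l, T l ∈ Tn (rel (ph P u b)) w) {s s' : ℂ} (h : S.VL u b w T s) (h' : S.VL u b w T s') : s = s' := by
  obtain ⟨d, W, c, hJ, hω, hc, rfl⟩ := h
  obtain ⟨d', W', c', hJ', hω', hc', rfl⟩ := h'
  have h1 := d.compare (isPt_fr hw) hJ d' (w' := fr w) (v := fun l => fr (T l)) (v' := fun l => fr (T l))
    (fun i => Kd.Ev.var _ _ i) (fun l => tan_fr (hT l)) (fun l i => Kd.Ev.var _ _ i) (H := S.h b) (H' := S.h b) (φ := 1) (by rw [one_mul])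
    (hω.symm.trans hω') hc hc' (Kd.Ev.one _ _)
  rw [one_mul] at h1
  exact h1

/-- `Kd.Dat.compare` with `φ = x_b / x_a`. -/
theorem VL.change {a b : Fin (N + 1)} (ha : X a ∉ P) (hb : X b ∉ P) {w : Ph N → ℂ} (hw : Pt (rel (ph P u a)) w) (hwb : w (Sum.inl b) ≠ 0)
    {T : Fin (n + 1) → Ph N → ℂ} (hT : ∀ l, T l ∈ Tn (rel (ph P u a)) w) {s s' : ℂ} (h : S.VL u a w T s)
    (h' : S.VL u b (nm b w) (fun l => fderiv ℂ (nm b) w (T l)) s') : s' = w (Sum.inl b) * s := by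
  obtain ⟨d, W, c, hJ, hω, hc, rfl⟩ := h
  obtain ⟨d', W', c', hJ', hω', hc', rfl⟩ := h'
  have hy : nm b (ph P u a) = ph P u b := nm_ph hdim u ha hb
  have hB : Kd.IsPtB (fr (ph P u a)) (fr w) := Kd.isPtB_iff.2 (isPt_fr hw)
  have h0 : ∀ i, Kd.Ev (fr (ph P u a)) (fr w) (fr (ph P u b) i) (fr (nm b w) i) := by
    intro i
    have h1 := ev_nmB hB (mul_inv_cancel₀ hwb) (finSumFinEquiv.symm i)
    rw [nmB_eq hwb, hy] at h1
    exact h1
  have h2 : ∀ l i, Kd.Ev (fr (ph P u a)) (Kd.dp (fr w) (fr (T l))) (fr (ph P u b) i) (Kd.dp (fr (nm b w)) (fr (fderiv ℂ (nm b) w (T l))) i) := by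
    intro l i
    have hB' : Kd.IsPtB (fr (ph P u a)) (fr (dq w (T l))) := Kd.isPtB_dp.2 ⟨isPt_fr hw, tan_fr (hT l)⟩
    have h1 := ev_nmB hB' (dq_inv hwb (T l)) (finSumFinEquiv.symm i)
    rw [nmB_dq hwb, hy] at h1
    exact h1
  exact (d.compare (isPt_fr hw) hJ d' h0 (fun l => tan_fr (hT l)) h2 (S.h_ch a b ha hb) (hω.symm.trans hω') hc hc'
    (ev_fr (ph P u a) w (Sum.inl b))).symm

/-- Near a smooth point the value is given by a formula (`Kd.exists_dat`, `Kd.exists_mk`, `Kd.Dat.reg`, as in `Kd.Plc.exists_rep`, `isVal_of_rep`). -/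
theorem VL.formula {b : Fin (N + 1)} (hb : X b ∉ P) {w₀ : Ph N → ℂ} (hw₀ : Pt (rel (ph P u b)) w₀)
    (hsm : Module.finrank ℂ (Tn (rel (ph P u b)) w₀) ≤ n + 1) :
    ∃ (g A : MvPolynomial (Ph N) ℂ) (l : Fin (n + 1) → Ph N → ℂ), eval w₀ g ≠ 0 ∧ ∀ w, Pt (rel (ph P u b)) w → eval w g ≠ 0 →
      ∀ T : Fin (n + 1) → Ph N → ℂ, S.VL u b w T (eval w A / eval w g * (Matrix.of fun i j => ∑ s, l j s * T i s).det ^ M) := by
  have hgen : IntermediateField.adjoin ℂ (Set.range (fr (ph P u b))) = ⊤ := by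
    rw [range_fr]
    exact hs.gen b hb
  have hK : ∃ z : Fin (n + 1) → L, IsTranscendenceBasis ℂ z := by
    obtain ⟨z, hz⟩ := hdim
    have := hs.alg
    exact ⟨_, hz.algebraMap_comp (A := L)⟩
  obtain ⟨d, hJ⟩ := Kd.exists_dat (fr (ph P u b)) hK hgen (w := fr w₀) (by rw [finrank_fr]; exact hsm)
  obtain ⟨W, hW⟩ := Kd.exists_mk d S.ω
  have h1 := d.reg hgen (M := M) (H := S.h b) (W := W) fun E _ => by
    rw [← hW]
    exact S.pole b hb E
  rw [Algebra.adjoin_range_eq_range_aeval] at h1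
  obtain ⟨A, hA⟩ := h1
  refine ⟨rn (d.J ^ (2 * (n + 1) * M + 1)), rn A, fun j s => d.L j (finSumFinEquiv s), ?_, ?_⟩
  · rw [eval_rn, map_pow]
    exact pow_ne_zero _ hJ
  · intro w hw hg T
    rw [eval_rn, map_pow] at hg
    have hJw : eval (fr w) d.J ≠ 0 := fun h => hg (by rw [h, zero_pow (Nat.succ_ne_zero _)])
    have hp := isPt_fr hw
    have hJy : aeval (fr (ph P u b)) d.J ≠ 0 := fun h => hJw (hp _ h)
    refine ⟨d, W, eval w (rn A) / eval w (rn (d.J ^ (2 * (n + 1) * M + 1))), hJw, hW, ?_, ?_⟩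
    · have e1 : S.h b * W ^ M = aeval (fr (ph P u b)) A / aeval (fr (ph P u b)) d.J ^ (2 * (n + 1) * M + 1) := by
        have hA' : aeval (fr (ph P u b)) A = aeval (fr (ph P u b)) d.J ^ (2 * (n + 1) * M + 1) * (S.h b * W ^ M) := hA
        rw [hA', mul_div_cancel_left₀ _ (pow_ne_zero _ hJy)]
      rw [e1]
      have h2 := Kd.Ev.poly (fr (ph P u b)) (fr w) A
      have h3 := (Kd.Ev.poly (fr (ph P u b)) (fr w) d.J).pow (2 * (n + 1) * M + 1)
      rw [MvPolynomial.aeval_eq_eval] at h2 h3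
      have h4 := h2.div (Kd.isPtB_iff.2 hp) h3 (mul_inv_cancel₀ hg)
      rw [← div_eq_mul_inv] at h4
      rw [eval_rn, eval_rn, map_pow]
      exact h4
    · congr 3
      ext i j
      rw [Matrix.of_apply, Matrix.of_apply, Kd.Dat.tau, sum_fr]
      exact Finset.sum_congr rfl fun s _ => by rw [fr_apply]

end Val

end Pool.Agent.GQ
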